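import Pool.Agent.SYZ.Dynamics

namespace Pool.Agent.SYZ

noncomputable section

variable {K P Pic : Type*} [Field K] [Algebra ℂ K] [AddCommGroup Pic]

namespace SelfMap

variable {S : HKDivisors K P Pic}

/-- If a power of `L` has two sections and `φ` fixes `L`, then there is a nonconstant meromorphic
function `f` with `γ f = a f + b`. -/
theorem exists_affine (hfd : ∀ E : P →₀ ℤ, FiniteDimensional ℂ (S.sections E)) (φ : SelfMap S)
    {L : Pic} (hφ : φ.g L = L) (h : S.TwoSections L) :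
    ∃ f : K, (∀ c : ℂ, f ≠ algebraMap ℂ K c) ∧
      ∃ a b : ℂ, φ.γ f = algebraMap ℂ K a * f + algebraMap ℂ K b := by
  obtain ⟨k, hk, E, E', hE, hE', hne, h1, h2⟩ := h
  -- `push E` is linearly equivalent to `E`
  obtain ⟨u, hu, huE⟩ := (S.O_eq_zero_iff (φ.push E - E)).1 (by
    rw [map_sub, O_push, h1, map_zsmul, hφ, sub_self])
  have hT : ∀ f ∈ S.sections E, u * φ.γ f ∈ S.sections E := by
    intro f hf h0 D'
    obtain ⟨D, rfl⟩ := φ.π.surjective D'
    have h3 : φ.γ f ≠ 0 := right_ne_zero_of_mul h0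
    have h4 : f ≠ 0 := by simpa using h3
    have h5 := huE (φ.π D)
    rw [Finsupp.coe_sub, Pi.sub_apply, push_apply] at h5
    rw [S.v_mul _ _ _ hu h3, φ.v_comp D f h4, ← h5]
    have := hf h4 D
    omega
  let T : S.sections E →ₗ[ℂ] S.sections E :=
    { toFun := fun f => ⟨u * φ.γ f, hT f f.2⟩
      map_add' := fun f g => by
        apply Subtype.ext
        simp [mul_add]
      map_smul' := fun c f => by
        apply Subtype.ext
        simp }
  have hTapp : ∀ f : S.sections E, ((T f : S.sections E) : K) = u * φ.γ f := fun f => rfl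
  -- two independent sections
  have hone : (1 : K) ∈ S.sections E := by
    intro _ D
    have h3 := S.v_const D 1 one_ne_zero
    rw [map_one] at h3
    rw [h3, zero_add]
    exact hE D
  obtain ⟨f₀, hf₀, hf₀E⟩ := (S.O_eq_zero_iff (E' - E)).1 (by rw [map_sub, h1, h2, sub_self])
  have hf₀s : f₀ ∈ S.sections E := by
    intro _ D
    rw [← hf₀E D, Finsupp.coe_sub, Pi.sub_apply, sub_add_cancel]
    exact hE' D
  have hf₀c : ∀ c : ℂ, f₀ ≠ algebraMap ℂ K c := by
    intro c hc
    apply hne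
    have hc0 : c ≠ 0 := by
      rintro rfl
      exact hf₀ (by rw [hc, map_zero])
    ext D
    have h3 := hf₀E D
    rw [hc, S.v_const D c hc0, Finsupp.coe_sub, Pi.sub_apply] at h3
    omega
  have : FiniteDimensional ℂ (S.sections E) := hfd E
  have : Nontrivial (S.sections E) :=
    ⟨⟨⟨1, hone⟩, 0, fun h => one_ne_zero (congrArg Subtype.val h)⟩⟩
  obtain ⟨α, hα⟩ := Module.End.exists_eigenvalue T
  obtain ⟨v₁, hv₁⟩ := hα.exists_hasEigenvector
  have hv₁0 : v₁ ≠ 0 := hv₁.2
  have hTv₁ : T v₁ = α • v₁ := hv₁.apply_eq_smul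
  let U : Submodule ℂ (S.sections E) := Submodule.span ℂ {v₁}
  have hUT : U ≤ U.comap T := by
    rw [Submodule.span_singleton_le_iff_mem, Submodule.mem_comap, hTv₁]
    exact Submodule.smul_mem _ _ (Submodule.mem_span_singleton_self v₁)
  have : Nontrivial (S.sections E ⧸ U) := by
    rw [Submodule.Quotient.nontrivial_iff]
    intro htop
    have m1 : (⟨1, hone⟩ : S.sections E) ∈ U := by rw [htop]; trivial
    have m2 : (⟨f₀, hf₀s⟩ : S.sections E) ∈ U := by rw [htop]; trivial
    obtain ⟨c₁, hc₁⟩ := Submodule.mem_span_singleton.1 m1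
    obtain ⟨c₂, hc₂⟩ := Submodule.mem_span_singleton.1 m2
    have e1 : algebraMap ℂ K c₁ * (v₁ : K) = 1 := by
      have := congrArg Subtype.val hc₁
      rwa [Submodule.coe_smul, Algebra.smul_def] at this
    have e2 : algebraMap ℂ K c₂ * (v₁ : K) = f₀ := by
      have := congrArg Subtype.val hc₂
      rwa [Submodule.coe_smul, Algebra.smul_def] at this
    have hc₁0 : c₁ ≠ 0 := by
      rintro rfl
      rw [map_zero, zero_mul] at e1
      exact zero_ne_one e1
    apply hf₀c (c₂ / c₁)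
    have hc₁K : algebraMap ℂ K c₁ ≠ 0 := by simpa using hc₁0
    rw [map_div₀, eq_div_iff hc₁K, ← e2, mul_assoc, mul_comm (v₁ : K), e1, mul_one]
  let T' : (S.sections E ⧸ U) →ₗ[ℂ] (S.sections E ⧸ U) := U.mapQ U T hUT
  obtain ⟨β, hβ⟩ := Module.End.exists_eigenvalue T'
  obtain ⟨w, hw⟩ := hβ.exists_hasEigenvector
  obtain ⟨v₂, rfl⟩ := Submodule.Quotient.mk_surjective U w
  have hw0 : (Submodule.Quotient.mk v₂ : S.sections E ⧸ U) ≠ 0 := hw.2
  have hv₂U : v₂ ∉ U := fun h => hw0 ((Submodule.Quotient.mk_eq_zero U).2 h)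
  have hTw : (Submodule.Quotient.mk (T v₂) : S.sections E ⧸ U) =
      Submodule.Quotient.mk (β • v₂) := by
    have := hw.apply_eq_smul
    rwa [Submodule.mapQ_apply, ← Submodule.Quotient.mk_smul] at this
  rw [Submodule.Quotient.eq] at hTw
  obtain ⟨δ, hδ⟩ := Submodule.mem_span_singleton.1 hTw
  have k1 : u * φ.γ v₁ = algebraMap ℂ K α * (v₁ : K) := by
    have := congrArg Subtype.val hTv₁
    rwa [hTapp, Submodule.coe_smul, Algebra.smul_def] at this
  have k2 : u * φ.γ v₂ = algebraMap ℂ K β * (v₂ : K) + algebraMap ℂ K δ * (v₁ : K) := by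
    have := congrArg Subtype.val hδ
    rw [Submodule.coe_smul, Submodule.coe_sub, Submodule.coe_smul, hTapp, Algebra.smul_def,
      Algebra.smul_def] at this
    rw [this]
    ring
  have hv₁K : (v₁ : K) ≠ 0 := fun h => hv₁0 (Subtype.ext h)
  have hα0 : α ≠ 0 := by
    rintro rfl
    rw [map_zero, zero_mul] at k1
    rcases mul_eq_zero.1 k1 with h3 | h3
    · exact hu h3
    · exact hv₁K (by simpa using h3)
  have hαK : algebraMap ℂ K α ≠ 0 := by simpa using hα0
  refine ⟨(v₂ : K) / v₁, ?_, β / α, δ / α, ?_⟩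
  · intro c hc
    rw [div_eq_iff hv₁K] at hc
    apply hv₂U
    refine Submodule.mem_span_singleton.2 ⟨c, Subtype.ext ?_⟩
    rw [Submodule.coe_smul, Algebra.smul_def, hc]
  · have hγ : φ.γ (v₁ : K) ≠ 0 := by simpa using hv₁K
    have h3 : φ.γ ((v₂ : K) / v₁) = (u * φ.γ v₂) / (u * φ.γ v₁) := by
      rw [map_div₀, mul_div_mul_left _ _ hu]
    rw [h3, k1, k2, map_div₀, map_div₀]
    field_simp

end SelfMap

end

end Pool.Agent.SYZ
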