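import Pool.Agent.SYZ.Dim

namespace Pool.Agent.SYZ

noncomputable section

section

variable {K : Type*} [Field K] [Algebra ℂ K] (γ : K ≃ₐ[ℂ] K)

/-- The functions `f` with `γ f = a f + b` for constants `a`, `b`. -/
def affineSet : Set K := {f | ∃ a b : ℂ, γ f = algebraMap ℂ K a * f + algebraMap ℂ K b}

/-- The functions `f` with `γ f = a f` for a constant `a`. -/
def eigenSet : Set K := {f | ∃ a : ℂ, γ f = algebraMap ℂ K a * f}

theorem eigenSet_subset : eigenSet γ ⊆ affineSet γ := by
  rintro f ⟨a, ha⟩
  exact ⟨a, 0, by rw [ha, map_zero, add_zero]⟩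

/-- Sums of terms `c x ^ n` with `c` fixed by `γ`. -/
def polySet (x : K) : AddSubgroup K :=
  AddSubgroup.closure {y | ∃ (n : ℕ) (c : K), γ c = c ∧ y = c * x ^ n}

theorem mem_polySet {x c : K} (hc : γ c = c) (n : ℕ) : c * x ^ n ∈ polySet γ x :=
  AddSubgroup.subset_closure ⟨n, c, hc, rfl⟩

theorem fixed_mem_polySet {x c : K} (hc : γ c = c) : c ∈ polySet γ x := by
  have := mem_polySet γ (x := x) hc 0
  rwa [pow_zero, mul_one] at this

theorem exists_primitive_monomial {x : K} (hx : γ x = x + 1) (n : ℕ) :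
    ∀ c : K, γ c = c → ∃ p ∈ polySet γ x, γ p - p = c * x ^ n := by
  induction n using Nat.strong_induction_on with
  | _ n ih =>
    intro c hc
    have hcoef' : ∀ r : K, γ r = r → γ (c * r) = c * r := by
      intro r hr
      rw [map_mul, hc, hr]
    have hn1 : (algebraMap ℂ K ((n : ℂ) + 1)) ≠ 0 := by
      rw [map_ne_zero_iff _ (algebraMap ℂ K).injective]
      exact_mod_cast Nat.succ_ne_zero n
    set d : K := (algebraMap ℂ K ((n : ℂ) + 1))⁻¹ with hd
    have hdγ : γ d = d := by rw [hd, map_inv₀, AlgEquiv.commutes]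
    -- lower terms
    have hlow : ∀ j ∈ Finset.range n, ∃ p ∈ polySet γ x,
        γ p - p = (c * (d * algebraMap ℂ K ((n + 1).choose j))) * x ^ j := by
      intro j hj
      refine ih j (Finset.mem_range.1 hj) _ (hcoef' _ ?_)
      rw [map_mul, hdγ, AlgEquiv.commutes]
    choose! p hp hpe using hlow
    refine ⟨c * d * x ^ (n + 1) - ∑ j ∈ Finset.range n, p j,
      sub_mem (mem_polySet γ (by rw [map_mul, hc, hdγ]) _) (sum_mem fun j hj => hp j hj), ?_⟩
    have h1 : γ (c * d * x ^ (n + 1) - ∑ j ∈ Finset.range n, p j) -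
        (c * d * x ^ (n + 1) - ∑ j ∈ Finset.range n, p j) =
        (c * d * (x + 1) ^ (n + 1) - c * d * x ^ (n + 1)) -
          ∑ j ∈ Finset.range n, (γ (p j) - p j) := by
      rw [map_sub, map_mul, map_mul, map_pow, hc, hdγ, hx, map_sum, Finset.sum_sub_distrib]
      ring
    rw [h1, Finset.sum_congr rfl fun j hj => hpe j hj, add_pow, Finset.sum_range_succ,
      Finset.sum_range_succ]
    have h2 : ∑ j ∈ Finset.range n, c * (d * algebraMap ℂ K ((n + 1).choose j)) * x ^ j =
        c * d * ∑ j ∈ Finset.range n, x ^ j * 1 ^ (n + 1 - j) * ((n + 1).choose j : K) := by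
      rw [Finset.mul_sum]
      refine Finset.sum_congr rfl fun j _ => ?_
      rw [map_natCast, one_pow]
      ring
    rw [h2]
    have h3 : ((n + 1).choose n : K) = algebraMap ℂ K ((n : ℂ) + 1) := by
      rw [Nat.choose_succ_self_right]
      simp
    have h4 : d * algebraMap ℂ K ((n : ℂ) + 1) = 1 := inv_mul_cancel₀ hn1
    rw [h3, Nat.choose_self, Nat.cast_one, one_pow, one_pow, mul_one, mul_one]
    linear_combination (c * x ^ n) * h4

theorem exists_primitive {x : K} (hx : γ x = x + 1) {q : K} (hq : q ∈ polySet γ x) :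
    ∃ p ∈ polySet γ x, γ p - p = q := by
  induction hq using AddSubgroup.closure_induction with
  | mem y hy =>
    obtain ⟨n, c, hc, rfl⟩ := hy
    exact exists_primitive_monomial γ hx n c hc
  | zero => exact ⟨0, zero_mem _, by rw [map_zero, sub_zero]⟩
  | add y z _ _ hy hz =>
    obtain ⟨p, hp, hpe⟩ := hy
    obtain ⟨p', hp', hpe'⟩ := hz
    refine ⟨p + p', add_mem hp hp', ?_⟩
    rw [map_add, ← hpe, ← hpe']
    ring
  | neg y _ hy =>
    obtain ⟨p, hp, hpe⟩ := hy
    refine ⟨-p, neg_mem hp, ?_⟩
    rw [map_neg, ← hpe]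
    ring

/-- The difference operator `γ - 1`. -/
def diff : Module.End ℂ K := (γ : K →ₗ[ℂ] K) - 1

theorem diff_apply (u : K) : diff γ u = γ u - u := rfl

theorem mem_polySet_of_diff {x : K} (hx : γ x = x + 1) (k : ℕ) :
    ∀ u : K, (diff γ ^ k) u = 0 → u ∈ polySet γ x := by
  induction k with
  | zero =>
    intro u hu
    rw [pow_zero, Module.End.one_apply] at hu
    rw [hu]
    exact zero_mem _
  | succ k ih =>
    intro u hu
    rw [pow_succ, Module.End.mul_apply] at hu
    obtain ⟨p, hp, hpe⟩ := exists_primitive γ hx (ih _ hu)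
    have h1 : γ (u - p) = u - p := by
      rw [diff_apply] at hpe
      rw [map_sub]
      linear_combination -hpe
    have h2 := add_mem (fixed_mem_polySet γ (x := x) h1) hp
    rwa [sub_add_cancel] at h2

theorem polySet_le {x : K} (hx : γ x = x + 1) {y : K} (hy : y ∈ polySet γ x) :
    y ∈ IntermediateField.adjoin ℂ (affineSet γ) := by
  have hxm : x ∈ IntermediateField.adjoin ℂ (affineSet γ) :=
    IntermediateField.subset_adjoin ℂ _ ⟨1, 1, by rw [map_one, one_mul, hx]⟩
  induction hy using AddSubgroup.closure_induction with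
  | mem y hy =>
    obtain ⟨n, c, hc, rfl⟩ := hy
    refine mul_mem (IntermediateField.subset_adjoin ℂ _ ⟨1, 0, ?_⟩) (pow_mem hxm n)
    rw [map_one, one_mul, map_zero, add_zero, hc]
  | zero => exact zero_mem _
  | add y z _ _ hy hz => exact add_mem hy hz
  | neg y _ hy => exact neg_mem hy

/-- A generalised eigenfunction lies in the field generated by the functions `f` with
`γ f = a f + b`. -/
theorem generalized_mem {lam : ℂ} (k : ℕ) {w : K}
    (hw : (((γ : K →ₗ[ℂ] K) - algebraMap ℂ (Module.End ℂ K) lam) ^ k) w = 0) :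
    w ∈ IntermediateField.adjoin ℂ (affineSet γ) := by
  set T : Module.End ℂ K := (γ : K →ₗ[ℂ] K) - algebraMap ℂ (Module.End ℂ K) lam with hT
  have hTa : ∀ u, T u = γ u - algebraMap ℂ K lam * u := by
    intro u
    rw [hT, LinearMap.sub_apply, Module.algebraMap_end_apply, Algebra.smul_def]
    rfl
  by_cases hw0 : w = 0
  · rw [hw0]; exact zero_mem _
  classical
  have hex : ∃ k, (T ^ k) w = 0 := ⟨k, hw⟩
  set m := Nat.find hex with hm
  have hmz : (T ^ m) w = 0 := Nat.find_spec hex
  have hmin : ∀ j < m, (T ^ j) w ≠ 0 := fun j hj => Nat.find_min hex hj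
  have hm0 : m ≠ 0 := by
    intro h0
    rw [h0, pow_zero, Module.End.one_apply] at hmz
    exact hw0 hmz
  obtain ⟨n, hn⟩ := Nat.exists_eq_succ_of_ne_zero hm0
  set e := (T ^ n) w with he
  have he0 : e ≠ 0 := hmin n (by rw [hn]; exact Nat.lt_succ_self n)
  have hTe : T e = 0 := by
    rw [he, ← Module.End.mul_apply, ← pow_succ', ← Nat.succ_eq_add_one, ← hn]
    exact hmz
  have hγe : γ e = algebraMap ℂ K lam * e := by
    rw [hTa, sub_eq_zero] at hTe
    exact hTe
  have hlam : algebraMap ℂ K lam ≠ 0 := by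
    intro h0
    rw [h0, zero_mul] at hγe
    exact he0 (by simpa using hγe)
  have hem : e ∈ IntermediateField.adjoin ℂ (affineSet γ) :=
    IntermediateField.subset_adjoin ℂ _ (eigenSet_subset γ ⟨lam, hγe⟩)
  rcases Nat.eq_zero_or_pos n with hn0 | hnpos
  · rw [he, hn0, pow_zero, Module.End.one_apply] at hem
    exact hem
  · obtain ⟨n', hn'⟩ := Nat.exists_eq_succ_of_ne_zero hnpos.ne'
    set y := (T ^ n') w with hy
    have hTy : T y = e := by
      rw [hy, he, ← Module.End.mul_apply, ← pow_succ', hn', Nat.succ_eq_add_one]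
    have hγy : γ y = algebraMap ℂ K lam * y + e := by
      rw [hTa] at hTy
      rw [← hTy]
      ring
    set x : K := algebraMap ℂ K lam * y / e with hx
    have hγx : γ x = x + 1 := by
      rw [hx, map_div₀, map_mul, AlgEquiv.commutes, hγy, hγe]
      field_simp
    have hdiff : ∀ j : ℕ, (diff γ ^ j) (w / e) = (T ^ j) w / (algebraMap ℂ K lam ^ j * e) := by
      intro j
      induction j with
      | zero => rw [pow_zero, pow_zero, pow_zero, one_mul, Module.End.one_apply, Module.End.one_apply]
      | succ j ih =>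
        rw [pow_succ', Module.End.mul_apply, ih, diff_apply, pow_succ' T, Module.End.mul_apply,
          hTa, map_div₀, map_mul, map_pow, AlgEquiv.commutes, hγe]
        field_simp
        ring
    have h1 : w / e ∈ polySet γ x := by
      refine mem_polySet_of_diff γ hγx m _ ?_
      rw [hdiff, hmz, zero_div]
    have h2 := mul_mem (polySet_le γ hγx h1) hem
    rwa [div_mul_cancel₀ _ he0] at h2

/-- Every function in a finite-dimensional space stable under `γ` lies in the field generated by
the functions `f` with `γ f = a f + b`. -/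
theorem finite_mem_adjoin (V : Submodule ℂ K) [FiniteDimensional ℂ V]
    (hV : ∀ h ∈ V, γ h ∈ V) {v : K} (hv : v ∈ V) :
    v ∈ IntermediateField.adjoin ℂ (affineSet γ) := by
  let T : Module.End ℂ V :=
    { toFun := fun h => ⟨γ h, hV h h.2⟩
      map_add' := fun a b => Subtype.ext (map_add γ _ _)
      map_smul' := fun c a => Subtype.ext (map_smul γ _ _) }
  have htop := Module.End.iSup_maxGenEigenspace_eq_top T
  have hmem : (⟨v, hv⟩ : V) ∈ ⨆ μ, T.maxGenEigenspace μ := by
    rw [htop]; trivial
  refine Submodule.iSup_induction (fun μ => T.maxGenEigenspace μ)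
    (motive := fun u : V => (u : K) ∈ IntermediateField.adjoin ℂ (affineSet γ)) hmem ?_ ?_ ?_
  · intro μ u hu
    obtain ⟨k, hk⟩ := Module.End.mem_maxGenEigenspace T μ u |>.1 hu
    refine generalized_mem γ (lam := μ) k ?_
    have hcoe : ∀ j : ℕ, ((((γ : K →ₗ[ℂ] K) - algebraMap ℂ (Module.End ℂ K) μ) ^ j) (u : K)) =
        (((T - μ • 1) ^ j) u : V) := by
      intro j
      induction j with
      | zero => rfl
      | succ j ih =>
        rw [pow_succ', Module.End.mul_apply, ih, pow_succ', Module.End.mul_apply]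
        rfl
    rw [hcoe, hk]
    rfl
  · exact zero_mem _
  · intro a b ha hb
    exact add_mem ha hb

/-- A function with `γ f = a f + b` is an eigenfunction up to a constant, or `a = 1`. -/
theorem affine_mem {x : K} (hx : γ x = x + 1) {f : K} (hf : f ∈ affineSet γ) :
    f ∈ IntermediateField.adjoin ℂ (eigenSet γ ∪ {x}) := by
  obtain ⟨a, b, hab⟩ := hf
  by_cases ha : a = 1
  · have h1 : f - algebraMap ℂ K b * x ∈ eigenSet γ := by
      refine ⟨1, ?_⟩
      rw [map_sub, map_mul, AlgEquiv.commutes, hab, hx, ha, map_one]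
      ring
    have h2 := add_mem (IntermediateField.subset_adjoin ℂ (eigenSet γ ∪ {x}) (Or.inl h1))
      (mul_mem (IntermediateField.algebraMap_mem _ b)
        (IntermediateField.subset_adjoin ℂ (eigenSet γ ∪ {x}) (Or.inr rfl)))
    rwa [sub_add_cancel] at h2
  · have ha' : a - 1 ≠ 0 := sub_ne_zero.2 ha
    have h1 : f + algebraMap ℂ K (b / (a - 1)) ∈ eigenSet γ := by
      refine ⟨a, ?_⟩
      rw [map_add, AlgEquiv.commutes, hab]
      have h2 : b + b / (a - 1) = a * (b / (a - 1)) := by
        field_simp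
        ring
      have h3 := congrArg (algebraMap ℂ K) h2
      rw [map_add, map_mul] at h3
      linear_combination h3
    have h2 := sub_mem (IntermediateField.subset_adjoin ℂ (eigenSet γ ∪ {x}) (Or.inl h1))
      (IntermediateField.algebraMap_mem _ (b / (a - 1)))
    rwa [add_sub_cancel_right] at h2

/-- The same if there is no `x` with `γ x = x + 1`. -/
theorem affine_mem' (hno : ∀ x : K, γ x ≠ x + 1) {f : K} (hf : f ∈ affineSet γ) :
    f ∈ IntermediateField.adjoin ℂ (eigenSet γ) := by
  obtain ⟨a, b, hab⟩ := hf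
  by_cases ha : a = 1
  · by_cases hb : b = 0
    · exact IntermediateField.subset_adjoin ℂ _ ⟨a, by rw [hab, hb, map_zero, add_zero]⟩
    · exfalso
      apply hno (algebraMap ℂ K b⁻¹ * f)
      rw [map_mul, AlgEquiv.commutes, hab, ha, map_one, one_mul, mul_add, ← map_mul,
        inv_mul_cancel₀ hb, map_one]
  · have ha' : a - 1 ≠ 0 := sub_ne_zero.2 ha
    have h1 : f + algebraMap ℂ K (b / (a - 1)) ∈ eigenSet γ := by
      refine ⟨a, ?_⟩
      rw [map_add, AlgEquiv.commutes, hab]
      have h2 : b + b / (a - 1) = a * (b / (a - 1)) := by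
        field_simp
        ring
      have h3 := congrArg (algebraMap ℂ K) h2
      rw [map_add, map_mul] at h3
      linear_combination h3
    have h2 := sub_mem (IntermediateField.subset_adjoin ℂ (eigenSet γ) h1)
      (IntermediateField.algebraMap_mem _ (b / (a - 1)))
    rwa [add_sub_cancel_right] at h2

/-- Normal form: if the functions `h` with `γ h = a h + b` generate a field that contains `m + 1`
algebraically independent elements, then there are `m + 1` algebraically independent functions, the
first with `γ f = a f + b`, the others with `γ f = a f`. -/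
theorem exists_normal_form {m : ℕ} {f : Fin (m + 1) → K} (hf : AlgebraicIndependent ℂ f)
    (hfa : ∀ i, f i ∈ IntermediateField.adjoin ℂ (affineSet γ)) :
    ∃ h : Fin (m + 1) → K, AlgebraicIndependent ℂ h ∧ h 0 ∈ affineSet γ ∧
      ∀ i, i ≠ 0 → h i ∈ eigenSet γ := by
  classical
  by_cases hex : ∃ x : K, γ x = x + 1
  · obtain ⟨x, hx⟩ := hex
    have hle : IntermediateField.adjoin ℂ (affineSet γ) ≤
        IntermediateField.adjoin ℂ (eigenSet γ ∪ {x}) :=
      IntermediateField.adjoin_le_iff.2 fun y hy => affine_mem γ hx hy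
    obtain ⟨h, hh, hhi⟩ := exists_family_in_generators hf (eigenSet γ ∪ {x})
      fun i => hle (hfa i)
    by_cases hxh : ∃ i, h i = x
    · obtain ⟨i₀, hi₀⟩ := hxh
      refine ⟨h ∘ Equiv.swap 0 i₀, hhi.comp _ (Equiv.swap 0 i₀).injective, ?_, ?_⟩
      · rw [Function.comp_apply, Equiv.swap_apply_left, hi₀]
        exact ⟨1, 1, by rw [map_one, one_mul, hx]⟩
      · intro i hi
        rw [Function.comp_apply]
        rcases hh (Equiv.swap 0 i₀ i) with h1 | h1
        · exact h1
        · exfalso
          have h2 : h (Equiv.swap 0 i₀ i) = h i₀ := by rw [hi₀]; exact h1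
          have h3 := hhi.injective h2
          apply hi
          apply (Equiv.swap 0 i₀).injective
          rw [h3, Equiv.swap_apply_left]
    · push Not at hxh
      have hE : ∀ i, h i ∈ eigenSet γ := fun i => (hh i).resolve_right (hxh i)
      exact ⟨h, hhi, eigenSet_subset γ (hE 0), fun i _ => hE i⟩
  · push Not at hex
    have hle : IntermediateField.adjoin ℂ (affineSet γ) ≤
        IntermediateField.adjoin ℂ (eigenSet γ) :=
      IntermediateField.adjoin_le_iff.2 fun y hy => affine_mem' γ hex hy
    obtain ⟨h, hh, hhi⟩ := exists_family_in_generators hf (eigenSet γ) fun i => hle (hfa i)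
    exact ⟨h, hhi, eigenSet_subset γ (hh 0), fun i _ => hh i⟩

end

end

end Pool.Agent.SYZ
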