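import Pool.Agent.SYZ.Defs

/-! Basic facts on the divisor data of a hyperkähler manifold. -/

namespace Pool.Agent.SYZ

noncomputable section

namespace HKDivisors

variable {K P Pic : Type*} [Field K] [Algebra ℂ K] [AddCommGroup Pic]
variable (S : HKDivisors K P Pic)

theorem O_eq_sum (E : P →₀ ℤ) : S.O E = E.sum fun D n => n • S.cls D := by
  conv_lhs => rw [← Finsupp.sum_single E]
  rw [Finsupp.sum, map_sum, Finsupp.sum]
  refine Finset.sum_congr rfl fun D _ => ?_
  rw [cls, ← map_zsmul, Finsupp.smul_single, smul_eq_mul, mul_one]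

theorem deg_O (E : P →₀ ℤ) : S.deg (S.O E) = E.sum fun D n => (n : ℝ) * S.deg (S.cls D) := by
  rw [O_eq_sum, Finsupp.sum, map_sum, Finsupp.sum]
  refine Finset.sum_congr rfl fun D _ => ?_
  rw [map_zsmul, zsmul_eq_mul]

theorem q_O (x : Pic) (E : P →₀ ℤ) : S.q x (S.O E) = E.sum fun D n => n * S.q x (S.cls D) := by
  rw [O_eq_sum, Finsupp.sum, map_sum, Finsupp.sum]
  refine Finset.sum_congr rfl fun D _ => ?_
  rw [map_zsmul, zsmul_eq_mul, Int.cast_id]

theorem q_O_left (x : Pic) (E : P →₀ ℤ) : S.q (S.O E) x = E.sum fun D n => n * S.q (S.cls D) x := by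
  rw [S.q_symm, q_O]
  simp_rw [S.q_symm x]

theorem deg_O_nonneg {E : P →₀ ℤ} (hE : 0 ≤ E) : 0 ≤ S.deg (S.O E) := by
  rw [deg_O, Finsupp.sum]
  refine Finset.sum_nonneg fun D _ => mul_nonneg ?_ (S.deg_prime D).le
  exact_mod_cast hE D

theorem deg_O_pos {E : P →₀ ℤ} (hE : 0 ≤ E) (h0 : E ≠ 0) : 0 < S.deg (S.O E) := by
  rw [deg_O, Finsupp.sum]
  refine Finset.sum_pos (fun D hD => mul_pos ?_ (S.deg_prime D)) (Finsupp.support_nonempty_iff.2 h0)
  have h1 : E D ≠ 0 := Finsupp.mem_support_iff.1 hD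
  have h2 : 0 ≤ E D := hE D
  exact_mod_cast lt_of_le_of_ne h2 (Ne.symm h1)

/-- Effective divisors with disjoint supports pair nonnegatively. -/
theorem q_O_O_nonneg {E E' : P →₀ ℤ} (hE : 0 ≤ E) (hE' : 0 ≤ E')
    (h : Disjoint E.support E'.support) : 0 ≤ S.q (S.O E) (S.O E') := by
  rw [q_O, Finsupp.sum]
  refine Finset.sum_nonneg fun D hD => mul_nonneg (hE' D) ?_
  rw [q_O_left, Finsupp.sum]
  refine Finset.sum_nonneg fun D' hD' => mul_nonneg (hE D') ?_
  refine S.q_prime D' D ?_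
  rintro rfl
  exact (Finset.disjoint_left.1 h hD') hD

theorem q_self_nonpos {L x : Pic} (hL : S.q L L = 0) (hd : 0 < S.deg L) (hx : S.q L x = 0)
    (h : 0 ≤ S.q x x) : S.q x x = 0 := by
  obtain ⟨a, b, ha, hab⟩ := S.hodge_index L x hL hd.ne' hx h
  have h1 : S.q (a • x) (a • x) = 0 := by
    rw [hab]
    simp [hL]
  have h2 : a * (a * S.q x x) = 0 := by simpa using h1
  rcases mul_eq_zero.1 h2 with h3 | h3
  · exact absurd h3 ha
  · rcases mul_eq_zero.1 h3 with h4 | h4
    · exact absurd h4 ha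
    · exact h4

theorem q_self_le {L x : Pic} (hL : S.q L L = 0) (hd : 0 < S.deg L) (hx : S.q L x = 0) :
    S.q x x ≤ 0 := by
  by_contra h
  push Not at h
  exact h.ne' (S.q_self_nonpos hL hd hx h.le)

/-- Rational proportionality. -/
def Ray (L x : Pic) : Prop := ∃ a b : ℤ, a ≠ 0 ∧ a • x = b • L

/-- A nonzero effective divisor proportional to `L` has a positive multiple in the class of a
positive multiple of `L`. -/
theorem Ray.pos {L : Pic} (hd : 0 < S.deg L) {E : P →₀ ℤ} (hE : 0 ≤ E) (h0 : E ≠ 0)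
    (h : Ray L (S.O E)) : ∃ a b : ℤ, 0 < a ∧ 0 < b ∧ S.O (a • E) = b • L := by
  obtain ⟨a, b, ha, hab⟩ := h
  have hdeg : (a : ℝ) * S.deg (S.O E) = b * S.deg L := by
    have := congrArg S.deg hab
    simpa [map_zsmul, zsmul_eq_mul] using this
  have hE' := S.deg_O_pos hE h0
  rcases lt_or_gt_of_ne ha with ha' | ha'
  · refine ⟨-a, -b, by omega, ?_, ?_⟩
    · have h1 : (a : ℝ) * S.deg (S.O E) < 0 :=
        mul_neg_of_neg_of_pos (by exact_mod_cast ha') hE'
      rw [hdeg] at h1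
      have h2 : (b : ℝ) < 0 := by
        by_contra h3
        push Not at h3
        exact absurd h1 (not_lt.2 (mul_nonneg h3 hd.le))
      have h3 : b < 0 := by exact_mod_cast h2
      omega
    · rw [map_zsmul, neg_smul, neg_smul, hab]
  · refine ⟨a, b, ha', ?_, ?_⟩
    · have h1 : 0 < (a : ℝ) * S.deg (S.O E) :=
        mul_pos (by exact_mod_cast ha') hE'
      rw [hdeg] at h1
      have h2 : (0 : ℝ) < b := by
        by_contra h3
        push Not at h3
        exact absurd h1 (not_lt.2 (mul_nonpos_of_nonpos_of_nonneg h3 hd.le))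
      exact_mod_cast h2
    · rw [map_zsmul, hab]

/-- If two effective divisors without common components, both orthogonal to `L`, differ by a
multiple of `L`, then both are proportional to `L`. -/
theorem ray_of_sub {L : Pic} (hL : S.NefIsotropic L) {E E' : P →₀ ℤ} (hE : 0 ≤ E) (hE' : 0 ≤ E')
    (hdis : Disjoint E.support E'.support) (ho : S.q L (S.O E) = 0) (c : ℤ)
    (h : S.O E = S.O E' + c • L) : Ray L (S.O E) := by
  refine S.hodge_index L _ hL.1 hL.2.1.ne' ho ?_
  have h1 : S.q (S.O E) (S.O E) = S.q (S.O E) (S.O E') + c * S.q L (S.O E) := by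
    conv_lhs => rw [S.q_symm]
    conv_lhs => enter [1, 2]; rw [h]
    simp only [map_add, AddMonoidHom.add_apply, map_zsmul, AddMonoidHom.coe_smul, Pi.smul_apply,
      smul_eq_mul]
    rw [S.q_symm (S.O E')]
  rw [h1, ho, mul_zero, add_zero]
  exact S.q_O_O_nonneg hE hE' hdis

/-- Components of effective divisors orthogonal to a nef class are orthogonal to it. -/
theorem support_subset_orth {L : Pic} (hL : S.NefIsotropic L) {E : P →₀ ℤ} (hE : 0 ≤ E)
    (ho : S.q L (S.O E) = 0) : ∀ D ∈ E.support, D ∈ S.orth L := by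
  rw [q_O, Finsupp.sum, Finset.sum_eq_zero_iff_of_nonneg
    (fun D _ => mul_nonneg (hE D) (hL.2.2 D))] at ho
  intro D hD
  rcases mul_eq_zero.1 (ho D hD) with h | h
  · exact absurd h (Finsupp.mem_support_iff.1 hD)
  · exact h

theorem q_O_eq_zero {L : Pic} {E : P →₀ ℤ} (h : ∀ D ∈ E.support, D ∈ S.orth L) :
    S.q L (S.O E) = 0 := by
  rw [q_O, Finsupp.sum]
  refine Finset.sum_eq_zero fun D hD => ?_
  have h1 : S.q L (S.cls D) = 0 := h D hD
  rw [h1, mul_zero]

end HKDivisors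

end

end Pool.Agent.SYZ
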