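import Pool.Agent.SYZ.Lattice

namespace Pool.Agent.SYZ

noncomputable section

variable {K P Pic : Type*} [Field K] [Algebra ℂ K] [AddCommGroup Pic]

namespace HKDivisors

variable (S : HKDivisors K P Pic)

theorem qEffective_cls (D : P) : S.QEffective (S.cls D) :=
  ⟨1, one_pos, Finsupp.single D 1, O_single_nonneg D, by rw [one_smul]; rfl⟩

/-- Up to a fixed multiple, transvections in directions orthogonal to all prime divisors in
`L^⊥` come from bimeromorphic self-maps. -/
theorem transvection_mem_bir (B : BirationalData S) {L : Pic} (hL : S.NefIsotropic L) :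
    ∃ N : ℕ, 0 < N ∧ ∀ t ∈ S.doublePerp L, ∃ g ∈ B.bir, ∀ x, g x = S.eichlerFun L (N • t) x := by
  obtain ⟨N, hN, hfin⟩ := B.mon_finite_index
  refine ⟨N, hN, fun t ht => ?_⟩
  have hg := hfin (S.eichler hL.1 ht.1) (S.eichler_isometry hL.1 ht.1)
  rw [S.eichler_pow] at hg
  refine ⟨_, B.torelli _ hg ?_, fun x => rfl⟩
  intro D hD
  by_cases hDL : D ∈ S.orth L
  · have h1 : S.eichler hL.1 (S.q_nsmul ht.1 N) (S.cls D) = S.cls D := by
      have h2 : S.q (N • t) (S.cls D) = 0 := by
        rw [map_nsmul, AddMonoidHom.coe_smul, Pi.smul_apply, ht.2 D hDL, smul_zero]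
      have h3 : S.q L (S.cls D) = 0 := hDL
      rw [eichler_apply, eichlerFun, h2, h3]
      simp
    rw [h1]
    exact S.qEffective_cls D
  · rcases B.mon_exceptional D hD _ hg with h | ⟨k, hk, F, hF, hFk⟩
    · exact h
    · exfalso
      have h1 : S.q L (S.eichler hL.1 (S.q_nsmul ht.1 N) (S.cls D)) = S.q L (S.cls D) :=
        S.q_eichlerFun hL.1 (S.q_nsmul ht.1 N) _
      have h2 : 0 ≤ S.q L (S.O F) := by
        rw [q_O, Finsupp.sum]
        exact Finset.sum_nonneg fun D' _ => mul_nonneg (hF D') (hL.2.2 D')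
      rw [hFk, map_zsmul, map_neg, h1, smul_eq_mul] at h2
      have h3 : 0 < S.q L (S.cls D) := lt_of_le_of_ne (hL.2.2 D) (fun h => hDL h.symm)
      nlinarith [mul_pos hk h3]

/-- If a class in `L^⊥` has no multiple in the span of `L` and the orthogonal primes, there is a
direction `t` with `q(t,t) < 0` orthogonal to `L` and to all the orthogonal primes. -/
theorem exists_direction [Module.Finite ℤ Pic] {L : Pic} (hL : S.NefIsotropic L) {x : Pic}
    (hx : S.q L x = 0)
    (h : ¬ ∃ a : ℤ, a ≠ 0 ∧ a • x ∈ AddSubgroup.closure (S.cls '' S.orth L) ⊔ sat L) :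
    ∃ t ∈ S.doublePerp L, S.q t t < 0 := by
  classical
  obtain ⟨F, hF⟩ := exists_generators (AddSubgroup.closure (S.cls '' S.orth L))
  have hW : ∀ y ∈ AddSubgroup.closure (S.cls '' S.orth L), S.q L y = 0 := by
    intro y hy
    have h1 : AddSubgroup.closure (S.cls '' S.orth L) ≤ S.perp L := by
      refine (AddSubgroup.closure_le _).2 ?_
      rintro _ ⟨D, hD, rfl⟩
      exact hD
    exact h1 hy
  have hFW : ∀ y ∈ F, y ∈ AddSubgroup.closure (S.cls '' S.orth L) := by
    intro y hy
    rw [← hF]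
    exact AddSubgroup.subset_closure hy
  obtain ⟨G, h1, h2, h3, h4⟩ := S.exists_orthogonal hL F (fun y hy => hW y (hFW y hy))
  rw [hF] at h3
  set t := S.proj G x with ht
  have htL : S.q L t = 0 := S.q_proj_perp (fun f hf => (h1 f hf).1) hx
  have hQ : (∏ f ∈ G, S.q f f) ≠ 0 := Finset.prod_ne_zero_iff.2 fun f hf => (h1 f hf).2.ne
  have hcl := closure_rational (L := L) (G := G) (F := (F : Set Pic)) h4
  rw [hF] at hcl
  refine ⟨t, ⟨htL, fun D hD => ?_⟩, ?_⟩
  · obtain ⟨a, ha, h5⟩ := hcl (S.cls D) (AddSubgroup.subset_closure ⟨D, hD, rfl⟩)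
    have h6 : AddSubgroup.closure (G : Set Pic) ⊔ sat L ≤ (S.q t).ker := by
      refine sup_le ((AddSubgroup.closure_le _).2 ?_) ?_
      · intro f hf
        change S.q t f = 0
        rw [S.q_symm]
        exact S.q_proj h2 hf x
      · intro y hy
        change S.q t y = 0
        exact S.q_ray_orth hy htL
    have h7 : S.q t (a • S.cls D) = 0 := h6 h5
    rw [map_zsmul, smul_eq_mul] at h7
    exact (mul_eq_zero.1 h7).resolve_left ha
  · refine lt_of_le_of_ne (S.q_self_le hL.1 hL.2.1 htL) fun htt => h ?_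
    have h5 : Ray L t := S.ray_of_q_self hL htL htt
    refine ⟨_, hQ, ?_⟩
    have h6 : (∏ f ∈ G, S.q f f) • x =
        (∑ f ∈ G, ((∏ f' ∈ G.erase f, S.q f' f') * S.q f x) • f) + t := by
      rw [ht, proj_apply]; abel
    rw [h6]
    exact AddSubgroup.add_mem_sup (AddSubgroup.sum_mem _ fun f hf =>
        AddSubgroup.zsmul_mem _ (h3 hf) _) h5

/-- Eichler transvections in directions of nonzero square have infinite order. -/
theorem eichler_infinite_order {L t : Pic} (hL : S.NefIsotropic L) (ht : S.q L t = 0)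
    (htt : S.q t t < 0) {g : Pic ≃ₗ[ℤ] Pic} (hg : ∀ x, g x = S.eichlerFun L t x) :
    ¬ IsOfFinOrder g := by
  intro h
  obtain ⟨n, hn, hgn⟩ := h.exists_pow_eq_one
  have he : g = S.eichler hL.1 ht := by
    ext x
    rw [hg, eichler_apply]
  rw [he, S.eichler_pow] at hgn
  have h1 := LinearEquiv.congr_fun hgn t
  rw [eichler_apply, eichlerFun, ht] at h1
  simp only [mul_zero, zero_smul, add_zero, sub_zero, LinearEquiv.coe_one, id] at h1
  rw [sub_eq_self] at h1
  have h2 := congrArg S.deg h1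
  rw [map_zsmul, map_zero, zsmul_eq_mul, map_nsmul, AddMonoidHom.coe_smul, Pi.smul_apply] at h2
  rcases mul_eq_zero.1 h2 with h3 | h3
  · have h4 : 2 * (n • S.q t t) = 0 := by exact_mod_cast h3
    rw [nsmul_eq_mul] at h4
    have h5 : (0 : ℤ) < n := by exact_mod_cast hn
    nlinarith [mul_pos h5 (neg_pos.2 htt)]
  · exact hL.2.1.ne' h3

end HKDivisors

end

end Pool.Agent.SYZ
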