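import Pool.Agent.SYZ.Monodromy

namespace Pool.Agent.SYZ

noncomputable section

namespace HKDivisors

variable {K P Pic : Type*} [Field K] [Algebra ℂ K] [AddCommGroup Pic]
variable (S : HKDivisors K P Pic)

theorem q_ray {L x : Pic} (hL : S.q L L = 0) (h : Ray L x) : S.q L x = 0 := by
  obtain ⟨a, b, ha, hab⟩ := h
  have h1 : a * S.q L x = 0 := by
    have := congrArg (S.q L) hab
    rwa [map_zsmul, map_zsmul, hL, smul_zero, smul_eq_mul] at this
  exact (mul_eq_zero.1 h1).resolve_left ha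

theorem q_ray_orth {L x y : Pic} (h : Ray L x) (hy : S.q L y = 0) : S.q y x = 0 := by
  obtain ⟨a, b, ha, hab⟩ := h
  have h1 : a * S.q y x = 0 := by
    have := congrArg (S.q y) hab
    rwa [map_zsmul, map_zsmul, S.q_symm y L, hy, smul_zero, smul_eq_mul] at this
  exact (mul_eq_zero.1 h1).resolve_left ha

theorem O_single_nonneg (D : P) : (0 : P →₀ ℤ) ≤ Finsupp.single D 1 := by
  classical
  intro D'
  rw [Finsupp.single_apply]
  split_ifs <;> simp

theorem ray_neg {L x : Pic} (h : Ray L (-x)) : Ray L x := by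
  obtain ⟨a, b, ha, hab⟩ := h
  exact ⟨-a, b, neg_ne_zero.2 ha, by rw [neg_smul, ← smul_neg]; exact hab⟩

/-- Every prime divisor orthogonal to `L` is a component of an effective divisor proportional
to `L`. -/
theorem exists_through (M : MonodromyData S) {L : Pic} (hL : S.NefIsotropic L) {D : P}
    (hD : D ∈ S.orth L) : ∃ E : P →₀ ℤ, 0 ≤ E ∧ D ∈ E.support ∧ Ray L (S.O E) := by
  classical
  have hDL : S.q L (S.cls D) = 0 := hD
  by_cases hq : 0 ≤ S.q (S.cls D) (S.cls D)
  · refine ⟨Finsupp.single D 1, O_single_nonneg D, by simp, ?_⟩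
    exact S.hodge_index L _ hL.1 hL.2.1.ne' hDL hq
  push Not at hq
  obtain ⟨N, hN, hfin⟩ := M.mon_finite_index
  -- a large multiple
  obtain ⟨J, hJ⟩ := exists_nat_gt (S.deg (S.cls D) / S.deg L)
  have hJ' : S.deg (S.cls D) < J * S.deg L := (div_lt_iff₀ hL.2.1).1 hJ
  have ht : S.q L (-(J • S.cls D)) = 0 := by rw [map_neg, map_nsmul, hDL, smul_zero, neg_zero]
  have hg := hfin (S.eichler hL.1 ht) (S.eichler_isometry hL.1 ht)
  have key := M.mon_exceptional D hq _ hg
  rw [S.eichler_pow, eichler_apply] at key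
  set c : ℤ := -(2 * (N * J) * S.q (S.cls D) (S.cls D)) with hc
  have hval : S.eichlerFun L (N • -(J • S.cls D)) (S.cls D) = S.cls D - c • L := by
    have e1 : S.q (N • -(J • S.cls D)) (S.cls D) = -(N * J * S.q (S.cls D) (S.cls D)) := by
      rw [map_nsmul, map_neg, map_nsmul]
      simp only [AddMonoidHom.coe_smul, Pi.smul_apply, AddMonoidHom.neg_apply, nsmul_eq_mul]
      ring
    rw [eichlerFun, hDL, e1]
    simp only [mul_zero, zero_smul, add_zero, sub_zero]
    rw [hc]
    congr 2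
    ring
  rw [hval] at key
  have hcpos : (J : ℤ) ≤ c := by
    rw [hc]
    have h1 : (1 : ℤ) ≤ N := by exact_mod_cast hN
    have h2 : (0 : ℤ) ≤ J := by positivity
    nlinarith [mul_nonneg (sub_nonneg.2 h1) h2, mul_nonneg (mul_nonneg (sub_nonneg.2 h1) h2)
      (show (0:ℤ) ≤ -S.q (S.cls D) (S.cls D) - 1 by omega), mul_nonneg h2
      (show (0:ℤ) ≤ -S.q (S.cls D) (S.cls D) - 1 by omega)]
  have hdeg : S.deg (S.cls D - c • L) < 0 := by
    rw [map_sub, map_zsmul, zsmul_eq_mul]
    have h1 : (J : ℝ) * S.deg L ≤ c * S.deg L :=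
      mul_le_mul_of_nonneg_right (by exact_mod_cast hcpos) hL.2.1.le
    linarith
  rcases key with ⟨k, hk, F, hF, hFk⟩ | ⟨k, hk, F, hF, hFk⟩
  · exfalso
    have h1 := S.deg_O_nonneg hF
    rw [hFk, map_zsmul, zsmul_eq_mul] at h1
    have h2 : (k : ℝ) * S.deg (S.cls D - c • L) < 0 :=
      mul_neg_of_pos_of_neg (by exact_mod_cast hk) hdeg
    linarith
  · refine ⟨F + Finsupp.single D k, ?_, ?_, 1, k * c, one_ne_zero, ?_⟩
    · refine add_nonneg hF ?_
      intro D'
      rw [Finsupp.single_apply]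
      split_ifs <;> simp [hk.le]
    · rw [Finsupp.mem_support_iff, Finsupp.coe_add, Pi.add_apply, Finsupp.single_eq_same]
      have := hF D
      simp only [Finsupp.coe_zero, Pi.zero_apply] at this
      omega
    · have h1 : S.O (Finsupp.single D k) = k • S.cls D := by
        rw [cls, ← map_zsmul, Finsupp.smul_single, smul_eq_mul, mul_one]
      rw [one_smul, map_add, hFk, h1]
      module

theorem ray_support {L : Pic} (hL : S.NefIsotropic L) {E : P →₀ ℤ} (hE : 0 ≤ E)
    (h : Ray L (S.O E)) : ∀ D ∈ E.support, D ∈ S.orth L :=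
  S.support_subset_orth hL hE (S.q_ray hL.1 h)

/-- The support of an effective divisor proportional to `L` is closed under adjacency in the graph
of prime divisors orthogonal to `L`. -/
theorem adj_closed {L : Pic} {E : P →₀ ℤ} (hE : 0 ≤ E)
    (h : Ray L (S.O E)) {D D' : P} (hD : D ∈ E.support) (hD' : D' ∈ S.orth L)
    (hadj : S.graph.Adj D D') : D' ∈ E.support := by
  by_contra hn
  have h1 : S.q (S.cls D') (S.O E) = 0 := S.q_ray_orth h hD'
  rw [q_O, Finsupp.sum, Finset.sum_eq_zero_iff_of_nonneg] at h1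
  · have h2 := h1 D hD
    rcases mul_eq_zero.1 h2 with h3 | h3
    · exact (Finsupp.mem_support_iff.1 hD) h3
    · exact hadj.2 (by rw [S.q_symm]; exact h3)
  · intro D'' hD''
    refine mul_nonneg (hE D'') (S.q_prime _ _ ?_)
    rintro rfl
    exact hn hD''

theorem reach_support {L : Pic} {E : P →₀ ℤ} (hE : 0 ≤ E) (h : Ray L (S.O E)) {a b : S.orth L}
    (hab : (S.graph.induce (S.orth L)).Reachable a b) (ha : (a : P) ∈ E.support) :
    (b : P) ∈ E.support := by
  obtain ⟨w⟩ := hab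
  induction w with
  | nil => exact ha
  | cons hadj _ ih => exact ih (S.adj_closed hE h ha (Subtype.coe_prop _) hadj)

theorem support_eq_orth {L : Pic} (hL : S.NefIsotropic L) {E : P →₀ ℤ} (hE : 0 ≤ E) (h0 : E ≠ 0)
    (h : Ray L (S.O E)) (hc : (S.graph.induce (S.orth L)).Preconnected) :
    (E.support : Set P) = S.orth L := by
  refine Set.Subset.antisymm (fun D hD => S.ray_support hL hE h D hD) ?_
  obtain ⟨D₀, hD₀⟩ := Finsupp.support_nonempty_iff.2 h0
  intro D hD
  exact S.reach_support hE h (hc ⟨D₀, S.ray_support hL hE h D₀ hD₀⟩ ⟨D, hD⟩) hD₀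

/-- Splitting an effective divisor proportional to `L` along a union of connected components. -/
theorem ray_filter {L : Pic} (hL : S.NefIsotropic L) {E : P →₀ ℤ} (hE : 0 ≤ E)
    (h : Ray L (S.O E)) (A : P → Prop) [DecidablePred A]
    (hA : ∀ D ∈ E.support, ∀ D' ∈ E.support, A D → ¬ A D' → S.q (S.cls D) (S.cls D') = 0) :
    Ray L (S.O (E.filter A)) := by
  classical
  have hs := S.ray_support hL hE h
  have hsA : ∀ D ∈ (E.filter A).support, D ∈ S.orth L := by
    intro D hD
    rw [Finsupp.support_filter, Finset.mem_filter] at hD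
    exact hs D hD.1
  have ho := S.q_O_eq_zero hsA
  refine S.hodge_index L _ hL.1 hL.2.1.ne' ho ?_
  have h1 : S.O (E.filter A) + S.O (E.filter fun D => ¬ A D) = S.O E := by
    rw [← map_add, Finsupp.filter_add_filter_not]
  have h2 : S.q (S.O (E.filter A)) (S.O (E.filter fun D => ¬ A D)) = 0 := by
    rw [q_O, Finsupp.sum]
    refine Finset.sum_eq_zero fun D' hD' => ?_
    rw [q_O_left, Finsupp.sum, Finset.sum_eq_zero, mul_zero]
    intro D hD
    rw [Finsupp.support_filter, Finset.mem_filter] at hD hD'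
    rw [hA D hD.1 D' hD'.1 hD.2 hD'.2, mul_zero]
  have h3 : S.q (S.O (E.filter A)) (S.O E) = 0 := S.q_ray_orth h ho
  rw [← h1, map_add, h2, add_zero] at h3
  exact h3.ge

theorem qEffective_iff (M : MonodromyData S) {L : Pic} (hL : S.NefIsotropic L) :
    S.QEffective L ↔ (S.orth L).Nonempty := by
  constructor
  · rintro ⟨k, hk, E, hE, hEk⟩
    have h0 : E ≠ 0 := by
      rintro rfl
      have h1 := congrArg S.deg hEk
      rw [map_zero, map_zero, map_zsmul, zsmul_eq_mul] at h1
      have : 0 < (k : ℝ) * S.deg L := mul_pos (by exact_mod_cast hk) hL.2.1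
      linarith
    obtain ⟨D, hD⟩ := Finsupp.support_nonempty_iff.2 h0
    exact ⟨D, S.support_subset_orth hL hE (by rw [hEk, map_zsmul, hL.1, smul_zero]) D hD⟩
  · rintro ⟨D, hD⟩
    obtain ⟨E, hE, hDE, hr⟩ := S.exists_through M hL hD
    exact S.qEffective_of_ray hL hE (Finsupp.support_nonempty_iff.1 ⟨D, hDE⟩) hr

theorem twoSections_imp {L : Pic} (hL : S.NefIsotropic L) (h : S.TwoSections L) :
    (S.orth L).Nonempty ∧ ¬ (S.graph.induce (S.orth L)).Preconnected := by
  obtain ⟨k, hk, E, E', hE, hE', hd, h1, h2⟩ := S.disjoint_of_twoSections hL h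
  have aux : ∀ F : P →₀ ℤ, S.O F = k • L → F ≠ 0 := by
    rintro F hF rfl
    have h1 := congrArg S.deg hF
    rw [map_zero, map_zero, map_zsmul, zsmul_eq_mul] at h1
    have : 0 < (k : ℝ) * S.deg L := mul_pos (by exact_mod_cast hk) hL.2.1
    linarith
  have r1 : Ray L (S.O E) := ⟨1, k, one_ne_zero, by rw [one_smul, h1]⟩
  have r2 : Ray L (S.O E') := ⟨1, k, one_ne_zero, by rw [one_smul, h2]⟩
  obtain ⟨D, hD⟩ := Finsupp.support_nonempty_iff.2 (aux E h1)
  refine ⟨⟨D, S.ray_support hL hE r1 D hD⟩, fun hc => ?_⟩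
  have e1 := S.support_eq_orth hL hE (aux E h1) r1 hc
  have e2 := S.support_eq_orth hL hE' (aux E' h2) r2 hc
  have h3 : D ∈ (E'.support : Set P) := by rw [e2, ← e1]; exact hD
  exact Finset.disjoint_left.1 hd hD h3

theorem twoSections_iff (M : MonodromyData S) {L : Pic} (hL : S.NefIsotropic L) :
    S.TwoSections L ↔
      (S.orth L).Nonempty ∧ ¬ (S.graph.induce (S.orth L)).Preconnected := by
  classical
  refine ⟨S.twoSections_imp hL, ?_⟩
  rintro ⟨-, hc⟩
  rw [SimpleGraph.Preconnected] at hc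
  push Not at hc
  obtain ⟨D, D', hDD'⟩ := hc
  let A : P → Prop := fun x => ∃ hx : x ∈ S.orth L,
    (S.graph.induce (S.orth L)).Reachable D ⟨x, hx⟩
  have hsep : ∀ x ∈ S.orth L, ∀ y ∈ S.orth L, A x → ¬ A y → S.q (S.cls x) (S.cls y) = 0 := by
    intro x _ y hy hAx hAy
    by_contra hne
    obtain ⟨hx, hr⟩ := hAx
    apply hAy
    refine ⟨hy, hr.trans (SimpleGraph.Adj.reachable ?_)⟩
    refine ⟨?_, hne⟩
    intro hxy
    have hxy : x = y := hxy
    apply hAy
    subst hxy
    exact ⟨hx, hr⟩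
  obtain ⟨E, hE, hDE, hr⟩ := S.exists_through M hL D.2
  obtain ⟨E', hE', hDE', hr'⟩ := S.exists_through M hL D'.2
  have hs := S.ray_support hL hE hr
  have hs' := S.ray_support hL hE' hr'
  have rA := S.ray_filter hL hE hr A (fun x hx y hy => hsep x (hs x hx) y (hs y hy))
  have rB := S.ray_filter hL hE' hr' (fun x => ¬ A x)
    (fun x hx y hy h1 h2 => by rw [S.q_symm]; exact hsep y (hs' y hy) x (hs' x hx) (not_not.1 h2) h1)
  have pA : 0 ≤ E.filter A := by
    intro x
    rw [Finsupp.filter_apply]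
    split_ifs
    · exact hE x
    · exact le_rfl
  have pB : 0 ≤ E'.filter (fun x => ¬ A x) := by
    intro x
    rw [Finsupp.filter_apply]
    split_ifs
    · exact le_rfl
    · exact hE' x
  have nA : E.filter A ≠ 0 := by
    apply Finsupp.support_nonempty_iff.1
    refine ⟨D, ?_⟩
    rw [Finsupp.support_filter, Finset.mem_filter]
    exact ⟨hDE, D.2, SimpleGraph.Reachable.refl _⟩
  have nB : E'.filter (fun x => ¬ A x) ≠ 0 := by
    apply Finsupp.support_nonempty_iff.1
    refine ⟨D', ?_⟩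
    rw [Finsupp.support_filter, Finset.mem_filter]
    exact ⟨hDE', fun ⟨_, h⟩ => hDD' h⟩
  refine S.twoSections_of_disjoint hL (S.disjointSections_of_ray hL pA nA rA pB nB rB ?_)
  rw [Finset.disjoint_left]
  intro x h1 h2
  rw [Finsupp.support_filter, Finset.mem_filter] at h1 h2
  exact h2.2 h1.2

theorem connected_case [Module.Finite ℤ Pic] {L : Pic} (hL : S.NefIsotropic L)
    (hc : (S.graph.induce (S.orth L)).Connected) :
    (S.orth L).encard ≤ S.perpRank L ∧
      ∀ E : P →₀ ℤ, 0 ≤ E → E ≠ 0 → Ray L (S.O E) → (E.support : Set P) = S.orth L := by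
  refine ⟨?_, fun E hE h0 h => S.support_eq_orth hL hE h0 h hc.preconnected⟩
  by_contra h1
  push Not at h1
  have h2 := ((S.tfae hL).out 3 0).1 h1
  exact (S.twoSections_imp hL h2).2 hc.preconnected

theorem component_case (M : MonodromyData S) {L : Pic} (hL : S.NefIsotropic L)
    (C : (S.graph.induce (S.orth L)).ConnectedComponent) :
    ∃ E : P →₀ ℤ, 0 ≤ E ∧ (E.support : Set P) = Subtype.val '' C.supp ∧ Ray L (S.O E) ∧
      ∀ E' : P →₀ ℤ, 0 ≤ E' → (E'.support : Set P) ⊆ Subtype.val '' C.supp → Ray L (S.O E') →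
        ∃ a b : ℤ, 0 < a ∧ 0 ≤ b ∧ a • E' = b • E := by
  classical
  obtain ⟨D, rfl⟩ := C.exists_rep
  obtain ⟨E₀, hE₀, hDE, hr₀⟩ := S.exists_through M hL D.2
  set C := (S.graph.induce (S.orth L)).connectedComponentMk D with hC
  have hmem : ∀ x : P, x ∈ (Subtype.val '' C.supp : Set P) ↔ ∃ hx : x ∈ S.orth L,
      (S.graph.induce (S.orth L)).Reachable ⟨x, hx⟩ D := by
    intro x
    constructor
    · rintro ⟨y, hy, rfl⟩
      exact ⟨y.2, SimpleGraph.ConnectedComponent.exact hy⟩
    · rintro ⟨hx, hr⟩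
      exact ⟨⟨x, hx⟩, SimpleGraph.ConnectedComponent.sound hr, rfl⟩
  -- a nonzero effective divisor proportional to `L` with support in `C` has support `C`
  have hfull : ∀ F : P →₀ ℤ, 0 ≤ F → F ≠ 0 → Ray L (S.O F) →
      (F.support : Set P) ⊆ Subtype.val '' C.supp →
      (F.support : Set P) = Subtype.val '' C.supp := by
    intro F hF h0 hr hs
    refine Set.Subset.antisymm hs fun x hx => ?_
    obtain ⟨y, hy⟩ := Finsupp.support_nonempty_iff.2 h0
    obtain ⟨hx1, hx2⟩ := (hmem x).1 hx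
    obtain ⟨hy1, hy2⟩ := (hmem y).1 (hs hy)
    exact S.reach_support hF hr (hy2.trans hx2.symm) hy
  let A : P → Prop := fun x => x ∈ (Subtype.val '' C.supp : Set P)
  have hs := S.ray_support hL hE₀ hr₀
  have hsep : ∀ x ∈ E₀.support, ∀ y ∈ E₀.support, A x → ¬ A y →
      S.q (S.cls x) (S.cls y) = 0 := by
    intro x _ y hy hAx hAy
    by_contra hne
    obtain ⟨hx, hr⟩ := (hmem x).1 hAx
    apply hAy
    refine (hmem y).2 ⟨hs y hy, SimpleGraph.Reachable.trans ?_ hr⟩
    refine SimpleGraph.Adj.reachable (SimpleGraph.Adj.symm ?_)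
    refine ⟨?_, hne⟩
    intro hxy
    have hxy : x = y := hxy
    exact hAy (hxy ▸ hAx)
  have rA := S.ray_filter hL hE₀ hr₀ A hsep
  have pA : 0 ≤ E₀.filter A := by
    intro x
    rw [Finsupp.filter_apply]
    split_ifs
    · exact hE₀ x
    · exact le_rfl
  have nA : E₀.filter A ≠ 0 := by
    apply Finsupp.support_nonempty_iff.1
    refine ⟨D, ?_⟩
    rw [Finsupp.support_filter, Finset.mem_filter]
    exact ⟨hDE, (hmem D).2 ⟨D.2, SimpleGraph.Reachable.refl _⟩⟩
  have sA : ((E₀.filter A).support : Set P) ⊆ Subtype.val '' C.supp := by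
    intro x hx
    rw [Finset.mem_coe, Finsupp.support_filter, Finset.mem_filter] at hx
    exact hx.2
  refine ⟨E₀.filter A, pA, hfull _ pA nA rA sA, rA, ?_⟩
  intro E' hE' hs' hr'
  by_cases h0 : E' = 0
  · exact ⟨1, 0, one_pos, le_rfl, by rw [h0, smul_zero, zero_smul]⟩
  obtain ⟨a, b, ha, hb, hab⟩ := Ray.pos S hL.2.1 pA nA rA
  obtain ⟨a', b', ha', hb', hab'⟩ := Ray.pos S hL.2.1 hE' h0 hr'
  refine ⟨b * a', b' * a, mul_pos hb ha', (mul_pos hb' ha).le, ?_⟩
  by_contra hne
  have e1 : S.O ((b * a') • E') = (b * b') • L := by rw [mul_smul, map_zsmul, hab', smul_smul]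
  have e2 : S.O ((b' * a) • E₀.filter A) = (b * b') • L := by
    rw [mul_smul, map_zsmul, hab, smul_smul, mul_comm]
  obtain ⟨X, X', p1, p2, p3, p4, p5, p6, p7, p8, p9⟩ := S.moving_part hL
    (smul_nonneg (mul_pos hb ha').le hE') (smul_nonneg (mul_pos hb' ha).le pA) hne e1 e2
  have f1 := hfull X p1 p3 p5 fun x hx => hs' (Finsupp.support_smul (p8 hx))
  have f2 := hfull X' p2 p4 p6 fun x hx => sA (Finsupp.support_smul (p9 hx))
  obtain ⟨x, hx⟩ := Finsupp.support_nonempty_iff.2 p3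
  refine Finset.disjoint_left.1 p7 hx ?_
  have : x ∈ (X'.support : Set P) := by rw [f2, ← f1]; exact hx
  exact this

end HKDivisors

end

end Pool.Agent.SYZ
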