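import Pool.Agent.SYZ.Vertical
import Pool.Agent.SYZ.Trichotomy

namespace Pool.Agent.SYZ

noncomputable section

namespace HKDivisors

variable {K P Pic : Type*} [Field K] [Algebra ℂ K] [AddCommGroup Pic]
variable (S : HKDivisors K P Pic)

/-- Only finitely many prime divisors orthogonal to `L` have nonzero square. -/
theorem finite_neg [Module.Finite ℤ Pic] {L : Pic} (hL : S.NefIsotropic L) :
    {D | D ∈ S.orth L ∧ S.q (S.cls D) (S.cls D) ≠ 0}.Finite := by
  classical
  by_contra hinf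
  have key : ∀ (n : ℕ) (T : Set P), T.Infinite →
      (∀ D ∈ T, D ∈ S.orth L ∧ S.q (S.cls D) (S.cls D) ≠ 0) →
      ∃ G : Finset P, (↑G ⊆ T) ∧ G.card = n ∧
        ∀ D ∈ G, ∀ D' ∈ G, D ≠ D' → S.q (S.cls D) (S.cls D') = 0 := by
    intro n
    induction n with
    | zero =>
      intro T _ _
      exact ⟨∅, by simp, rfl, by simp⟩
    | succ n ih =>
      intro T hT hTo
      obtain ⟨F, hFT, hFc⟩ := hT.exists_subset_card_eq (S.perpRank L)
      obtain ⟨E, h1, h2, h3, h4⟩ := S.exists_supported hL F (fun D hD => (hTo D (hFT hD)).1)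
        hFc.ge
      obtain ⟨D₁, hD₁⟩ := Finsupp.support_nonempty_iff.2 h2
      obtain ⟨G, hG, hGc, hGo⟩ := ih (T \ F) (hT.diff F.finite_toSet)
        (fun D hD => hTo D hD.1)
      have horth : ∀ D ∈ G, S.q (S.cls D₁) (S.cls D) = 0 := by
        intro D hD
        have hDT : D ∈ T \ F := hG hD
        have hz : S.q (S.O E) (S.cls D) = 0 := by
          rw [S.q_symm]
          exact S.q_ray_orth h4 (hTo D hDT.1).1
        rw [q_O_left, Finsupp.sum, Finset.sum_eq_zero_iff_of_nonneg] at hz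
        · rcases mul_eq_zero.1 (hz D₁ hD₁) with h5 | h5
          · exact absurd h5 (Finsupp.mem_support_iff.1 hD₁)
          · exact h5
        · intro D' hD'
          refine mul_nonneg (h1 D') (S.q_prime D' D ?_)
          rintro rfl
          exact hDT.2 (h3 hD')
      have hD₁G : D₁ ∉ G := fun h => (hG h).2 (h3 hD₁)
      refine ⟨insert D₁ G, ?_, by rw [Finset.card_insert_of_notMem hD₁G, hGc], ?_⟩
      · intro D hD
        rw [Finset.coe_insert] at hD
        rcases hD with rfl | hD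
        · exact hFT (h3 hD₁)
        · exact (hG hD).1
      · intro D hD D' hD' hne
        rw [Finset.mem_insert] at hD hD'
        rcases hD with rfl | hD <;> rcases hD' with rfl | hD'
        · exact absurd rfl hne
        · exact horth D' hD'
        · rw [S.q_symm]; exact horth D hD
        · exact hGo D hD D' hD' hne
  obtain ⟨G, hG, hGc, hGo⟩ := key (S.perpRank L) _ hinf (fun D hD => hD)
  obtain ⟨E, h1, h2, h3, h4⟩ := S.exists_supported hL G (fun D hD => (hG hD).1) hGc.ge
  obtain ⟨D₀, hD₀⟩ := Finsupp.support_nonempty_iff.2 h2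
  have hz : S.q (S.O E) (S.cls D₀) = 0 := by
    rw [S.q_symm]
    exact S.q_ray_orth h4 (hG (h3 hD₀)).1
  rw [q_O_left, Finsupp.sum, Finset.sum_eq_single D₀] at hz
  · rcases mul_eq_zero.1 hz with h5 | h5
    · exact Finsupp.mem_support_iff.1 hD₀ h5
    · exact (hG (h3 hD₀)).2 h5
  · intro D hD hne
    rw [hGo D (h3 hD) D₀ (h3 hD₀) hne, mul_zero]
  · intro h
    exact absurd hD₀ h

/-- Only finitely many classes proportional to `L` have bounded degree. -/
theorem finite_ray [Module.Finite ℤ Pic] [IsAddTorsionFree Pic] {L : Pic} (hd : 0 < S.deg L)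
    (C : ℝ) : {x : Pic | Ray L x ∧ |S.deg x| ≤ C}.Finite := by
  classical
  let b := Module.Free.chooseBasis ℤ Pic
  let B : Module.Free.ChooseBasisIndex ℤ Pic → ℤ := fun i => ⌈C / S.deg L * |(b.repr L i : ℝ)|⌉
  refine Set.Finite.of_finite_image (f := fun x => (b.equivFun x)) ?_
    (b.equivFun.injective.injOn)
  refine (Set.finite_Icc (-B) B).subset ?_
  rintro _ ⟨x, ⟨⟨a, c, ha, hac⟩, hC⟩, rfl⟩
  have hbound : ∀ i, |b.equivFun x i| ≤ B i := by
    intro i
    have h1 : a * b.repr x i = c * b.repr L i := by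
      have := congrArg (fun y => b.repr y i) hac
      simpa using this
    have h2 : (a : ℝ) * S.deg x = c * S.deg L := by
      have := congrArg S.deg hac
      simpa [map_zsmul, zsmul_eq_mul] using this
    have ha' : (a : ℝ) ≠ 0 := by exact_mod_cast ha
    have h3 : (a : ℝ) * (b.repr x i : ℝ) = c * (b.repr L i : ℝ) := by exact_mod_cast h1
    have h4 : (b.repr x i : ℝ) = S.deg x / S.deg L * (b.repr L i : ℝ) := by
      have h5 : (a : ℝ) * (b.repr x i : ℝ) = a * (S.deg x / S.deg L * (b.repr L i : ℝ)) := by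
        rw [h3, ← mul_assoc, ← mul_div_assoc, h2, mul_div_assoc, div_self hd.ne', mul_one]
      exact mul_left_cancel₀ ha' h5
    have h6 : |(b.repr x i : ℝ)| ≤ C / S.deg L * |(b.repr L i : ℝ)| := by
      rw [h4, abs_mul, abs_div, abs_of_pos hd]
      exact mul_le_mul_of_nonneg_right ((div_le_div_iff_of_pos_right hd).2 hC) (abs_nonneg _)
    have h7 : ((|b.repr x i| : ℤ) : ℝ) ≤ (B i : ℝ) := by
      rw [Int.cast_abs]
      exact h6.trans (Int.le_ceil _)
    rw [Module.Basis.equivFun_apply]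
    exact_mod_cast h7
  exact ⟨fun i => (abs_le.1 (hbound i)).1, fun i => (abs_le.1 (hbound i)).2⟩

/-- If the degrees of the prime divisors orthogonal to `L` are bounded, these have only finitely
many classes. -/
theorem finite_classes [Module.Finite ℤ Pic] [IsAddTorsionFree Pic] {L : Pic}
    (hL : S.NefIsotropic L) {C : ℝ} (hC : ∀ D ∈ S.orth L, S.deg (S.cls D) ≤ C) :
    (S.cls '' S.orth L).Finite := by
  refine (((S.finite_neg hL).image S.cls).union (S.finite_ray hL.2.1 C)).subset ?_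
  rintro _ ⟨D, hD, rfl⟩
  by_cases h : S.q (S.cls D) (S.cls D) = 0
  · right
    refine ⟨S.hodge_index L _ hL.1 hL.2.1.ne' hD h.ge, ?_⟩
    have h1 : 0 < S.deg (S.cls D) := S.deg_prime D
    rw [abs_of_pos h1]
    exact hC D hD
  · left
    exact ⟨D, ⟨hD, h⟩, rfl⟩

theorem exists_min_deg [Module.Finite ℤ Pic] [IsAddTorsionFree Pic] {L : Pic}
    (hL : S.NefIsotropic L) {C : ℝ} (hC : ∀ D ∈ S.orth L, S.deg (S.cls D) ≤ C) :
    ∃ δ : ℝ, 0 < δ ∧ ∀ D ∈ S.orth L, δ ≤ S.deg (S.cls D) := by
  rcases (S.cls '' S.orth L).eq_empty_or_nonempty with h | h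
  · refine ⟨1, one_pos, fun D hD => ?_⟩
    exact absurd (Set.mem_image_of_mem S.cls hD) (by rw [h]; exact Set.notMem_empty _)
  · obtain ⟨x, ⟨D, hD, rfl⟩, hx⟩ := Set.exists_min_image _ S.deg (S.finite_classes hL hC) h
    exact ⟨S.deg (S.cls D), S.deg_prime D, fun D' hD' => hx _ (Set.mem_image_of_mem _ hD')⟩

end HKDivisors

end

end Pool.Agent.SYZ
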