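import Pool.Agent.SYZ.DefsCarries
import Pool.Agent.SYZ.Trichotomy

namespace Pool.Agent.SYZ

noncomputable section

variable {K P Pic : Type*} [Field K] [Algebra ℂ K] [AddCommGroup Pic]

namespace HKDivisors

variable (S : HKDivisors K P Pic)

theorem mem_component {L : Pic} (C : (S.graph.induce (S.orth L)).ConnectedComponent)
    (D : S.orth L) (hD : (S.graph.induce (S.orth L)).connectedComponentMk D = C) (x : P) :
    x ∈ (Subtype.val '' C.supp : Set P) ↔ ∃ hx : x ∈ S.orth L,
      (S.graph.induce (S.orth L)).Reachable ⟨x, hx⟩ D := by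
  subst hD
  constructor
  · rintro ⟨y, hy, rfl⟩
    exact ⟨y.2, SimpleGraph.ConnectedComponent.exact hy⟩
  · rintro ⟨hx, hr⟩
    exact ⟨⟨x, hx⟩, SimpleGraph.ConnectedComponent.sound hr, rfl⟩

/-- A nonzero effective divisor proportional to `L` with support in a component has full
support. -/
theorem support_full {L : Pic} (C : (S.graph.induce (S.orth L)).ConnectedComponent)
    {F : P →₀ ℤ} (hF : 0 ≤ F) (h0 : F ≠ 0) (hr : Ray L (S.O F))
    (hs : (F.support : Set P) ⊆ Subtype.val '' C.supp) :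
    (F.support : Set P) = Subtype.val '' C.supp := by
  obtain ⟨D, rfl⟩ := C.exists_rep
  refine Set.Subset.antisymm hs fun x hx => ?_
  obtain ⟨y, hy⟩ := Finsupp.support_nonempty_iff.2 h0
  obtain ⟨hx1, hx2⟩ := (S.mem_component _ D rfl x).1 hx
  obtain ⟨hy1, hy2⟩ := (S.mem_component _ D rfl y).1 (hs hy)
  exact S.reach_support hF hr (hy2.trans hx2.symm) hy

theorem carries_of {L : Pic} (hL : S.NefIsotropic L)
    (C : (S.graph.induce (S.orth L)).ConnectedComponent)
    {F : P →₀ ℤ} (hF : 0 ≤ F) (h0 : F ≠ 0) (hr : Ray L (S.O F))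
    (hs : (F.support : Set P) ⊆ Subtype.val '' C.supp) :
    S.Carries L (Subtype.val '' C.supp) := by
  refine ⟨F, hF, S.support_full C hF h0 hr hs, hr, ?_⟩
  intro E' hE' hs' hr'
  by_cases h0' : E' = 0
  · exact ⟨1, 0, one_pos, le_rfl, by rw [h0', smul_zero, zero_smul]⟩
  obtain ⟨a, b, ha, hb, hab⟩ := Ray.pos S hL.2.1 hF h0 hr
  obtain ⟨a', b', ha', hb', hab'⟩ := Ray.pos S hL.2.1 hE' h0' hr'
  refine ⟨b * a', b' * a, mul_pos hb ha', (mul_pos hb' ha).le, ?_⟩
  by_contra hne
  have e1 : S.O ((b * a') • E') = (b * b') • L := by rw [mul_smul, map_zsmul, hab', smul_smul]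
  have e2 : S.O ((b' * a) • F) = (b * b') • L := by
    rw [mul_smul, map_zsmul, hab, smul_smul, mul_comm]
  obtain ⟨X, X', p1, p2, p3, p4, p5, p6, p7, p8, p9⟩ := S.moving_part hL
    (smul_nonneg (mul_pos hb ha').le hE') (smul_nonneg (mul_pos hb' ha).le hF) hne e1 e2
  have f1 := S.support_full C p1 p3 p5 fun x hx => hs' (Finsupp.support_smul (p8 hx))
  have f2 := S.support_full C p2 p4 p6 fun x hx => hs (Finsupp.support_smul (p9 hx))
  obtain ⟨x, hx⟩ := Finsupp.support_nonempty_iff.2 p3
  refine Finset.disjoint_left.1 p7 hx ?_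
  have : x ∈ (X'.support : Set P) := by rw [f2, ← f1]; exact hx
  exact this

/-- The component of a prime divisor contained in an effective divisor proportional to `L`. -/
theorem carries_of_mem {L : Pic} (hL : S.NefIsotropic L) {E : P →₀ ℤ} (hE : 0 ≤ E)
    (hr : Ray L (S.O E)) {D : P} (hD : D ∈ E.support) (hDo : D ∈ S.orth L) :
    S.Carries L (Subtype.val ''
      ((S.graph.induce (S.orth L)).connectedComponentMk ⟨D, hDo⟩).supp) := by
  classical
  set C := (S.graph.induce (S.orth L)).connectedComponentMk ⟨D, hDo⟩ with hC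
  have hmem := S.mem_component C ⟨D, hDo⟩ rfl
  let A : P → Prop := fun x => x ∈ (Subtype.val '' C.supp : Set P)
  have hs := S.ray_support hL hE hr
  have hsep : ∀ x ∈ E.support, ∀ y ∈ E.support, A x → ¬ A y →
      S.q (S.cls x) (S.cls y) = 0 := by
    intro x _ y hy hAx hAy
    by_contra hne
    obtain ⟨hx, hr⟩ := (hmem x).1 hAx
    apply hAy
    refine (hmem y).2 ⟨hs y hy, SimpleGraph.Reachable.trans ?_ hr⟩
    refine SimpleGraph.Adj.reachable (SimpleGraph.Adj.symm ?_)
    refine ⟨?_, hne⟩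
    intro hxy
    have hxy : x = y := hxy
    exact hAy (hxy ▸ hAx)
  have rA := S.ray_filter hL hE hr A hsep
  have pA : 0 ≤ E.filter A := by
    intro x
    rw [Finsupp.filter_apply]
    split_ifs
    · exact hE x
    · exact le_rfl
  have nA : E.filter A ≠ 0 := by
    apply Finsupp.support_nonempty_iff.1
    refine ⟨D, ?_⟩
    rw [Finsupp.support_filter, Finset.mem_filter]
    exact ⟨hD, (hmem D).2 ⟨hDo, SimpleGraph.Reachable.refl _⟩⟩
  have sA : ((E.filter A).support : Set P) ⊆ Subtype.val '' C.supp := by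
    intro x hx
    rw [Finset.mem_coe, Finsupp.support_filter, Finset.mem_filter] at hx
    exact hx.2
  exact S.carries_of hL C pA nA rA sA

/-- Every component of the graph of the prime divisors orthogonal to `L` either carries a divisor
proportional to `L` or is finite and independent modulo `L`. -/
theorem component_dichotomy [Module.Finite ℤ Pic] {L : Pic} (hL : S.NefIsotropic L)
    (C : (S.graph.induce (S.orth L)).ConnectedComponent) :
    S.Carries L (Subtype.val '' C.supp) ∨ ((Subtype.val '' C.supp : Set P).Finite ∧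
      S.IndependentMod L (Subtype.val '' C.supp)) := by
  by_cases h : ∃ F : P →₀ ℤ, 0 ≤ F ∧ F ≠ 0 ∧ Ray L (S.O F) ∧
      (F.support : Set P) ⊆ Subtype.val '' C.supp
  · obtain ⟨F, h1, h2, h3, h4⟩ := h
    exact Or.inl (S.carries_of hL C h1 h2 h3 h4)
  right
  have horth : (Subtype.val '' C.supp : Set P) ⊆ S.orth L := by
    rintro _ ⟨y, _, rfl⟩
    exact y.2
  constructor
  · by_contra hinf
    obtain ⟨T, hT, hc⟩ := Set.Infinite.exists_subset_card_eq hinf (S.perpRank L)
    obtain ⟨F, h1, h2, h3, h4⟩ := S.exists_supported hL T (fun D hD => horth (hT hD)) hc.ge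
    exact h ⟨F, h1, h2, h4, fun x hx => hT (h3 hx)⟩
  · intro E hE hr
    by_contra h0
    obtain ⟨a, b, ha, hab⟩ := hr
    have hs : (a • E).support ⊆ E.support := Finsupp.support_smul
    obtain ⟨F, h1, h2, h3, h4⟩ := S.exists_of_relation hL (E := a • E) (smul_ne_zero ha h0)
      (fun D hD => horth (hE (hs hD))) b (by rw [map_zsmul, hab])
    exact h ⟨F, h1, h2, h4, fun x hx => hE (hs (h3 hx))⟩

theorem ray_ne_zero {L : Pic} (hL : S.NefIsotropic L) {E : P →₀ ℤ} {k : ℤ} (hk : 0 < k)
    (h : S.O E = k • L) : E ≠ 0 := by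
  rintro rfl
  have h1 := congrArg S.deg h
  rw [map_zero, map_zero, map_zsmul, zsmul_eq_mul] at h1
  have : 0 < (k : ℝ) * S.deg L := mul_pos (by exact_mod_cast hk) hL.2.1
  linarith

theorem carries_nonempty {L : Pic} (C : (S.graph.induce (S.orth L)).ConnectedComponent)
    {E : P →₀ ℤ} (h : (E.support : Set P) = Subtype.val '' C.supp) : E ≠ 0 := by
  obtain ⟨D, rfl⟩ := C.exists_rep
  apply Finsupp.support_nonempty_iff.1
  refine ⟨D, ?_⟩
  have : (D : P) ∈ (E.support : Set P) := by
    rw [h]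
    exact ⟨D, rfl, rfl⟩
  exact this

theorem qEffective_iff_carries {L : Pic} (hL : S.NefIsotropic L) :
    S.QEffective L ↔ ∃ C : (S.graph.induce (S.orth L)).ConnectedComponent,
      S.Carries L (Subtype.val '' C.supp) := by
  constructor
  · rintro ⟨k, hk, E, hE, hEk⟩
    obtain ⟨D, hD⟩ := Finsupp.support_nonempty_iff.2 (S.ray_ne_zero hL hk hEk)
    have hr : Ray L (S.O E) := ⟨1, k, one_ne_zero, by rw [one_smul, hEk]⟩
    exact ⟨_, S.carries_of_mem hL hE hr hD (S.ray_support hL hE hr D hD)⟩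
  · rintro ⟨C, E, hE, hs, hr, -⟩
    exact S.qEffective_of_ray hL hE (S.carries_nonempty C hs) hr

theorem twoSections_iff_carries {L : Pic} (hL : S.NefIsotropic L) :
    S.TwoSections L ↔ ∃ C C' : (S.graph.induce (S.orth L)).ConnectedComponent, C ≠ C' ∧
      S.Carries L (Subtype.val '' C.supp) ∧ S.Carries L (Subtype.val '' C'.supp) := by
  constructor
  · intro h
    obtain ⟨k, hk, E, E', hE, hE', hd, h1, h2⟩ := S.disjoint_of_twoSections hL h
    have r1 : Ray L (S.O E) := ⟨1, k, one_ne_zero, by rw [one_smul, h1]⟩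
    have r2 : Ray L (S.O E') := ⟨1, k, one_ne_zero, by rw [one_smul, h2]⟩
    obtain ⟨D, hD⟩ := Finsupp.support_nonempty_iff.2 (S.ray_ne_zero hL hk h1)
    obtain ⟨D', hD'⟩ := Finsupp.support_nonempty_iff.2 (S.ray_ne_zero hL hk h2)
    refine ⟨_, _, ?_, S.carries_of_mem hL hE r1 hD (S.ray_support hL hE r1 D hD),
      S.carries_of_mem hL hE' r2 hD' (S.ray_support hL hE' r2 D' hD')⟩
    intro heq
    have hreach := SimpleGraph.ConnectedComponent.exact heq
    exact Finset.disjoint_left.1 hd (S.reach_support hE r1 hreach hD) hD'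
  · rintro ⟨C, C', hne, ⟨E, hE, hs, hr, -⟩, ⟨E', hE', hs', hr', -⟩⟩
    refine S.twoSections_of_disjoint hL (S.disjointSections_of_ray hL hE
      (S.carries_nonempty C hs) hr hE' (S.carries_nonempty C' hs') hr' ?_)
    rw [Finset.disjoint_left]
    intro x hx hx'
    have h1 : x ∈ (Subtype.val '' C.supp : Set P) := by rw [← hs]; exact hx
    have h2 : x ∈ (Subtype.val '' C'.supp : Set P) := by rw [← hs']; exact hx'
    obtain ⟨y, hy, rfl⟩ := h1
    obtain ⟨y', hy', hyy⟩ := h2
    have : y' = y := Subtype.ext hyy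
    subst this
    exact hne (hy.symm.trans hy')

theorem carries_of_monodromy (M : MonodromyData S) {L : Pic} (hL : S.NefIsotropic L)
    (C : (S.graph.induce (S.orth L)).ConnectedComponent) :
    S.Carries L (Subtype.val '' C.supp) := by
  obtain ⟨D, rfl⟩ := C.exists_rep
  obtain ⟨E, hE, hD, hr⟩ := S.exists_through M hL D.2
  exact S.carries_of_mem hL hE hr hD D.2

end HKDivisors

end

end Pool.Agent.SYZ
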