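import Pool.Agent.SYZ.RankFormula
import Pool.Agent.SYZ.Dichotomy

namespace Pool.Agent.SYZ

noncomputable section

namespace HKDivisors

variable {K P Pic : Type*} [Field K] [Algebra ℂ K] [AddCommGroup Pic]
variable (S : HKDivisors K P Pic)

open Classical in
/-- The rank of the span of `L` and the orthogonal primes. -/
theorem rank_orthSpan' [Module.Finite ℤ Pic] {L : Pic} (hL : S.NefIsotropic L) :
    {C : (S.graph.induce (S.orth L)).ConnectedComponent |
      ¬ (S.Carries L (Subtype.val '' C.supp) ∧ C.supp.Subsingleton)}.Finite ∧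
    Module.finrank ℤ (S.orthSpan L) =
      1 + ∑ᶠ C : (S.graph.induce (S.orth L)).ConnectedComponent,
        (C.supp.ncard - if S.Carries L (Subtype.val '' C.supp) then 1 else 0) := by
  set Γ := S.graph.induce (S.orth L) with hΓ
  have hfinW : Module.Finite ℤ (S.orthSpan L) :=
    inferInstanceAs (Module.Finite ℤ (AddSubgroup.toIntSubmodule (S.orthSpan L)))
  -- a vertex in every component
  have hv : ∀ C : Γ.ConnectedComponent, ∃ D : S.orth L, Γ.connectedComponentMk D = C :=
    fun C => C.exists_rep
  choose v hv using hv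
  let F₀ : Set (S.orth L) := {D | ¬ (S.Carries L (Subtype.val '' (Γ.connectedComponentMk D).supp) ∧
    v (Γ.connectedComponentMk D) = D)}
  -- no relations between the vertices in `F₀` and `L`
  have hrel : ∀ (X : P →₀ ℤ) (c : ℤ), (∀ D ∈ X.support, ∃ h : D ∈ S.orth L,
      (⟨D, h⟩ : S.orth L) ∈ F₀) → S.O X = c • L → X = 0 := by
    intro X c hX hO
    by_contra h0
    obtain ⟨E, hE, hE0, hEs, hEr⟩ := S.exists_of_relation hL h0 (fun D hD => (hX D hD).1) c hO
    obtain ⟨D, hD⟩ := Finsupp.support_nonempty_iff.2 hE0
    obtain ⟨hDo, -⟩ := hX D (hEs hD)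
    have hr : Γ.Reachable ⟨D, hDo⟩ (v (Γ.connectedComponentMk ⟨D, hDo⟩)) :=
      SimpleGraph.ConnectedComponent.exact (hv _).symm
    have h1 := S.reach_support hE hEr hr hD
    obtain ⟨h2, h3⟩ := hX _ (hEs h1)
    apply h3
    change S.Carries L (Subtype.val '' (Γ.connectedComponentMk
      (v (Γ.connectedComponentMk ⟨D, hDo⟩))).supp) ∧
        v (Γ.connectedComponentMk (v (Γ.connectedComponentMk ⟨D, hDo⟩))) = _
    rw [hv]
    exact ⟨S.carries_of_mem hL hE hEr hD hDo, rfl⟩
  -- independence
  have hindep : ∀ T : Finset (S.orth L), (∀ D ∈ T, D ∈ F₀) →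
      T.card + 1 ≤ Module.finrank ℤ (S.orthSpan L) := by
    intro T hT
    let w : Option T → S.orthSpan L := fun o => match o with
      | none => ⟨L, AddSubgroup.mem_sup_right (self_mem_sat L)⟩
      | some D => ⟨S.cls (D : S.orth L), AddSubgroup.mem_sup_left
          (AddSubgroup.subset_closure ⟨_, (D : S.orth L).2, rfl⟩)⟩
    have hli : LinearIndependent ℤ w := by
      rw [Fintype.linearIndependent_iff]
      intro g hg
      rw [Fintype.sum_option] at hg
      have hg' : g none • L + ∑ D : T, g (some D) • S.cls ((D : S.orth L) : P) = 0 := by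
        have := congrArg (Subtype.val) hg
        simpa [w] using this
      let X : P →₀ ℤ := ∑ D : T, Finsupp.single ((D : S.orth L) : P) (g (some D))
      have hX : S.O X = ∑ D : T, g (some D) • S.cls ((D : S.orth L) : P) := by
        simp only [X, map_sum]
        refine Finset.sum_congr rfl fun D _ => ?_
        rw [cls, ← map_zsmul, Finsupp.smul_single, smul_eq_mul, mul_one]
      have hXval : ∀ D : T, X ((D : S.orth L) : P) = g (some D) := by
        intro D
        simp only [X, Finsupp.coe_finsetSum, Finset.sum_apply, Finsupp.single_apply]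
        rw [Finset.sum_eq_single D]
        · simp
        · intro D' _ hD'
          rw [if_neg]
          exact fun h => hD' (Subtype.ext (Subtype.ext h))
        · simp
      have hXs : ∀ D ∈ X.support, ∃ h : D ∈ S.orth L, (⟨D, h⟩ : S.orth L) ∈ F₀ := by
        intro D hD
        rw [Finsupp.mem_support_iff] at hD
        by_contra hn
        apply hD
        simp only [X, Finsupp.coe_finsetSum, Finset.sum_apply, Finsupp.single_apply]
        refine Finset.sum_eq_zero fun D' _ => ?_
        rw [if_neg]
        rintro rfl
        exact hn ⟨(D' : S.orth L).2, hT _ D'.2⟩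
      have hX0 : X = 0 := by
        refine hrel X (-(g none)) hXs ?_
        rw [hX, neg_smul, eq_neg_iff_add_eq_zero, add_comm, hg']
      have hsome : ∀ D : T, g (some D) = 0 := by
        intro D
        rw [← hXval D, hX0]
        rfl
      have hnone : g none = 0 := by
        simp only [hsome, zero_smul, Finset.sum_const_zero, add_zero] at hg'
        have h5 := congrArg S.deg hg'
        rw [map_zsmul, map_zero, zsmul_eq_mul] at h5
        rcases mul_eq_zero.1 h5 with h6 | h6
        · exact_mod_cast h6
        · exact absurd h6 hL.2.1.ne'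
      rintro (_ | D)
      · exact hnone
      · exact hsome D
    have h5 := hli.fintype_card_le_finrank
    rwa [Fintype.card_option, Fintype.card_coe] at h5
  have hF₀ : F₀.Finite := by
    by_contra hinf
    obtain ⟨T, hT, hTc⟩ := Set.Infinite.exists_subset_card_eq hinf
      (Module.finrank ℤ (S.orthSpan L))
    have := hindep T (fun D hD => hT hD)
    omega
  -- the upper bound
  set T := hF₀.toFinset with hT
  have hTmem : ∀ D, D ∈ T ↔ ¬ (S.Carries L (Subtype.val '' (Γ.connectedComponentMk D).supp) ∧
    v (Γ.connectedComponentMk D) = D) := fun D => hF₀.mem_toFinset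
  have hlow := hindep T (fun D hD => hF₀.mem_toFinset.1 hD)
  let H : Finset Pic := insert L (T.image fun D : S.orth L => S.cls (D : P))
  have hHL : L ∈ AddSubgroup.closure (H : Set Pic) := AddSubgroup.subset_closure (by simp [H])
  have hHT : ∀ D ∈ T, S.cls (D : P) ∈ AddSubgroup.closure (H : Set Pic) := by
    intro D hD
    refine AddSubgroup.subset_closure ?_
    rw [Finset.mem_coe, Finset.mem_insert]
    exact Or.inr (Finset.mem_image_of_mem _ hD)
  have hspan : S.orthSpan L ≤ ratClosure (AddSubgroup.closure (H : Set Pic)) := by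
    refine sup_le ((AddSubgroup.closure_le _).2 ?_) ?_
    · rintro _ ⟨D, hD, rfl⟩
      by_cases hDT : (⟨D, hD⟩ : S.orth L) ∈ T
      · exact le_ratClosure _ (hHT _ hDT)
      · rw [hTmem, not_not] at hDT
        obtain ⟨⟨E, hE, hEs, ⟨a, b, ha, hab⟩, -⟩, hDT⟩ := hDT
        have hDE : D ∈ E.support := by
          have : D ∈ (E.support : Set P) := by
            rw [hEs]
            exact ⟨⟨D, hD⟩, rfl, rfl⟩
          exact this
        refine ⟨a * E D, mul_ne_zero ha (Finsupp.mem_support_iff.1 hDE), ?_⟩
        have h1 : S.O E = E D • S.cls D + ∑ D' ∈ E.support.erase D, E D' • S.cls D' := by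
          rw [O_eq_sum, Finsupp.sum, ← Finset.add_sum_erase _ _ hDE]
        rw [h1, smul_add, smul_smul] at hab
        rw [eq_sub_of_add_eq hab]
        refine sub_mem (AddSubgroup.zsmul_mem _ hHL _) (AddSubgroup.zsmul_mem _
          (AddSubgroup.sum_mem _ fun D' hD' => AddSubgroup.zsmul_mem _ ?_ _) _)
        rw [Finset.mem_erase] at hD'
        have h2 : D' ∈ (E.support : Set P) := hD'.2
        rw [hEs] at h2
        obtain ⟨y, hy, rfl⟩ := h2
        refine hHT y ((hTmem y).2 ?_)
        rw [SimpleGraph.ConnectedComponent.mem_supp_iff] at hy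
        rw [hy, hDT]
        rintro ⟨-, h3⟩
        exact hD'.1 (congrArg Subtype.val h3).symm
    · rintro y ⟨a, b, ha, hab⟩
      exact ⟨a, ha, by rw [hab]; exact AddSubgroup.zsmul_mem _ hHL _⟩
  have hup : Module.finrank ℤ (S.orthSpan L) ≤ T.card + 1 := by
    refine (finrank_le_of_rational_span (S.orthSpan L) H (fun x hx => hspan hx)).trans ?_
    exact (Finset.card_insert_le _ _).trans (Nat.add_le_add_right Finset.card_image_le 1)
  -- counting by components
  have hfib : ∀ C : Γ.ConnectedComponent,
      (C.supp.ncard - if S.Carries L (Subtype.val '' C.supp) then 1 else 0) =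
        (T.filter fun D => Γ.connectedComponentMk D = C).card := by
    intro C
    by_cases hC : S.Carries L (Subtype.val '' C.supp)
    · have hCs : C.supp = insert (v C) ((T.filter fun D => Γ.connectedComponentMk D = C :
          Finset (S.orth L)) : Set (S.orth L)) := by
        ext D
        rw [SimpleGraph.ConnectedComponent.mem_supp_iff, Set.mem_insert_iff, Finset.mem_coe,
          Finset.mem_filter, hTmem]
        constructor
        · intro h
          by_cases h1 : D = v C
          · exact Or.inl h1
          · right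
            rw [h]
            exact ⟨fun h2 => h1 h2.2.symm, rfl⟩
        · rintro (h | h)
          · rw [h, hv]
          · exact h.2
      have hnot : v C ∉ ((T.filter fun D => Γ.connectedComponentMk D = C :
          Finset (S.orth L)) : Set (S.orth L)) := by
        rw [Finset.mem_coe, Finset.mem_filter, hTmem]
        rintro ⟨h1, h2⟩
        rw [h2] at h1
        exact h1 ⟨hC, rfl⟩
      rw [if_pos hC, hCs, Set.ncard_insert_of_notMem hnot (Finset.finite_toSet _),
        Set.ncard_coe_finset]
      rfl
    · have hCs : C.supp = ((T.filter fun D => Γ.connectedComponentMk D = C :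
          Finset (S.orth L)) : Set (S.orth L)) := by
        ext D
        rw [SimpleGraph.ConnectedComponent.mem_supp_iff, Finset.mem_coe, Finset.mem_filter, hTmem]
        constructor
        · intro h
          rw [h]
          exact ⟨fun h2 => hC h2.1, rfl⟩
        · rintro h
          exact h.2
      rw [if_neg hC, hCs, Set.ncard_coe_finset]
      rfl
  have hsum : ∑ᶠ C : Γ.ConnectedComponent,
      (C.supp.ncard - if S.Carries L (Subtype.val '' C.supp) then 1 else 0) = T.card := by
    rw [finsum_eq_sum_of_support_subset (s := T.image Γ.connectedComponentMk)]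
    · rw [Finset.card_eq_sum_card_fiberwise (f := Γ.connectedComponentMk) (s := T)
        (t := T.image Γ.connectedComponentMk) (fun D hD => Finset.mem_coe.2
          (Finset.mem_image_of_mem _ hD))]
      exact Finset.sum_congr rfl fun C _ => hfib C
    · intro C hC
      rw [Function.mem_support, hfib, Ne, Finset.card_eq_zero, ← Ne,
        ← Finset.nonempty_iff_ne_empty] at hC
      obtain ⟨D, hD⟩ := hC
      rw [Finset.mem_filter] at hD
      rw [Finset.mem_coe, Finset.mem_image]
      exact ⟨D, hD.1, hD.2⟩
  refine ⟨(T.finite_toSet.image Γ.connectedComponentMk).subset fun C hC => ?_, ?_⟩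
  · by_cases h1 : S.Carries L (Subtype.val '' C.supp)
    · have h2 : ¬ C.supp.Subsingleton := fun h3 => hC ⟨h1, h3⟩
      rw [Set.not_subsingleton_iff] at h2
      obtain ⟨D, hD, hne⟩ := h2.exists_ne (v C)
      refine ⟨D, (hTmem D).2 ?_, hD⟩
      rintro ⟨-, h4⟩
      have h5 : Γ.connectedComponentMk D = C := hD
      rw [h5] at h4
      exact hne h4.symm
    · refine ⟨v C, (hTmem _).2 ?_, hv C⟩
      rw [hv]
      exact fun h4 => h1 h4.1
  rw [hsum]
  omega

open Classical in
/-- Shioda–Tate type formula. -/
theorem rank_formula' [Module.Finite ℤ Pic] {L : Pic} (hL : S.NefIsotropic L) :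
    {C : (S.graph.induce (S.orth L)).ConnectedComponent |
      ¬ (S.Carries L (Subtype.val '' C.supp) ∧ C.supp.Subsingleton)}.Finite ∧
    Module.finrank ℤ (S.doublePerp L) +
      ∑ᶠ C : (S.graph.induce (S.orth L)).ConnectedComponent,
        (C.supp.ncard - if S.Carries L (Subtype.val '' C.supp) then 1 else 0) =
          S.perpRank L := by
  have h1 := S.rank_duality hL
  obtain ⟨h2, h3⟩ := S.rank_orthSpan' hL
  rw [h3] at h1
  exact ⟨h2, by omega⟩

theorem component_finite [Module.Finite ℤ Pic] {L : Pic} (hL : S.NefIsotropic L)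
    (C : (S.graph.induce (S.orth L)).ConnectedComponent) : C.supp.Finite ∧
      (S.Carries L (Subtype.val '' C.supp) ∨ S.IndependentMod L (Subtype.val '' C.supp)) := by
  rcases S.component_dichotomy hL C with h | ⟨h1, h2⟩
  · refine ⟨?_, Or.inl h⟩
    obtain ⟨E, -, hE, -⟩ := h
    refine Set.Finite.of_finite_image (f := Subtype.val) ?_ Subtype.val_injective.injOn
    rw [← hE]
    exact E.support.finite_toSet
  · exact ⟨Set.Finite.of_finite_image h1 Subtype.val_injective.injOn, Or.inr h2⟩

theorem tfae_carries [Module.Finite ℤ Pic] {L : Pic} (hL : S.NefIsotropic L) :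
    List.TFAE [S.TwoSections L,
      ∃ C C' : (S.graph.induce (S.orth L)).ConnectedComponent, C ≠ C' ∧
        S.Carries L (Subtype.val '' C.supp) ∧ S.Carries L (Subtype.val '' C'.supp),
      {C : (S.graph.induce (S.orth L)).ConnectedComponent |
        S.Carries L (Subtype.val '' C.supp)}.Infinite] := by
  tfae_have 1 ↔ 2 := S.twoSections_iff_carries hL
  tfae_have 3 → 2 := by
    intro h
    obtain ⟨C, hC, C', hC', hne⟩ := h.nontrivial
    exact ⟨C, C', hne, hC, hC'⟩
  tfae_have 1 → 3 := by
    intro h hfin
    have h1 : (S.orth L).Infinite := ((S.tfae hL).out 0 2).1 h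
    have h2 : (Set.univ : Set (S.graph.induce (S.orth L)).ConnectedComponent).Finite := by
      refine (hfin.union (S.rank_formula' hL).1).subset fun C _ => ?_
      by_cases hC : S.Carries L (Subtype.val '' C.supp)
      · exact Or.inl hC
      · exact Or.inr fun h3 => hC h3.1
    apply h1
    have h3 : (S.orth L) ⊆ ⋃ C ∈ (Set.univ : Set (S.graph.induce (S.orth L)).ConnectedComponent),
        Subtype.val '' C.supp := by
      intro D hD
      rw [Set.mem_iUnion₂]
      exact ⟨(S.graph.induce (S.orth L)).connectedComponentMk ⟨D, hD⟩, trivial, ⟨D, hD⟩, rfl, rfl⟩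
    exact (h2.biUnion fun C _ => (S.component_finite hL C).1.image _).subset h3
  tfae_finish

end HKDivisors

end

end Pool.Agent.SYZ
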