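import Pool.Agent.SYZ.Basic

namespace Pool.Agent.SYZ

noncomputable section

namespace HKDivisors

variable {K P Pic : Type*} [Field K] [Algebra ℂ K] [AddCommGroup Pic]
variable (S : HKDivisors K P Pic)

/-- Positive part of an integral divisor. -/
def pos (E : P →₀ ℤ) : P →₀ ℤ := E.mapRange (fun n => max n 0) (by simp)

theorem pos_nonneg (E : P →₀ ℤ) : 0 ≤ pos E := by
  intro D
  simp [pos]

theorem pos_sub_pos (E : P →₀ ℤ) : pos E - pos (-E) = E := by
  ext D
  simp only [pos, Finsupp.coe_sub, Pi.sub_apply, Finsupp.mapRange_apply, Finsupp.coe_neg,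
    Pi.neg_apply]
  rcases le_total (E D) 0 with h | h
  · rw [max_eq_right h, max_eq_left (by omega)]; omega
  · rw [max_eq_left h, max_eq_right (by omega)]; omega

theorem pos_disjoint (E : P →₀ ℤ) : Disjoint (pos E).support (pos (-E)).support := by
  rw [Finset.disjoint_left]
  intro D h1 h2
  rw [Finsupp.mem_support_iff] at h1 h2
  simp only [pos, Finsupp.mapRange_apply, Finsupp.coe_neg, Pi.neg_apply] at h1 h2
  omega

theorem pos_support (E : P →₀ ℤ) : (pos E).support ⊆ E.support := by
  intro D h1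
  rw [Finsupp.mem_support_iff] at h1 ⊢
  simp only [pos, Finsupp.mapRange_apply] at h1
  intro h
  rw [h] at h1
  simp at h1

/-- A nontrivial relation between orthogonal primes and `L` gives a nonzero effective divisor
supported on these primes and proportional to `L`. -/
theorem exists_of_relation {L : Pic} (hL : S.NefIsotropic L) {E : P →₀ ℤ} (h0 : E ≠ 0)
    (hs : ∀ D ∈ E.support, D ∈ S.orth L) (c : ℤ) (h : S.O E = c • L) :
    ∃ E' : P →₀ ℤ, 0 ≤ E' ∧ E' ≠ 0 ∧ E'.support ⊆ E.support ∧ Ray L (S.O E') := by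
  have hp := pos_sub_pos E
  have e1 : S.O (pos E) = S.O (pos (-E)) + c • L := by
    rw [← h, ← sub_eq_iff_eq_add', ← map_sub, hp]
  have e2 : S.O (pos (-E)) = S.O (pos E) + (-c) • L := by
    rw [e1, neg_smul]; abel
  have s2 : (pos (-E)).support ⊆ E.support := by
    have := pos_support (-E)
    rwa [Finsupp.support_neg] at this
  by_cases h1 : pos E = 0
  · have h2 : pos (-E) ≠ 0 := by
      intro h2
      rw [h1, h2, sub_zero] at hp
      exact h0 hp.symm
    exact ⟨pos (-E), pos_nonneg _, h2, s2, S.ray_of_sub hL (pos_nonneg _) (pos_nonneg _)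
      (pos_disjoint E).symm (S.q_O_eq_zero fun D hD => hs D (s2 hD)) _ e2⟩
  · exact ⟨pos E, pos_nonneg _, h1, pos_support E, S.ray_of_sub hL (pos_nonneg _) (pos_nonneg _)
      (pos_disjoint E) (S.q_O_eq_zero fun D hD => hs D (pos_support E hD)) _ e1⟩

/-- `r` prime divisors orthogonal to `L` support an effective divisor proportional to `L`. -/
theorem exists_supported [Module.Finite ℤ Pic] {L : Pic} (hL : S.NefIsotropic L) (F : Finset P)
    (hF : ∀ D ∈ F, D ∈ S.orth L) (hc : S.perpRank L ≤ F.card) :
    ∃ E : P →₀ ℤ, 0 ≤ E ∧ E ≠ 0 ∧ E.support ⊆ F ∧ Ray L (S.O E) := by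
  classical
  have hfin : Module.Finite ℤ (S.q L).ker :=
    inferInstanceAs (Module.Finite ℤ (AddSubgroup.toIntSubmodule (S.q L).ker))
  -- the family consisting of `L` and the primes in `F`
  let w : Option F → (S.q L).ker := fun o => match o with
    | none => ⟨L, hL.1⟩
    | some D => ⟨S.cls D, hF D D.2⟩
  have hdep : ¬ LinearIndependent ℤ w := by
    intro hli
    have h1 := hli.fintype_card_le_finrank
    rw [Fintype.card_option, Fintype.card_coe] at h1
    rw [perpRank] at hc
    omega
  rw [Fintype.not_linearIndependent_iff] at hdep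
  obtain ⟨g, hg, i, hi⟩ := hdep
  rw [Fintype.sum_option] at hg
  have hg' : g none • L + ∑ D : F, g (some D) • S.cls D = 0 := by
    have := congrArg (Subtype.val) hg
    simpa [w] using this
  let E : P →₀ ℤ := ∑ D : F, Finsupp.single (D : P) (g (some D))
  have hE : S.O E = ∑ D : F, g (some D) • S.cls D := by
    simp only [E, map_sum]
    refine Finset.sum_congr rfl fun D _ => ?_
    rw [cls, ← map_zsmul, Finsupp.smul_single, smul_eq_mul, mul_one]
  have hEval : ∀ D : F, E D = g (some D) := by
    intro D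
    simp only [E, Finsupp.coe_finsetSum, Finset.sum_apply, Finsupp.single_apply]
    rw [Finset.sum_eq_single D]
    · simp
    · intro D' _ hD'
      rw [if_neg]
      exact fun h => hD' (Subtype.ext h)
    · simp
  have hsup : E.support ⊆ F := by
    intro D hD
    by_contra hn
    rw [Finsupp.mem_support_iff] at hD
    apply hD
    simp only [E, Finsupp.coe_finsetSum, Finset.sum_apply, Finsupp.single_apply]
    refine Finset.sum_eq_zero fun D' _ => ?_
    rw [if_neg]
    rintro rfl
    exact hn D'.2
  have hrel : S.O E = (-(g none)) • L := by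
    rw [hE, neg_smul, eq_neg_iff_add_eq_zero, add_comm, hg']
  have hne : E ≠ 0 := by
    intro h0
    have h1 : g none = 0 := by
      rw [h0, map_zero] at hrel
      have h2 := congrArg S.deg hrel
      rw [map_zero, map_zsmul, zsmul_eq_mul] at h2
      rcases mul_eq_zero.1 h2.symm with h3 | h3
      · have : -(g none) = 0 := by exact_mod_cast h3
        omega
      · exact absurd h3 hL.2.1.ne'
    rcases i with _ | D
    · exact hi h1
    · apply hi
      rw [← hEval D, h0]
      rfl
  obtain ⟨E', p1, p2, p3, p4⟩ := S.exists_of_relation hL hne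
    (fun D hD => hF D (hsup hD)) _ hrel
  exact ⟨E', p1, p2, p3.trans hsup, p4⟩

theorem qEffective_of_ray {L : Pic} (hL : S.NefIsotropic L) {E : P →₀ ℤ} (hE : 0 ≤ E)
    (h0 : E ≠ 0) (h : Ray L (S.O E)) : S.QEffective L := by
  obtain ⟨a, b, ha, hb, hab⟩ := Ray.pos S hL.2.1 hE h0 h
  refine ⟨b, hb, a • E, ?_, hab⟩
  exact smul_nonneg ha.le hE

/-- Two nonzero effective divisors proportional to `L`, with disjoint supports, give two disjoint
sections of a power of `L`. -/
theorem disjointSections_of_ray {L : Pic} (hL : S.NefIsotropic L) {E E' : P →₀ ℤ} (hE : 0 ≤ E)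
    (h0 : E ≠ 0) (h : Ray L (S.O E)) (hE' : 0 ≤ E') (h0' : E' ≠ 0) (h' : Ray L (S.O E'))
    (hd : Disjoint E.support E'.support) : S.DisjointSections L := by
  obtain ⟨a, b, ha, hb, hab⟩ := Ray.pos S hL.2.1 hE h0 h
  obtain ⟨a', b', ha', hb', hab'⟩ := Ray.pos S hL.2.1 hE' h0' h'
  refine ⟨b * b', mul_pos hb hb', (b' * a) • E, (b * a') • E',
    smul_nonneg (mul_pos hb' ha).le hE, smul_nonneg (mul_pos hb ha').le hE', ?_, ?_, ?_⟩
  · exact Finset.disjoint_of_subset_left (Finsupp.support_smul)
      (Finset.disjoint_of_subset_right (Finsupp.support_smul) hd)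
  · rw [mul_smul, map_zsmul, hab, smul_smul, mul_comm]
  · rw [mul_smul, map_zsmul, hab', smul_smul]

theorem twoSections_of_disjoint {L : Pic} (hL : S.NefIsotropic L) (h : S.DisjointSections L) :
    S.TwoSections L := by
  obtain ⟨k, hk, E, E', hE, hE', hd, h1, h2⟩ := h
  refine ⟨k, hk, E, E', hE, hE', ?_, h1, h2⟩
  rintro rfl
  have h0 : E = 0 := by
    rw [← Finsupp.support_eq_empty]
    exact Finset.disjoint_self_iff_empty _ |>.1 hd
  rw [h0, map_zero] at h1
  have h3 := congrArg S.deg h1
  rw [map_zero, map_zsmul, zsmul_eq_mul] at h3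
  have : 0 < (k : ℝ) * S.deg L := mul_pos (by exact_mod_cast hk) hL.2.1
  linarith

/-- Removing the common part of two different effective divisors in the class of a multiple of `L`
leaves two nonzero effective divisors proportional to `L` with disjoint supports. -/
theorem moving_part {L : Pic} (hL : S.NefIsotropic L) {E E' : P →₀ ℤ} (hE : 0 ≤ E) (hE' : 0 ≤ E')
    (hne : E ≠ E') {k : ℤ} (h1 : S.O E = k • L) (h2 : S.O E' = k • L) :
    ∃ X X' : P →₀ ℤ, 0 ≤ X ∧ 0 ≤ X' ∧ X ≠ 0 ∧ X' ≠ 0 ∧ Ray L (S.O X) ∧ Ray L (S.O X') ∧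
      Disjoint X.support X'.support ∧ X.support ⊆ E.support ∧ X'.support ⊆ E'.support := by
  have o1 : S.q L (S.O E) = 0 := by rw [h1, map_zsmul, hL.1, smul_zero]
  have s1 := S.support_subset_orth hL hE o1
  -- the moving parts
  set X := pos (E - E') with hX
  set X' := pos (-(E - E')) with hX'
  have hsub : X - X' = E - E' := pos_sub_pos _
  have hXX : S.O X = S.O X' := by
    have h3 : S.O (X - X') = S.O (E - E') := by rw [hsub]
    rw [map_sub, map_sub, h1, h2, sub_self, sub_eq_zero] at h3
    exact h3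
  have hle : X.support ⊆ E.support := by
    intro D hD
    rw [Finsupp.mem_support_iff] at hD ⊢
    simp only [hX, pos, Finsupp.mapRange_apply, Finsupp.coe_sub, Pi.sub_apply] at hD
    intro h0
    have := hE' D
    simp only [Finsupp.coe_zero, Pi.zero_apply] at this
    omega
  have hle' : X'.support ⊆ E'.support := by
    intro D hD
    rw [Finsupp.mem_support_iff] at hD ⊢
    simp only [hX', pos, Finsupp.mapRange_apply, Finsupp.coe_sub, Pi.sub_apply, Finsupp.coe_neg,
      Pi.neg_apply] at hD
    intro h0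
    have := hE D
    simp only [Finsupp.coe_zero, Pi.zero_apply] at this
    omega
  have hX0 : X ≠ 0 := by
    intro h0
    have hX0' : X' ≠ 0 := by
      intro h0'
      rw [h0, h0', sub_zero] at hsub
      exact hne (sub_eq_zero.1 hsub.symm)
    have := S.deg_O_pos (pos_nonneg (-(E - E'))) hX0'
    rw [← hX', ← hXX, h0, map_zero, map_zero] at this
    exact lt_irrefl _ this
  have hX0' : X' ≠ 0 := by
    intro h0'
    have := S.deg_O_pos (pos_nonneg (E - E')) hX0
    rw [← hX, hXX, h0', map_zero, map_zero] at this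
    exact lt_irrefl _ this
  have r1 : Ray L (S.O X) := S.ray_of_sub hL (pos_nonneg _) (pos_nonneg _) (pos_disjoint (E - E'))
    (S.q_O_eq_zero fun D hD => s1 D (hle hD)) 0 (by rw [zero_smul, add_zero]; exact hXX)
  have r2 : Ray L (S.O X') := by rw [← hXX]; exact r1
  exact ⟨X, X', pos_nonneg _, pos_nonneg _, hX0, hX0', r1, r2, pos_disjoint (E - E'), hle, hle'⟩

/-- Two different effective divisors in the class of a positive multiple of `L` can be made
disjoint. -/
theorem disjoint_of_twoSections {L : Pic} (hL : S.NefIsotropic L) (h : S.TwoSections L) :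
    S.DisjointSections L := by
  obtain ⟨k, hk, E, E', hE, hE', hne, h1, h2⟩ := h
  obtain ⟨X, X', p1, p2, p3, p4, p5, p6, p7, -, -⟩ := S.moving_part hL hE hE' hne h1 h2
  exact S.disjointSections_of_ray hL p1 p3 p5 p2 p4 p6 p7

/-- More than `r` prime divisors orthogonal to `L` give two sections of a power of `L`. -/
theorem twoSections_of_card [Module.Finite ℤ Pic] {L : Pic} (hL : S.NefIsotropic L) (F : Finset P)
    (hF : ∀ D ∈ F, D ∈ S.orth L) (hc : S.perpRank L < F.card) : S.TwoSections L := by
  classical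
  obtain ⟨E, h1, h2, h3, h4⟩ := S.exists_supported hL F hF hc.le
  obtain ⟨j, hj⟩ := Finsupp.support_nonempty_iff.2 h2
  have hc' : S.perpRank L ≤ (F.erase j).card := by
    rw [Finset.card_erase_of_mem (h3 hj)]
    omega
  obtain ⟨E', p1, p2, p3, p4⟩ := S.exists_supported hL (F.erase j)
    (fun D hD => hF D (Finset.mem_of_mem_erase hD)) hc'
  obtain ⟨a, b, ha, hb, hab⟩ := Ray.pos S hL.2.1 h1 h2 h4
  obtain ⟨a', b', ha', hb', hab'⟩ := Ray.pos S hL.2.1 p1 p2 p4
  refine ⟨b * b', mul_pos hb hb', (b' * a) • E, (b * a') • E',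
    smul_nonneg (mul_pos hb' ha).le h1, smul_nonneg (mul_pos hb ha').le p1, ?_, ?_, ?_⟩
  · intro heq
    have h5 := DFunLike.congr_fun heq j
    have h6 : E' j = 0 := by
      by_contra h7
      exact Finset.notMem_erase j F (p3 (Finsupp.mem_support_iff.2 h7))
    simp only [Finsupp.coe_smul, Pi.smul_apply, smul_eq_mul, h6, mul_zero] at h5
    have h8 : E j ≠ 0 := Finsupp.mem_support_iff.1 hj
    exact mul_ne_zero (mul_pos hb' ha).ne' h8 h5
  · rw [mul_smul, map_zsmul, hab, smul_smul, mul_comm]
  · rw [mul_smul, map_zsmul, hab', smul_smul]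

end HKDivisors

end

end Pool.Agent.SYZ
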