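import Mathlib

/-!
# Divisor data of a hyperkähler manifold

The structure `HKDivisors` collects the divisor-theoretic data of a compact hyperkähler manifold:
meromorphic functions, prime divisors, the Picard group, the Beauville–Bogomolov–Fujiki form on it
and the degree with respect to a Kähler class. `MonodromyData` and `BirationalData` add the actions
of the Hodge monodromy group and of the group of bimeromorphic self-maps on the Picard group.
-/

namespace Pool.Agent.SYZ

noncomputable section

/-- Divisor data of a compact hyperkähler manifold `M`: `K` is the field of meromorphic functions,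
`P` the set of prime divisors, `Pic` the Picard group (additively written),
`v D f` the order of `f` along `D`, `O E` the class of the divisor `E`, `q` the
Beauville–Bogomolov–Fujiki form on `Pic`, `deg x = q(x, ω)` for a Kähler class `ω`.
The last field is the Hodge index theorem (`q` has signature `(1, h^{1,1} - 1)` on the real
`(1,1)`-classes), spelled out for the orthogonal complement of an isotropic class. -/
structure HKDivisors (K P Pic : Type*) [Field K] [Algebra ℂ K] [AddCommGroup Pic] where
  /-- order of a meromorphic function along a prime divisor -/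
  v : P → K → ℤ
  v_mul : ∀ D f g, f ≠ 0 → g ≠ 0 → v D (f * g) = v D f + v D g
  v_add : ∀ D f g, f ≠ 0 → g ≠ 0 → f + g ≠ 0 → min (v D f) (v D g) ≤ v D (f + g)
  v_const : ∀ D (c : ℂ), c ≠ 0 → v D (algebraMap ℂ K c) = 0
  v_finite : ∀ f, f ≠ 0 → {D | v D f ≠ 0}.Finite
  const_of_holomorphic : ∀ f, f ≠ 0 → (∀ D, 0 ≤ v D f) → ∃ c : ℂ, f = algebraMap ℂ K c
  /-- the class of a divisor in the Picard group -/
  O : (P →₀ ℤ) →+ Pic
  O_eq_zero_iff : ∀ E, O E = 0 ↔ ∃ f, f ≠ 0 ∧ ∀ D, E D = v D f
  /-- the Beauville–Bogomolov–Fujiki form -/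
  q : Pic →+ Pic →+ ℤ
  q_symm : ∀ x y, q x y = q y x
  q_prime : ∀ D D', D ≠ D' → 0 ≤ q (O (Finsupp.single D 1)) (O (Finsupp.single D' 1))
  /-- the degree with respect to a Kähler class -/
  deg : Pic →+ ℝ
  deg_prime : ∀ D, 0 < deg (O (Finsupp.single D 1))
  hodge_index : ∀ L x, q L L = 0 → deg L ≠ 0 → q L x = 0 → 0 ≤ q x x →
    ∃ a b : ℤ, a ≠ 0 ∧ a • x = b • L

variable {K P Pic : Type*} [Field K] [Algebra ℂ K] [AddCommGroup Pic]

namespace HKDivisors

/-- The class of a prime divisor. -/
def cls (S : HKDivisors K P Pic) (D : P) : Pic := S.O (Finsupp.single D 1)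

/-- Some positive power of `x` has a nonzero section, i.e. `k • x` is the class of an effective
divisor for some `k > 0`. -/
def QEffective (S : HKDivisors K P Pic) (x : Pic) : Prop :=
  ∃ k : ℤ, 0 < k ∧ ∃ E : P →₀ ℤ, 0 ≤ E ∧ S.O E = k • x

/-- Some positive power of `L` has two linearly independent sections, i.e. `k • L` is the class of
two different effective divisors for some `k > 0`. -/
def TwoSections (S : HKDivisors K P Pic) (L : Pic) : Prop :=
  ∃ k : ℤ, 0 < k ∧ ∃ E E' : P →₀ ℤ, 0 ≤ E ∧ 0 ≤ E' ∧ E ≠ E' ∧ S.O E = k • L ∧ S.O E' = k • L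

/-- Some positive power of `L` has two sections without common zero divisor. -/
def DisjointSections (S : HKDivisors K P Pic) (L : Pic) : Prop :=
  ∃ k : ℤ, 0 < k ∧ ∃ E E' : P →₀ ℤ, 0 ≤ E ∧ 0 ≤ E' ∧ Disjoint E.support E'.support ∧
    S.O E = k • L ∧ S.O E' = k • L

/-- `L` behaves like a nontrivial nef (or movable) line bundle with `q(L, L) = 0`. -/
def NefIsotropic (S : HKDivisors K P Pic) (L : Pic) : Prop :=
  S.q L L = 0 ∧ 0 < S.deg L ∧ ∀ D, 0 ≤ S.q L (S.cls D)

/-- The prime divisors orthogonal to `L`. -/
def orth (S : HKDivisors K P Pic) (L : Pic) : Set P := {D | S.q L (S.cls D) = 0}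

/-- The rank of the group of all classes orthogonal to `L`. -/
def perpRank (S : HKDivisors K P Pic) (L : Pic) : ℕ :=
  Module.finrank ℤ (S.q L).ker

/-- The graph of prime divisors: two different prime divisors are joined if `q(D, D') ≠ 0`. -/
def graph (S : HKDivisors K P Pic) : SimpleGraph P where
  Adj D D' := D ≠ D' ∧ S.q (S.cls D) (S.cls D') ≠ 0
  symm := ⟨fun D D' h => ⟨h.1.symm, by rw [S.q_symm]; exact h.2⟩⟩
  loopless := ⟨fun D h => h.1 rfl⟩

/-- The group of classes orthogonal to `L` and to all prime divisors orthogonal to `L`. -/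
def doublePerp (S : HKDivisors K P Pic) (L : Pic) : AddSubgroup Pic where
  carrier := {t | S.q L t = 0 ∧ ∀ D ∈ S.orth L, S.q t (S.cls D) = 0}
  add_mem' := by
    rintro s t ⟨hs1, hs2⟩ ⟨ht1, ht2⟩
    refine ⟨by rw [map_add, hs1, ht1, add_zero], fun D hD => ?_⟩
    rw [map_add, AddMonoidHom.add_apply, hs2 D hD, ht2 D hD, add_zero]
  zero_mem' := ⟨map_zero _, fun D _ => by rw [map_zero, AddMonoidHom.zero_apply]⟩
  neg_mem' := by
    rintro t ⟨ht1, ht2⟩
    refine ⟨by rw [map_neg, ht1, neg_zero], fun D hD => ?_⟩
    rw [map_neg, AddMonoidHom.neg_apply, ht2 D hD, neg_zero]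

/-- The Eichler transvection `x ↦ x - 2q(t,x)L + 2q(L,x)t - 2q(t,t)q(L,x)L`. -/
def eichlerFun (S : HKDivisors K P Pic) (L t : Pic) (x : Pic) : Pic :=
  x - (2 * S.q t x) • L + (2 * S.q L x) • t - (2 * S.q t t * S.q L x) • L

end HKDivisors

/-- Monodromy data of a projective hyperkähler manifold: `mon` is the group of automorphisms of
`Pic` induced by monodromy operators that preserve the Hodge structure. It consists of isometries;
it has finite index in the isometry group of `Pic`, so that a fixed power of every isometry lies in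
it (Verbitsky); and a monodromy operator maps the class of a prime exceptional divisor to a class
which is, up to sign, rationally effective (Markman). -/
structure MonodromyData (S : HKDivisors K P Pic) where
  /-- the group of Hodge monodromy operators, acting on the Picard group -/
  mon : Subgroup (Pic ≃ₗ[ℤ] Pic)
  mon_isometry : ∀ g ∈ mon, ∀ x y, S.q (g x) (g y) = S.q x y
  mon_finite_index : ∃ N : ℕ, 0 < N ∧
    ∀ g : Pic ≃ₗ[ℤ] Pic, (∀ x y, S.q (g x) (g y) = S.q x y) → g ^ N ∈ mon
  mon_exceptional : ∀ D, S.q (S.cls D) (S.cls D) < 0 → ∀ g ∈ mon,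
    S.QEffective (g (S.cls D)) ∨ S.QEffective (-(g (S.cls D)))

/-- Monodromy data together with the group `bir` of automorphisms of `Pic` induced by bimeromorphic
self-maps of `M`. These are isometries and permute the prime divisors; and a Hodge monodromy
operator mapping the class of every prime exceptional divisor to a rationally effective class is
induced by a bimeromorphic self-map (Markman's Hodge-theoretic Torelli theorem). -/
structure BirationalData (S : HKDivisors K P Pic) extends MonodromyData S where
  /-- the group induced by bimeromorphic self-maps, acting on the Picard group -/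
  bir : Subgroup (Pic ≃ₗ[ℤ] Pic)
  bir_isometry : ∀ g ∈ bir, ∀ x y, S.q (g x) (g y) = S.q x y
  bir_prime : ∀ g ∈ bir, ∀ D, ∃ D', g (S.cls D) = S.cls D'
  torelli : ∀ g ∈ mon, (∀ D, S.q (S.cls D) (S.cls D) < 0 → S.QEffective (g (S.cls D))) → g ∈ bir

end

end Pool.Agent.SYZ
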