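import Pool.Agent.SYZ.Defs

/-! Sets of prime divisors that support an effective divisor proportional to `L`. -/

namespace Pool.Agent.SYZ

noncomputable section

variable {K P Pic : Type*} [Field K] [Algebra ℂ K] [AddCommGroup Pic]

/-- The set `T` of prime divisors is the support of an effective divisor rationally proportional to
`L`, and every effective divisor with support in `T` rationally proportional to `L` is a rational
multiple of it. -/
def HKDivisors.Carries (S : HKDivisors K P Pic) (L : Pic) (T : Set P) : Prop :=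
  ∃ E : P →₀ ℤ, 0 ≤ E ∧ (E.support : Set P) = T ∧ (∃ a b : ℤ, a ≠ 0 ∧ a • S.O E = b • L) ∧
    ∀ E' : P →₀ ℤ, 0 ≤ E' → (E'.support : Set P) ⊆ T → (∃ a b : ℤ, a ≠ 0 ∧ a • S.O E' = b • L) →
      ∃ a b : ℤ, 0 < a ∧ 0 ≤ b ∧ a • E' = b • E

/-- The classes of the prime divisors in `T` are linearly independent modulo `ℚ L`: no nonzero
divisor with support in `T` has a class rationally proportional to `L`. -/
def HKDivisors.IndependentMod (S : HKDivisors K P Pic) (L : Pic) (T : Set P) : Prop :=
  ∀ E : P →₀ ℤ, (E.support : Set P) ⊆ T → (∃ a b : ℤ, a ≠ 0 ∧ a • S.O E = b • L) → E = 0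

end

end Pool.Agent.SYZ
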