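import Pool.Agent.SYZ.DefsIitaka

/-! The degree of the pole divisor of a meromorphic function. -/

namespace Pool.Agent.SYZ

noncomputable section

variable {K P Pic : Type*} [Field K] [Algebra ℂ K] [AddCommGroup Pic]

/-- The degree of the pole divisor of a meromorphic function. -/
def HKDivisors.poleDeg (S : HKDivisors K P Pic) (f : K) : ℝ :=
  ∑ᶠ D, (max (-(S.v D f)) 0 : ℝ) * S.deg (S.cls D)

end

end Pool.Agent.SYZ
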