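import Pool.Agent.SYZ.Defs

/-! Bimeromorphic self-maps and sections, in the divisor data of a hyperkähler manifold. -/

namespace Pool.Agent.SYZ

noncomputable section

variable {K P Pic : Type*} [Field K] [Algebra ℂ K] [AddCommGroup Pic]

/-- A bimeromorphic self-map `φ` of a hyperkähler manifold, through its actions on meromorphic
functions (`γ`), on prime divisors (`π`) and on the Picard group (`g`). The action on the Picard
group is an isometry, since `φ` is an isomorphism in codimension one. -/
structure SelfMap (S : HKDivisors K P Pic) where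
  /-- action on meromorphic functions -/
  γ : K ≃ₐ[ℂ] K
  /-- action on prime divisors -/
  π : P ≃ P
  /-- action on the Picard group -/
  g : Pic ≃ₗ[ℤ] Pic
  v_comp : ∀ D f, f ≠ 0 → S.v (π D) (γ f) = S.v D f
  cls_comp : ∀ D, g (S.cls D) = S.cls (π D)
  isometry : ∀ x y, S.q (g x) (g y) = S.q x y

namespace HKDivisors

/-- The space of meromorphic functions with `div f + E ≥ 0`, i.e. the sections of `O(E)`. -/
def sections (S : HKDivisors K P Pic) (E : P →₀ ℤ) : Submodule ℂ K where
  carrier := {f | f ≠ 0 → ∀ D, 0 ≤ S.v D f + E D}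
  add_mem' := by
    intro f g hf hg h D
    by_cases h1 : f = 0
    · rw [h1, zero_add] at h ⊢
      exact hg h D
    by_cases h2 : g = 0
    · rw [h2, add_zero] at h ⊢
      exact hf h D
    have h3 := S.v_add D f g h1 h2 h
    have h4 := hf h1 D
    have h5 := hg h2 D
    rcases min_le_iff.1 h3 with h6 | h6 <;> omega
  zero_mem' := fun h => absurd rfl h
  smul_mem' := by
    intro c f hf h D
    rw [Algebra.smul_def] at h ⊢
    have h1 : algebraMap ℂ K c ≠ 0 := left_ne_zero_of_mul h
    have h2 : f ≠ 0 := right_ne_zero_of_mul h
    have hc : c ≠ 0 := by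
      rintro rfl
      exact h1 (map_zero _)
    rw [S.v_mul D _ _ h1 h2, S.v_const D c hc, zero_add]
    exact hf h2 D

end HKDivisors

end

end Pool.Agent.SYZ
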