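import Pool.Agent.SYZ.DefsDyn

/-! Quotients of sections of powers of `L`, and functions that are finite under a self-map. -/

namespace Pool.Agent.SYZ

noncomputable section

variable {K P Pic : Type*} [Field K] [Algebra ℂ K] [AddCommGroup Pic]

/-- The quotients of two sections of a positive power of `L`. The field they generate is the Iitaka
field of `L`; if it is not `ℂ`, its transcendence degree is the Iitaka dimension of `L`. -/
def HKDivisors.sectionQuotients (S : HKDivisors K P Pic) (L : Pic) : Set K :=
  {f | ∃ k : ℤ, 0 < k ∧ ∃ E : P →₀ ℤ, S.O E = k • L ∧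
    ∃ a ∈ S.sections E, ∃ b ∈ S.sections E, b ≠ 0 ∧ f = a / b}

/-- A meromorphic function is finite under `φ` if it lies in a finite-dimensional space of
meromorphic functions that is stable under `φ`. -/
def SelfMap.IsFinite {S : HKDivisors K P Pic} (φ : SelfMap S) (f : K) : Prop :=
  ∃ V : Submodule ℂ K, FiniteDimensional ℂ V ∧ f ∈ V ∧ ∀ h ∈ V, φ.γ h ∈ V

end

end Pool.Agent.SYZ
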