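import Pool.Agent.SYZ.DefsIitaka

/-! Torsion-free sheaves on a hyperkähler manifold, through the orders of exterior products. -/

namespace Pool.Agent.SYZ

noncomputable section

variable {K P Pic : Type*} [Field K] [Algebra ℂ K] [AddCommGroup Pic]

/-- A torsion-free coherent sheaf on `M` (for instance a holomorphic vector bundle), through the
`K`-vector space `V` of its meromorphic sections and the order `ord D s` along `D` of the exterior
product `s_1 ∧ ... ∧ s_d` of `K`-linearly independent meromorphic sections `s_1, ..., s_d`. -/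
structure SheafData (S : HKDivisors K P Pic) (V : Type*) [AddCommGroup V] [Module K V] where
  /-- the order of `s_1 ∧ ... ∧ s_d` along a prime divisor -/
  ord : P → ∀ {d : ℕ}, (Fin d → V) → ℤ
  /-- replacing `s_i` by `∑ c_j s_j` multiplies the exterior product by `c_i` -/
  ord_update : ∀ D {d : ℕ} (s : Fin d → V) (i : Fin d) (c : Fin d → K), LinearIndependent K s →
    c i ≠ 0 → ord D (Function.update s i (∑ j, c j • s j)) = S.v D (c i) + ord D s
  ord_wedge : ∀ D {d : ℕ} (s : Fin d → V), LinearIndependent K s →
    ∑ j, ord D (fun _ : Fin 1 => s j) ≤ ord D s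
  ord_add : ∀ D (u w : V), u ≠ 0 → w ≠ 0 → u + w ≠ 0 →
    min (ord D fun _ : Fin 1 => u) (ord D fun _ : Fin 1 => w) ≤ ord D fun _ : Fin 1 => u + w
  ord_finite : ∀ {d : ℕ} (s : Fin d → V), LinearIndependent K s → {D | ord D s ≠ 0}.Finite

namespace SheafData

variable {S : HKDivisors K P Pic} {V : Type*} [AddCommGroup V] [Module K V] (B : SheafData S V)

/-- The divisor of the exterior product `s_1 ∧ ... ∧ s_d`, as a meromorphic section of the
determinant of the subsheaf generated by `s_1, ..., s_d`. -/
def divisor {d : ℕ} {s : Fin d → V} (hs : LinearIndependent K s) : P →₀ ℤ :=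
  Finsupp.ofSupportFinite (fun D => B.ord D s) (B.ord_finite s hs)

/-- Semistability of degree `0` with respect to `L`: the first Chern class `x` of every subsheaf
satisfies `q(L, x) ≤ 0`. -/
def Semistable (L : Pic) : Prop :=
  ∀ (d : ℕ) (s : Fin d → V) (hs : LinearIndependent K s), S.q L (S.O (B.divisor hs)) ≤ 0

theorem ord_smul (D : P) {a : K} (ha : a ≠ 0) {u : V} (hu : u ≠ 0) :
    B.ord D (fun _ : Fin 1 => a • u) = S.v D a + B.ord D (fun _ : Fin 1 => u) := by
  have hs : LinearIndependent K (fun _ : Fin 1 => u) := LinearIndependent.of_subsingleton 0 hu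
  have h := B.ord_update D (fun _ : Fin 1 => u) 0 (fun _ => a) hs ha
  rw [← h]
  congr 1
  funext i
  rw [Subsingleton.elim i 0, Function.update_self]
  simp

variable [Module ℂ V] [IsScalarTower ℂ K V]

/-- The holomorphic sections of the sheaf twisted by `O(E)`: the meromorphic sections `s` with
`div s + E ≥ 0`. -/
def sections (E : P →₀ ℤ) : Submodule ℂ V where
  carrier := {s | s ≠ 0 → ∀ D, 0 ≤ B.ord D (fun _ : Fin 1 => s) + E D}
  add_mem' := by
    intro f g hf hg h D
    by_cases h1 : f = 0
    · rw [h1, zero_add] at h ⊢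
      exact hg h D
    by_cases h2 : g = 0
    · rw [h2, add_zero] at h ⊢
      exact hf h D
    have h3 := B.ord_add D f g h1 h2 h
    have h4 := hf h1 D
    have h5 := hg h2 D
    rcases min_le_iff.1 h3 with h6 | h6 <;> omega
  zero_mem' := fun h => absurd rfl h
  smul_mem' := by
    intro c f hf h D
    have hc : c ≠ 0 := by
      rintro rfl
      exact h (zero_smul _ _)
    have h2 : f ≠ 0 := by
      rintro rfl
      exact h (smul_zero _)
    have h1 : algebraMap ℂ K c ≠ 0 := by
      rw [Ne, map_eq_zero]
      exact hc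
    have h3 : c • f = algebraMap ℂ K c • f := (algebraMap_smul K c f).symm
    rw [h3, B.ord_smul D h1 h2, S.v_const D c hc, zero_add]
    exact hf h2 D

/-- The rank of the subsheaf generated by the sections of all twists by `x + k L`, `k ∈ ℤ`. -/
def genRank (L x : Pic) : ℕ :=
  Module.finrank K (Submodule.span K
    {w : V | ∃ (k : ℤ) (E : P →₀ ℤ), S.O E = x + k • L ∧ w ∈ B.sections E})

/-- The dimension `h⁰(B(x))` of the space of sections of the twist of the sheaf by the line bundle
`x`, i.e. of `B.sections E` for a divisor `E` of class `x` (`0` if there is none). -/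
def h0 (x : Pic) : ℕ∞ :=
  ⨆ (E : P →₀ ℤ) (_ : S.O E = x), Cardinal.toENat (Module.rank ℂ (B.sections E))

end SheafData

/-- The dimension `h⁰(x)` of the space of sections of the line bundle `x`, i.e. of `S.sections E`
for a divisor `E` of class `x` (`0` if there is none). -/
def HKDivisors.h0 (S : HKDivisors K P Pic) (x : Pic) : ℕ∞ :=
  ⨆ (E : P →₀ ℤ) (_ : S.O E = x), Cardinal.toENat (Module.rank ℂ (S.sections E))

end

end Pool.Agent.SYZ
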