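import Pool.Agent.SYZ.DefsDyn

/-! The classes that are periodic under every self-map fixing a class `L`. -/

namespace Pool.Agent.SYZ

noncomputable section

variable {K P Pic : Type*} [Field K] [Algebra ℂ K] [AddCommGroup Pic]

theorem pow_fixed_of_dvd {g : Pic ≃ₗ[ℤ] Pic} {x : Pic} {j : ℕ} (h : (g ^ j) x = x) (n : ℕ) :
    (g ^ (j * n)) x = x := by
  induction n with
  | zero => rfl
  | succ n ih => rw [Nat.mul_succ, pow_add, LinearEquiv.mul_apply, h, ih]

/-- The group of all classes that are periodic under every self-map fixing `L`: some power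
(depending on the self-map) of every self-map fixing `L` fixes the class. -/
def HKDivisors.periodic (S : HKDivisors K P Pic) (L : Pic) : AddSubgroup Pic where
  carrier := {x | ∀ ψ : SelfMap S, ψ.g L = L → ∃ j : ℕ, 0 < j ∧ (ψ.g ^ j) x = x}
  add_mem' := by
    intro x y hx hy ψ hψ
    obtain ⟨i, hi, hix⟩ := hx ψ hψ
    obtain ⟨j, hj, hjy⟩ := hy ψ hψ
    refine ⟨i * j, Nat.mul_pos hi hj, ?_⟩
    rw [map_add, pow_fixed_of_dvd hix, mul_comm i j, pow_fixed_of_dvd hjy]
  zero_mem' := fun _ _ => ⟨1, one_pos, map_zero _⟩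
  neg_mem' := by
    intro x hx ψ hψ
    obtain ⟨i, hi, hix⟩ := hx ψ hψ
    exact ⟨i, hi, by rw [map_neg, hix]⟩

end

end Pool.Agent.SYZ
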