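import Pool.Agent.SYZ.DefsDyn

/-! Monodromy data with a Torelli theorem in terms of bimeromorphic self-maps. -/

namespace Pool.Agent.SYZ

noncomputable section

variable {K P Pic : Type*} [Field K] [Algebra ℂ K] [AddCommGroup Pic]

/-- Monodromy data of a projective hyperkähler manifold for which Markman's Hodge-theoretic Torelli
theorem holds: a Hodge monodromy operator mapping the class of every prime exceptional divisor to a
rationally effective class is induced by a bimeromorphic self-map. -/
structure TorelliData (S : HKDivisors K P Pic) extends MonodromyData S where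
  torelli : ∀ g ∈ mon, (∀ D, S.q (S.cls D) (S.cls D) < 0 → S.QEffective (g (S.cls D))) →
    ∃ φ : SelfMap S, φ.g = g

/-- A bimeromorphic self-map preserves a pencil if there is a nonconstant meromorphic function `f`
such that `γ f` is algebraic over `ℂ(f)`. -/
def SelfMap.PreservesPencil {S : HKDivisors K P Pic} (φ : SelfMap S) : Prop :=
  ∃ f : K, (∀ c : ℂ, f ≠ algebraMap ℂ K c) ∧
    IsAlgebraic (IntermediateField.adjoin ℂ {f}) (φ.γ f)

end

end Pool.Agent.SYZ
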