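import Pool.Agent.SYZ.Iitaka

namespace Pool.Agent.SYZ

noncomputable section

open Cardinal

/-- An algebraically independent family in a field generated by `T` can be replaced by one of the
same length with members in `T`. -/
theorem exists_family_in_generators {K : Type*} [Field K] [Algebra ℂ K] {m : ℕ} {f : Fin m → K}
    (hf : AlgebraicIndependent ℂ f) (T : Set K)
    (hT : ∀ i, f i ∈ IntermediateField.adjoin ℂ T) :
    ∃ g : Fin m → K, (∀ i, g i ∈ T) ∧ AlgebraicIndependent ℂ g := by
  classical
  let A := IntermediateField.adjoin ℂ T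
  let s : Set A := {x | (x : K) ∈ T}
  have halg : Algebra.IsAlgebraic (Algebra.adjoin ℂ s) A := by
    constructor
    intro x
    obtain ⟨a, ha, b, hb, hab⟩ := IntermediateField.mem_adjoin_iff_div.1 x.2
    have hlift : ∀ y ∈ Algebra.adjoin ℂ T, ∃ z : A, z ∈ Algebra.adjoin ℂ s ∧ (z : K) = y := by
      intro y hy
      induction hy using Algebra.adjoin_induction with
      | mem y hy =>
        exact ⟨⟨y, IntermediateField.subset_adjoin ℂ T hy⟩, Algebra.subset_adjoin hy, rfl⟩
      | algebraMap c =>
        exact ⟨algebraMap ℂ A c, Subalgebra.algebraMap_mem _ c, rfl⟩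
      | add y y' _ _ h h' =>
        obtain ⟨z, hz, rfl⟩ := h
        obtain ⟨z', hz', rfl⟩ := h'
        exact ⟨z + z', add_mem hz hz', rfl⟩
      | mul y y' _ _ h h' =>
        obtain ⟨z, hz, rfl⟩ := h
        obtain ⟨z', hz', rfl⟩ := h'
        exact ⟨z * z', mul_mem hz hz', rfl⟩
    obtain ⟨a', ha', haa⟩ := hlift a ha
    obtain ⟨b', hb', hbb⟩ := hlift b hb
    by_cases hb0 : b' = 0
    · have hx0 : x = 0 := by
        apply Subtype.ext
        rw [hab, ← hbb, hb0]
        simp
      rw [hx0]
      exact isAlgebraic_zero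
    · have hx : x = a' / b' := by
        apply Subtype.ext
        rw [hab, ← haa, ← hbb]
        rfl
      refine ⟨Polynomial.C ⟨b', hb'⟩ * Polynomial.X - Polynomial.C ⟨a', ha'⟩, ?_, ?_⟩
      · intro h0
        have h1 := congrArg (fun p => Polynomial.coeff p 1) h0
        simp only [Polynomial.coeff_sub, Polynomial.coeff_C_mul, Polynomial.coeff_X_one, mul_one,
          Polynomial.coeff_C_succ, sub_zero, Polynomial.coeff_zero] at h1
        exact hb0 (congrArg Subtype.val h1)
      · simp only [map_sub, map_mul, Polynomial.aeval_C, Polynomial.aeval_X]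
        rw [hx]
        change b' * (a' / b') - a' = 0
        rw [mul_div_cancel₀ _ hb0, sub_self]
  obtain ⟨t, hts, ht⟩ := exists_isTranscendenceBasis_subset (R := ℂ) s
  let f' : Fin m → A := fun i => ⟨f i, hT i⟩
  have hf' : AlgebraicIndependent ℂ f' := by
    have h1 : AlgebraicIndependent ℂ (A.val ∘ f') := hf
    exact AlgebraicIndependent.of_comp A.val h1
  have hcard := hf'.lift_cardinalMk_le_trdeg
  have htr := ht.lift_cardinalMk_eq_trdeg
  have hle : (m : Cardinal) ≤ #t := by
    have h2 : #t = Algebra.trdeg ℂ A := by simpa using htr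
    rw [h2]
    simpa using hcard
  obtain ⟨e⟩ : Nonempty (Fin m ↪ t) := by
    rw [← Cardinal.lift_mk_le']
    simpa using hle
  refine ⟨fun i => ((e i : A) : K), fun i => hts (e i).2, ?_⟩
  have h3 := ht.1.comp e e.injective
  exact h3.map' (f := A.val) Subtype.val_injective

variable {K P Pic : Type*} [Field K] [Algebra ℂ K] [AddCommGroup Pic]

theorem SelfMap.dim_iff [Module.Finite ℤ Pic] [IsAddTorsionFree Pic] {S : HKDivisors K P Pic}
    (hfd : ∀ E : P →₀ ℤ, FiniteDimensional ℂ (S.sections E)) (φ : SelfMap S) {L : Pic}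
    (hL : S.NefIsotropic L) (hφ : φ.g L = L) (hinf : ¬ IsOfFinOrder φ.g) (m : ℕ) :
    (∃ f : Fin m → K, (∀ i, f i ∈ S.sectionQuotients L) ∧ AlgebraicIndependent ℂ f) ↔
      ∃ f : Fin m → K, (∀ i, φ.IsFinite (f i)) ∧ AlgebraicIndependent ℂ f := by
  have hadj := SelfMap.adjoin_eq hfd φ hL hφ hinf
  constructor
  · rintro ⟨f, hf, hfi⟩
    exact exists_family_in_generators hfi {f | φ.IsFinite f} fun i => by
      rw [← hadj]
      exact IntermediateField.subset_adjoin ℂ _ (hf i)
  · rintro ⟨f, hf, hfi⟩
    exact exists_family_in_generators hfi (S.sectionQuotients L) fun i => by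
      rw [hadj]
      exact IntermediateField.subset_adjoin ℂ _ (hf i)

end

end Pool.Agent.SYZ
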