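import Mathlib

namespace Pool.Agent.SYZ

noncomputable section

open Cardinal

/-- If every nonzero element of a space of dimension `n` is a product of a member of a fixed
countable set and of `M` members of a fixed space of dimension `m`, then `n ≤ M m`. -/
theorem card_le_of_factor {K : Type*} [Field K] [Algebra ℂ K] (V : Submodule ℂ K)
    [FiniteDimensional ℂ V] (H : Set K) (hH : H.Countable) {n M : ℕ} (g : Fin n → K)
    (hg : LinearIndependent ℂ g)
    (hfac : ∀ w : Fin n → ℂ, w ≠ 0 → ∃ h ∈ H, ∃ v : Fin M → K, (∀ j, v j ∈ V) ∧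
      ∑ i, w i • g i = h * ∏ j, v j) : n ≤ M * Module.finrank ℂ V := by
  classical
  rcases Nat.eq_zero_or_pos n with hn | hn
  · rw [hn]; exact Nat.zero_le _
  let m := Module.finrank ℂ V
  let e : Module.Basis (Fin m) ℂ V := Module.finBasis ℂ V
  -- coordinates
  obtain ⟨ℓ₀, hℓ₀⟩ := (Finsupp.linearCombination ℂ g).exists_leftInverse_of_injective
    (LinearMap.ker_eq_bot.2 hg)
  let ℓ : Fin n → K →ₗ[ℂ] ℂ := fun i => (Finsupp.lapply i) ∘ₗ ℓ₀
  have hℓ : ∀ (w : Fin n → ℂ) (i : Fin n), ℓ i (∑ i, w i • g i) = w i := by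
    intro w i
    have h1 : ∑ i, w i • g i = Finsupp.linearCombination ℂ g (Finsupp.equivFunOnFinite.symm w) := by
      rw [Finsupp.linearCombination_apply, Finsupp.sum_fintype _ _ (fun i => by simp)]
      rfl
    rw [h1]
    have h2 := LinearMap.congr_fun hℓ₀ (Finsupp.equivFunOnFinite.symm w)
    rw [LinearMap.comp_apply, LinearMap.id_apply] at h2
    change (ℓ₀ _) i = w i
    rw [h2]
    rfl
  -- structure constants
  let c : Fin n → K → (Fin M → Fin m) → ℂ := fun i h p => ℓ i (h * ∏ j, (e (p j) : K))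
  let T : Set ℂ := ⋃ h ∈ H, Set.range (fun x : Fin n × (Fin M → Fin m) => c x.1 h x.2)
  have hT : T.Countable := hH.biUnion fun h _ => Set.countable_range _
  let k₀ : Subfield ℂ := Subfield.closure T
  have hk₀ : #k₀ ≤ ℵ₀ := by
    refine (Subfield.cardinalMk_closure_le_max T).trans (max_le ?_ le_rfl)
    exact Cardinal.le_aleph0_iff_set_countable.2 hT
  obtain ⟨s, hs⟩ := exists_isTranscendenceBasis k₀ ℂ
  have hC : ℵ₀ < #ℂ := by rw [Cardinal.mk_complex]; exact Cardinal.aleph0_lt_continuum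
  have hcard := IsAlgClosed.cardinal_eq_cardinal_transcendence_basis_of_aleph0_lt' _ hs hk₀ hC
  obtain ⟨emb⟩ : Nonempty (Fin n ↪ s) := by
    rw [← Cardinal.le_def, ← hcard, Cardinal.mk_fin]
    exact (Cardinal.natCast_lt_aleph0.le).trans hC.le
  let w : Fin n → ℂ := fun i => (emb i : ℂ)
  have hw : AlgebraicIndependent k₀ w := hs.1.comp emb emb.injective
  have hw0 : w ≠ 0 := by
    intro h0
    have := hw.ne_zero ⟨0, hn⟩
    exact this (congrFun h0 _)
  obtain ⟨h, hh, v, hv, hprod⟩ := hfac w hw0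
  let y : Fin M × Fin m → ℂ := fun x => e.repr ⟨v x.1, hv x.1⟩ x.2
  have hvy : ∀ j, v j = ∑ i, y (j, i) • (e i : K) := by
    intro j
    have h1 := congrArg Subtype.val (e.sum_repr ⟨v j, hv j⟩)
    have h2 : ((∑ i, (e.repr ⟨v j, hv j⟩) i • e i : V) : K) = ∑ i, y (j, i) • (e i : K) := by
      rw [Submodule.coe_sum]
      rfl
    exact h1.symm.trans h2
  -- the coordinates of `w` are polynomials in the coordinates of the factors
  have hmem : ∀ i p, c i h p ∈ k₀ := fun i p => Subfield.subset_closure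
    (Set.mem_biUnion hh ⟨(i, p), rfl⟩)
  let Q : Fin n → MvPolynomial (Fin M × Fin m) k₀ := fun i =>
    ∑ p : Fin M → Fin m, MvPolynomial.C ⟨c i h p, hmem i p⟩ * ∏ j, MvPolynomial.X (j, p j)
  have hQ : ∀ i, MvPolynomial.aeval y (Q i) = w i := by
    intro i
    have h1 : ∏ j, v j = ∑ p : Fin M → Fin m, ∏ j, y (j, p j) • (e (p j) : K) := by
      have h2 : ∏ j, v j = ∏ j, ∑ i, y (j, i) • (e i : K) :=
        Finset.prod_congr rfl fun j _ => hvy j
      rw [h2, Finset.prod_univ_sum, Fintype.piFinset_univ]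
    rw [← hℓ w i, hprod, h1, Finset.mul_sum, map_sum, map_sum]
    refine Finset.sum_congr rfl fun p _ => ?_
    have h3 : ∏ j, y (j, p j) • (e (p j) : K) = (∏ j, y (j, p j)) • ∏ j, (e (p j) : K) := by
      rw [Finset.prod_smul]
    rw [h3, mul_smul_comm, map_smul, smul_eq_mul, map_mul, map_prod]
    have h4 : (MvPolynomial.aeval y) (MvPolynomial.C (⟨c i h p, hmem i p⟩ : k₀)) = c i h p := by
      rw [MvPolynomial.algHom_C]
      rfl
    rw [h4, mul_comm]
    congr 1
    exact Finset.prod_congr rfl fun j _ => MvPolynomial.aeval_X _ _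
  have hQi : AlgebraicIndependent k₀ Q := by
    refine AlgebraicIndependent.of_comp (MvPolynomial.aeval y) ?_
    have : (MvPolynomial.aeval y : MvPolynomial (Fin M × Fin m) k₀ →ₐ[k₀] ℂ) ∘ Q = w :=
      funext hQ
    rw [this]
    exact hw
  have h1 := hQi.lift_cardinalMk_le_trdeg
  rw [MvPolynomial.trdeg_of_isDomain] at h1
  simp only [Cardinal.mk_fintype, Fintype.card_prod, Fintype.card_fin,
    Cardinal.lift_natCast] at h1
  exact_mod_cast h1

end

end Pool.Agent.SYZ
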