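import Pool.Agent.SYZ.Bounded
import Pool.Agent.SYZ.Factor
import Pool.Agent.SYZ.Dim

namespace Pool.Agent.SYZ

noncomputable section

theorem exists_fin_of_multiset {K : Type*} [CommMonoid K] (s : Multiset K) {M : ℕ}
    (hs : Multiset.card s = M) : ∃ v : Fin M → K, (∀ j, v j ∈ s) ∧ ∏ j, v j = s.prod := by
  subst hs
  induction s using Multiset.induction_on with
  | empty => exact ⟨fun _ => 1, fun j => absurd j.2 (by simp), by simp⟩
  | cons a s ih =>
    obtain ⟨v, hv, hp⟩ := ih
    rw [Multiset.card_cons, Multiset.prod_cons]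
    refine ⟨Fin.cons a v, fun j => ?_, ?_⟩
    · refine Fin.cases ?_ (fun j => ?_) j
      · rw [Fin.cons_zero]
        exact Multiset.mem_cons_self a s
      · rw [Fin.cons_succ]
        exact Multiset.mem_cons_of_mem (hv j)
    · rw [Fin.prod_univ_succ, Fin.cons_zero]
      simp only [Fin.cons_succ]
      rw [hp]

namespace HKDivisors

variable {K P Pic : Type*} [Field K] [Algebra ℂ K] [AddCommGroup Pic]
variable (S : HKDivisors K P Pic)

/-- Two functions with the same divisor are proportional. -/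
theorem eq_const_mul {x h : K} (hx : x ≠ 0) (hh : h ≠ 0) (hv : ∀ D, S.v D x = S.v D h) :
    ∃ c : ℂ, x = algebraMap ℂ K c * h := by
  obtain ⟨c, hc⟩ := S.const_of_holomorphic (x / h) (div_ne_zero hx hh) (fun D => by
    rw [S.v_div D hx hh, hv D, sub_self])
  exact ⟨c, by rw [← hc, div_mul_cancel₀ _ hh]⟩

theorem v_prod (D : P) {ι : Type*} (s : Finset ι) (f : ι → K) (hf : ∀ i ∈ s, f i ≠ 0) :
    S.v D (∏ i ∈ s, f i) = ∑ i ∈ s, S.v D (f i) := by
  classical
  induction s using Finset.induction_on with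
  | empty => simpa using S.v_one D
  | insert a s ha ih =>
    rw [Finset.prod_insert ha, Finset.sum_insert ha, S.v_mul D _ _ (hf a (by simp))
      (Finset.prod_ne_zero_iff.2 fun i hi => hf i (by simp [hi])),
      ih fun i hi => hf i (by simp [hi])]

/-- Factorisation of a section of `O(E)`, `E` orthogonal to `L`, into functions that correspond to
the primes of its zero divisor. -/
theorem exists_factor {L : Pic} (hL : S.NefIsotropic L) (R : Pic → P) (FR : Finset P)
    (hR : ∀ D ∈ S.orth L, S.cls (R (S.cls D)) = S.cls D)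
    (hFR : ∀ D ∈ S.orth L, R (S.cls D) ∈ FR) {E : P →₀ ℤ} (hE : ∀ D ∈ E.support, D ∈ S.orth L)
    {w : K} (hw0 : w ≠ 0) (hw : w ∈ S.sections E) {δ : ℝ}
    (hδ : ∀ D ∈ S.orth L, δ ≤ S.deg (S.cls D)) :
    ∃ n : P →₀ ℤ, n.support ⊆ FR ∧ ∃ s : Multiset K,
      (∀ x ∈ s, x ∈ S.sections (Finsupp.indicator FR fun _ _ => 1)) ∧
      (Multiset.card s : ℝ) * δ ≤ S.deg (S.O E) ∧ s.prod ≠ 0 ∧
      ∀ D, S.v D (w / s.prod) = n D - E D := by
  classical
  have hu : ∀ D : P, ∃ u : K, u ≠ 0 ∧ (D ∈ S.orth L → ∀ D',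
      (Finsupp.single D (1 : ℤ) - Finsupp.single (R (S.cls D)) 1 : P →₀ ℤ) D' = S.v D' u) := by
    intro D
    by_cases hD : D ∈ S.orth L
    · obtain ⟨u, hu, hv⟩ := (S.O_eq_zero_iff
        (Finsupp.single D (1 : ℤ) - Finsupp.single (R (S.cls D)) 1)).1 (by
          rw [map_sub]
          exact sub_eq_zero.2 (hR D hD).symm)
      exact ⟨u, hu, fun _ => hv⟩
    · exact ⟨1, one_ne_zero, fun h => absurd h hD⟩
  choose u hu0 huv using hu
  set Z : P →₀ ℤ := S.dv hw0 + E with hZdef
  have hZ : 0 ≤ Z := fun D => hw hw0 D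
  have hOZ : S.O Z = S.O E := by rw [hZdef, map_add, S.O_dv, zero_add]
  have hZo : ∀ D ∈ Z.support, D ∈ S.orth L := by
    refine S.support_subset_orth hL hZ ?_
    rw [hOZ]
    exact S.q_O_eq_zero hE
  let n : P →₀ ℤ := ∑ D ∈ Z.support, Finsupp.single (R (S.cls D)) (Z D)
  let s : Multiset K := ∑ D ∈ Z.support, Multiset.replicate (Z D).toNat (u D)
  have hprod : s.prod = ∏ D ∈ Z.support, (u D) ^ (Z D).toNat := by
    rw [Multiset.prod_sum]
    refine Finset.prod_congr rfl fun D _ => ?_
    rw [Multiset.prod_replicate]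
  have hs0 : s.prod ≠ 0 := by
    rw [hprod]
    exact Finset.prod_ne_zero_iff.2 fun D _ => pow_ne_zero _ (hu0 D)
  have htoNat : ∀ D, ((Z D).toNat : ℤ) = Z D := fun D => Int.toNat_of_nonneg (hZ D)
  refine ⟨n, ?_, s, ?_, ?_, hs0, ?_⟩
  · intro D' hD'
    by_contra hn
    rw [Finsupp.mem_support_iff] at hD'
    apply hD'
    simp only [n, Finsupp.coe_finsetSum, Finset.sum_apply, Finsupp.single_apply]
    refine Finset.sum_eq_zero fun D hD => ?_
    rw [if_neg]
    rintro rfl
    exact hn (hFR D (hZo D hD))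
  · intro x hx
    obtain ⟨D, hD, hxD⟩ := Multiset.mem_sum.1 hx
    rw [Multiset.eq_of_mem_replicate hxD]
    intro _ D'
    rw [← huv D (hZo D hD) D', Finsupp.coe_sub, Pi.sub_apply, Finsupp.single_apply,
      Finsupp.single_apply, Finsupp.indicator_apply]
    by_cases hm : D' ∈ FR
    · rw [dif_pos hm]
      split_ifs <;> norm_num
    · have h5 : R (S.cls D) ≠ D' := fun h => hm (h ▸ hFR D (hZo D hD))
      rw [dif_neg hm, if_neg h5]
      split_ifs <;> norm_num
  · rw [← hOZ, deg_O, Finsupp.sum, Multiset.card_sum]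
    push_cast
    rw [Finset.sum_mul]
    refine Finset.sum_le_sum fun D hD => ?_
    rw [Multiset.card_replicate]
    have h1 : (((Z D).toNat : ℕ) : ℝ) = (Z D : ℝ) := by
      exact_mod_cast htoNat D
    rw [h1]
    exact mul_le_mul_of_nonneg_left (hδ D (hZo D hD)) (by exact_mod_cast hZ D)
  · intro D'
    rw [S.v_div D' hw0 hs0, hprod, S.v_prod D' _ _ fun D _ => pow_ne_zero _ (hu0 D)]
    have h1 : ∑ D ∈ Z.support, S.v D' (u D ^ (Z D).toNat) = Z D' - n D' := by
      have h2 : ∑ D ∈ Z.support, S.v D' (u D ^ (Z D).toNat) =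
          ∑ D ∈ Z.support, (Finsupp.single D (Z D) D' -
            Finsupp.single (R (S.cls D)) (Z D) D') := by
        refine Finset.sum_congr rfl fun D hD => ?_
        rw [S.v_pow D' (hu0 D), ← huv D (hZo D hD) D', htoNat, Finsupp.coe_sub, Pi.sub_apply]
        simp only [Finsupp.single_apply]
        split_ifs <;> ring
      rw [h2, Finset.sum_sub_distrib]
      congr 1
      · have h3 := DFunLike.congr_fun (Finsupp.sum_single Z) D'
        rw [Finsupp.sum, Finsupp.coe_finsetSum, Finset.sum_apply] at h3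
        exact h3
      · simp only [n, Finsupp.coe_finsetSum, Finset.sum_apply]
    rw [h1]
    have h4 : Z D' = S.v D' w + E D' := rfl
    omega

/-- Monomials in two algebraically independent functions are linearly independent. -/
theorem _root_.Pool.Agent.SYZ.linearIndependent_monomials {K : Type*} [Field K] [Algebra ℂ K]
    {f : Fin 2 → K} (hf : AlgebraicIndependent ℂ f) (d : ℕ) :
    LinearIndependent ℂ (fun i : Fin ((d + 1) * (d + 1)) =>
      f 0 ^ ((finProdFinEquiv.symm i).1 : ℕ) * f 1 ^ ((finProdFinEquiv.symm i).2 : ℕ)) := by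
  let mon : Fin ((d + 1) * (d + 1)) → (Fin 2 →₀ ℕ) := fun i =>
    Finsupp.single 0 ((finProdFinEquiv.symm i).1 : ℕ) +
      Finsupp.single 1 ((finProdFinEquiv.symm i).2 : ℕ)
  have hmon : Function.Injective mon := by
    intro i j hij
    apply finProdFinEquiv.symm.injective
    have h0 := DFunLike.congr_fun hij 0
    have h1 := DFunLike.congr_fun hij 1
    simp only [mon, Finsupp.coe_add, Pi.add_apply, Finsupp.single_apply] at h0 h1
    refine Prod.ext (Fin.ext ?_) (Fin.ext ?_)
    · simpa using h0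
    · simpa using h1
  have h1 := (MvPolynomial.basisMonomials (Fin 2) ℂ).linearIndependent.comp mon hmon
  have h2 := h1.map' (MvPolynomial.aeval f).toLinearMap (LinearMap.ker_eq_bot.2 hf)
  have h3 : (fun i : Fin ((d + 1) * (d + 1)) => f 0 ^ ((finProdFinEquiv.symm i).1 : ℕ) *
      f 1 ^ ((finProdFinEquiv.symm i).2 : ℕ)) =
      (MvPolynomial.aeval f).toLinearMap ∘ (MvPolynomial.basisMonomials (Fin 2) ℂ) ∘ mon := by
    funext i
    simp [mon, MvPolynomial.aeval_monomial, Finsupp.prod_add_index', pow_add]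
  rw [h3]
  exact h2

/-- If two quotients of sections of powers of `L` are algebraically independent, then the degrees
of the prime divisors orthogonal to `L` are unbounded. -/
theorem unbounded_of_independent [Module.Finite ℤ Pic] [IsAddTorsionFree Pic] {L : Pic}
    (hfd : ∀ E : P →₀ ℤ, FiniteDimensional ℂ (S.sections E)) (hL : S.NefIsotropic L)
    {f : Fin 2 → K} (hf : ∀ i, f i ∈ S.sectionQuotients L) (hfi : AlgebraicIndependent ℂ f)
    (C : ℝ) : ∃ D ∈ S.orth L, C < S.deg (S.cls D) := by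
  classical
  by_contra hcon
  push Not at hcon
  have hf0 : ∀ i, f i ≠ 0 := fun i => hfi.ne_zero i
  have hfv : ∀ i D, D ∉ S.orth L → S.v D (f i) = 0 := fun i D hD =>
    S.v_quotient hL (hf0 i) (hf i) hD
  have hfc : ∀ c : ℂ, f 0 ≠ algebraMap ℂ K c := by
    intro c hc
    exact (hfi.transcendental 0) (by rw [hc]; exact isAlgebraic_algebraMap c)
  have hinf := S.infinite_of_twoSections hL (S.twoSections_of_quotient hL hfc (hf 0))
  obtain ⟨D₀, hD₀⟩ := hinf.nonempty
  have : Nonempty P := ⟨D₀⟩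
  have hfin := S.finite_classes hL hcon
  obtain ⟨δ, hδ, hδD⟩ := S.exists_min_deg hL hcon
  let R : Pic → P := Function.invFunOn S.cls (S.orth L)
  have hR : ∀ D ∈ S.orth L, S.cls (R (S.cls D)) = S.cls D := fun D hD =>
    Function.invFunOn_eq ⟨D, hD, rfl⟩
  let FR : Finset P := hfin.toFinset.image R
  have hFR : ∀ D ∈ S.orth L, R (S.cls D) ∈ FR := fun D hD =>
    Finset.mem_image_of_mem _ (hfin.mem_toFinset.2 (Set.mem_image_of_mem _ hD))
  let V : Submodule ℂ K := S.sections (Finsupp.indicator FR fun _ _ => 1)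
  have hV : FiniteDimensional ℂ V := hfd _
  have hVc : ∀ c : ℂ, algebraMap ℂ K c ∈ V := by
    intro c h0 D
    have hc : c ≠ 0 := by
      rintro rfl
      exact h0 (map_zero _)
    rw [S.v_const D c hc, zero_add, Finsupp.indicator_apply]
    split_ifs <;> norm_num
  -- the pole divisor
  let E₀ : P →₀ ℤ := S.poles (hf0 0) + S.poles (hf0 1)
  have hE₀ : 0 ≤ E₀ := add_nonneg (S.poles_nonneg _) (S.poles_nonneg _)
  have hE₀v : ∀ i D, 0 ≤ S.v D (f i) + E₀ D := by
    intro i D
    have h0 := S.poles_apply (hf0 0) D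
    have h1 := S.poles_apply (hf0 1) D
    have hE : E₀ D = S.poles (hf0 0) D + S.poles (hf0 1) D := rfl
    rw [hE, h0, h1]
    have a0 := le_max_left (-(S.v D (f 0))) 0
    have a1 := le_max_right (-(S.v D (f 0))) 0
    have b0 := le_max_left (-(S.v D (f 1))) 0
    have b1 := le_max_right (-(S.v D (f 1))) 0
    fin_cases i
    · change 0 ≤ S.v D (f 0) + _
      omega
    · change 0 ≤ S.v D (f 1) + _
      omega
  have hE₀o : ∀ D ∈ E₀.support, D ∈ S.orth L := by
    intro D hD
    by_contra hn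
    rw [Finsupp.mem_support_iff] at hD
    apply hD
    have hE : E₀ D = S.poles (hf0 0) D + S.poles (hf0 1) D := rfl
    rw [hE, S.poles_apply, S.poles_apply, hfv 0 D hn, hfv 1 D hn]
    simp
  set m := Module.finrank ℂ V with hm
  set c₀ : ℝ := 2 * S.deg (S.O E₀) / δ with hc₀
  have hc₀0 : 0 ≤ c₀ := div_nonneg (mul_nonneg zero_le_two (S.deg_O_nonneg hE₀)) hδ.le
  -- the key inequality
  have key : ∀ d : ℕ, (d + 1) * (d + 1) ≤ (⌊c₀ * d⌋₊ + 1) * m := by
    intro d
    let E : P →₀ ℤ := (2 * d : ℤ) • E₀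
    have hEo : ∀ D ∈ E.support, D ∈ S.orth L := fun D hD => hE₀o D (Finsupp.support_smul hD)
    let G : (FR → ℤ) → (P →₀ ℤ) := fun g => Finsupp.indicator FR (fun D hD => g ⟨D, hD⟩)
    let hh : (FR → ℤ) → K := fun g =>
      if h : ∃ x : K, x ≠ 0 ∧ ∀ D, S.v D x = G g D - E D then h.choose else 1
    refine card_le_of_factor V (Set.range hh) (Set.countable_range hh) _
      (linearIndependent_monomials hfi d) ?_
    intro w hw
    set W : K := ∑ i, w i • (f 0 ^ ((finProdFinEquiv.symm i).1 : ℕ) *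
      f 1 ^ ((finProdFinEquiv.symm i).2 : ℕ)) with hW
    have hW0 : W ≠ 0 := by
      intro h0
      apply hw
      funext i
      exact (Fintype.linearIndependent_iff.1 (linearIndependent_monomials hfi d)) w h0 i
    have hWE : W ∈ S.sections E := by
      refine Submodule.sum_mem _ fun i _ => Submodule.smul_mem _ _ ?_
      intro hne D
      have ha : ((finProdFinEquiv.symm i).1 : ℕ) ≤ d := Nat.lt_succ_iff.1 (Fin.is_lt _)
      have hb : ((finProdFinEquiv.symm i).2 : ℕ) ≤ d := Nat.lt_succ_iff.1 (Fin.is_lt _)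
      rw [S.v_mul D _ _ (pow_ne_zero _ (hf0 0)) (pow_ne_zero _ (hf0 1)), S.v_pow D (hf0 0),
        S.v_pow D (hf0 1)]
      have h0 := hE₀v 0 D
      have h1 := hE₀v 1 D
      have h2 : 0 ≤ E₀ D := hE₀ D
      have hED : E D = 2 * d * E₀ D := by simp [E]
      rw [hED]
      have ha' : (((finProdFinEquiv.symm i).1 : ℕ) : ℤ) ≤ d := by exact_mod_cast ha
      have hb' : (((finProdFinEquiv.symm i).2 : ℕ) : ℤ) ≤ d := by exact_mod_cast hb
      have ha0 : (0 : ℤ) ≤ (((finProdFinEquiv.symm i).1 : ℕ) : ℤ) := Int.natCast_nonneg _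
      have hb0 : (0 : ℤ) ≤ (((finProdFinEquiv.symm i).2 : ℕ) : ℤ) := Int.natCast_nonneg _
      nlinarith [mul_nonneg ha0 h0, mul_nonneg hb0 h1, mul_nonneg (sub_nonneg.2 ha') h2,
        mul_nonneg (sub_nonneg.2 hb') h2]
    obtain ⟨n, hn, s, hs, hcard, hs0, hv⟩ := S.exists_factor hL R FR hR hFR hEo hW0 hWE hδD
    let g : FR → ℤ := fun D => n D
    have hGn : G g = n := by
      ext D
      simp only [G, Finsupp.indicator_apply]
      split_ifs with h1
      · rfl
      · by_contra h2
        exact h1 (hn (Finsupp.mem_support_iff.2 (Ne.symm h2)))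
    have hex : ∃ x : K, x ≠ 0 ∧ ∀ D, S.v D x = G g D - E D :=
      ⟨W / s.prod, div_ne_zero hW0 hs0, fun D => by rw [hv D, hGn]⟩
    have hhg : hh g = hex.choose := dif_pos hex
    have hspec := hex.choose_spec
    rw [← hhg] at hspec
    obtain ⟨c, hc⟩ := S.eq_const_mul (div_ne_zero hW0 hs0) hspec.1 (fun D => by
      rw [hv D, hspec.2 D, hGn])
    have hM : Multiset.card s ≤ ⌊c₀ * d⌋₊ := by
      apply Nat.le_floor
      have hEdeg : S.deg (S.O E) = 2 * d * S.deg (S.O E₀) := by
        simp only [E]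
        rw [map_zsmul, map_zsmul, zsmul_eq_mul]
        push_cast
        ring
      rw [hEdeg] at hcard
      rw [hc₀, div_mul_eq_mul_div, le_div_iff₀ hδ]
      linarith
    let s' : Multiset K := algebraMap ℂ K c ::ₘ
      (s + Multiset.replicate (⌊c₀ * d⌋₊ - Multiset.card s) 1)
    have hs' : Multiset.card s' = ⌊c₀ * d⌋₊ + 1 := by
      simp only [s', Multiset.card_cons, Multiset.card_add, Multiset.card_replicate]
      omega
    obtain ⟨v, hvs, hvp⟩ := exists_fin_of_multiset s' hs'
    refine ⟨hh g, ⟨g, rfl⟩, v, fun j => ?_, ?_⟩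
    · have h1 := hvs j
      rcases Multiset.mem_cons.1 h1 with h2 | h2
      · rw [h2]
        exact hVc c
      · rcases Multiset.mem_add.1 h2 with h3 | h3
        · exact hs _ h3
        · rw [Multiset.eq_of_mem_replicate h3, ← map_one (algebraMap ℂ K)]
          exact hVc 1
    · rw [hvp]
      simp only [s', Multiset.prod_cons, Multiset.prod_add, Multiset.prod_replicate, one_pow,
        mul_one]
      calc W = W / s.prod * s.prod := (div_mul_cancel₀ W hs0).symm
        _ = hh g * (algebraMap ℂ K c * s.prod) := by rw [hc]; ring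
  -- contradiction for large `d`
  obtain ⟨d, hd⟩ := exists_nat_gt ((c₀ + 1) * m)
  have h1 := key d
  have h2 : ((d : ℝ) + 1) * (d + 1) ≤ (c₀ * d + 1) * m := by
    have h3 : (((d + 1) * (d + 1) : ℕ) : ℝ) ≤ (((⌊c₀ * d⌋₊ + 1) * m : ℕ) : ℝ) := by
      exact_mod_cast h1
    push_cast at h3
    refine h3.trans (mul_le_mul_of_nonneg_right ?_ (Nat.cast_nonneg _))
    have := Nat.floor_le (mul_nonneg hc₀0 (Nat.cast_nonneg d))
    linarith
  have h3 : (c₀ * d + 1) * m ≤ (d + 1) * ((c₀ + 1) * m) := by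
    have hm0 : (0 : ℝ) ≤ m := Nat.cast_nonneg _
    have hd0 : (0 : ℝ) ≤ d := Nat.cast_nonneg _
    nlinarith [mul_nonneg hd0 hm0, mul_nonneg hc₀0 hm0]
  have h4 : (0 : ℝ) < d + 1 := by positivity
  nlinarith

/-- A function with nonzero order along some prime divisor is transcendental. -/
theorem transcendental_of_v {f : K} {D : P} (hf : f ≠ 0) (hD : S.v D f ≠ 0) :
    Transcendental ℂ f := by
  intro halg
  apply hD
  refine S.v_eq_zero_of_algebraic D ⊥ ?_ (halg.tower_top (⊥ : IntermediateField ℂ K)) hf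
  intro x hx hx0
  obtain ⟨c, rfl⟩ := IntermediateField.mem_bot.1 hx
  refine S.v_const D c ?_
  rintro rfl
  exact hx0 (map_zero _)

/-- Two functions, one transcendental and the other not algebraic over it, are algebraically
independent. -/
theorem _root_.Pool.Agent.SYZ.algebraicIndependent_pair {K : Type*} [Field K] [Algebra ℂ K]
    {f h : K} (hf : Transcendental ℂ f)
    (hh : ¬ IsAlgebraic (IntermediateField.adjoin ℂ {f}) h) :
    AlgebraicIndependent ℂ ![h, f] := by
  let x : Fin 1 → K := fun _ => f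
  have hx : AlgebraicIndependent ℂ x := algebraicIndependent_unique_type_iff.2 hf
  have hle : Algebra.adjoin ℂ (Set.range x) ≤ (IntermediateField.adjoin ℂ {f}).toSubalgebra := by
    rw [Algebra.adjoin_le_iff]
    rintro _ ⟨i, rfl⟩
    exact IntermediateField.subset_adjoin ℂ _ rfl
  have ht : Transcendental (Algebra.adjoin ℂ (Set.range x)) h := by
    intro halg
    apply hh
    obtain ⟨p, hp, hph⟩ := halg
    refine ⟨p.map (Subalgebra.inclusion hle).toRingHom, ?_, ?_⟩
    · intro h0
      apply hp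
      exact (Polynomial.map_eq_zero_iff (Subalgebra.inclusion_injective hle)).1 h0
    · rw [Polynomial.aeval_def, Polynomial.eval₂_map]
      exact hph
  have h1 := (hx.option_iff_transcendental h).2 ht
  let e : Fin 2 → Option (Fin 1) := ![none, some 0]
  have he : Function.Injective e := by
    intro i j hij
    fin_cases i <;> fin_cases j <;> simp_all [e]
  have h2 := h1.comp e he
  convert h2 using 1
  funext i
  fin_cases i <;> rfl

/-- If the degrees of the prime divisors orthogonal to `L` are unbounded, then some power of `L`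
has two algebraically independent quotients of sections. -/
theorem independent_of_unbounded [Module.Finite ℤ Pic] {L : Pic} (hL : S.NefIsotropic L)
    (hunb : ∀ C : ℝ, ∃ D ∈ S.orth L, C < S.deg (S.cls D)) :
    ∃ f : Fin 2 → K, (∀ i, f i ∈ S.sectionQuotients L) ∧ AlgebraicIndependent ℂ f := by
  classical
  have hT : ∀ C : ℝ, {D | D ∈ S.orth L ∧ C < S.deg (S.cls D)}.Infinite := by
    intro C hfin
    have hne : {D | D ∈ S.orth L ∧ C < S.deg (S.cls D)}.Nonempty := by
      obtain ⟨D, hD, hC⟩ := hunb C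
      exact ⟨D, hD, hC⟩
    obtain ⟨D₁, hD₁, hmax⟩ := Set.exists_max_image _ (fun D => S.deg (S.cls D)) hfin hne
    obtain ⟨D₂, hD₂, hC₂⟩ := hunb (S.deg (S.cls D₁))
    have := hmax D₂ ⟨hD₂, hD₁.2.trans hC₂⟩
    exact absurd hC₂ (not_lt.2 this)
  have hfun : ∀ C : ℝ, ∃ j, C < S.deg (S.cls j) ∧ ∃ h : K, h ≠ 0 ∧ S.v j h ≠ 0 ∧
      h ∈ S.sectionQuotients L := by
    intro C
    obtain ⟨F, hFT, hFc⟩ := (hT C).exists_subset_card_eq (S.perpRank L + 1)
    obtain ⟨j, hj, h, hh, hvj, hv⟩ := S.exists_function hL F (fun D hD => (hFT hD).1)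
      (by rw [hFc]; exact Nat.lt_succ_self _)
    refine ⟨j, (hFT hj).2, h, hh, hvj, S.quotient_of_orth hL (fun D hneg => ?_) ?_⟩
    · by_contra hn
      rw [hv D hn] at hneg
      exact lt_irrefl _ hneg
    · intro c hc
      apply hvj
      rw [hc]
      refine S.v_const j c ?_
      rintro rfl
      exact hh (by rw [hc, map_zero])
  obtain ⟨j₁, -, f, hf0, hvf, hfq⟩ := hfun 0
  obtain ⟨j₂, hj₂, h, hh0, hvh, hhq⟩ := hfun (S.deg (S.O (S.poles hf0)))
  refine ⟨![h, f], fun i => ?_, algebraicIndependent_pair (S.transcendental_of_v hf0 hvf) ?_⟩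
  · fin_cases i
    · exact hhq
    · exact hfq
  · intro halg
    exact absurd (S.deg_le_of_algebraic hf0 halg hh0 hvh) (not_le.2 hj₂)

/-- The Iitaka dimension of `L` is at least two if and only if the degrees of the prime divisors
orthogonal to `L` are unbounded. -/
theorem two_iff_unbounded [Module.Finite ℤ Pic] [IsAddTorsionFree Pic] {L : Pic}
    (hfd : ∀ E : P →₀ ℤ, FiniteDimensional ℂ (S.sections E)) (hL : S.NefIsotropic L) :
    (∃ f : Fin 2 → K, (∀ i, f i ∈ S.sectionQuotients L) ∧ AlgebraicIndependent ℂ f) ↔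
      ∀ C : ℝ, ∃ D ∈ S.orth L, C < S.deg (S.cls D) := by
  constructor
  · rintro ⟨f, hf, hfi⟩ C
    exact S.unbounded_of_independent hfd hL hf hfi C
  · exact S.independent_of_unbounded hL

end HKDivisors

end

end Pool.Agent.SYZ
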