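import Pool.Agent.SYZ.Birational

namespace Pool.Agent.SYZ

noncomputable section

namespace HKDivisors

variable {K P Pic : Type*} [Field K] [Algebra ℂ K] [AddCommGroup Pic]
variable (S : HKDivisors K P Pic)

theorem fix_sat [IsAddTorsionFree Pic] {L : Pic} {g : Pic ≃ₗ[ℤ] Pic} (hgL : g L = L) {x : Pic}
    (hx : x ∈ sat L) : g x = x := by
  obtain ⟨a, b, ha, h⟩ := hx
  have h1 : a • (g x - x) = 0 := by
    rw [smul_sub, ← map_zsmul, h, map_zsmul, hgL, sub_self]
  exact sub_eq_zero.1 ((smul_eq_zero.1 h1).resolve_left ha)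

theorem sat_of_map {L : Pic} {g : Pic ≃ₗ[ℤ] Pic} (hgL : g L = L) {x : Pic}
    (hx : g x ∈ sat L) : x ∈ sat L := by
  obtain ⟨a, b, ha, h⟩ := hx
  refine ⟨a, b, ha, g.injective ?_⟩
  rw [map_zsmul, h, map_zsmul, hgL]

theorem pow_fix {L : Pic} {g : Pic ≃ₗ[ℤ] Pic} (hgL : g L = L) (n : ℕ) : (g ^ n) L = L := by
  induction n with
  | zero => rfl
  | succ n ih => rw [pow_succ, LinearEquiv.mul_apply, hgL, ih]

theorem pow_isometry {g : Pic ≃ₗ[ℤ] Pic} (hg : ∀ x y, S.q (g x) (g y) = S.q x y) (n : ℕ)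
    (x y : Pic) : S.q ((g ^ n) x) ((g ^ n) y) = S.q x y := by
  induction n generalizing x y with
  | zero => rfl
  | succ n ih => rw [pow_succ, LinearEquiv.mul_apply, LinearEquiv.mul_apply, ih, hg]

theorem cauchy_schwarz {L x f : Pic} (hL : S.NefIsotropic L) (hx : S.q L x = 0)
    (hf : S.q L f = 0) : (S.q f x) ^ 2 ≤ S.q x x * S.q f f := by
  have hz : S.q L ((S.q f f) • x - (S.q f x) • f) = 0 := by
    rw [map_sub, map_zsmul, map_zsmul, hx, hf, smul_zero, smul_zero, sub_zero]
  have h1 := S.q_self_le hL.1 hL.2.1 hz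
  have h2 : S.q ((S.q f f) • x - (S.q f x) • f) ((S.q f f) • x - (S.q f x) • f) =
      S.q f f * (S.q f f * S.q x x - (S.q f x) ^ 2) := by
    simp only [map_sub, map_zsmul, AddMonoidHom.sub_apply, AddMonoidHom.coe_smul, Pi.smul_apply,
      smul_eq_mul]
    rw [S.q_symm x f]
    ring
  rw [h2] at h1
  have h3 := S.q_self_le hL.1 hL.2.1 hf
  rcases eq_or_lt_of_le h3 with h4 | h4
  · have h5 : S.q x f = 0 := S.q_ray_orth (S.ray_of_q_self hL hf h4) hx
    rw [S.q_symm] at h5
    rw [h5, h4]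
    simp
  · by_contra h5
    push Not at h5
    have h6 : S.q f f * S.q x x - (S.q f x) ^ 2 < 0 := by linarith
    have h7 := mul_pos_of_neg_of_neg h4 h6
    linarith

/-- An isometry fixing `L` has a bounded power that is trivial modulo `ℚL` on `L^⊥`. -/
theorem exists_trivial_power [Module.Finite ℤ Pic] {L : Pic}
    (hL : S.NefIsotropic L) : ∃ M : ℕ, 0 < M ∧ ∀ g : Pic ≃ₗ[ℤ] Pic,
      (∀ x y, S.q (g x) (g y) = S.q x y) → g L = L → ∀ x, S.q L x = 0 → (g ^ M) x - x ∈ sat L := by
  classical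
  obtain ⟨F, hF⟩ := exists_generators (S.perp L)
  have hFL : ∀ f ∈ F, S.q L f = 0 := by
    intro f hf
    have : f ∈ S.perp L := by
      rw [← hF]
      exact AddSubgroup.subset_closure hf
    exact this
  set B : ℤ := ∑ e ∈ F, ∑ f ∈ F, |S.q e e * S.q f f| with hB
  let I : Finset (F → ℤ) := Finset.Icc (fun _ => -B) (fun _ => B)
  refine ⟨(I.card).factorial, Nat.factorial_pos _, fun g hg hgL => ?_⟩
  have hperp : ∀ (n : ℕ) (x : Pic), S.q L x = 0 → S.q L ((g ^ n) x) = 0 := by
    intro n x hx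
    have h1 := S.pow_isometry hg n L x
    rw [pow_fix hgL] at h1
    rw [h1, hx]
  have hstab : ∀ (n : ℕ) (x : Pic), x ∈ sat L → (g ^ n) x ∈ sat L := by
    rintro n x ⟨a, b, ha, h⟩
    refine ⟨a, b, ha, ?_⟩
    rw [← map_zsmul, h, map_zsmul, pow_fix hgL]
  -- generators
  have hgen : ∀ e ∈ F, (g ^ (I.card).factorial) e - e ∈ sat L := by
    intro e he
    have hmaps : ∀ k ∈ Finset.range (I.card + 1),
        (fun f : F => S.q (f : Pic) ((g ^ k) e)) ∈ I := by
      intro k _
      rw [Finset.mem_Icc]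
      have hb : ∀ f : F, |S.q (f : Pic) ((g ^ k) e)| ≤ B := by
        intro f
        have h1 := S.cauchy_schwarz hL (hperp k e (hFL e he)) (hFL f f.2)
        rw [S.pow_isometry hg] at h1
        have h2 : |S.q (f : Pic) ((g ^ k) e)| ≤ (S.q (f : Pic) ((g ^ k) e)) ^ 2 := by
          rw [← sq_abs]
          have h3 : 0 ≤ |S.q (f : Pic) ((g ^ k) e)| := abs_nonneg _
          rcases eq_or_lt_of_le h3 with h4 | h4
          · rw [← h4]; norm_num
          · nlinarith
        have h3 : |S.q e e * S.q (f : Pic) f| ≤ B := by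
          rw [hB]
          refine le_trans ?_ (Finset.single_le_sum
            (f := fun e => ∑ f ∈ F, |S.q e e * S.q f f|)
            (fun i _ => Finset.sum_nonneg fun j _ => abs_nonneg _) he)
          exact Finset.single_le_sum (f := fun f => |S.q e e * S.q f f|)
            (fun j _ => abs_nonneg _) f.2
        exact h2.trans (h1.trans ((le_abs_self _).trans h3))
      exact ⟨fun f => (abs_le.1 (hb f)).1, fun f => (abs_le.1 (hb f)).2⟩
    obtain ⟨k, hk, k', hk', hne, heq⟩ := Finset.exists_ne_map_eq_of_card_lt_of_maps_to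
      (by rw [Finset.card_range]; exact Nat.lt_succ_self _) hmaps
    wlog hlt : k < k' generalizing k k'
    · exact this k' hk' k hk (Ne.symm hne) heq.symm (by omega)
    obtain ⟨p, rfl⟩ : ∃ p, k' = k + p := ⟨k' - k, by omega⟩
    have hp : 0 < p := by omega
    have hpc : p ≤ I.card := by
      rw [Finset.mem_range] at hk'
      omega
    -- the difference lies in the radical
    set z := (g ^ (k + p)) e - (g ^ k) e with hz
    have hzL : S.q L z = 0 := by
      rw [hz, map_sub, hperp _ _ (hFL e he), hperp _ _ (hFL e he), sub_zero]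
    have hzf : S.perp L ≤ (S.q z).ker := by
      rw [← hF, AddSubgroup.closure_le]
      intro f hf
      change S.q z f = 0
      have h1 := congrFun heq ⟨f, hf⟩
      simp only at h1
      rw [S.q_symm, hz, map_sub, ← h1, sub_self]
    have hzz : S.q z z = 0 := hzf hzL
    have hzsat : z ∈ sat L := S.ray_of_q_self hL hzL hzz
    have hw : (g ^ p) e - e ∈ sat L := by
      refine sat_of_map (g := g ^ k) (pow_fix hgL k) ?_
      rw [map_sub, ← LinearEquiv.mul_apply, ← pow_add]
      exact hzsat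
    obtain ⟨m, hm⟩ := Nat.dvd_factorial hp hpc
    rw [hm]
    clear hm
    induction m with
    | zero => rw [mul_zero, pow_zero, LinearEquiv.coe_one, id, sub_self]; exact zero_mem _
    | succ m ih =>
      have h1 : (g ^ (p * (m + 1))) e - e =
          (g ^ (p * m)) ((g ^ p) e - e) + ((g ^ (p * m)) e - e) := by
        rw [map_sub, ← LinearEquiv.mul_apply, ← pow_add, mul_add, mul_one]
        abel
      rw [h1]
      exact add_mem (hstab _ _ hw) ih
  have hle : S.perp L ≤ (sat L).comap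
      (((g ^ (I.card).factorial).toAddEquiv.toAddMonoidHom) - AddMonoidHom.id Pic) := by
    conv_lhs => rw [← hF]
    rw [AddSubgroup.closure_le]
    intro e he
    exact hgen e he
  intro x hx
  exact hle hx

theorem exists_denominator [Module.Finite ℤ Pic] (L : Pic) :
    ∃ c : ℤ, c ≠ 0 ∧ ∀ y ∈ sat L, ∃ b : ℤ, c • y = b • L := by
  classical
  obtain ⟨F, hF⟩ := exists_generators (sat L)
  have hFs : ∀ f ∈ F, ∃ a b : ℤ, a ≠ 0 ∧ a • f = b • L := by
    intro f hf
    have : f ∈ sat L := by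
      rw [← hF]
      exact AddSubgroup.subset_closure hf
    exact this
  choose! a b ha hab using hFs
  refine ⟨∏ f ∈ F, a f, Finset.prod_ne_zero_iff.2 ha, ?_⟩
  have hle : sat L ≤ (AddSubgroup.zmultiples L).comap
      ((∏ f ∈ F, a f) • AddMonoidHom.id Pic) := by
    conv_lhs => rw [← hF]
    rw [AddSubgroup.closure_le]
    intro f hf
    change (∏ f ∈ F, a f) • f ∈ AddSubgroup.zmultiples L
    rw [← Finset.prod_erase_mul F a hf, mul_smul, hab f hf, smul_smul]
    exact AddSubgroup.zsmul_mem _ (AddSubgroup.mem_zmultiples L) _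
  intro y hy
  obtain ⟨b', hb'⟩ := AddSubgroup.mem_zmultiples_iff.1 (hle hy)
  exact ⟨b', hb'.symm⟩

/-- An isometry that is the identity on `L^⊥` is the identity. -/
theorem eq_one_of_perp [IsAddTorsionFree Pic] {L : Pic} (hL : S.NefIsotropic L)
    {h : Pic ≃ₗ[ℤ] Pic} (hi : ∀ x y, S.q (h x) (h y) = S.q x y)
    (hp : ∀ x, S.q L x = 0 → h x = x) (x : Pic) : h x = x := by
  by_cases hx : S.q L x = 0
  · exact hp x hx
  have hz : ∀ y, S.q L y = 0 → S.q (h x - x) y = 0 := by
    intro y hy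
    have h1 := hi x y
    rw [hp y hy] at h1
    rw [map_sub, AddMonoidHom.sub_apply, h1, sub_self]
  have hzL : S.q L (h x - x) = 0 := by
    rw [S.q_symm]
    exact hz L hL.1
  have hzz : S.q (h x - x) (h x - x) = 0 := hz _ hzL
  obtain ⟨a, b, ha, hab⟩ := S.ray_of_q_self hL hzL hzz
  have h2 := hi x x
  have h3 : h x = x + (h x - x) := by abel
  rw [h3] at h2
  simp only [map_add, AddMonoidHom.add_apply] at h2
  rw [hzz, S.q_symm (h x - x) x] at h2
  have h4 : S.q x (h x - x) = 0 := by linarith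
  have h5 : b * S.q L x = 0 := by
    have := congrArg (S.q x) hab
    rw [map_zsmul, map_zsmul, h4, smul_zero, smul_eq_mul, S.q_symm x L] at this
    exact this.symm
  have h6 : b = 0 := (mul_eq_zero.1 h5).resolve_right hx
  rw [h6, zero_smul] at hab
  exact sub_eq_zero.1 ((smul_eq_zero.1 hab).resolve_left ha)

/-- A fixed power of every isometry fixing `L` is an Eichler transvection. -/
theorem exists_power_eichler [Module.Finite ℤ Pic] [IsAddTorsionFree Pic] {L : Pic}
    (hL : S.NefIsotropic L) : ∃ N : ℕ, 0 < N ∧ ∀ g : Pic ≃ₗ[ℤ] Pic,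
      (∀ x y, S.q (g x) (g y) = S.q x y) → g L = L →
        ∃ t, S.q L t = 0 ∧ ∀ x, (g ^ N) x = S.eichlerFun L t x := by
  classical
  obtain ⟨M, hM, hMg⟩ := S.exists_trivial_power hL
  obtain ⟨c, hc, hcs⟩ := exists_denominator L
  obtain ⟨F, hF⟩ := exists_generators (S.perp L)
  have hFL : ∀ f ∈ F, S.q L f = 0 := by
    intro f hf
    have : f ∈ S.perp L := by
      rw [← hF]
      exact AddSubgroup.subset_closure hf
    exact this
  obtain ⟨G, h1, h2, -, h4⟩ := S.exists_orthogonal hL F hFL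
  have hcl := closure_rational (L := L) (G := G) (F := (F : Set Pic)) h4
  rw [hF] at hcl
  set Q : ℤ := ∏ f ∈ G, S.q f f with hQdef
  have hQ : Q ≠ 0 := Finset.prod_ne_zero_iff.2 fun f hf => (h1 f hf).2.ne
  have hQc : Q * c ≠ 0 := mul_ne_zero hQ hc
  refine ⟨M * (2 * (Q * c).natAbs), Nat.mul_pos hM (Nat.mul_pos two_pos (Int.natAbs_pos.2 hQc)),
    fun g hg hgL => ?_⟩
  have hg1 := hMg g hg hgL
  set g₁ := g ^ M with hg₁
  have hg₁L : g₁ L = L := pow_fix hgL M
  have hg₁i := S.pow_isometry hg M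
  -- the translation vectors on the orthogonal family
  have hψ : ∀ f ∈ G, ∃ b : ℤ, c • (g₁ f - f) = b • L := fun f hf => hcs _ (hg1 f (h1 f hf).1)
  choose! ψ hψ using hψ
  set t' : Pic := ∑ f ∈ G, ((∏ f' ∈ G.erase f, S.q f' f') * ψ f) • f with ht'
  have ht'L : S.q L t' = 0 := by
    rw [ht', map_sum]
    refine Finset.sum_eq_zero fun f hf => ?_
    rw [map_zsmul, (h1 f hf).1, smul_zero]
  have key : ∀ x, S.q L x = 0 → (Q * c) • (g₁ x - x) = (S.q t' x) • L := by
    intro x hx
    have h5 : S.proj G x ∈ sat L := S.proj_mem_sat (fun f hf => (h1 f hf).1) h2 (hcl x hx)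
    set y := S.proj G x with hy
    have hxy : Q • x = (∑ f ∈ G, ((∏ f' ∈ G.erase f, S.q f' f') * S.q f x) • f) + y := by
      rw [hy, proj_apply]; abel
    have h6 : Q • (g₁ x - x) = ∑ f ∈ G, ((∏ f' ∈ G.erase f, S.q f' f') * S.q f x) • (g₁ f - f) := by
      rw [smul_sub, ← map_zsmul, hxy, map_add, map_sum, fix_sat hg₁L h5]
      simp only [map_zsmul, smul_sub, Finset.sum_sub_distrib]
      abel
    rw [mul_comm, mul_smul, h6, Finset.smul_sum, ht', map_sum, AddMonoidHom.finsetSum_apply,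
      Finset.sum_smul]
    refine Finset.sum_congr rfl fun f hf => ?_
    rw [smul_comm, hψ f hf, smul_smul, map_zsmul, AddMonoidHom.coe_smul, Pi.smul_apply,
      smul_eq_mul]
    congr 1
    ring
  have hpow : ∀ (n : ℕ) (x : Pic), S.q L x = 0 → (g₁ ^ n) x = x + n • (g₁ x - x) := by
    intro n x hx
    induction n with
    | zero => simp
    | succ n ih =>
      rw [pow_succ', LinearEquiv.mul_apply, ih, map_add, map_nsmul,
        fix_sat hg₁L (hg1 x hx), succ_nsmul]
      abel
  -- the sign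
  obtain ⟨s, hs⟩ : ∃ s : ℤ, ((Q * c).natAbs : ℤ) = s * (Q * c) := by
    rcases Int.natAbs_eq (Q * c) with h | h
    · exact ⟨1, by omega⟩
    · exact ⟨-1, by omega⟩
  have htL : S.q L ((-s) • t') = 0 := by rw [map_zsmul, ht'L, smul_zero]
  refine ⟨(-s) • t', htL, ?_⟩
  have hperp : ∀ x, S.q L x = 0 →
      (g ^ (M * (2 * (Q * c).natAbs))) x = S.eichlerFun L ((-s) • t') x := by
    intro x hx
    rw [pow_mul, ← hg₁, hpow _ x hx, eichlerFun, hx]
    have h5 : ((2 * (Q * c).natAbs : ℕ) : ℤ) • (g₁ x - x) = (2 * (s * S.q t' x)) • L := by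
      have h6 : ((2 * (Q * c).natAbs : ℕ) : ℤ) = (2 * s) * (Q * c) := by
        push_cast
        rw [← Int.natCast_natAbs, hs]
        ring
      rw [h6, mul_smul, key x hx, smul_smul]
      congr 1
      ring
    rw [natCast_zsmul] at h5
    rw [h5]
    simp only [map_zsmul, AddMonoidHom.coe_smul, Pi.smul_apply, smul_eq_mul, mul_zero, zero_smul,
      add_zero, sub_zero]
    rw [sub_eq_add_neg, ← neg_smul]
    congr 2
    ring
  -- extension to all of `Pic`
  set e := S.eichler hL.1 htL with he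
  have hone : ∀ x, (e⁻¹ * g ^ (M * (2 * (Q * c).natAbs))) x = x := by
    refine S.eq_one_of_perp hL ?_ ?_
    · intro x y
      have h5 : ∀ u v, S.q (e⁻¹ u) (e⁻¹ v) = S.q u v := by
        intro u v
        have h6 := S.eichler_isometry hL.1 htL (e⁻¹ u) (e⁻¹ v)
        rw [← he, ← LinearEquiv.mul_apply, ← LinearEquiv.mul_apply, mul_inv_cancel,
          LinearEquiv.coe_one, id, id] at h6
        exact h6.symm
      rw [LinearEquiv.mul_apply, LinearEquiv.mul_apply, h5, S.pow_isometry hg]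
    · intro x hx
      rw [LinearEquiv.mul_apply, hperp x hx, ← S.eichler_apply hL.1 htL, ← he,
        ← LinearEquiv.mul_apply, inv_mul_cancel, LinearEquiv.coe_one, id]
  intro x
  have h5 := congrArg e (hone x)
  rw [← LinearEquiv.mul_apply, ← mul_assoc, mul_inv_cancel, one_mul] at h5
  exact h5

theorem q_nonpos_of_bir {L t : Pic} (hL : S.NefIsotropic L) (B : BirationalData S)
    (ht : S.q L t = 0) {g : Pic ≃ₗ[ℤ] Pic} (hgB : g ∈ B.bir)
    (hg : ∀ x, g x = S.eichlerFun L t x) {D : P} (hD : D ∈ S.orth L) :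
    S.q t (S.cls D) ≤ 0 := by
  by_contra hpos
  push Not at hpos
  have he : g = S.eichler hL.1 ht := by
    ext x
    rw [hg, eichler_apply]
  obtain ⟨J, hJ⟩ := exists_nat_gt (S.deg (S.cls D) / S.deg L)
  have hJ' : S.deg (S.cls D) < J * S.deg L := (div_lt_iff₀ hL.2.1).1 hJ
  obtain ⟨D', hD'⟩ := B.bir_prime _ (Subgroup.pow_mem _ hgB J) D
  rw [he, S.eichler_pow, eichler_apply, eichlerFun] at hD'
  have hDL : S.q L (S.cls D) = 0 := hD
  rw [hDL] at hD'
  simp only [map_nsmul, AddMonoidHom.coe_smul, Pi.smul_apply, nsmul_eq_mul, mul_zero, zero_smul,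
    add_zero, sub_zero] at hD'
  have h1 := congrArg S.deg hD'
  rw [map_sub, map_zsmul, zsmul_eq_mul] at h1
  have h2 : 0 < S.deg (S.cls D') := S.deg_prime D'
  rw [← h1] at h2
  push_cast at h2
  have h3 : (1 : ℝ) ≤ S.q t (S.cls D) := by exact_mod_cast hpos
  have h4 : (J : ℝ) * S.deg L ≤ 2 * (J * (S.q t (S.cls D) : ℝ)) * S.deg L := by
    have h5 : 0 ≤ (J : ℝ) * S.deg L := mul_nonneg (Nat.cast_nonneg J) hL.2.1.le
    nlinarith
  linarith

/-- A fixed power of every bimeromorphic self-map fixing `L` acts as an Eichler transvection in a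
direction orthogonal to all prime divisors in `L^⊥`. -/
theorem bir_power [Module.Finite ℤ Pic] [IsAddTorsionFree Pic] (B : BirationalData S) {L : Pic}
    (hL : S.NefIsotropic L) : ∃ N : ℕ, 0 < N ∧ ∀ g ∈ B.bir, g L = L →
      ∃ t ∈ S.doublePerp L, ∀ x, (g ^ N) x = S.eichlerFun L t x := by
  obtain ⟨N, hN, hNg⟩ := S.exists_power_eichler hL
  refine ⟨N, hN, fun g hgB hgL => ?_⟩
  obtain ⟨t, ht, hgt⟩ := hNg g (B.bir_isometry g hgB) hgL
  refine ⟨t, ⟨ht, fun D hD => ?_⟩, hgt⟩
  have h1 := S.q_nonpos_of_bir hL B ht (Subgroup.pow_mem _ hgB N) hgt hD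
  have ht' : S.q L (-t) = 0 := by rw [map_neg, ht, neg_zero]
  have h2 : ∀ x, (g ^ N)⁻¹ x = S.eichlerFun L (-t) x := by
    intro x
    apply (g ^ N).injective
    rw [← LinearEquiv.mul_apply, mul_inv_cancel, hgt, S.eichlerFun_add hL.1 ht' ht,
      neg_add_cancel, eichlerFun_zero]
    rfl
  have h3 := S.q_nonpos_of_bir hL B ht' (Subgroup.inv_mem _ (Subgroup.pow_mem _ hgB N)) h2 hD
  rw [map_neg, AddMonoidHom.neg_apply] at h3
  omega

end HKDivisors

end

end Pool.Agent.SYZ
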