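import Pool.Agent.SYZ.DefsDyn
import Pool.Agent.SYZ.Stabilizer

namespace Pool.Agent.SYZ

noncomputable section

variable {K P Pic : Type*} [Field K] [Algebra ℂ K] [AddCommGroup Pic]

namespace HKDivisors

variable (S : HKDivisors K P Pic)

/-- A class orthogonal to `L` with two different effective divisors gives two sections of a power
of `L`. -/
theorem twoSections_of_perp {L : Pic} (hL : S.NefIsotropic L) {x : Pic} (hx : S.q L x = 0)
    {E E' : P →₀ ℤ} (hE : 0 ≤ E) (hE' : 0 ≤ E') (hne : E ≠ E') (h1 : S.O E = x)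
    (h2 : S.O E' = x) : S.TwoSections L := by
  have s1 := S.support_subset_orth hL hE (by rw [h1, hx])
  set X := pos (E - E') with hX
  set X' := pos (-(E - E')) with hX'
  have hsub : X - X' = E - E' := pos_sub_pos _
  have hXX : S.O X = S.O X' := by
    have h3 : S.O (X - X') = S.O (E - E') := by rw [hsub]
    rw [map_sub, map_sub, h1, h2, sub_self, sub_eq_zero] at h3
    exact h3
  have hle : X.support ⊆ E.support := by
    intro D hD
    rw [Finsupp.mem_support_iff] at hD ⊢
    simp only [hX, pos, Finsupp.mapRange_apply, Finsupp.coe_sub, Pi.sub_apply] at hD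
    intro h0
    have := hE' D
    simp only [Finsupp.coe_zero, Pi.zero_apply] at this
    omega
  have hX0 : X ≠ 0 := by
    intro h0
    have hX0' : X' ≠ 0 := by
      intro h0'
      rw [h0, h0', sub_zero] at hsub
      exact hne (sub_eq_zero.1 hsub.symm)
    have := S.deg_O_pos (pos_nonneg (-(E - E'))) hX0'
    rw [← hX', ← hXX, h0, map_zero, map_zero] at this
    exact lt_irrefl _ this
  have hX0' : X' ≠ 0 := by
    intro h0'
    have := S.deg_O_pos (pos_nonneg (E - E')) hX0
    rw [← hX, hXX, h0', map_zero, map_zero] at this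
    exact lt_irrefl _ this
  have r1 : Ray L (S.O X) := S.ray_of_sub hL (pos_nonneg _) (pos_nonneg _) (pos_disjoint (E - E'))
    (S.q_O_eq_zero fun D hD => s1 D (hle hD)) 0 (by rw [zero_smul, add_zero]; exact hXX)
  have r2 : Ray L (S.O X') := by rw [← hXX]; exact r1
  exact S.twoSections_of_disjoint hL (S.disjointSections_of_ray hL (pos_nonneg _) hX0 r1
    (pos_nonneg _) hX0' r2 (pos_disjoint (E - E')))

/-- Classes fixed by a power of an infinite order isometry fixing `L` are orthogonal to `L`. -/
theorem perp_of_fixed [Module.Finite ℤ Pic] [IsAddTorsionFree Pic] {L : Pic}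
    (hL : S.NefIsotropic L) {g : Pic ≃ₗ[ℤ] Pic} (hg : ∀ x y, S.q (g x) (g y) = S.q x y)
    (hgL : g L = L) (hinf : ¬ IsOfFinOrder g) {j : ℕ} (hj : 0 < j) {x : Pic}
    (hx : (g ^ j) x = x) : S.q L x = 0 := by
  obtain ⟨N, hN, hNg⟩ := S.exists_power_eichler hL
  obtain ⟨t, ht, hgt⟩ := hNg g hg hgL
  have he : g ^ N = S.eichler hL.1 ht := by
    ext y
    rw [hgt, eichler_apply]
  by_contra hne
  -- `x` is fixed by `g ^ (N * j)`
  have h1 : (g ^ (N * j)) x = x := by
    rw [mul_comm, pow_mul]
    clear hgt he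
    induction N with
    | zero => rfl
    | succ n ih =>
      rw [pow_succ, LinearEquiv.mul_apply, hx]
      rcases Nat.eq_zero_or_pos n with h0 | h0
      · rw [h0, pow_zero]; rfl
      · have : ∀ m : ℕ, ((g ^ j) ^ m) x = x := by
          intro m
          induction m with
          | zero => rfl
          | succ m ihm => rw [pow_succ, LinearEquiv.mul_apply, hx, ihm]
        exact this n
  rw [pow_mul, he, S.eichler_pow, eichler_apply, eichlerFun] at h1
  -- hence `t` is proportional to `L`
  have h2 : (2 * S.q L x) • (j • t) =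
      (2 * S.q (j • t) x + 2 * S.q (j • t) (j • t) * S.q L x) • L := by
    have h3 : x - (2 * S.q (j • t) x) • L + (2 * S.q L x) • (j • t) -
        (2 * S.q (j • t) (j • t) * S.q L x) • L - x = 0 := by rw [h1, sub_self]
    rw [add_smul, ← sub_eq_zero, ← h3]
    abel
  have hray : Ray L t := by
    refine ⟨2 * S.q L x * j, 2 * S.q (j • t) x + 2 * S.q (j • t) (j • t) * S.q L x, ?_, ?_⟩
    · have : (j : ℤ) ≠ 0 := by exact_mod_cast hj.ne'
      exact mul_ne_zero (mul_ne_zero two_ne_zero hne) this
    · rw [← h2, mul_smul, natCast_zsmul]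
  -- then `g ^ N` is the identity
  apply hinf
  rw [isOfFinOrder_iff_pow_eq_one]
  refine ⟨N, hN, ?_⟩
  ext y
  rw [hgt]
  obtain ⟨a, b, ha, hab⟩ := hray
  have htt : S.q t t = 0 := S.q_ray_orth ⟨a, b, ha, hab⟩ ht
  have h4 : a * S.q t y = b * S.q L y := by
    have := congrArg (fun z => S.q z y) hab
    simpa using this
  have h5 : a • (S.eichlerFun L t y - y) = 0 := by
    rw [eichlerFun, htt]
    simp only [mul_zero, zero_mul, zero_smul, sub_zero]
    have h6 : a • (y - (2 * S.q t y) • L + (2 * S.q L y) • t - y) =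
        (2 * S.q L y) • (a • t) - (2 * (a * S.q t y)) • L := by module
    rw [h6, hab, h4, smul_smul, ← sub_smul]
    have h7 : 2 * S.q L y * b - 2 * (b * S.q L y) = 0 := by ring
    rw [h7, zero_smul]
  exact sub_eq_zero.1 ((smul_eq_zero.1 h5).resolve_left ha)

/-- The divisor of a function, in terms of `O`. -/
theorem mem_sections {E : P →₀ ℤ} {f : K} : f ∈ S.sections E ↔ (f ≠ 0 → ∀ D, 0 ≤ S.v D f + E D) :=
  Iff.rfl

end HKDivisors

namespace SelfMap

variable {S : HKDivisors K P Pic}

/-- Powers of a self-map. -/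
def pow (φ : SelfMap S) (n : ℕ) : SelfMap S where
  γ := φ.γ ^ n
  π := φ.π ^ n
  g := φ.g ^ n
  v_comp := by
    induction n with
    | zero => intro D f _; rfl
    | succ n ih =>
      intro D f hf
      rw [pow_succ, pow_succ, Equiv.Perm.mul_apply, AlgEquiv.mul_apply,
        ih _ _ (by simpa using hf), φ.v_comp D f hf]
  cls_comp := by
    induction n with
    | zero => intro D; rfl
    | succ n ih =>
      intro D
      rw [pow_succ, pow_succ, Equiv.Perm.mul_apply, LinearEquiv.mul_apply, φ.cls_comp, ih]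
  isometry := S.pow_isometry φ.isometry n

/-- The action on divisors. -/
def push (φ : SelfMap S) (E : P →₀ ℤ) : P →₀ ℤ := E.equivMapDomain φ.π

theorem push_apply (φ : SelfMap S) (E : P →₀ ℤ) (D : P) : φ.push E (φ.π D) = E D := by
  rw [push, Finsupp.equivMapDomain_apply, Equiv.symm_apply_apply]

theorem O_push (φ : SelfMap S) (E : P →₀ ℤ) : S.O (φ.push E) = φ.g (S.O E) := by
  classical
  induction E using Finsupp.induction_linear with
  | zero => simp [push]
  | add E F hE hF =>
    have : φ.push (E + F) = φ.push E + φ.push F := by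
      ext D
      simp [push, Finsupp.equivMapDomain_apply]
    rw [this, map_add, map_add, map_add, hE, hF]
  | single D n =>
    have h1 : φ.push (Finsupp.single D n) = Finsupp.single (φ.π D) n := by
      rw [push, Finsupp.equivMapDomain_single]
    have h2 : ∀ D', S.O (Finsupp.single D' n) = n • S.cls D' := by
      intro D'
      rw [HKDivisors.cls, ← map_zsmul, Finsupp.smul_single, smul_eq_mul, mul_one]
    rw [h1, h2, h2, map_zsmul, φ.cls_comp]

/-- A nonconstant function `f` with `γ f = a f + b` gives a fixed class with two different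
effective divisors. -/
theorem fixed_class_of_affine (φ : SelfMap S) {f : K} (hf : ∀ c : ℂ, f ≠ algebraMap ℂ K c)
    {a b : ℂ} (h : φ.γ f = algebraMap ℂ K a * f + algebraMap ℂ K b) :
    ∃ x, φ.g x = x ∧ ∃ E E' : P →₀ ℤ, 0 ≤ E ∧ 0 ≤ E' ∧ E ≠ E' ∧ S.O E = x ∧ S.O E' = x := by
  have hf0 : f ≠ 0 := by
    intro h0
    exact hf 0 (by rw [h0, map_zero])
  have ha : a ≠ 0 := by
    rintro rfl
    rw [map_zero, zero_mul, zero_add] at h
    have h1 : φ.γ f = φ.γ (algebraMap ℂ K b) := by rw [h, AlgEquiv.commutes]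
    exact hf b (φ.γ.injective h1)
  -- the polar divisor of `f`
  let E : P →₀ ℤ := HKDivisors.pos (-(S.dv hf0))
  let E₀ : P →₀ ℤ := HKDivisors.pos (S.dv hf0)
  have hdiff : E₀ - E = S.dv hf0 := HKDivisors.pos_sub_pos _
  have hO : S.O E = S.O E₀ := by
    have h1 := S.O_dv hf0
    rw [← hdiff, map_sub, sub_eq_zero] at h1
    exact h1.symm
  have hne : E ≠ E₀ := by
    intro h1
    rw [← h1, sub_self] at hdiff
    obtain ⟨c, hc⟩ := S.const_of_holomorphic f hf0 (by
      intro D
      have := DFunLike.congr_fun hdiff D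
      rw [HKDivisors.dv_apply] at this
      rw [← this]
      exact le_rfl)
    exact hf c hc
  have hEv : ∀ D, E D = max (-(S.v D f)) 0 := fun D => rfl
  -- it is invariant
  have hinv : φ.push E = E := by
    ext D'
    obtain ⟨D, rfl⟩ := φ.π.surjective D'
    rw [push_apply, hEv, hEv, ← φ.v_comp D f hf0, h]
    -- compare the poles of `f` and of `a f + b` along `φ.π D`
    have haf : algebraMap ℂ K a * f ≠ 0 := mul_ne_zero (by simpa using ha) hf0
    have hvaf : S.v (φ.π D) (algebraMap ℂ K a * f) = S.v (φ.π D) f := by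
      rw [S.v_mul _ _ _ (by simpa using ha) hf0, S.v_const _ a ha, zero_add]
    by_cases hb : b = 0
    · rw [hb, map_zero, add_zero, hvaf]
    have hb' : algebraMap ℂ K b ≠ 0 := by simpa using hb
    have hnb' : algebraMap ℂ K (-b) ≠ 0 := by simpa using hb
    have hsum : algebraMap ℂ K a * f + algebraMap ℂ K b ≠ 0 := by
      rw [← h]
      simpa using hf0
    have h1 := S.v_add (φ.π D) _ _ haf hb' hsum
    have h2 := S.v_add (φ.π D) _ _ hsum hnb' (by
      rw [map_neg, add_neg_cancel_right]
      exact haf)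
    rw [map_neg, add_neg_cancel_right, ← map_neg, S.v_const _ _ (neg_ne_zero.2 hb), hvaf] at h2
    rw [S.v_const _ b hb, hvaf] at h1
    rcases min_le_iff.1 h1 with h3 | h3 <;> rcases min_le_iff.1 h2 with h4 | h4 <;> omega
  refine ⟨S.O E, ?_, E, E₀, HKDivisors.pos_nonneg _, HKDivisors.pos_nonneg _, hne, rfl, hO.symm⟩
  rw [← O_push, hinv]

end SelfMap

end

end Pool.Agent.SYZ
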