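import Pool.Agent.SYZ.Stabilizer

namespace Pool.Agent.SYZ

noncomputable section

namespace HKDivisors

variable {K P Pic : Type*} [Field K] [Algebra ℂ K] [AddCommGroup Pic]
variable (S : HKDivisors K P Pic)

/-- The rank of a group all of whose elements have a nonzero multiple in the span of a finite set
is at most the cardinality of that set. -/
theorem finrank_le_of_rational_span [Module.Finite ℤ Pic] (A : AddSubgroup Pic) (F : Finset Pic)
    (h : ∀ x ∈ A, ∃ a : ℤ, a ≠ 0 ∧ a • x ∈ AddSubgroup.closure (F : Set Pic)) :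
    Module.finrank ℤ A ≤ F.card := by
  classical
  by_contra hlt
  push Not at hlt
  obtain ⟨f, hf⟩ := exists_linearIndependent_of_le_finrank (R := ℤ) (M := A)
    (n := F.card + 1) hlt
  choose a ha hmem using fun i => h (f i : Pic) (f i).2
  let V : Submodule ℤ Pic := Submodule.span ℤ (F : Set Pic)
  have hV : ∀ i, a i • (f i : Pic) ∈ V := by
    intro i
    have h1 := hmem i
    rw [← Submodule.mem_toAddSubgroup, Submodule.span_int_eq_addSubgroupClosure]
    exact h1
  let w : Fin (F.card + 1) → V := fun i => ⟨a i • (f i : Pic), hV i⟩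
  have hw : LinearIndependent ℤ w := by
    rw [Fintype.linearIndependent_iff] at hf ⊢
    intro g hg i
    have h1 : ∑ i, (g i * a i) • f i = 0 := by
      apply Subtype.ext
      have h2 := congrArg Subtype.val hg
      simpa [w, mul_smul] using h2
    have h3 := hf _ h1 i
    exact (mul_eq_zero.1 h3).resolve_right (ha i)
  have hcard := hw.fintype_card_le_finrank
  have hle : Module.finrank ℤ V ≤ F.card := by
    have := finrank_span_finset_le_card (R := ℤ) F
    exact this
  rw [Fintype.card_fin] at hcard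
  omega

theorem torsion_stabilizer [Module.Finite ℤ Pic] (B : BirationalData S)
    {L : Pic} (hL : S.NefIsotropic L) (hfin : ∀ g ∈ B.bir, g L = L → IsOfFinOrder g) {x : Pic}
    (hx : S.q L x = 0) :
    ∃ a : ℤ, a ≠ 0 ∧ a • x ∈ AddSubgroup.closure (S.cls '' S.orth L) ⊔ sat L := by
  by_contra h
  obtain ⟨t, ht, htt⟩ := S.exists_direction hL hx h
  obtain ⟨N, hN, hbir⟩ := S.transvection_mem_bir B hL
  obtain ⟨g, hgB, hg⟩ := hbir t ht
  have htN : S.q L (N • t) = 0 := S.q_nsmul ht.1 N
  refine S.eichler_infinite_order hL htN ?_ hg (hfin g hgB ?_)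
  · rw [map_nsmul, map_nsmul, AddMonoidHom.coe_smul, Pi.smul_apply, nsmul_eq_mul, nsmul_eq_mul]
    have h1 : (0 : ℤ) < N := by exact_mod_cast hN
    have h2 : (N : ℤ) * (N * S.q t t) = -((N : ℤ) * N * (-S.q t t)) := by ring
    rw [h2]
    have := mul_pos (mul_pos h1 h1) (neg_pos.2 htt)
    linarith
  · have hLt : S.q (N • t) L = 0 := by rw [S.q_symm]; exact htN
    rw [hg, eichlerFun, hL.1, hLt]
    simp

/-- If the stabiliser of `L` among the bimeromorphic self-maps is torsion on `Pic` and `L^⊥` has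
rank at least two, then some power of `L` has a section, and the prime divisors orthogonal to `L`
rationally span `L^⊥`. -/
theorem nonvanishing_of_torsion [Module.Finite ℤ Pic] (B : BirationalData S)
    {L : Pic} (hL : S.NefIsotropic L) (hfin : ∀ g ∈ B.bir, g L = L → IsOfFinOrder g)
    (hr : 2 ≤ S.perpRank L) :
    S.QEffective L ∧ (S.perpRank L : ℕ∞) ≤ (S.orth L).encard ∧
      ∀ x, S.q L x = 0 → ∃ a : ℤ, a ≠ 0 ∧ a • x ∈ AddSubgroup.closure (S.cls '' S.orth L) := by
  classical
  have hspan := fun x hx => S.torsion_stabilizer B hL hfin (x := x) hx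
  have hne : (S.orth L).Nonempty := by
    rw [Set.nonempty_iff_ne_empty]
    intro h0
    have h1 : ∀ x ∈ S.perp L, ∃ a : ℤ, a ≠ 0 ∧
        a • x ∈ AddSubgroup.closure (({L} : Finset Pic) : Set Pic) := by
      intro x hx
      obtain ⟨a, ha, hax⟩ := hspan x hx
      rw [h0, Set.image_empty, AddSubgroup.closure_empty, bot_sup_eq] at hax
      obtain ⟨a', b', ha', hab'⟩ := hax
      refine ⟨a' * a, mul_ne_zero ha' ha, ?_⟩
      rw [mul_smul, hab']
      exact AddSubgroup.zsmul_mem _ (AddSubgroup.subset_closure (by simp)) _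
    have h2 : S.perpRank L ≤ ({L} : Finset Pic).card :=
      finrank_le_of_rational_span (S.perp L) {L} h1
    rw [Finset.card_singleton] at h2
    omega
  have hQ : S.QEffective L := (S.qEffective_iff B.toMonodromyData hL).2 hne
  -- `L` is itself in the rational span of the orthogonal primes
  have hLs : ∃ k : ℤ, k ≠ 0 ∧ k • L ∈ AddSubgroup.closure (S.cls '' S.orth L) := by
    obtain ⟨k, hk, E, hE, hEk⟩ := hQ
    refine ⟨k, hk.ne', ?_⟩
    have hs : ∀ D ∈ E.support, D ∈ S.orth L :=
      S.support_subset_orth hL hE (by rw [hEk, map_zsmul, hL.1, smul_zero])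
    rw [← hEk, O_eq_sum, Finsupp.sum]
    exact AddSubgroup.sum_mem _ fun D hD => AddSubgroup.zsmul_mem _
      (AddSubgroup.subset_closure (Set.mem_image_of_mem _ (hs D hD))) _
  obtain ⟨k, hk, hkL⟩ := hLs
  have hspan' : ∀ x, S.q L x = 0 →
      ∃ a : ℤ, a ≠ 0 ∧ a • x ∈ AddSubgroup.closure (S.cls '' S.orth L) := by
    intro x hx
    obtain ⟨a, ha, hax⟩ := hspan x hx
    obtain ⟨w, hw, y, hy, hwy⟩ := AddSubgroup.mem_sup.1 hax
    obtain ⟨a', b', ha', hab'⟩ := hy
    refine ⟨k * a' * a, mul_ne_zero (mul_ne_zero hk ha') ha, ?_⟩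
    rw [mul_smul, ← hwy, smul_add]
    refine add_mem (AddSubgroup.zsmul_mem _ hw _) ?_
    rw [mul_smul, hab', smul_smul, mul_comm, mul_smul]
    exact AddSubgroup.zsmul_mem _ hkL _
  refine ⟨hQ, ?_, hspan'⟩
  rcases (S.orth L).finite_or_infinite with hf | hi
  · have h1 := finrank_le_of_rational_span (S.perp L) (hf.toFinset.image S.cls) (by
      intro x hx
      rw [Finset.coe_image, Set.Finite.coe_toFinset]
      exact hspan' x hx)
    have h2 : S.perpRank L ≤ hf.toFinset.card := h1.trans Finset.card_image_le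
    rw [hf.encard_eq_coe_toFinset_card]
    exact_mod_cast h2
  · rw [hi.encard_eq]
    exact le_top

end HKDivisors

end

end Pool.Agent.SYZ
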