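import Pool.Agent.SYZ.DefsIitaka
import Pool.Agent.SYZ.Affine

namespace Pool.Agent.SYZ

noncomputable section

variable {K P Pic : Type*} [Field K] [Algebra ℂ K] [AddCommGroup Pic]

namespace SelfMap

variable {S : HKDivisors K P Pic}

theorem pow_π (φ : SelfMap S) (j : ℕ) : (φ.pow j).π = φ.π ^ j := rfl
theorem pow_γ (φ : SelfMap S) (j : ℕ) : (φ.pow j).γ = φ.γ ^ j := rfl
theorem pow_g (φ : SelfMap S) (j : ℕ) : (φ.pow j).g = φ.g ^ j := rfl

/-- The poles of a finite function are periodic. -/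
theorem pole_periodic (φ : SelfMap S) {f : K} (hf : φ.IsFinite f) (hf0 : f ≠ 0) {D : P}
    (hD : S.v D f < 0) : ∃ j : ℕ, 0 < j ∧ (φ.π ^ j) D = D := by
  classical
  obtain ⟨V, hV, hfV, hst⟩ := hf
  obtain ⟨B, hB⟩ := (Submodule.fg_iff_finiteDimensional V).2 hV
  -- the finite set of possible poles
  let F : Set P := ⋃ b ∈ (B : Set K) ∩ {b | b ≠ 0}, {D | S.v D b ≠ 0}
  have hF : F.Finite := by
    refine Set.Finite.biUnion ((Finset.finite_toSet B).subset Set.inter_subset_left) ?_
    intro b hb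
    exact S.v_finite b hb.2
  have hpole : ∀ D' ∉ F, ∀ h ∈ V, h ≠ 0 → 0 ≤ S.v D' h := by
    intro D' hD' h hh
    let W : Submodule ℂ K :=
      { carrier := {h | h ≠ 0 → 0 ≤ S.v D' h}
        add_mem' := by
          intro a b ha hb hab
          by_cases h1 : a = 0
          · rw [h1, zero_add] at hab ⊢
            exact hb hab
          by_cases h2 : b = 0
          · rw [h2, add_zero] at hab ⊢
            exact ha hab
          exact (le_min (ha h1) (hb h2)).trans (S.v_add D' a b h1 h2 hab)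
        zero_mem' := fun h => absurd rfl h
        smul_mem' := by
          intro c a ha hca
          rw [Algebra.smul_def] at hca ⊢
          have h1 : algebraMap ℂ K c ≠ 0 := left_ne_zero_of_mul hca
          have h2 : a ≠ 0 := right_ne_zero_of_mul hca
          have hc : c ≠ 0 := by
            rintro rfl
            exact h1 (map_zero _)
          rw [S.v_mul D' _ _ h1 h2, S.v_const D' c hc, zero_add]
          exact ha h2 }
    have hVW : V ≤ W := by
      rw [← hB, Submodule.span_le]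
      intro b hb hb0
      by_contra hneg
      push Not at hneg
      apply hD'
      exact Set.mem_biUnion (show b ∈ (B : Set K) ∩ {b | b ≠ 0} from ⟨hb, hb0⟩) hneg.ne
    exact hVW hh
  have hmem : ∀ j : ℕ, (φ.γ ^ j) f ∈ V := by
    intro j
    induction j with
    | zero => exact hfV
    | succ j ih => rw [pow_succ', AlgEquiv.mul_apply]; exact hst _ ih
  have horb : ∀ j : ℕ, (φ.π ^ j) D ∈ F := by
    intro j
    by_contra hn
    have h1 : (φ.γ ^ j) f ≠ 0 := (map_ne_zero_iff _ (φ.γ ^ j).injective).2 hf0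
    have h2 := hpole _ hn _ (hmem j) h1
    have h3 := (φ.pow j).v_comp D f hf0
    rw [pow_π, pow_γ] at h3
    rw [h3] at h2
    omega
  obtain ⟨i, j, hij, heq⟩ : ∃ i j : ℕ, i < j ∧ (φ.π ^ i) D = (φ.π ^ j) D := by
    obtain ⟨i, -, j, -, hne, heq⟩ := Set.infinite_univ.exists_ne_map_eq_of_mapsTo
      (f := fun j : ℕ => (φ.π ^ j) D) (s := Set.univ) (t := F) (fun j _ => horb j) hF
    rcases lt_or_gt_of_ne hne with h | h
    · exact ⟨i, j, h, heq⟩
    · exact ⟨j, i, h, heq.symm⟩
  refine ⟨j - i, by omega, ?_⟩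
  have h1 : (φ.π ^ j) D = (φ.π ^ i) ((φ.π ^ (j - i)) D) := by
    rw [← Equiv.Perm.mul_apply, ← pow_add]
    congr 2
    omega
  rw [h1] at heq
  exact ((φ.π ^ i).injective heq).symm

/-- A nonconstant function whose poles are orthogonal to `L` is a quotient of two sections of a
power of `L`. -/
theorem _root_.Pool.Agent.SYZ.HKDivisors.quotient_of_orth (S : HKDivisors K P Pic) {L : Pic}
    (hL : S.NefIsotropic L) {f : K} (hf : ∀ D, S.v D f < 0 → D ∈ S.orth L)
    (hfc : ∀ c : ℂ, f ≠ algebraMap ℂ K c) : f ∈ S.sectionQuotients L := by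
  have hf0 : f ≠ 0 := by
    intro h0
    exact hfc 0 (by rw [h0, map_zero])
  let E : P →₀ ℤ := HKDivisors.pos (-(S.dv hf0))
  let E₀ : P →₀ ℤ := HKDivisors.pos (S.dv hf0)
  have hdiff : E₀ - E = S.dv hf0 := HKDivisors.pos_sub_pos _
  have hO : S.O E = S.O E₀ := by
    have h1 := S.O_dv hf0
    rw [← hdiff, map_sub, sub_eq_zero] at h1
    exact h1.symm
  have hEv : ∀ D, E D = max (-(S.v D f)) 0 := fun D => rfl
  have hE0 : E ≠ 0 := by
    intro h0
    obtain ⟨c, hc⟩ := S.const_of_holomorphic f hf0 (by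
      intro D
      have h1 := hEv D
      rw [h0] at h1
      simp only [Finsupp.coe_zero, Pi.zero_apply] at h1
      have h2 := le_max_left (-(S.v D f)) 0
      omega)
    exact hfc c hc
  have horth : ∀ D ∈ E.support, D ∈ S.orth L := by
    intro D hD
    apply hf
    rw [Finsupp.mem_support_iff, hEv] at hD
    by_contra hge
    push Not at hge
    exact hD (max_eq_right (by omega))
  have hray : HKDivisors.Ray L (S.O E) := by
    refine S.ray_of_sub hL (HKDivisors.pos_nonneg _) (HKDivisors.pos_nonneg _)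
      (E' := E₀) ?_ (S.q_O_eq_zero horth) 0 (by rw [zero_smul, add_zero]; exact hO)
    have := HKDivisors.pos_disjoint (S.dv hf0)
    exact this.symm
  obtain ⟨a, b, ha, hb, hab⟩ := HKDivisors.Ray.pos S hL.2.1 (HKDivisors.pos_nonneg _) hE0 hray
  refine ⟨b, hb, a • E, hab, f, ?_, 1, ?_, one_ne_zero, (div_one f).symm⟩
  · intro _ D
    rw [Finsupp.coe_smul, Pi.smul_apply, smul_eq_mul]
    have h1 : 0 ≤ S.v D f + E D := by
      rw [hEv]
      have := le_max_left (-(S.v D f)) 0
      omega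
    have h2 : 0 ≤ E D := HKDivisors.pos_nonneg _ D
    nlinarith [mul_nonneg (show (0:ℤ) ≤ a - 1 by omega) h2]
  · intro _ D
    have h3 := S.v_const D 1 one_ne_zero
    rw [map_one] at h3
    rw [h3, zero_add, Finsupp.coe_smul, Pi.smul_apply, smul_eq_mul]
    exact mul_nonneg ha.le (HKDivisors.pos_nonneg _ D)

/-- The divisor of a quotient of two sections of a power of `L` is orthogonal to `L`. -/
theorem _root_.Pool.Agent.SYZ.HKDivisors.v_quotient (S : HKDivisors K P Pic) {L : Pic}
    (hL : S.NefIsotropic L) {f : K} (hf0 : f ≠ 0) (hf : f ∈ S.sectionQuotients L) {D : P}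
    (hD : D ∉ S.orth L) : S.v D f = 0 := by
  obtain ⟨k, hk, E, hE, a, ha, b, hb, hb0, rfl⟩ := hf
  have ha0 : a ≠ 0 := by
    rintro rfl
    exact hf0 (zero_div _)
  have key : ∀ c (_ : c ∈ S.sections E) (hc0 : c ≠ 0), S.v D c = -E D := by
    intro c hc hc0
    have h1 : 0 ≤ S.dv hc0 + E := fun D' => hc hc0 D'
    have h2 : S.q L (S.O (S.dv hc0 + E)) = 0 := by
      rw [map_add, S.O_dv, zero_add, hE, map_zsmul, hL.1, smul_zero]
    have h3 := S.support_subset_orth hL h1 h2
    by_contra hne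
    apply hD
    apply h3
    rw [Finsupp.mem_support_iff, Finsupp.coe_add, Pi.add_apply, HKDivisors.dv_apply]
    omega
  have h1 : S.v D a = S.v D (a / b) + S.v D b := by
    rw [← S.v_mul D (a / b) b hf0 hb0, div_mul_cancel₀ _ hb0]
  rw [key a ha ha0, key b hb hb0] at h1
  omega

/-- A nonconstant quotient of two sections of a power of `L` shows that this power has two
different effective divisors. -/
theorem _root_.Pool.Agent.SYZ.HKDivisors.twoSections_of_quotient (S : HKDivisors K P Pic) {L : Pic}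
    (hL : S.NefIsotropic L) {f : K} (hfc : ∀ c : ℂ, f ≠ algebraMap ℂ K c)
    (hf : f ∈ S.sectionQuotients L) : S.TwoSections L := by
  obtain ⟨k, hk, E, hE, a, ha, b, hb, hb0, rfl⟩ := hf
  have ha0 : a ≠ 0 := by
    rintro rfl
    exact hfc 0 (by rw [zero_div, map_zero])
  have hO : ∀ c (hc0 : c ≠ 0), S.O (S.dv hc0 + E) = k • L := by
    intro c hc0
    rw [map_add, S.O_dv, zero_add, hE]
  refine S.twoSections_of_perp hL (x := k • L) (by rw [map_zsmul, hL.1, smul_zero])
    (E := S.dv ha0 + E) (E' := S.dv hb0 + E) (fun D => ha ha0 D) (fun D => hb hb0 D) ?_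
    (hO a ha0) (hO b hb0)
  intro heq
  have hab : a / b ≠ 0 := div_ne_zero ha0 hb0
  obtain ⟨c, hc⟩ := S.const_of_holomorphic (a / b) hab (by
    intro D
    have h1 := DFunLike.congr_fun heq D
    rw [Finsupp.coe_add, Pi.add_apply, Finsupp.coe_add, Pi.add_apply, HKDivisors.dv_apply,
      HKDivisors.dv_apply] at h1
    have h2 : S.v D a = S.v D (a / b) + S.v D b := by
      rw [← S.v_mul D (a / b) b hab hb0, div_mul_cancel₀ _ hb0]
    omega)
  exact hfc c hc

/-- A nonconstant finite function is a quotient of two sections of a power of `L`. -/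
theorem quotient_of_finite [Module.Finite ℤ Pic] [IsAddTorsionFree Pic] (φ : SelfMap S) {L : Pic}
    (hL : S.NefIsotropic L) (hφ : φ.g L = L) (hinf : ¬ IsOfFinOrder φ.g) {f : K}
    (hf : φ.IsFinite f) (hfc : ∀ c : ℂ, f ≠ algebraMap ℂ K c) : f ∈ S.sectionQuotients L := by
  have hf0 : f ≠ 0 := by
    intro h0
    exact hfc 0 (by rw [h0, map_zero])
  refine S.quotient_of_orth hL (fun D hneg => ?_) hfc
  obtain ⟨j, hj, hjD⟩ := φ.pole_periodic hf hf0 hneg
  have h1 : (φ.g ^ j) (S.cls D) = S.cls D := by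
    have := (φ.pow j).cls_comp D
    rwa [pow_g, pow_π, hjD] at this
  exact S.perp_of_fixed hL φ.isometry hφ hinf hj h1

/-- Quotients of sections of powers of `L` are quotients of finite functions. -/
theorem finite_of_quotient (hfd : ∀ E : P →₀ ℤ, FiniteDimensional ℂ (S.sections E))
    (φ : SelfMap S) {L : Pic} (hφ : φ.g L = L) {f : K} (hf : f ∈ S.sectionQuotients L) :
    ∃ a b : K, φ.IsFinite a ∧ φ.IsFinite b ∧ f = a / b := by
  obtain ⟨k, hk, E, h1, s, hs, t, ht, ht0, rfl⟩ := hf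
  obtain ⟨u, hu, huE⟩ := (S.O_eq_zero_iff (φ.push E - E)).1 (by
    rw [map_sub, O_push, h1, map_zsmul, hφ, sub_self])
  have hT : ∀ f ∈ S.sections E, u * φ.γ f ∈ S.sections E := by
    intro f hf h0 D'
    obtain ⟨D, rfl⟩ := φ.π.surjective D'
    have h3 : φ.γ f ≠ 0 := right_ne_zero_of_mul h0
    have h4 : f ≠ 0 := by simpa using h3
    have h5 := huE (φ.π D)
    rw [Finsupp.coe_sub, Pi.sub_apply, push_apply] at h5
    rw [S.v_mul _ _ _ hu h3, φ.v_comp D f h4, ← h5]
    have := hf h4 D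
    omega
  let T : S.sections E →ₗ[ℂ] S.sections E :=
    { toFun := fun f => ⟨u * φ.γ f, hT f f.2⟩
      map_add' := fun f g => by
        apply Subtype.ext
        simp [mul_add]
      map_smul' := fun c f => by
        apply Subtype.ext
        simp }
  have hTapp : ∀ f : S.sections E, ((T f : S.sections E) : K) = u * φ.γ f := fun f => rfl
  have : FiniteDimensional ℂ (S.sections E) := hfd E
  have : Nontrivial (S.sections E) :=
    ⟨⟨⟨t, ht⟩, 0, fun h => ht0 (congrArg Subtype.val h)⟩⟩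
  obtain ⟨α, hα⟩ := Module.End.exists_eigenvalue T
  obtain ⟨v₁, hv₁⟩ := hα.exists_hasEigenvector
  have hv₁K : (v₁ : K) ≠ 0 := fun h => hv₁.2 (Subtype.ext h)
  have k1 : u * φ.γ v₁ = algebraMap ℂ K α * (v₁ : K) := by
    have := congrArg Subtype.val hv₁.apply_eq_smul
    rwa [hTapp, Submodule.coe_smul, Algebra.smul_def] at this
  have hγv₁ : φ.γ (v₁ : K) ≠ 0 := by simpa using hv₁K
  have hα0 : α ≠ 0 := by
    rintro rfl
    rw [map_zero, zero_mul] at k1
    exact mul_ne_zero hu hγv₁ k1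
  -- the stable space of all `a / v₁`
  let m : S.sections E →ₗ[ℂ] K :=
    { toFun := fun a => (a : K) / v₁
      map_add' := fun a b => by simp [add_div]
      map_smul' := fun c a => by simp [Algebra.smul_def, mul_div_assoc] }
  have hm : ∀ a : S.sections E, m a = (a : K) / v₁ := fun a => rfl
  have hstab : ∀ h ∈ LinearMap.range m, φ.γ h ∈ LinearMap.range m := by
    rintro _ ⟨a, rfl⟩
    refine ⟨α⁻¹ • T a, ?_⟩
    rw [hm, hm, Submodule.coe_smul, hTapp, Algebra.smul_def, map_inv₀, map_div₀]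
    have h3 : φ.γ (a : K) / φ.γ (v₁ : K) = (u * φ.γ a) / (u * φ.γ v₁) := by
      rw [mul_div_mul_left _ _ hu]
    have hαK : algebraMap ℂ K α ≠ 0 := by simpa using hα0
    rw [h3, k1]
    field_simp
  have hfin : ∀ a : S.sections E, φ.IsFinite ((a : K) / v₁) := by
    intro a
    refine ⟨LinearMap.range m, ?_, ⟨a, rfl⟩, hstab⟩
    infer_instance
  refine ⟨s / v₁, t / v₁, hfin ⟨s, hs⟩, hfin ⟨t, ht⟩, ?_⟩
  rw [div_div_div_cancel_right₀ hv₁K]

theorem adjoin_eq [Module.Finite ℤ Pic] [IsAddTorsionFree Pic]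
    (hfd : ∀ E : P →₀ ℤ, FiniteDimensional ℂ (S.sections E)) (φ : SelfMap S) {L : Pic}
    (hL : S.NefIsotropic L) (hφ : φ.g L = L) (hinf : ¬ IsOfFinOrder φ.g) :
    IntermediateField.adjoin ℂ (S.sectionQuotients L) =
      IntermediateField.adjoin ℂ {f | φ.IsFinite f} := by
  apply le_antisymm
  · rw [IntermediateField.adjoin_le_iff]
    intro f hf
    obtain ⟨a, b, ha, hb, rfl⟩ := finite_of_quotient hfd φ hφ hf
    exact div_mem (IntermediateField.subset_adjoin ℂ _ ha) (IntermediateField.subset_adjoin ℂ _ hb)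
  · rw [IntermediateField.adjoin_le_iff]
    intro f hf
    by_cases hc : ∃ c : ℂ, f = algebraMap ℂ K c
    · obtain ⟨c, rfl⟩ := hc
      exact IntermediateField.algebraMap_mem _ c
    · push Not at hc
      exact IntermediateField.subset_adjoin ℂ _ (φ.quotient_of_finite hL hφ hinf hf hc)

theorem pointwise [Module.Finite ℤ Pic] [IsAddTorsionFree Pic]
    (hfd : ∀ E : P →₀ ℤ, FiniteDimensional ℂ (S.sections E)) (φ : SelfMap S) {L : Pic}
    (hL : S.NefIsotropic L) (hφ : φ.g L = L) (hinf : ¬ IsOfFinOrder φ.g) {f : K} (hf0 : f ≠ 0) :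
    List.TFAE [(∃ c : ℂ, f = algebraMap ℂ K c) ∨ f ∈ S.sectionQuotients L,
      ∀ D, D ∉ S.orth L → S.v D f = 0,
      ∃ a b : K, φ.IsFinite a ∧ φ.IsFinite b ∧ f = a / b] := by
  have hconst : ∀ c : ℂ, φ.IsFinite (algebraMap ℂ K c) := by
    intro c
    refine ⟨Submodule.span ℂ {1}, inferInstance, ?_, ?_⟩
    · rw [Algebra.algebraMap_eq_smul_one]
      exact Submodule.smul_mem _ _ (Submodule.mem_span_singleton_self 1)
    · intro h hh
      obtain ⟨d, rfl⟩ := Submodule.mem_span_singleton.1 hh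
      rw [map_smul, map_one]
      exact Submodule.smul_mem _ _ (Submodule.mem_span_singleton_self 1)
  have hv : ∀ f : K, f ≠ 0 → ((∃ c : ℂ, f = algebraMap ℂ K c) ∨ f ∈ S.sectionQuotients L) →
      ∀ D, D ∉ S.orth L → S.v D f = 0 := by
    rintro f hf0 (⟨c, rfl⟩ | h) D hD
    · refine S.v_const D c ?_
      rintro rfl
      exact hf0 (map_zero _)
    · exact S.v_quotient hL hf0 h hD
  have hfin : ∀ f : K, φ.IsFinite f →
      ((∃ c : ℂ, f = algebraMap ℂ K c) ∨ f ∈ S.sectionQuotients L) := by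
    intro f hf
    by_cases hc : ∃ c : ℂ, f = algebraMap ℂ K c
    · exact Or.inl hc
    · push Not at hc
      exact Or.inr (φ.quotient_of_finite hL hφ hinf hf hc)
  tfae_have 1 → 2 := hv f hf0
  tfae_have 2 → 1 := by
    intro h
    by_cases hc : ∃ c : ℂ, f = algebraMap ℂ K c
    · exact Or.inl hc
    · push Not at hc
      refine Or.inr (S.quotient_of_orth hL (fun D hneg => ?_) hc)
      by_contra hn
      rw [h D hn] at hneg
      exact lt_irrefl _ hneg
  tfae_have 1 → 3 := by
    rintro (⟨c, rfl⟩ | h)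
    · refine ⟨algebraMap ℂ K c, algebraMap ℂ K 1, hconst c, hconst 1, ?_⟩
      rw [map_one, div_one]
    · exact finite_of_quotient hfd φ hφ h
  tfae_have 3 → 2 := by
    rintro ⟨a, b, ha, hb, rfl⟩ D hD
    have ha0 : a ≠ 0 := left_ne_zero_of_mul (div_eq_mul_inv a b ▸ hf0)
    have hb0 : b ≠ 0 := by
      rintro rfl
      exact hf0 (div_zero _)
    have h1 : S.v D a = S.v D (a / b) + S.v D b := by
      rw [← S.v_mul D (a / b) b hf0 hb0, div_mul_cancel₀ _ hb0]
    rw [hv a ha0 (hfin a ha) D hD, hv b hb0 (hfin b hb) D hD] at h1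
    omega
  tfae_finish

end SelfMap

end

end Pool.Agent.SYZ
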