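import Pool.Agent.SYZ.Infinite

namespace Pool.Agent.SYZ

noncomputable section

namespace HKDivisors

variable {K P Pic : Type*} [Field K] [Algebra ℂ K] [AddCommGroup Pic]
variable (S : HKDivisors K P Pic)

theorem v_one (D : P) : S.v D 1 = 0 := by
  have h := S.v_const D 1 one_ne_zero
  rwa [map_one] at h

theorem v_pow (D : P) {f : K} (hf : f ≠ 0) (n : ℕ) : S.v D (f ^ n) = n * S.v D f := by
  induction n with
  | zero => simp [S.v_one D]
  | succ n ih =>
    rw [pow_succ, S.v_mul D _ _ (pow_ne_zero n hf) hf, ih]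
    push_cast
    ring

theorem v_inv (D : P) {f : K} (hf : f ≠ 0) : S.v D f⁻¹ = -S.v D f := by
  have h := S.v_mul D f f⁻¹ hf (inv_ne_zero hf)
  rw [mul_inv_cancel₀ hf, S.v_one] at h
  omega

theorem v_div (D : P) {f g : K} (hf : f ≠ 0) (hg : g ≠ 0) : S.v D (f / g) = S.v D f - S.v D g := by
  rw [div_eq_mul_inv, S.v_mul D _ _ hf (inv_ne_zero hg), S.v_inv D hg]
  ring

/-- The functions of order at least `m` along `D`. -/
def ge (D : P) (m : ℤ) : AddSubmonoid K where
  carrier := {x | x ≠ 0 → m ≤ S.v D x}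
  add_mem' := by
    intro a b ha hb hab
    by_cases h1 : a = 0
    · rw [h1, zero_add] at hab ⊢
      exact hb hab
    by_cases h2 : b = 0
    · rw [h2, add_zero] at hab ⊢
      exact ha hab
    exact (le_min (ha h1) (hb h2)).trans (S.v_add D a b h1 h2 hab)
  zero_mem' := fun h => absurd rfl h

theorem mem_ge {D : P} {m : ℤ} {x : K} : x ∈ S.ge D m ↔ (x ≠ 0 → m ≤ S.v D x) := Iff.rfl

theorem neg_mem_ge {D : P} {m : ℤ} {x : K} (h : x ∈ S.ge D m) : -x ∈ S.ge D m := by
  intro h0
  have hx : x ≠ 0 := fun h => h0 (by rw [h, neg_zero])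
  have h1 : algebraMap ℂ K (-1) ≠ 0 := by simp
  have h2 : -x = algebraMap ℂ K (-1) * x := by rw [map_neg, map_one]; ring
  rw [h2, S.v_mul D _ _ h1 hx, S.v_const D _ (by norm_num), zero_add]
  exact h hx

/-- An order function which is trivial on a field is nonnegative on the elements algebraic over
it. -/
theorem v_nonneg_of_algebraic (D : P) (F : IntermediateField ℂ K)
    (hF : ∀ x ∈ F, x ≠ 0 → S.v D x = 0) {h : K} (hh : IsAlgebraic F h) (h0 : h ≠ 0) :
    0 ≤ S.v D h := by
  by_contra hneg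
  push Not at hneg
  have hint : IsIntegral F h := hh.isIntegral
  have hm := minpoly.monic hint
  have hpos := minpoly.natDegree_pos hint
  set n := (minpoly F h).natDegree with hn
  have hz := minpoly.aeval F h
  rw [hm.as_sum, map_add, map_pow, Polynomial.aeval_X, map_sum, ← hn] at hz
  have hsum : ∑ i ∈ Finset.range n, (Polynomial.aeval h)
      (Polynomial.C ((minpoly F h).coeff i) * Polynomial.X ^ i) ∈
        S.ge D (((n : ℤ) - 1) * S.v D h) := by
    refine sum_mem fun i hi => ?_
    rw [map_mul, Polynomial.aeval_C, map_pow, Polynomial.aeval_X]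
    intro hne
    have hc : algebraMap F K ((minpoly F h).coeff i) ≠ 0 := left_ne_zero_of_mul hne
    have hc' : S.v D (algebraMap F K ((minpoly F h).coeff i)) = 0 :=
      hF _ ((minpoly F h).coeff i).2 hc
    rw [S.v_mul D _ _ hc (pow_ne_zero i h0), hc', zero_add, S.v_pow D h0]
    have hi' : (i : ℤ) ≤ n - 1 := by
      have := Finset.mem_range.1 hi
      omega
    nlinarith
  have h1 : h ^ n ∈ S.ge D (((n : ℤ) - 1) * S.v D h) := by
    rw [eq_neg_of_add_eq_zero_left hz]
    exact S.neg_mem_ge hsum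
  have h2 := h1 (pow_ne_zero n h0)
  rw [S.v_pow D h0] at h2
  nlinarith

theorem v_eq_zero_of_algebraic (D : P) (F : IntermediateField ℂ K)
    (hF : ∀ x ∈ F, x ≠ 0 → S.v D x = 0) {h : K} (hh : IsAlgebraic F h) (h0 : h ≠ 0) :
    S.v D h = 0 := by
  have h1 := S.v_nonneg_of_algebraic D F hF hh h0
  have h2 := S.v_nonneg_of_algebraic D F hF hh.inv (inv_ne_zero h0)
  rw [S.v_inv D h0] at h2
  omega

/-- An order function which is zero at all `f - c` is trivial on the field generated by `f`. -/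
theorem v_adjoin (D : P) {f : K}
    (hf : ∀ c : ℂ, f - algebraMap ℂ K c ≠ 0 → S.v D (f - algebraMap ℂ K c) = 0) :
    ∀ x ∈ IntermediateField.adjoin ℂ {f}, x ≠ 0 → S.v D x = 0 := by
  have hpoly : ∀ p : Polynomial ℂ, Polynomial.aeval f p ≠ 0 →
      S.v D (Polynomial.aeval f p) = 0 := by
    intro p hp
    rw [(IsAlgClosed.splits p).eq_prod_roots] at hp ⊢
    rw [map_mul, Polynomial.aeval_C] at hp ⊢
    have h1 := left_ne_zero_of_mul hp
    have h2 := right_ne_zero_of_mul hp
    have hc : p.leadingCoeff ≠ 0 := by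
      intro h
      exact h1 (by rw [h, map_zero])
    rw [S.v_mul D _ _ h1 h2, S.v_const D _ hc, zero_add]
    clear hp h1 hc
    revert h2
    induction p.roots using Multiset.induction_on with
    | empty => intro _; simpa using S.v_one D
    | cons a s ih =>
      intro h2
      rw [Multiset.map_cons, Multiset.prod_cons, map_mul] at h2 ⊢
      have h3 := left_ne_zero_of_mul h2
      have h4 := right_ne_zero_of_mul h2
      have h5 : Polynomial.aeval f (Polynomial.X - Polynomial.C a) = f - algebraMap ℂ K a := by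
        simp
      rw [S.v_mul D _ _ h3 h4, ih h4, add_zero, h5]
      rw [h5] at h3
      exact hf a h3
  intro x hx hx0
  obtain ⟨r, s, rfl⟩ := (IntermediateField.mem_adjoin_simple_iff ℂ x).1 hx
  have hr : Polynomial.aeval f r ≠ 0 := by
    intro h
    exact hx0 (by rw [h, zero_div])
  have hs : Polynomial.aeval f s ≠ 0 := by
    intro h
    exact hx0 (by rw [h, div_zero])
  rw [S.v_div D hr hs, hpoly r hr, hpoly s hs, sub_zero]

theorem le_deg_O {E : P →₀ ℤ} (hE : 0 ≤ E) {D : P} (hD : D ∈ E.support) :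
    S.deg (S.cls D) ≤ S.deg (S.O E) := by
  rw [deg_O, Finsupp.sum]
  refine le_trans ?_ (Finset.single_le_sum (f := fun D => (E D : ℝ) * S.deg (S.cls D))
    (fun D' _ => mul_nonneg (by exact_mod_cast hE D') (S.deg_prime D').le) hD)
  have h1 : 1 ≤ E D := by
    have h2 : E D ≠ 0 := Finsupp.mem_support_iff.1 hD
    have h3 : 0 ≤ E D := hE D
    omega
  have h4 : (1 : ℝ) ≤ E D := by exact_mod_cast h1
  have h5 : 0 < S.deg (S.cls D) := S.deg_prime D
  nlinarith

/-- The pole divisor of a nonzero function. -/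
def poles {f : K} (hf : f ≠ 0) : P →₀ ℤ := pos (-(S.dv hf))

theorem poles_apply {f : K} (hf : f ≠ 0) (D : P) : S.poles hf D = max (-(S.v D f)) 0 := rfl

theorem poles_nonneg {f : K} (hf : f ≠ 0) : 0 ≤ S.poles hf := pos_nonneg _

theorem O_zeros {f : K} (hf : f ≠ 0) : S.O (pos (S.dv hf)) = S.O (S.poles hf) := by
  have h1 := S.O_dv hf
  rw [← pos_sub_pos (S.dv hf), map_sub, sub_eq_zero] at h1
  exact h1

/-- A prime divisor along which `f` has nonzero order has degree at most that of the poles of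
`f`. -/
theorem deg_le_of_v {f : K} (hf : f ≠ 0) {D : P} (hD : S.v D f ≠ 0) :
    S.deg (S.cls D) ≤ S.deg (S.O (S.poles hf)) := by
  rcases lt_or_gt_of_ne hD with h | h
  · refine S.le_deg_O (S.poles_nonneg hf) ?_
    rw [Finsupp.mem_support_iff, S.poles_apply hf]
    intro h1
    have := le_max_left (-(S.v D f)) 0
    omega
  · rw [← S.O_zeros hf]
    refine S.le_deg_O (pos_nonneg _) ?_
    rw [Finsupp.mem_support_iff]
    change max (S.v D f) 0 ≠ 0
    intro h1
    have := le_max_left (S.v D f) 0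
    omega

theorem poles_sub_const {f : K} (hf : f ≠ 0) {c : ℂ} (hfc : f - algebraMap ℂ K c ≠ 0) :
    S.poles hfc = S.poles hf := by
  ext D
  rw [S.poles_apply, S.poles_apply]
  by_cases hc : c = 0
  · rw [hc, map_zero, sub_zero]
  have h1 : algebraMap ℂ K (-c) ≠ 0 := by simpa using hc
  have h2 : algebraMap ℂ K c ≠ 0 := by simpa using hc
  have h3 : f - algebraMap ℂ K c = f + algebraMap ℂ K (-c) := by rw [map_neg, sub_eq_add_neg]
  have h4 := S.v_add D f (algebraMap ℂ K (-c)) hf h1 (by rw [← h3]; exact hfc)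
  have h5 := S.v_add D (f - algebraMap ℂ K c) (algebraMap ℂ K c) hfc h2
    (by rw [sub_add_cancel]; exact hf)
  rw [S.v_const D _ (neg_ne_zero.2 hc), ← h3] at h4
  rw [S.v_const D _ hc, sub_add_cancel] at h5
  rcases min_le_iff.1 h4 with h6 | h6 <;> rcases min_le_iff.1 h5 with h7 | h7 <;> omega

/-- A prime divisor along which some function algebraic over `ℂ(f)` has nonzero order has degree
at most that of the poles of `f`. -/
theorem deg_le_of_algebraic {f : K} (hf : f ≠ 0) {h : K}
    (hh : IsAlgebraic (IntermediateField.adjoin ℂ {f}) h) (h0 : h ≠ 0) {D : P}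
    (hD : S.v D h ≠ 0) : S.deg (S.cls D) ≤ S.deg (S.O (S.poles hf)) := by
  by_contra hlt
  apply hD
  refine S.v_eq_zero_of_algebraic D _ (S.v_adjoin D fun c hc => ?_) hh h0
  by_contra hne
  apply hlt
  have := S.deg_le_of_v hc hne
  rwa [S.poles_sub_const hf hc] at this

/-- More than `r` prime divisors orthogonal to `L` give a function whose divisor is supported on
primes orthogonal to `L` and contains one of them. -/
theorem exists_function [Module.Finite ℤ Pic] {L : Pic} (hL : S.NefIsotropic L) (F : Finset P)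
    (hF : ∀ D ∈ F, D ∈ S.orth L) (hc : S.perpRank L < F.card) :
    ∃ j ∈ F, ∃ h : K, h ≠ 0 ∧ S.v j h ≠ 0 ∧ ∀ D, D ∉ S.orth L → S.v D h = 0 := by
  classical
  obtain ⟨E, h1, h2, h3, h4⟩ := S.exists_supported hL F hF hc.le
  obtain ⟨j, hj⟩ := Finsupp.support_nonempty_iff.2 h2
  have hc' : S.perpRank L ≤ (F.erase j).card := by
    rw [Finset.card_erase_of_mem (h3 hj)]
    omega
  obtain ⟨E', p1, p2, p3, p4⟩ := S.exists_supported hL (F.erase j)
    (fun D hD => hF D (Finset.mem_of_mem_erase hD)) hc'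
  obtain ⟨a, b, ha, hb, hab⟩ := Ray.pos S hL.2.1 h1 h2 h4
  obtain ⟨a', b', ha', hb', hab'⟩ := Ray.pos S hL.2.1 p1 p2 p4
  have e1 : S.O ((b' * a) • E) = (b * b') • L := by
    rw [mul_smul, map_zsmul, hab, smul_smul, mul_comm]
  have e2 : S.O ((b * a') • E') = (b * b') • L := by
    rw [mul_smul, map_zsmul, hab', smul_smul]
  obtain ⟨h, hh, hv⟩ := (S.O_eq_zero_iff ((b' * a) • E - (b * a') • E')).1 (by
    rw [map_sub, e1, e2, sub_self])
  refine ⟨j, h3 hj, h, hh, ?_, ?_⟩
  · rw [← hv j]
    have h6 : E' j = 0 := by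
      by_contra h7
      exact Finset.notMem_erase j F (p3 (Finsupp.mem_support_iff.2 h7))
    simp only [Finsupp.coe_sub, Finsupp.coe_smul, Pi.sub_apply, Pi.smul_apply, smul_eq_mul, h6,
      mul_zero, sub_zero]
    exact mul_ne_zero (mul_pos hb' ha).ne' (Finsupp.mem_support_iff.1 hj)
  · intro D hD
    rw [← hv D]
    have e1 : E D = 0 := by
      by_contra h7
      exact hD (hF D (h3 (Finsupp.mem_support_iff.2 h7)))
    have e2 : E' D = 0 := by
      by_contra h7
      exact hD (hF D (Finset.mem_of_mem_erase (p3 (Finsupp.mem_support_iff.2 h7))))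
    simp [e1, e2]

end HKDivisors

end

end Pool.Agent.SYZ
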