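import Pool.Agent.SYZ.DefsDeg
import Pool.Agent.SYZ.Vertical
import Pool.Agent.SYZ.Iitaka

namespace Pool.Agent.SYZ

noncomputable section

/-- If `γ f` is algebraic over `ℂ(f)`, then `γ` preserves the functions algebraic over `ℂ(f)`. -/
theorem isAlgebraic_map {K : Type*} [Field K] [Algebra ℂ K] (γ : K ≃ₐ[ℂ] K) {f x : K}
    (hf : IsAlgebraic (IntermediateField.adjoin ℂ {f}) (γ f))
    (hx : IsAlgebraic (IntermediateField.adjoin ℂ {f}) x) :
    IsAlgebraic (IntermediateField.adjoin ℂ {f}) (γ x) := by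
  let F := IntermediateField.adjoin ℂ {f}
  let B : IntermediateField F K := algebraicClosure F K
  let B' : IntermediateField ℂ K := B.restrictScalars ℂ
  have hB' : ∀ y, y ∈ B' ↔ IsAlgebraic F y := fun y => mem_algebraicClosure_iff
  have hle : F ≤ B'.comap (γ : K →ₐ[ℂ] K) := by
    refine IntermediateField.adjoin_le_iff.2 ?_
    rintro _ rfl
    exact (hB' _).2 hf
  obtain ⟨p, hp, hpx⟩ := hx
  let ρ : F →+* B :=
    { toFun := fun c => ⟨γ c, hle c.2⟩
      map_one' := Subtype.ext (map_one γ)
      map_mul' := fun a b => Subtype.ext (map_mul γ _ _)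
      map_zero' := Subtype.ext (map_zero γ)
      map_add' := fun a b => Subtype.ext (map_add γ _ _) }
  have h1 : IsAlgebraic B (γ x) := by
    refine ⟨p.map ρ, ?_, ?_⟩
    · intro h0
      exact hp ((Polynomial.map_eq_zero_iff ρ.injective).1 h0)
    · rw [Polynomial.aeval_def, Polynomial.eval₂_map]
      have h2 := congrArg (γ : K →+* K) hpx
      rw [map_zero, Polynomial.aeval_def, Polynomial.hom_eval₂] at h2
      exact h2
  exact h1.restrictScalars F

theorem isAlgebraic_pow {K : Type*} [Field K] [Algebra ℂ K] (γ : K ≃ₐ[ℂ] K) {f : K}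
    (hf : IsAlgebraic (IntermediateField.adjoin ℂ {f}) (γ f)) (k : ℕ) :
    IsAlgebraic (IntermediateField.adjoin ℂ {f}) ((γ ^ k) f) := by
  induction k with
  | zero =>
    rw [pow_zero]
    exact isAlgebraic_algebraMap (⟨f, IntermediateField.subset_adjoin ℂ _ rfl⟩ :
      IntermediateField.adjoin ℂ {f})
  | succ k ih =>
    rw [pow_succ', AlgEquiv.mul_apply]
    exact isAlgebraic_map γ hf ih

variable {K P Pic : Type*} [Field K] [Algebra ℂ K] [AddCommGroup Pic]

namespace HKDivisors

variable (S : HKDivisors K P Pic)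

theorem poleDeg_eq {f : K} (hf : f ≠ 0) : S.poleDeg f = S.deg (S.O (S.poles hf)) := by
  classical
  rw [poleDeg, deg_O, Finsupp.sum]
  rw [finsum_eq_sum_of_support_subset (s := (S.poles hf).support)]
  · refine Finset.sum_congr rfl fun D _ => ?_
    rw [S.poles_apply]
    push_cast
    rfl
  · intro D hD
    rw [Function.mem_support] at hD
    rw [Finset.mem_coe, Finsupp.mem_support_iff, S.poles_apply]
    intro h
    apply hD
    have h1 : (max (-(S.v D f)) 0 : ℝ) = 0 := by exact_mod_cast h
    rw [h1, zero_mul]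

theorem q_nsmul_left (k : ℕ) (t x : Pic) : S.q (k • t) x = k * S.q t x := by
  rw [S.q_symm, map_nsmul, nsmul_eq_mul, S.q_symm]

theorem deg_eichler {L t : Pic} (k : ℕ) (x : Pic) :
    S.deg (S.eichlerFun L (k • t) x) = S.deg x - 2 * k * S.q t x * S.deg L +
      2 * k * S.q L x * S.deg t - 2 * k ^ 2 * S.q t t * S.q L x * S.deg L := by
  rw [eichlerFun, S.q_nsmul_left, S.q_nsmul_left, map_nsmul (S.q t) k t]
  simp only [map_sub, map_add, map_zsmul, map_nsmul, zsmul_eq_mul, nsmul_eq_mul]
  push_cast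
  ring

end HKDivisors

namespace SelfMap

variable {S : HKDivisors K P Pic}

/-- A fixed power of `φ` acts trivially on the classes of the primes orthogonal to `L`, and the
degrees of the images of any other prime are unbounded. -/
theorem exists_power [Module.Finite ℤ Pic] [IsAddTorsionFree Pic] (φ : SelfMap S) {L : Pic}
    (hL : S.NefIsotropic L) (hφ : φ.g L = L) (hinf : ¬ IsOfFinOrder φ.g) :
    (∃ N : ℕ, 0 < N ∧ ∀ D ∈ S.orth L, (φ.g ^ N) (S.cls D) = S.cls D) ∧
    ∀ D, D ∉ S.orth L → ∀ C : ℝ, ∃ k : ℕ, C < S.deg ((φ.g ^ k) (S.cls D)) := by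
  obtain ⟨N, hN, hNg⟩ := S.exists_power_eichler hL
  obtain ⟨t, ht, hgt⟩ := hNg φ.g φ.isometry hφ
  have he : φ.g ^ N = S.eichler hL.1 ht := by
    ext y
    rw [hgt, HKDivisors.eichler_apply]
  have hpow : ∀ (k : ℕ) (x : Pic), (φ.g ^ (N * k)) x = S.eichlerFun L (k • t) x := by
    intro k x
    rw [pow_mul, he, S.eichler_pow, HKDivisors.eichler_apply]
  have htL : S.q t L = 0 := by rw [S.q_symm]; exact ht
  have hd := hL.2.1
  constructor
  · refine ⟨N, hN, fun D hD => ?_⟩
    have hD0 : S.q L (S.cls D) = 0 := hD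
    have hD0' : S.q (S.cls D) L = 0 := by rw [S.q_symm]; exact hD0
    -- the sequence of images
    have h1 : ∀ k : ℕ, (2 * k * S.q t (S.cls D) : ℝ) * S.deg L < S.deg (S.cls D) := by
      intro k
      have h2 := (φ.pow (N * k)).cls_comp D
      rw [pow_g, hpow] at h2
      have h3 : 0 < S.deg (S.eichlerFun L (k • t) (S.cls D)) := by
        rw [h2]
        exact S.deg_prime _
      rw [S.deg_eichler, hD0] at h3
      push_cast at h3
      linarith
    have h2 : ∀ k : ℕ, -(2 * k * S.q t (S.cls D) : ℝ) * S.deg L < S.deg (S.cls D) := by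
      intro k
      obtain ⟨D', hD'⟩ := (φ.pow (N * k)).π.surjective D
      have h3 := (φ.pow (N * k)).cls_comp D'
      rw [pow_g, hpow, hD'] at h3
      -- `D'` is orthogonal to `L`
      have h4 : S.q L (S.cls D') = 0 := by
        have h5 := S.eichler_isometry hL.1 (S.q_nsmul ht k) L (S.cls D')
        rw [HKDivisors.eichler_apply, HKDivisors.eichler_apply, h3] at h5
        rw [← h5]
        have h6 : S.eichlerFun L (k • t) L = L := by
          rw [HKDivisors.eichlerFun]
          simp [hL.1, htL]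
        rw [h6, hD0]
      rw [HKDivisors.eichlerFun, h4] at h3
      simp only [mul_zero, zero_smul, add_zero, sub_zero] at h3
      -- `cls D' = cls D + 2 k q(t, D) L`
      have h5 : S.q t (S.cls D) = S.q t (S.cls D') := by
        rw [← h3]
        simp [htL]
      have h6 : S.deg (S.cls D) = S.deg (S.cls D') - 2 * k * S.q t (S.cls D) * S.deg L := by
        rw [h5, ← h3]
        simp only [map_sub, map_zsmul, HKDivisors.q_nsmul_left, zsmul_eq_mul]
        push_cast
        ring
      have h7 : 0 < S.deg (S.cls D') := S.deg_prime _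
      linarith
    have hq : S.q t (S.cls D) = 0 := by
      by_contra hne
      obtain ⟨k, hk⟩ := exists_nat_gt (S.deg (S.cls D) / S.deg L)
      rw [div_lt_iff₀ hd] at hk
      have hk0 : (0 : ℝ) ≤ k := Nat.cast_nonneg k
      rcases lt_or_gt_of_ne hne with h3 | h3
      · have h4 : (S.q t (S.cls D) : ℝ) ≤ -1 := by
          have : S.q t (S.cls D) ≤ -1 := by omega
          exact_mod_cast this
        have h5 := h2 k
        nlinarith [mul_nonneg hk0 hd.le]
      · have h4 : (1 : ℝ) ≤ S.q t (S.cls D) := by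
          have : 1 ≤ S.q t (S.cls D) := by omega
          exact_mod_cast this
        have h5 := h1 k
        nlinarith [mul_nonneg hk0 hd.le]
    rw [hgt, HKDivisors.eichlerFun, hD0, hq]
    simp
  · intro D hD C
    have hD0 : S.q L (S.cls D) ≠ 0 := hD
    have hDpos : 0 < S.q L (S.cls D) := lt_of_le_of_ne (hL.2.2 D) (Ne.symm hD0)
    have htt : S.q t t < 0 := by
      refine lt_of_le_of_ne (S.q_self_le hL.1 hd ht) ?_
      intro h0
      obtain ⟨a, b, ha, hab⟩ := S.hodge_index L t hL.1 hd.ne' ht h0.ge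
      -- then a power of `g` is the identity
      apply hinf
      rw [isOfFinOrder_iff_pow_eq_one]
      refine ⟨N, hN, ?_⟩
      ext y
      rw [hgt]
      have h4 : a * S.q t y = b * S.q L y := by
        have := congrArg (fun z => S.q z y) hab
        simpa using this
      have h5 : a • (S.eichlerFun L t y - y) = 0 := by
        rw [HKDivisors.eichlerFun, h0]
        simp only [mul_zero, zero_mul, zero_smul, sub_zero]
        have h6 : a • (y - (2 * S.q t y) • L + (2 * S.q L y) • t - y) =
            (2 * S.q L y) • (a • t) - (2 * (a * S.q t y)) • L := by module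
        rw [h6, hab, h4, smul_smul, ← sub_smul]
        have h7 : 2 * S.q L y * b - 2 * (b * S.q L y) = 0 := by ring
        rw [h7, zero_smul]
      exact sub_eq_zero.1 ((smul_eq_zero.1 h5).resolve_left ha)
    -- the quadratic function of `k` is unbounded
    set A : ℝ := 2 * (-(S.q t t : ℝ)) * S.q L (S.cls D) * S.deg L with hA
    have hApos : 0 < A := by
      have h1 : (0 : ℝ) < -(S.q t t : ℝ) := by
        have : (S.q t t : ℝ) < 0 := by exact_mod_cast htt
        linarith
      have h2 : (0 : ℝ) < S.q L (S.cls D) := by exact_mod_cast hDpos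
      positivity
    set B : ℝ := 2 * S.q L (S.cls D) * S.deg t - 2 * S.q t (S.cls D) * S.deg L with hB
    obtain ⟨k, hk⟩ := exists_nat_gt ((|B| + |C|) / A + 1)
    have hk1 : (1 : ℝ) < k := by
      have : 0 ≤ (|B| + |C|) / A := by positivity
      linarith
    have hk2 : |B| + |C| < A * k := by
      have h1 : (|B| + |C|) / A < k := by linarith
      rwa [div_lt_iff₀' hApos] at h1
    refine ⟨N * k, ?_⟩
    rw [hpow, S.deg_eichler]
    have h3 : S.deg (S.cls D) - 2 * k * S.q t (S.cls D) * S.deg L +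
        2 * k * S.q L (S.cls D) * S.deg t -
        2 * k ^ 2 * S.q t t * S.q L (S.cls D) * S.deg L =
        S.deg (S.cls D) + k * (B + A * k) := by
      rw [hA, hB]
      ring
    rw [h3]
    have h4 : 0 < S.deg (S.cls D) := S.deg_prime D
    have h5 : |C| < B + A * k := by
      have := neg_abs_le B
      linarith
    have h6 : |C| < k * (B + A * k) := by
      have h7 : 0 ≤ |C| := abs_nonneg C
      nlinarith
    have := le_abs_self C
    linarith

/-- The pole divisors along the orbit of a function. -/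
theorem poles_pow (φ : SelfMap S) {f : K} (hf : f ≠ 0) (k : ℕ) :
    S.poles (show (φ.γ ^ k) f ≠ 0 from (map_ne_zero_iff _ (φ.γ ^ k).injective).2 hf) =
      (φ.pow k).push (S.poles hf) := by
  ext D'
  obtain ⟨D, rfl⟩ := (φ.pow k).π.surjective D'
  rw [push_apply, S.poles_apply, S.poles_apply]
  have h := (φ.pow k).v_comp D f hf
  rw [pow_γ] at h
  rw [h]

/-- A function has its divisor supported on the primes orthogonal to `L` if and only if the degrees
of the pole divisors along its orbit are bounded. -/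
theorem orth_iff_bounded [Module.Finite ℤ Pic] [IsAddTorsionFree Pic] (φ : SelfMap S) {L : Pic}
    (hL : S.NefIsotropic L) (hφ : φ.g L = L) (hinf : ¬ IsOfFinOrder φ.g) {f : K} (hf : f ≠ 0) :
    (∀ D, D ∉ S.orth L → S.v D f = 0) ↔ ∃ C : ℝ, ∀ k : ℕ, S.poleDeg ((φ.γ ^ k) f) ≤ C := by
  classical
  obtain ⟨⟨N, hN, hNo⟩, hgr⟩ := φ.exists_power hL hφ hinf
  have hne : ∀ k : ℕ, (φ.γ ^ k) f ≠ 0 := fun k => (map_ne_zero_iff _ (φ.γ ^ k).injective).2 hf
  have hdeg : ∀ k : ℕ, S.poleDeg ((φ.γ ^ k) f) = S.deg ((φ.g ^ k) (S.O (S.poles hf))) := by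
    intro k
    rw [S.poleDeg_eq (hne k), φ.poles_pow hf k, O_push, pow_g]
  constructor
  · intro h
    -- the class of the poles is fixed by `g ^ N`
    have hfix : (φ.g ^ N) (S.O (S.poles hf)) = S.O (S.poles hf) := by
      rw [S.O_eq_sum, Finsupp.sum, map_sum]
      refine Finset.sum_congr rfl fun D hD => ?_
      have hDo : D ∈ S.orth L := by
        by_contra hn
        rw [Finsupp.mem_support_iff, S.poles_apply, h D hn] at hD
        exact hD (by simp)
      rw [map_zsmul, hNo D hDo]
    have hmod : ∀ k : ℕ, (φ.g ^ k) (S.O (S.poles hf)) =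
        (φ.g ^ (k % N)) (S.O (S.poles hf)) := by
      intro k
      have h1 : ∀ j : ℕ, ((φ.g ^ N) ^ j) (S.O (S.poles hf)) = S.O (S.poles hf) := by
        intro j
        induction j with
        | zero => rfl
        | succ j ih => rw [pow_succ, LinearEquiv.mul_apply, hfix, ih]
      conv_lhs => rw [← Nat.mod_add_div k N, pow_add, pow_mul, LinearEquiv.mul_apply, h1]
    obtain ⟨C, hC⟩ := ((Set.finite_lt_nat N).image
      (fun k => S.deg ((φ.g ^ k) (S.O (S.poles hf))))).bddAbove
    refine ⟨C, fun k => ?_⟩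
    rw [hdeg, hmod]
    exact hC ⟨k % N, Nat.mod_lt k hN, rfl⟩
  · rintro ⟨C, hC⟩ D hD
    by_contra hv
    obtain ⟨k, hk⟩ := hgr D hD C
    have h1 := (φ.pow k).cls_comp D
    rw [pow_g] at h1
    rw [h1] at hk
    have h2 := (φ.pow k).v_comp D f hf
    rw [pow_γ] at h2
    have h3 := S.deg_le_of_v (hne k) (D := (φ.pow k).π D) (by rw [h2]; exact hv)
    rw [← S.poleDeg_eq] at h3
    exact absurd (h3.trans (hC k)) (not_le.2 hk)

/-- If `γ f` is algebraic over `ℂ(f)`, then the divisor of `f` is supported on the primes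
orthogonal to `L`. -/
theorem orth_of_algebraic [Module.Finite ℤ Pic] [IsAddTorsionFree Pic] (φ : SelfMap S) {L : Pic}
    (hL : S.NefIsotropic L) (hφ : φ.g L = L) (hinf : ¬ IsOfFinOrder φ.g) {f : K} (hf : f ≠ 0)
    (halg : IsAlgebraic (IntermediateField.adjoin ℂ {f}) (φ.γ f)) :
    ∀ D, D ∉ S.orth L → S.v D f = 0 := by
  intro D hD
  by_contra hv
  obtain ⟨k, hk⟩ := (φ.exists_power hL hφ hinf).2 D hD (S.deg (S.O (S.poles hf)))
  have h1 := (φ.pow k).cls_comp D
  rw [pow_g] at h1
  rw [h1] at hk
  have h2 := (φ.pow k).v_comp D f hf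
  rw [pow_γ] at h2
  have h3 := S.deg_le_of_algebraic hf (isAlgebraic_pow φ.γ halg k)
    ((map_ne_zero_iff _ (φ.γ ^ k).injective).2 hf) (D := (φ.pow k).π D) (by rw [h2]; exact hv)
  exact absurd h3 (not_le.2 hk)

end SelfMap

end

end Pool.Agent.SYZ
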