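import Pool.Agent.SYZ.AffineGen
import Pool.Agent.SYZ.Growth

namespace Pool.Agent.SYZ

noncomputable section

variable {K P Pic : Type*} [Field K] [Algebra ℂ K] [AddCommGroup Pic]

/-- The field of all functions whose divisor is supported on the primes orthogonal to `L`. -/
def HKDivisors.orthField (S : HKDivisors K P Pic) {L : Pic} (hL : S.NefIsotropic L) :
    IntermediateField ℂ K where
  carrier := {f | f ≠ 0 → ∀ D, D ∉ S.orth L → S.v D f = 0}
  mul_mem' := by
    intro a b ha hb h0 D hD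
    have h1 := left_ne_zero_of_mul h0
    have h2 := right_ne_zero_of_mul h0
    rw [S.v_mul D _ _ h1 h2, ha h1 D hD, hb h2 D hD, add_zero]
  one_mem' := fun _ D _ => S.v_one D
  add_mem' := by
    intro a b ha hb h0 D hD
    by_cases h1 : a = 0
    · rw [h1, zero_add] at h0 ⊢
      exact hb h0 D hD
    by_cases h2 : b = 0
    · rw [h2, add_zero] at h0 ⊢
      exact ha h0 D hD
    by_cases hc : ∃ c : ℂ, a + b = algebraMap ℂ K c
    · obtain ⟨c, hc⟩ := hc
      rw [hc] at h0 ⊢
      refine S.v_const D c ?_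
      rintro rfl
      exact h0 (map_zero _)
    · push Not at hc
      refine S.v_quotient hL h0 (S.quotient_of_orth hL (fun D' hneg => ?_) hc) hD
      by_contra hn
      have h3 := S.v_add D' a b h1 h2 h0
      rw [ha h1 D' hn, hb h2 D' hn, min_self] at h3
      omega
  zero_mem' := fun h => absurd rfl h
  algebraMap_mem' := by
    intro c h0 D _
    refine S.v_const D c ?_
    rintro rfl
    exact h0 (map_zero _)
  inv_mem' := by
    intro a ha h0 D hD
    have h1 : a ≠ 0 := fun h => h0 (by rw [h, inv_zero])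
    rw [S.v_inv D h1, ha h1 D hD, neg_zero]

namespace SelfMap

variable {S : HKDivisors K P Pic}

theorem isFinite_of_affine (φ : SelfMap S) {h : K} (hh : h ∈ affineSet φ.γ) : φ.IsFinite h := by
  obtain ⟨a, b, hab⟩ := hh
  refine ⟨Submodule.span ℂ {1, h}, FiniteDimensional.span_of_finite ℂ (Set.toFinite _),
    Submodule.subset_span (by simp), ?_⟩
  intro x hx
  obtain ⟨c, d, rfl⟩ := Submodule.mem_span_pair.1 hx
  rw [map_add, map_smul, map_smul, map_one, hab]
  refine Submodule.mem_span_pair.2 ⟨c + d * b, d * a, ?_⟩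
  rw [Algebra.smul_def, Algebra.smul_def, Algebra.smul_def, Algebra.smul_def, map_add, map_mul,
    map_mul]
  ring

theorem affine_const_or [Module.Finite ℤ Pic] [IsAddTorsionFree Pic] (φ : SelfMap S) {L : Pic}
    (hL : S.NefIsotropic L) (hφ : φ.g L = L) (hinf : ¬ IsOfFinOrder φ.g) {h : K}
    (hh : h ∈ affineSet φ.γ) (hc : ∀ c : ℂ, h ≠ algebraMap ℂ K c) :
    h ∈ S.sectionQuotients L :=
  φ.quotient_of_finite hL hφ hinf (φ.isFinite_of_affine hh) hc

theorem pointwise_affine [Module.Finite ℤ Pic] [IsAddTorsionFree Pic]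
    (hfd : ∀ E : P →₀ ℤ, FiniteDimensional ℂ (S.sections E)) (φ : SelfMap S) {L : Pic}
    (hL : S.NefIsotropic L) (hφ : φ.g L = L) (hinf : ¬ IsOfFinOrder φ.g) {f : K} (hf0 : f ≠ 0) :
    List.TFAE [(∃ c : ℂ, f = algebraMap ℂ K c) ∨ f ∈ S.sectionQuotients L,
      ∀ D, D ∉ S.orth L → S.v D f = 0,
      ∃ C : ℝ, ∀ k : ℕ, S.poleDeg ((φ.γ ^ k) f) ≤ C,
      f ∈ IntermediateField.adjoin ℂ (affineSet φ.γ)] := by
  have hp := SelfMap.pointwise hfd φ hL hφ hinf hf0
  tfae_have 1 ↔ 2 := hp.out 0 1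
  tfae_have 2 ↔ 3 := φ.orth_iff_bounded hL hφ hinf hf0
  tfae_have 1 → 4 := by
    intro h
    obtain ⟨a, b, ⟨V, hV, haV, hVs⟩, ⟨W, hW, hbW, hWs⟩, rfl⟩ := (hp.out 0 2).1 h
    exact div_mem (finite_mem_adjoin φ.γ V hVs haV) (finite_mem_adjoin φ.γ W hWs hbW)
  tfae_have 4 → 2 := by
    intro h
    have hle : IntermediateField.adjoin ℂ (affineSet φ.γ) ≤ S.orthField hL := by
      refine IntermediateField.adjoin_le_iff.2 fun x hx hx0 => ?_
      by_cases hc : ∃ c : ℂ, x = algebraMap ℂ K c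
      · obtain ⟨c, rfl⟩ := hc
        intro D _
        refine S.v_const D c ?_
        rintro rfl
        exact hx0 (map_zero _)
      · push Not at hc
        intro D hD
        exact S.v_quotient hL hx0 (φ.affine_const_or hL hφ hinf hx hc) hD
    exact hle h hf0
  tfae_finish

theorem normal_form_iff [Module.Finite ℤ Pic] [IsAddTorsionFree Pic]
    (hfd : ∀ E : P →₀ ℤ, FiniteDimensional ℂ (S.sections E)) (φ : SelfMap S) {L : Pic}
    (hL : S.NefIsotropic L) (hφ : φ.g L = L) (hinf : ¬ IsOfFinOrder φ.g) (m : ℕ) :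
    (∃ f : Fin (m + 1) → K, (∀ i, f i ∈ S.sectionQuotients L) ∧ AlgebraicIndependent ℂ f) ↔
      ∃ f : Fin (m + 1) → K, AlgebraicIndependent ℂ f ∧
        (∃ a b : ℂ, φ.γ (f 0) = algebraMap ℂ K a * f 0 + algebraMap ℂ K b) ∧
        ∀ i, i ≠ 0 → ∃ a : ℂ, φ.γ (f i) = algebraMap ℂ K a * f i := by
  constructor
  · rintro ⟨f, hf, hfi⟩
    refine exists_normal_form φ.γ hfi fun i => ?_
    exact ((pointwise_affine hfd φ hL hφ hinf (hfi.ne_zero i)).out 0 3).1 (Or.inr (hf i))
  · rintro ⟨f, hfi, h0, hf⟩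
    refine ⟨f, fun i => ?_, hfi⟩
    have hc : ∀ c : ℂ, f i ≠ algebraMap ℂ K c := by
      intro c hc
      exact (hfi.transcendental i) (by rw [hc]; exact isAlgebraic_algebraMap c)
    refine φ.affine_const_or hL hφ hinf ?_ hc
    by_cases hi : i = 0
    · rw [hi]
      exact h0
    · exact eigenSet_subset φ.γ (hf i hi)

theorem quotient_of_algebraic [Module.Finite ℤ Pic] [IsAddTorsionFree Pic] (φ : SelfMap S)
    {L : Pic} (hL : S.NefIsotropic L) (hφ : φ.g L = L) (hinf : ¬ IsOfFinOrder φ.g) {f : K}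
    (hf : IsAlgebraic (IntermediateField.adjoin ℂ {f}) (φ.γ f)) :
    (∃ c : ℂ, f = algebraMap ℂ K c) ∨ f ∈ S.sectionQuotients L := by
  by_cases hc : ∃ c : ℂ, f = algebraMap ℂ K c
  · exact Or.inl hc
  · push Not at hc
    have hf0 : f ≠ 0 := by
      intro h0
      exact hc 0 (by rw [h0, map_zero])
    refine Or.inr (S.quotient_of_orth hL (fun D hneg => ?_) hc)
    by_contra hn
    rw [φ.orth_of_algebraic hL hφ hinf hf0 hf D hn] at hneg
    exact lt_irrefl _ hneg

end SelfMap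

end

end Pool.Agent.SYZ
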