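import Pool.Agent.SYZ.Count

namespace Pool.Agent.SYZ

noncomputable section

namespace HKDivisors

variable {K P Pic : Type*} [Field K] [Algebra ℂ K] [AddCommGroup Pic]
variable (S : HKDivisors K P Pic)

/-- The divisor of a nonzero meromorphic function. -/
def dv {f : K} (hf : f ≠ 0) : P →₀ ℤ := Finsupp.ofSupportFinite (fun D => S.v D f) (S.v_finite f hf)

theorem dv_apply {f : K} (hf : f ≠ 0) (D : P) : S.dv hf D = S.v D f := rfl

theorem O_dv {f : K} (hf : f ≠ 0) : S.O (S.dv hf) = 0 :=
  (S.O_eq_zero_iff _).2 ⟨f, hf, fun _ => rfl⟩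

/-- If only finitely many primes are orthogonal to `L`, then there are only finitely many
effective divisors in the class of a multiple of `L`. -/
theorem finite_effective {L : Pic} (hL : S.NefIsotropic L) (h : (S.orth L).Finite) (k : ℤ) :
    {F : P →₀ ℤ | 0 ≤ F ∧ S.O F = k • L}.Finite := by
  classical
  let G : P →₀ ℤ := Finsupp.indicator h.toFinset
    (fun D _ => ⌈(k : ℝ) * S.deg L / S.deg (S.cls D)⌉)
  refine (Set.finite_Icc (0 : P →₀ ℤ) G).subset ?_
  rintro F ⟨hF, hk⟩
  refine ⟨hF, fun D => ?_⟩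
  by_cases hD : D ∈ F.support
  · have hs := S.support_subset_orth hL hF (by rw [hk, map_zsmul, hL.1, smul_zero]) D hD
    have hG : G D = ⌈(k : ℝ) * S.deg L / S.deg (S.cls D)⌉ := by
      simp only [G, Finsupp.indicator_apply]
      rw [dif_pos (h.mem_toFinset.2 hs)]
    rw [hG]
    have h1 : (F D : ℝ) * S.deg (S.cls D) ≤ k * S.deg L := by
      have h2 : S.deg (S.O F) = k * S.deg L := by rw [hk, map_zsmul, zsmul_eq_mul]
      rw [← h2, deg_O, Finsupp.sum]
      refine Finset.single_le_sum (f := fun D => (F D : ℝ) * S.deg (S.cls D)) (fun D' _ => ?_) hD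
      refine mul_nonneg ?_ (S.deg_prime D').le
      exact_mod_cast hF D'
    have hp : 0 < S.deg (S.cls D) := S.deg_prime D
    have h3 : (F D : ℝ) ≤ k * S.deg L / S.deg (S.cls D) := (le_div_iff₀ hp).2 h1
    exact_mod_cast h3.trans (Int.le_ceil _)
  · have h1 : F D = 0 := by simpa using hD
    rw [h1]
    simp only [G, Finsupp.indicator_apply]
    split_ifs with h2
    · refine Int.ceil_nonneg ?_
      refine div_nonneg ?_ (S.deg_prime D).le
      have h3 := S.deg_O_nonneg hF
      rw [hk, map_zsmul, zsmul_eq_mul] at h3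
      exact h3
    · exact le_rfl

/-- If a positive multiple of `L` is the class of two different effective divisors, then
infinitely many prime divisors are orthogonal to `L`. -/
theorem infinite_of_twoSections {L : Pic} (hL : S.NefIsotropic L) (h : S.TwoSections L) :
    (S.orth L).Infinite := by
  intro hfin
  obtain ⟨k, hk, E, E', hE, hE', hne, h1, h2⟩ := h
  obtain ⟨f, hf, hfE⟩ := (S.O_eq_zero_iff (E' - E)).1 (by rw [map_sub, h1, h2, sub_self])
  have hnc : ∀ c : ℂ, f ≠ algebraMap ℂ K c := by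
    intro c hc
    apply hne
    have hc0 : c ≠ 0 := by
      rintro rfl
      exact hf (by rw [hc, map_zero])
    ext D
    have h3 := hfE D
    rw [hc, S.v_const D c hc0, Finsupp.coe_sub, Pi.sub_apply] at h3
    omega
  have hsub : ∀ c : ℂ, f + algebraMap ℂ K (-c) ≠ 0 := by
    intro c h3
    apply hnc c
    rw [map_neg] at h3
    exact add_neg_eq_zero.1 h3
  let Ec : ℂ → (P →₀ ℤ) := fun c => E + S.dv (hsub c)
  have hmap : Set.MapsTo Ec {c : ℂ | c ≠ 0} {F : P →₀ ℤ | 0 ≤ F ∧ S.O F = k • L} := by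
    intro c hc
    have hc : c ≠ 0 := hc
    refine ⟨fun D => ?_, ?_⟩
    · have h3 := S.v_add D f (algebraMap ℂ K (-c)) hf (by simpa using hc) (hsub c)
      rw [S.v_const D (-c) (neg_ne_zero.2 hc), ← hfE D] at h3
      simp only [Finsupp.coe_sub, Pi.sub_apply, Finsupp.coe_zero, Pi.zero_apply, Ec,
        Finsupp.coe_add, Pi.add_apply, dv_apply] at h3 ⊢
      have h4 : 0 ≤ E D := hE D
      have h5 : 0 ≤ E' D := hE' D
      rcases min_le_iff.1 h3 with h6 | h6 <;> omega
    · simp only [Ec, map_add, O_dv, add_zero, h1]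
  have hinf : {c : ℂ | c ≠ 0}.Infinite := (Set.finite_singleton (0 : ℂ)).infinite_compl
  obtain ⟨c, -, c', -, hcc, heq⟩ := hinf.exists_ne_map_eq_of_mapsTo hmap
    (S.finite_effective hL hfin k)
  have hv : ∀ D, S.v D (f + algebraMap ℂ K (-c)) = S.v D (f + algebraMap ℂ K (-c')) := by
    intro D
    have h3 := DFunLike.congr_fun heq D
    simp only [Ec, Finsupp.coe_add, Pi.add_apply, dv_apply] at h3
    omega
  set a := f + algebraMap ℂ K (-c) with ha
  set b := f + algebraMap ℂ K (-c') with hb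
  have ha0 : a ≠ 0 := hsub c
  have hb0 : b ≠ 0 := hsub c'
  have hg : a * b⁻¹ ≠ 0 := mul_ne_zero ha0 (inv_ne_zero hb0)
  have hab : a * b⁻¹ * b = a := by rw [mul_assoc, inv_mul_cancel₀ hb0, mul_one]
  obtain ⟨e, he⟩ := S.const_of_holomorphic (a * b⁻¹) hg (by
    intro D
    have h3 := S.v_mul D (a * b⁻¹) b hg hb0
    rw [hab, hv D] at h3
    omega)
  rw [he] at hab
  -- `f - c = e (f - c')`
  have h3 : algebraMap ℂ K (1 - e) * f = algebraMap ℂ K (c - e * c') := by
    rw [ha, hb] at hab
    simp only [map_sub, map_mul, map_one, map_neg] at hab ⊢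
    linear_combination -hab
  by_cases h4 : 1 - e = 0
  · rw [h4, map_zero, zero_mul] at h3
    have h5 : c - e * c' = 0 := by
      apply (algebraMap ℂ K).injective
      rw [← h3, map_zero]
    have h6 : e = 1 := (sub_eq_zero.1 h4).symm
    rw [h6, one_mul, sub_eq_zero] at h5
    exact hcc h5
  · apply hnc ((1 - e)⁻¹ * (c - e * c'))
    rw [map_mul, ← h3, ← mul_assoc, ← map_mul, inv_mul_cancel₀ h4, map_one, one_mul]

theorem tfae [Module.Finite ℤ Pic] {L : Pic} (hL : S.NefIsotropic L) :
    List.TFAE [S.TwoSections L, S.DisjointSections L, (S.orth L).Infinite,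
      (S.perpRank L : ℕ∞) < (S.orth L).encard] := by
  tfae_have 1 → 3 := S.infinite_of_twoSections hL
  tfae_have 3 → 4 := by
    intro h
    rw [h.encard_eq]
    exact ENat.natCast_lt_top _
  tfae_have 4 → 1 := by
    intro h
    have h1 : ((S.perpRank L + 1 : ℕ) : ℕ∞) ≤ (S.orth L).encard := by
      have := Order.add_one_le_of_lt h
      exact_mod_cast this
    obtain ⟨t, ht, htc⟩ := Set.exists_subset_encard_eq h1
    have hfin : t.Finite := Set.finite_of_encard_eq_coe htc
    refine S.twoSections_of_card hL hfin.toFinset (fun D hD => ht (hfin.mem_toFinset.1 hD)) ?_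
    rw [hfin.encard_eq_coe_toFinset_card] at htc
    have : hfin.toFinset.card = S.perpRank L + 1 := by exact_mod_cast htc
    omega
  tfae_have 1 → 2 := S.disjoint_of_twoSections hL
  tfae_have 2 → 1 := S.twoSections_of_disjoint hL
  tfae_finish

theorem qEffective_of_encard [Module.Finite ℤ Pic] {L : Pic} (hL : S.NefIsotropic L)
    (h : (S.perpRank L : ℕ∞) ≤ (S.orth L).encard) : S.QEffective L := by
  obtain ⟨t, ht, htc⟩ := Set.exists_subset_encard_eq h
  have hfin : t.Finite := Set.finite_of_encard_eq_coe htc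
  rw [hfin.encard_eq_coe_toFinset_card] at htc
  have hc : hfin.toFinset.card = S.perpRank L := by exact_mod_cast htc
  obtain ⟨E, h1, h2, h3, h4⟩ := S.exists_supported hL hfin.toFinset
    (fun D hD => ht (hfin.mem_toFinset.1 hD)) hc.ge
  exact S.qEffective_of_ray hL h1 h2 h4

end HKDivisors

end

end Pool.Agent.SYZ
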