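import Pool.Agent.SYZ.Trichotomy

namespace Pool.Agent.SYZ

noncomputable section

namespace HKDivisors

variable {K P Pic : Type*} [Field K] [Algebra ℂ K] [AddCommGroup Pic]

theorem ray_smul_iff {L x : Pic} {a : ℤ} (ha : a ≠ 0) : Ray L (a • x) ↔ Ray L x := by
  constructor
  · rintro ⟨c, b, hc, h⟩
    exact ⟨c * a, b, mul_ne_zero hc ha, by rw [mul_smul, h]⟩
  · rintro ⟨c, b, hc, h⟩
    exact ⟨c, a * b, hc, by rw [smul_smul, mul_comm c a, mul_smul, h, smul_smul]⟩

/-- The saturation of the subgroup generated by `L`. -/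
def sat (L : Pic) : AddSubgroup Pic where
  carrier := {x | Ray L x}
  add_mem' := by
    rintro x y ⟨a, b, ha, h⟩ ⟨a', b', ha', h'⟩
    refine ⟨a * a', a' * b + a * b', mul_ne_zero ha ha', ?_⟩
    rw [smul_add, mul_comm a a', mul_smul, h, mul_comm a' a, mul_smul, h', add_smul, mul_smul,
      mul_smul]
  zero_mem' := ⟨1, 0, one_ne_zero, by simp⟩
  neg_mem' := by
    rintro x ⟨a, b, ha, h⟩
    exact ⟨a, -b, ha, by rw [smul_neg, h, neg_smul]⟩

theorem mem_sat {L x : Pic} : x ∈ sat L ↔ Ray L x := Iff.rfl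

theorem self_mem_sat (L : Pic) : L ∈ sat L := ⟨1, 1, one_ne_zero, rfl⟩

variable (S : HKDivisors K P Pic)

/-- The group of classes orthogonal to `L`. -/
abbrev perp (L : Pic) : AddSubgroup Pic := (S.q L).ker

theorem mem_perp {L x : Pic} : x ∈ S.perp L ↔ S.q L x = 0 := Iff.rfl

theorem ray_of_q_self {L x : Pic} (hL : S.NefIsotropic L) (hx : S.q L x = 0)
    (h : S.q x x = 0) : Ray L x := S.hodge_index L x hL.1 hL.2.1.ne' hx h.ge

/-- The orthogonal projection away from a finite orthogonal family, cleared of denominators. -/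
def proj (G : Finset Pic) : Pic →+ Pic :=
  haveI := Classical.decEq Pic
  (∏ f ∈ G, S.q f f) • AddMonoidHom.id Pic -
    ∑ f ∈ G, (∏ f' ∈ G.erase f, S.q f' f') • ((zmultiplesHom Pic f).comp (S.q f))

theorem proj_apply [DecidableEq Pic] (G : Finset Pic) (x : Pic) : S.proj G x =
    (∏ f ∈ G, S.q f f) • x - ∑ f ∈ G, ((∏ f' ∈ G.erase f, S.q f' f') * S.q f x) • f := by
  have h : Classical.decEq Pic = ‹DecidableEq Pic› := Subsingleton.elim _ _
  subst h
  simp only [proj, AddMonoidHom.sub_apply, AddMonoidHom.coe_smul, Pi.smul_apply,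
    AddMonoidHom.id_apply, AddMonoidHom.finsetSum_apply, AddMonoidHom.comp_apply,
    zmultiplesHom_apply, mul_smul]

theorem q_proj {G : Finset Pic} (hG : ∀ f ∈ G, ∀ f' ∈ G, f ≠ f' → S.q f f' = 0) {g : Pic}
    (hg : g ∈ G) (x : Pic) : S.q g (S.proj G x) = 0 := by
  classical
  rw [proj_apply, map_sub, map_zsmul, map_sum, Finset.sum_eq_single g]
  · rw [map_zsmul, smul_eq_mul, smul_eq_mul, ← Finset.mul_prod_erase G (fun f => S.q f f) hg]
    ring
  · intro f hf hfg
    rw [map_zsmul, hG g hg f hf (Ne.symm hfg), smul_zero]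
  · intro h
    exact absurd hg h

theorem q_proj_perp {L : Pic} {G : Finset Pic} (hG : ∀ f ∈ G, S.q L f = 0) {x : Pic}
    (hx : S.q L x = 0) : S.q L (S.proj G x) = 0 := by
  classical
  rw [proj_apply, map_sub, map_zsmul, map_sum, hx, smul_zero, zero_sub, neg_eq_zero]
  refine Finset.sum_eq_zero fun f hf => ?_
  rw [map_zsmul, hG f hf, smul_zero]

/-- Orthogonalisation of a finite family in `L^⊥`, up to multiples and up to `ℚL`. -/
theorem exists_orthogonal {L : Pic} (hL : S.NefIsotropic L) (F : Finset Pic)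
    (hF : ∀ x ∈ F, S.q L x = 0) :
    ∃ G : Finset Pic, (∀ f ∈ G, S.q L f = 0 ∧ S.q f f < 0) ∧
      (∀ f ∈ G, ∀ f' ∈ G, f ≠ f' → S.q f f' = 0) ∧
      (G : Set Pic) ⊆ AddSubgroup.closure (F : Set Pic) ∧
      ∀ x ∈ F, ∃ a : ℤ, a ≠ 0 ∧ a • x ∈ AddSubgroup.closure (G : Set Pic) ⊔ sat L := by
  classical
  induction F using Finset.induction_on with
  | empty => exact ⟨∅, by simp, by simp, by simp, by simp⟩
  | insert x F hx ih =>
    obtain ⟨G, h1, h2, h3, h4⟩ := ih (fun y hy => hF y (Finset.mem_insert_of_mem hy))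
    have hxL : S.q L x = 0 := hF x (Finset.mem_insert_self x F)
    have hQ : (∏ f ∈ G, S.q f f) ≠ 0 := Finset.prod_ne_zero_iff.2 fun f hf => (h1 f hf).2.ne
    set y := S.proj G x with hy
    have hyL : S.q L y = 0 := S.q_proj_perp (fun f hf => (h1 f hf).1) hxL
    have hyG : ∀ f ∈ G, S.q f y = 0 := fun f hf => S.q_proj h2 hf x
    have hsum : (∑ f ∈ G, ((∏ f' ∈ G.erase f, S.q f' f') * S.q f x) • f) ∈
        AddSubgroup.closure (G : Set Pic) :=
      AddSubgroup.sum_mem _ fun f hf =>
        AddSubgroup.zsmul_mem _ (AddSubgroup.subset_closure hf) _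
    have hxy : (∏ f ∈ G, S.q f f) • x =
        (∑ f ∈ G, ((∏ f' ∈ G.erase f, S.q f' f') * S.q f x) • f) + y := by
      rw [hy, proj_apply]; abel
    have hle : AddSubgroup.closure (F : Set Pic) ≤
        AddSubgroup.closure ((insert x F : Finset Pic) : Set Pic) :=
      AddSubgroup.closure_mono (by simp)
    by_cases hyy : S.q y y = 0
    · refine ⟨G, h1, h2, fun f hf => hle (h3 hf), ?_⟩
      intro z hz
      rcases Finset.mem_insert.1 hz with rfl | hz
      · refine ⟨_, hQ, ?_⟩
        rw [hxy]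
        exact AddSubgroup.add_mem_sup hsum (S.ray_of_q_self hL hyL hyy)
      · exact h4 z hz
    · have hyneg : S.q y y < 0 := lt_of_le_of_ne (S.q_self_le hL.1 hL.2.1 hyL) hyy
      have hyG' : y ∉ G := fun h => hyy (hyG y h)
      have hymem : y ∈ AddSubgroup.closure ((insert x F : Finset Pic) : Set Pic) := by
        have : y = (∏ f ∈ G, S.q f f) • x -
          (∑ f ∈ G, ((∏ f' ∈ G.erase f, S.q f' f') * S.q f x) • f) := by rw [hy, proj_apply]
        rw [this]
        refine AddSubgroup.sub_mem _ (AddSubgroup.zsmul_mem _ (AddSubgroup.subset_closure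
          (by simp)) _) ?_
        exact hle ((AddSubgroup.closure_le _).2 h3 hsum)
      refine ⟨insert y G, ?_, ?_, ?_, ?_⟩
      · intro f hf
        rcases Finset.mem_insert.1 hf with rfl | hf
        · exact ⟨hyL, hyneg⟩
        · exact h1 f hf
      · intro f hf f' hf' hne
        rcases Finset.mem_insert.1 hf with rfl | hf
        · rcases Finset.mem_insert.1 hf' with rfl | hf'
          · exact absurd rfl hne
          · rw [S.q_symm]; exact hyG f' hf'
        · rcases Finset.mem_insert.1 hf' with rfl | hf'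
          · exact hyG f hf
          · exact h2 f hf f' hf' hne
      · intro f hf
        rcases Finset.mem_insert.1 (Finset.mem_coe.1 hf) with rfl | hf
        · exact hymem
        · exact hle (h3 hf)
      · have hle' : AddSubgroup.closure (G : Set Pic) ⊔ sat L ≤
            AddSubgroup.closure ((insert y G : Finset Pic) : Set Pic) ⊔ sat L :=
          sup_le_sup_right (AddSubgroup.closure_mono (by simp)) _
        intro z hz
        rcases Finset.mem_insert.1 hz with rfl | hz
        · refine ⟨_, hQ, ?_⟩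
          rw [hxy]
          refine AddSubgroup.add_mem _ (hle' (AddSubgroup.mem_sup_left hsum))
            (AddSubgroup.mem_sup_left (AddSubgroup.subset_closure (by simp)))
        · obtain ⟨a, ha, h5⟩ := h4 z hz
          exact ⟨a, ha, hle' h5⟩

/-- The projection sends everything in the rational span of `G` and `L` to `ℚL`. -/
theorem proj_mem_sat {L : Pic} {G : Finset Pic} (hGL : ∀ f ∈ G, S.q L f = 0)
    (hG : ∀ f ∈ G, ∀ f' ∈ G, f ≠ f' → S.q f f' = 0) {x : Pic}
    (hx : ∃ a : ℤ, a ≠ 0 ∧ a • x ∈ AddSubgroup.closure (G : Set Pic) ⊔ sat L) :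
    S.proj G x ∈ sat L := by
  classical
  obtain ⟨a, ha, hx⟩ := hx
  have h1 : AddSubgroup.closure (G : Set Pic) ⊔ sat L ≤ (sat L).comap (S.proj G) := by
    refine sup_le ((AddSubgroup.closure_le _).2 ?_) ?_
    · intro f hf
      have hf' : f ∈ G := hf
      change S.proj G f ∈ sat L
      rw [proj_apply, Finset.sum_eq_single f]
      · rw [mul_comm, Finset.mul_prod_erase G (fun f => S.q f f) hf', sub_self]
        exact AddSubgroup.zero_mem _
      · intro f' hf'' hne
        rw [hG f' hf'' f hf' hne, mul_zero, zero_smul]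
      · intro h
        exact absurd hf' h
    · intro y hy
      change S.proj G y ∈ sat L
      rw [proj_apply, Finset.sum_eq_zero, sub_zero]
      · exact AddSubgroup.zsmul_mem _ hy _
      · intro f hf
        rw [S.q_ray_orth hy (hGL f hf), mul_zero, zero_smul]
  have h2 := h1 hx
  rw [AddSubgroup.mem_comap, map_zsmul] at h2
  exact (ray_smul_iff ha).1 h2

theorem closure_rational {G : Finset Pic} {L : Pic} {F : Set Pic}
    (hF : ∀ x ∈ F, ∃ a : ℤ, a ≠ 0 ∧ a • x ∈ AddSubgroup.closure (G : Set Pic) ⊔ sat L) :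
    ∀ x ∈ AddSubgroup.closure F, ∃ a : ℤ, a ≠ 0 ∧
      a • x ∈ AddSubgroup.closure (G : Set Pic) ⊔ sat L := by
  intro x hx
  induction hx using AddSubgroup.closure_induction with
  | mem x hx => exact hF x hx
  | zero => exact ⟨1, one_ne_zero, by rw [smul_zero]; exact AddSubgroup.zero_mem _⟩
  | add x y _ _ h1 h2 =>
    obtain ⟨a, ha, h1⟩ := h1
    obtain ⟨b, hb, h2⟩ := h2
    refine ⟨a * b, mul_ne_zero ha hb, ?_⟩
    rw [smul_add]
    refine AddSubgroup.add_mem _ ?_ ?_
    · rw [mul_comm, mul_smul]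
      exact AddSubgroup.zsmul_mem _ h1 _
    · rw [mul_smul]
      exact AddSubgroup.zsmul_mem _ h2 _
  | neg x _ h =>
    obtain ⟨a, ha, h⟩ := h
    exact ⟨a, ha, by rw [smul_neg]; exact AddSubgroup.neg_mem _ h⟩

theorem exists_generators [Module.Finite ℤ Pic] (A : AddSubgroup Pic) :
    ∃ F : Finset Pic, AddSubgroup.closure (F : Set Pic) = A := by
  have h : (AddSubgroup.toIntSubmodule A).FG := IsNoetherian.noetherian _
  obtain ⟨F, hF⟩ := h
  refine ⟨F, ?_⟩
  have := congrArg Submodule.toAddSubgroup hF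
  rwa [Submodule.span_int_eq_addSubgroupClosure] at this

end HKDivisors

end

end Pool.Agent.SYZ
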