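import Pool.Agent.SYZ.Infinite

namespace Pool.Agent.SYZ

noncomputable section

variable {K P Pic : Type*} [Field K] [Algebra ℂ K] [AddCommGroup Pic]

namespace HKDivisors

variable (S : HKDivisors K P Pic)

theorem q_eichlerFun {L t : Pic} (hL : S.q L L = 0) (ht : S.q L t = 0) (x : Pic) :
    S.q L (S.eichlerFun L t x) = S.q L x := by
  simp only [eichlerFun, map_sub, map_add, map_zsmul, hL, ht, smul_zero, sub_zero, add_zero]

theorem eichlerFun_add {L s t : Pic} (hL : S.q L L = 0) (hs : S.q L s = 0) (ht : S.q L t = 0)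
    (x : Pic) : S.eichlerFun L t (S.eichlerFun L s x) = S.eichlerFun L (s + t) x := by
  have h1 := S.q_eichlerFun hL hs x
  have h2 : S.q t (S.eichlerFun L s x) = S.q t x + 2 * S.q L x * S.q t s := by
    have hL' : S.q t L = 0 := by rw [S.q_symm]; exact ht
    simp only [eichlerFun, map_sub, map_add, map_zsmul, hL', smul_eq_mul]
    ring
  rw [show S.eichlerFun L t (S.eichlerFun L s x) = S.eichlerFun L s x
    - (2 * S.q t (S.eichlerFun L s x)) • L + (2 * S.q L (S.eichlerFun L s x)) • t
    - (2 * S.q t t * S.q L (S.eichlerFun L s x)) • L from rfl, h1, h2]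
  simp only [eichlerFun, map_add, AddMonoidHom.add_apply, S.q_symm t s]
  module

theorem eichlerFun_zero (L x : Pic) : S.eichlerFun L 0 x = x := by
  simp [eichlerFun]

/-- The Eichler transvection as an automorphism of `Pic`. -/
def eichler {L t : Pic} (hL : S.q L L = 0) (ht : S.q L t = 0) : Pic ≃ₗ[ℤ] Pic where
  toFun := S.eichlerFun L t
  invFun := S.eichlerFun L (-t)
  left_inv x := by
    rw [S.eichlerFun_add hL ht (by rw [map_neg, ht, neg_zero]), add_neg_cancel, eichlerFun_zero]
  right_inv x := by
    rw [S.eichlerFun_add hL (by rw [map_neg, ht, neg_zero]) ht, neg_add_cancel, eichlerFun_zero]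
  map_add' x y := by
    simp only [eichlerFun, map_add]
    module
  map_smul' n x := by
    simp only [eichlerFun, map_zsmul, smul_eq_mul, eq_intCast, Int.cast_id]
    module

theorem eichler_apply {L t : Pic} (hL : S.q L L = 0) (ht : S.q L t = 0) (x : Pic) :
    S.eichler hL ht x = S.eichlerFun L t x := rfl

theorem eichler_isometry {L t : Pic} (hL : S.q L L = 0) (ht : S.q L t = 0) (x y : Pic) :
    S.q (S.eichler hL ht x) (S.eichler hL ht y) = S.q x y := by
  have hL' : S.q t L = 0 := by rw [S.q_symm]; exact ht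
  simp only [eichler_apply, eichlerFun, map_sub, map_add, map_zsmul, AddMonoidHom.sub_apply,
    AddMonoidHom.add_apply, AddMonoidHom.coe_smul, Pi.smul_apply, hL, hL', ht, smul_eq_mul]
  rw [S.q_symm x L, S.q_symm x t]
  ring

theorem q_nsmul {L t : Pic} (ht : S.q L t = 0) (n : ℕ) : S.q L (n • t) = 0 := by
  rw [map_nsmul, ht, smul_zero]

theorem eichler_pow {L t : Pic} (hL : S.q L L = 0) (ht : S.q L t = 0) (n : ℕ) :
    (S.eichler hL ht) ^ n = S.eichler hL (S.q_nsmul ht n) := by
  induction n with
  | zero =>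
    ext x
    rw [pow_zero, LinearEquiv.coe_one, id, eichler_apply]
    simp [eichlerFun]
  | succ n ih =>
    ext x
    rw [pow_succ', ih, LinearEquiv.mul_apply, eichler_apply, eichler_apply, eichler_apply,
      S.eichlerFun_add hL (S.q_nsmul ht n) ht, ← succ_nsmul]

end HKDivisors

end

end Pool.Agent.SYZ
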