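import Pool.Agent.SYZ.Stab

/-!
Isometries fixing a nef isotropic class `L`: only finitely many of them map a class `x` with
`q(L, x) > 0` to a class of bounded degree.
-/

namespace Pool.Agent.SYZ

noncomputable section

variable {K P Pic : Type*} [Field K] [Algebra ℂ K] [AddCommGroup Pic]

namespace HKDivisors

variable (S : HKDivisors K P Pic)

/-- An elementary bound for a quadratic inequality. -/
theorem quad_bound {A l D C t : ℝ} (hA : 0 < A) (h : A * t ^ 2 - t * l ≤ C * D) :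
    t ^ 2 ≤ 2 / A * (C * D + l ^ 2 / (2 * A)) := by
  have h1 : t * l ≤ A / 2 * t ^ 2 + l ^ 2 / (2 * A) := by
    have h2 : 0 ≤ (A * t - l) ^ 2 / (2 * A) := by positivity
    have h3 : (A * t - l) ^ 2 / (2 * A) = A / 2 * t ^ 2 + l ^ 2 / (2 * A) - t * l := by
      field_simp
      ring
    linarith
  have h4 : A / 2 * t ^ 2 ≤ C * D + l ^ 2 / (2 * A) := by linarith
  have h5 : t ^ 2 = 2 / A * (A / 2 * t ^ 2) := by
    field_simp
  rw [h5]
  exact mul_le_mul_of_nonneg_left h4 (by positivity)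

theorem quad_lower {A l D t : ℝ} (hA : 0 < A) (hD : 1 ≤ D) :
    -(l ^ 2 / (4 * A)) ≤ (A * t ^ 2 - t * l) / D := by
  have hD0 : 0 < D := by linarith
  rw [le_div_iff₀ hD0]
  have h2 : 0 ≤ (2 * A * t - l) ^ 2 / (4 * A) := by positivity
  have h3 : (2 * A * t - l) ^ 2 / (4 * A) = A * t ^ 2 - t * l + l ^ 2 / (4 * A) := by
    field_simp
    ring
  have h4 : 0 ≤ l ^ 2 / (4 * A) := by positivity
  nlinarith

theorem finite_quad [Module.Finite ℤ Pic] [IsAddTorsionFree Pic] {L x : Pic}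
    (hL : S.NefIsotropic L) (hx : S.q L x ≠ 0) {A : ℝ} (hA : 0 < A) (l : Pic →+ ℝ) (C : ℝ) :
    {w : Pic | S.q L w = 0 ∧ S.q x w = 0 ∧ -A * S.q w w + l w ≤ C}.Finite := by
  classical
  obtain ⟨F, hF⟩ := exists_generators (S.perp₂ L x)
  have hFL : ∀ w ∈ F, S.q L w = 0 := by
    intro w hw
    have : w ∈ S.perp₂ L x := by
      rw [← hF]
      exact AddSubgroup.subset_closure hw
    exact this.1
  obtain ⟨G, hG1, hG2, hG3, hG4⟩ := S.exists_orthogonal hL F hFL
  have hGW : ∀ f ∈ G, f ∈ S.perp₂ L x := by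
    intro f hf
    rw [← hF]
    exact hG3 hf
  have hxL : S.q x L ≠ 0 := by rw [S.q_symm]; exact hx
  have hproj : ∀ w ∈ S.perp₂ L x, S.proj G w = 0 := by
    intro w hw
    have h1 : w ∈ AddSubgroup.closure (F : Set Pic) := by rw [hF]; exact hw
    obtain ⟨a, b, ha, hab⟩ := S.proj_mem_sat (fun f hf => (hG1 f hf).1) hG2
      (closure_rational hG4 w h1)
    have h2 : S.q x (S.proj G w) = 0 := by
      rw [proj_apply, map_sub, map_zsmul, map_sum, hw.2, smul_zero, zero_sub, neg_eq_zero]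
      refine Finset.sum_eq_zero fun f hf => ?_
      rw [map_zsmul, (hGW f hf).2, smul_zero]
    have h3 := congrArg (S.q x) hab
    rw [map_zsmul, map_zsmul, h2, smul_zero, smul_eq_mul] at h3
    have hb : b = 0 := (mul_eq_zero.1 h3.symm).resolve_right hxL
    rw [hb, zero_smul] at hab
    exact (smul_eq_zero.1 hab).resolve_left ha
  set Q : ℤ := ∏ f ∈ G, S.q f f with hQdef
  have hQ : Q ≠ 0 := Finset.prod_ne_zero_iff.2 fun f hf => (hG1 f hf).2.ne
  have hexp : ∀ w ∈ S.perp₂ L x,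
      Q • w = ∑ f ∈ G, ((∏ f' ∈ G.erase f, S.q f' f') * S.q f w) • f := by
    intro w hw
    have h := hproj w hw
    rw [proj_apply] at h
    exact sub_eq_zero.1 h
  -- every additive functional in terms of the coordinates
  have hfun : ∀ (m : Pic →+ ℝ), ∀ w ∈ S.perp₂ L x,
      m w = ∑ f ∈ G, (S.q f w : ℝ) * m f / S.q f f := by
    intro m w hw
    have h1 := congrArg m (hexp w hw)
    rw [map_zsmul, map_sum, zsmul_eq_mul] at h1
    have hQr : (Q : ℝ) ≠ 0 := by exact_mod_cast hQ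
    apply mul_left_cancel₀ hQr
    rw [h1, Finset.mul_sum]
    refine Finset.sum_congr rfl fun f hf => ?_
    have hff : (S.q f f : ℝ) ≠ 0 := by exact_mod_cast (hG1 f hf).2.ne
    have h2 : Q = S.q f f * ∏ f' ∈ G.erase f, S.q f' f' :=
      (Finset.mul_prod_erase G (fun f => S.q f f) hf).symm
    rw [map_zsmul, zsmul_eq_mul, h2]
    push_cast
    field_simp
  -- the coordinates
  let c : Pic → (G → ℤ) := fun w f => S.q f w
  have hinj : Set.InjOn c {w : Pic | S.q L w = 0 ∧ S.q x w = 0 ∧ -A * S.q w w + l w ≤ C} := by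
    intro w hw w' hw' h
    have h1 : w - w' ∈ S.perp₂ L x := AddSubgroup.sub_mem _ ⟨hw.1, hw.2.1⟩ ⟨hw'.1, hw'.2.1⟩
    have h2 := hexp _ h1
    rw [Finset.sum_eq_zero] at h2
    · exact sub_eq_zero.1 ((smul_eq_zero.1 h2).resolve_left hQ)
    · intro f hf
      have h3 : S.q f w = S.q f w' := congrFun h ⟨f, hf⟩
      rw [map_sub, h3, sub_self, mul_zero, zero_smul]
  let C1 : ℝ := C + ∑ f ∈ G, l f ^ 2 / (4 * A)
  let B : G → ℤ := fun f => ⌈2 / A * (C1 * (-(S.q (f : Pic) f : ℝ)) + l f ^ 2 / (2 * A))⌉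
  refine Set.Finite.of_finite_image (f := c) ?_ hinj
  refine (Set.finite_Icc (-B) B).subset ?_
  rintro _ ⟨w, ⟨hw1, hw2, hw3⟩, rfl⟩
  have hw : w ∈ S.perp₂ L x := ⟨hw1, hw2⟩
  have hbound : ∀ f : G, |c w f| ≤ B f := by
    rintro ⟨f, hf⟩
    have hD : ∀ f ∈ G, (1 : ℝ) ≤ -(S.q f f : ℝ) := by
      intro f hf
      have h1 := (hG1 f hf).2
      have h2 : S.q f f ≤ -1 := by omega
      have h3 : (S.q f f : ℝ) ≤ -1 := by exact_mod_cast h2
      linarith
    have hqw : (S.q w w : ℝ) = ∑ f ∈ G, (S.q f w : ℝ) * S.q f w / S.q f f := by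
      have h1 := hfun ((Int.castAddHom ℝ).comp (S.q w)) w hw
      simp only [AddMonoidHom.comp_apply, Int.coe_castAddHom] at h1
      rw [h1]
      refine Finset.sum_congr rfl fun f _ => ?_
      rw [S.q_symm w f]
    have hlw := hfun l w hw
    have hterm : -A * S.q w w + l w =
        ∑ f ∈ G, (A * (S.q f w : ℝ) ^ 2 - (S.q f w : ℝ) * l f) / (-(S.q f f : ℝ)) := by
      rw [hqw, hlw, Finset.mul_sum, ← Finset.sum_add_distrib]
      refine Finset.sum_congr rfl fun f hf => ?_
      have hff : (S.q f f : ℝ) ≠ 0 := by exact_mod_cast (hG1 f hf).2.ne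
      field_simp
      ring
    have hone : (A * (S.q f w : ℝ) ^ 2 - (S.q f w : ℝ) * l f) / (-(S.q f f : ℝ)) ≤ C1 := by
      rw [hterm, ← Finset.add_sum_erase G _ hf] at hw3
      have h1 : -(∑ f ∈ G, l f ^ 2 / (4 * A)) ≤
          ∑ f ∈ G.erase f, (A * (S.q f w : ℝ) ^ 2 - (S.q f w : ℝ) * l f) / (-(S.q f f : ℝ)) := by
        have h2 : -(∑ f ∈ G, l f ^ 2 / (4 * A)) ≤ -(∑ f ∈ G.erase f, l f ^ 2 / (4 * A)) := by
          rw [← Finset.add_sum_erase G _ hf]
          have : 0 ≤ l f ^ 2 / (4 * A) := by positivity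
          linarith
        refine h2.trans ?_
        rw [← Finset.sum_neg_distrib]
        exact Finset.sum_le_sum fun f' hf' =>
          quad_lower hA (hD f' (Finset.mem_of_mem_erase hf'))
      simp only [C1]
      linarith
    have hDf : 0 < -(S.q f f : ℝ) := by
      have := hD f hf
      linarith
    rw [div_le_iff₀ hDf] at hone
    have h3 := quad_bound hA hone
    have h4 : ((|S.q f w| : ℤ) : ℝ) ≤ (S.q f w : ℝ) ^ 2 := by
      have h5 : |S.q f w| ≤ S.q f w ^ 2 := by
        rw [← sq_abs]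
        rcases eq_or_ne (S.q f w) 0 with h0 | h0
        · rw [h0]; simp
        · have h7 : 1 ≤ |S.q f w| := Int.one_le_abs h0
          nlinarith
      exact_mod_cast h5
    have h6 : ((|S.q f w| : ℤ) : ℝ) ≤ (B ⟨f, hf⟩ : ℝ) := h4.trans (h3.trans (Int.le_ceil _))
    exact_mod_cast h6
  exact ⟨fun i => (abs_le.1 (hbound i)).1, fun i => (abs_le.1 (hbound i)).2⟩

/-- Only finitely many classes with the numerical invariants of `x` have bounded degree. -/
theorem finite_image [Module.Finite ℤ Pic] [IsAddTorsionFree Pic] {L x : Pic}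
    (hL : S.NefIsotropic L) (hx : 0 < S.q L x) (C : ℝ) :
    {y : Pic | S.q L y = S.q L x ∧ S.q y y = S.q x x ∧ S.deg y ≤ C}.Finite := by
  classical
  have hd := hL.2.1
  set e : ℤ := S.q L x with he
  have her : (0 : ℝ) < e := by exact_mod_cast hx
  have hxL : S.q x L = e := by rw [S.q_symm]
  let u : Pic → Pic := fun y => e • (y - x) - S.q x (y - x) • L
  have hA : 0 < S.deg L / (2 * (e : ℝ) ^ 2) := by positivity
  have hxw : ∀ y : Pic, S.q y y = S.q x x → 2 * S.q x (y - x) = -S.q (y - x) (y - x) := by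
    intro y hy
    have h1 : S.q y x = S.q x y := S.q_symm y x
    simp only [map_sub, AddMonoidHom.sub_apply]
    rw [hy, h1]
    ring
  have hLw : ∀ y : Pic, S.q L y = e → S.q L (y - x) = 0 := by
    intro y hy
    rw [map_sub, hy, ← he, sub_self]
  have huu : ∀ y : Pic, S.q L y = e → S.q (u y) (u y) = e ^ 2 * S.q (y - x) (y - x) := by
    intro y hy
    have h1 := hLw y hy
    have h2 : S.q (y - x) L = 0 := by rw [S.q_symm]; exact h1
    change S.q (e • (y - x) - S.q x (y - x) • L) (e • (y - x) - S.q x (y - x) • L) = _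
    generalize y - x = w at h1 h2 ⊢
    simp only [map_sub, AddMonoidHom.sub_apply, map_zsmul, AddMonoidHom.smul_apply, h1, h2, hL.1,
      smul_eq_mul]
    ring
  refine Set.Finite.of_finite_image (f := u)
    ((S.finite_quad hL hx.ne' hA S.deg (e * (C - S.deg x))).subset ?_) ?_
  · rintro _ ⟨y, ⟨h1, h2, h3⟩, rfl⟩
    have hw := hLw y h1
    refine ⟨?_, ?_, ?_⟩
    · change S.q L (e • (y - x) - S.q x (y - x) • L) = 0
      rw [map_sub, map_zsmul, map_zsmul, hw, hL.1, smul_zero, smul_zero, sub_zero]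
    · change S.q x (e • (y - x) - S.q x (y - x) • L) = 0
      rw [map_sub, map_zsmul, map_zsmul, hxL, smul_eq_mul, smul_eq_mul]
      ring
    · rw [huu y h1]
      have h4 : S.deg (u y) = e * (S.deg y - S.deg x) - S.q x (y - x) * S.deg L := by
        change S.deg (e • (y - x) - S.q x (y - x) • L) = _
        rw [map_sub, map_zsmul, map_zsmul, map_sub, zsmul_eq_mul, zsmul_eq_mul]
      have h5 : (2 : ℝ) * (S.q x (y - x) : ℝ) = -(S.q (y - x) (y - x) : ℝ) := by
        exact_mod_cast hxw y h2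
      rw [h4]
      push_cast
      have h6 : -(S.deg L / (2 * (e : ℝ) ^ 2)) * ((e : ℝ) ^ 2 * (S.q (y - x) (y - x) : ℝ)) =
          S.q x (y - x) * S.deg L := by
        have h7 : (S.q (y - x) (y - x) : ℝ) = -(2 * (S.q x (y - x) : ℝ)) := by linarith
        rw [h7]
        field_simp
      rw [h6]
      have h8 : (e : ℝ) * (S.deg y - S.deg x) ≤ e * (C - S.deg x) :=
        mul_le_mul_of_nonneg_left (by linarith) her.le
      linarith
  · rintro y ⟨h1, h2, -⟩ y' ⟨h1', h2', -⟩ h
    have h3 : S.q (u y) (u y) = S.q (u y') (u y') := by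
      change u y = u y' at h
      rw [h]
    rw [huu y h1, huu y' h1'] at h3
    have h4 : S.q (y - x) (y - x) = S.q (y' - x) (y' - x) :=
      mul_left_cancel₀ (pow_ne_zero 2 hx.ne') h3
    have h5 : S.q x (y - x) = S.q x (y' - x) := by
      have h6 := hxw y h2
      have h7 := hxw y' h2'
      omega
    change e • (y - x) - S.q x (y - x) • L = e • (y' - x) - S.q x (y' - x) • L at h
    rw [h5] at h
    have h8 : e • (y - x) = e • (y' - x) := sub_left_injective h
    have h9 : e • ((y - x) - (y' - x)) = 0 := by rw [smul_sub, h8, sub_self]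
    have h10 := (smul_eq_zero.1 h9).resolve_left hx.ne'
    have h11 : y - x = y' - x := sub_eq_zero.1 h10
    exact sub_left_injective h11

/-- Classes with prescribed products with `L` and `y` and prescribed square are finite in
number. -/
theorem finite_fibre [Module.Finite ℤ Pic] [IsAddTorsionFree Pic] {L y : Pic}
    (hL : S.NefIsotropic L) (hy : S.q L y ≠ 0) (a b c : ℤ) :
    {z : Pic | S.q L z = a ∧ S.q y z = b ∧ S.q z z = c}.Finite := by
  classical
  rcases Set.eq_empty_or_nonempty {z : Pic | S.q L z = a ∧ S.q y z = b ∧ S.q z z = c} with h | h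
  · rw [h]
    exact Set.finite_empty
  · obtain ⟨z₀, h1, h2, h3⟩ := h
    let l : Pic →+ ℝ := (Int.castAddHom ℝ).comp ((-2 : ℤ) • S.q z₀)
    refine (((S.finite_quad hL hy one_pos l 0).image (fun w => w + z₀))).subset ?_
    rintro z ⟨p1, p2, p3⟩
    refine ⟨z - z₀, ⟨?_, ?_, ?_⟩, sub_add_cancel z z₀⟩
    · rw [map_sub, p1, h1, sub_self]
    · rw [map_sub, p2, h2, sub_self]
    · have h4 : S.q z z₀ = S.q z₀ z := S.q_symm _ _
      have h5 : -S.q (z - z₀) (z - z₀) + (-2) * S.q z₀ (z - z₀) = 0 := by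
        simp only [map_sub, AddMonoidHom.sub_apply]
        rw [p3, h3, h4]
        ring
      have h6 : (-(S.q (z - z₀) (z - z₀)) : ℝ) + ((-2 : ℤ) * S.q z₀ (z - z₀) : ℤ) = 0 := by
        exact_mod_cast h5
      simp only [l, AddMonoidHom.comp_apply, AddMonoidHom.smul_apply, Int.coe_castAddHom,
        smul_eq_mul]
      linarith

/-- Only finitely many isometries fixing `L` map `x` to a class of bounded degree. -/
theorem finite_isometries [Module.Finite ℤ Pic] [IsAddTorsionFree Pic] {L x : Pic}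
    (hL : S.NefIsotropic L) (hx : 0 < S.q L x) (C : ℝ) :
    {g : Pic ≃ₗ[ℤ] Pic | (∀ a b, S.q (g a) (g b) = S.q a b) ∧ g L = L ∧
      S.deg (g x) ≤ C}.Finite := by
  classical
  obtain ⟨F, hF⟩ := exists_generators (⊤ : AddSubgroup Pic)
  set T := {y : Pic | S.q L y = S.q L x ∧ S.q y y = S.q x x ∧ S.deg y ≤ C} with hT
  have hTf : T.Finite := S.finite_image hL hx C
  let Z : F → Set Pic := fun p => ⋃ y ∈ T, {z : Pic | S.q L z = S.q L p ∧ S.q y z = S.q x p ∧
    S.q z z = S.q (p : Pic) p}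
  have hZ : ∀ p, (Z p).Finite := by
    intro p
    refine hTf.biUnion fun y hy => S.finite_fibre hL ?_ _ _ _
    rw [hy.1]
    exact hx.ne'
  refine Set.Finite.of_finite_image (f := fun g => fun p : F => g (p : Pic))
    ((Set.Finite.pi' hZ).subset ?_) ?_
  · rintro _ ⟨g, ⟨h1, h2, h3⟩, rfl⟩ p
    have hgL : ∀ z, S.q L (g z) = S.q L z := by
      intro z
      have := h1 L z
      rwa [h2] at this
    exact Set.mem_biUnion (x := g x) ⟨hgL x, h1 x x, h3⟩ ⟨hgL p, h1 x p, h1 p p⟩
  · intro g _ g' _ h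
    ext z
    have hz : z ∈ AddSubgroup.closure (F : Set Pic) := by rw [hF]; trivial
    induction hz using AddSubgroup.closure_induction with
    | mem z hz => exact congrFun h ⟨z, hz⟩
    | zero => rw [map_zero, map_zero]
    | add a b _ _ ha hb => rw [map_add, map_add, ha, hb]
    | neg a _ ha => rw [map_neg, map_neg, ha]

/-- The dichotomy for the pole degrees: if the divisor of `f` is not supported on the primes
orthogonal to `L`, then only finitely many isometries come from self-maps fixing `L` for which the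
pole degree of the image of `f` is bounded. -/
theorem finite_maps [Module.Finite ℤ Pic] [IsAddTorsionFree Pic] {L : Pic}
    (hL : S.NefIsotropic L) {f : K} (hf : f ≠ 0) {D : P} (hD : D ∉ S.orth L) (hv : S.v D f ≠ 0)
    (C : ℝ) :
    {g : Pic ≃ₗ[ℤ] Pic | ∃ ψ : SelfMap S, ψ.g = g ∧ ψ.g L = L ∧
      S.poleDeg (ψ.γ f) ≤ C}.Finite := by
  have hDpos : 0 < S.q L (S.cls D) := lt_of_le_of_ne (hL.2.2 D) (Ne.symm hD)
  refine (S.finite_isometries hL hDpos C).subset ?_
  rintro _ ⟨ψ, rfl, h1, h2⟩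
  refine ⟨ψ.isometry, h1, ?_⟩
  have hne : ψ.γ f ≠ 0 := (map_ne_zero_iff _ ψ.γ.injective).2 hf
  have h3 := S.deg_le_of_v hne (D := ψ.π D) (by rw [ψ.v_comp D f hf]; exact hv)
  rw [← S.poleDeg_eq, ← ψ.cls_comp] at h3
  exact h3.trans h2

end HKDivisors

end

end Pool.Agent.SYZ
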