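import Pool.Agent.SYZ.DefsTorelli
import Pool.Agent.SYZ.Growth
import Pool.Agent.SYZ.FiniteBir

namespace Pool.Agent.SYZ

noncomputable section

variable {K P Pic : Type*} [Field K] [Algebra ℂ K] [AddCommGroup Pic]

namespace SelfMap

variable {S : HKDivisors K P Pic}

/-- The identity. -/
def one (S : HKDivisors K P Pic) : SelfMap S where
  γ := 1
  π := 1
  g := 1
  v_comp _ _ _ := rfl
  cls_comp _ := rfl
  isometry _ _ := rfl

/-- Composition. -/
def mul (φ ψ : SelfMap S) : SelfMap S where
  γ := φ.γ * ψ.γ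
  π := φ.π * ψ.π
  g := φ.g * ψ.g
  v_comp D f hf := by
    rw [Equiv.Perm.mul_apply, AlgEquiv.mul_apply, φ.v_comp _ _ (by simpa using hf),
      ψ.v_comp D f hf]
  cls_comp D := by
    rw [LinearEquiv.mul_apply, Equiv.Perm.mul_apply, ψ.cls_comp, φ.cls_comp]
  isometry x y := by
    rw [LinearEquiv.mul_apply, LinearEquiv.mul_apply, φ.isometry, ψ.isometry]

/-- Inverse. -/
def inv (φ : SelfMap S) : SelfMap S where
  γ := φ.γ⁻¹
  π := φ.π⁻¹
  g := φ.g⁻¹
  v_comp D f hf := by
    have h1 : φ.γ⁻¹ f ≠ 0 := (map_ne_zero_iff _ (φ.γ⁻¹ : K ≃ₐ[ℂ] K).injective).2 hf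
    have h2 := φ.v_comp (φ.π⁻¹ D) (φ.γ⁻¹ f) h1
    have h3 : φ.π (φ.π⁻¹ D) = D := φ.π.apply_symm_apply D
    have h4 : φ.γ (φ.γ⁻¹ f) = f := φ.γ.apply_symm_apply f
    rw [h3, h4] at h2
    exact h2.symm
  cls_comp D := by
    have h1 := φ.cls_comp (φ.π⁻¹ D)
    have h3 : φ.π (φ.π⁻¹ D) = D := φ.π.apply_symm_apply D
    rw [h3] at h1
    rw [← h1]
    exact φ.g.symm_apply_apply _
  isometry x y := by
    have h1 := φ.isometry (φ.g⁻¹ x) (φ.g⁻¹ y)
    have h2 : ∀ x, φ.g (φ.g⁻¹ x) = x := fun x => φ.g.apply_symm_apply x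
    rw [h2, h2] at h1
    exact h1.symm

end SelfMap

/-- The group of the actions on `Pic` of all bimeromorphic self-maps. -/
def TorelliData.toBirational {S : HKDivisors K P Pic} (T : TorelliData S) : BirationalData S where
  toMonodromyData := T.toMonodromyData
  bir :=
    { carrier := {g | ∃ φ : SelfMap S, φ.g = g}
      mul_mem' := by
        rintro _ _ ⟨φ, rfl⟩ ⟨ψ, rfl⟩
        exact ⟨φ.mul ψ, rfl⟩
      one_mem' := ⟨SelfMap.one S, rfl⟩
      inv_mem' := by
        rintro _ ⟨φ, rfl⟩
        exact ⟨φ.inv, rfl⟩ }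
  bir_isometry := by
    rintro _ ⟨φ, rfl⟩ x y
    exact φ.isometry x y
  bir_prime := by
    rintro _ ⟨φ, rfl⟩ D
    exact ⟨φ.π D, φ.cls_comp D⟩
  torelli := T.torelli

namespace HKDivisors

variable (S : HKDivisors K P Pic)

/-- A variant of `exists_supported`: the classes of the primes lie in a subgroup of small rank. -/
theorem exists_supported_of_subgroup [Module.Finite ℤ Pic] {L : Pic} (hL : S.NefIsotropic L)
    (A : AddSubgroup Pic) (hLA : L ∈ A) (F : Finset P)
    (hF : ∀ D ∈ F, D ∈ S.orth L) (hFA : ∀ D ∈ F, S.cls D ∈ A)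
    (hc : Module.finrank ℤ A ≤ F.card) :
    ∃ E : P →₀ ℤ, 0 ≤ E ∧ E ≠ 0 ∧ E.support ⊆ F ∧ Ray L (S.O E) := by
  classical
  have hfin : Module.Finite ℤ A :=
    inferInstanceAs (Module.Finite ℤ (AddSubgroup.toIntSubmodule A))
  let w : Option F → A := fun o => match o with
    | none => ⟨L, hLA⟩
    | some D => ⟨S.cls D, hFA D D.2⟩
  have hdep : ¬ LinearIndependent ℤ w := by
    intro hli
    have h1 := hli.fintype_card_le_finrank
    rw [Fintype.card_option, Fintype.card_coe] at h1
    omega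
  rw [Fintype.not_linearIndependent_iff] at hdep
  obtain ⟨g, hg, i, hi⟩ := hdep
  rw [Fintype.sum_option] at hg
  have hg' : g none • L + ∑ D : F, g (some D) • S.cls D = 0 := by
    have := congrArg (Subtype.val) hg
    simpa [w] using this
  let E : P →₀ ℤ := ∑ D : F, Finsupp.single (D : P) (g (some D))
  have hE : S.O E = ∑ D : F, g (some D) • S.cls D := by
    simp only [E, map_sum]
    refine Finset.sum_congr rfl fun D _ => ?_
    rw [cls, ← map_zsmul, Finsupp.smul_single, smul_eq_mul, mul_one]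
  have hEval : ∀ D : F, E D = g (some D) := by
    intro D
    simp only [E, Finsupp.coe_finsetSum, Finset.sum_apply, Finsupp.single_apply]
    rw [Finset.sum_eq_single D]
    · simp
    · intro D' _ hD'
      rw [if_neg]
      exact fun h => hD' (Subtype.ext h)
    · simp
  have hsup : E.support ⊆ F := by
    intro D hD
    by_contra hn
    rw [Finsupp.mem_support_iff] at hD
    apply hD
    simp only [E, Finsupp.coe_finsetSum, Finset.sum_apply, Finsupp.single_apply]
    refine Finset.sum_eq_zero fun D' _ => ?_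
    rw [if_neg]
    rintro rfl
    exact hn D'.2
  have hrel : S.O E = (-(g none)) • L := by
    rw [hE, neg_smul, eq_neg_iff_add_eq_zero, add_comm, hg']
  have hne : E ≠ 0 := by
    intro h0
    have h1 : g none = 0 := by
      rw [h0, map_zero] at hrel
      have h2 := congrArg S.deg hrel
      rw [map_zero, map_zsmul, zsmul_eq_mul] at h2
      rcases mul_eq_zero.1 h2.symm with h3 | h3
      · have : -(g none) = 0 := by exact_mod_cast h3
        omega
      · exact absurd h3 hL.2.1.ne'
    rcases i with _ | D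
    · exact hi h1
    · apply hi
      rw [← hEval D, h0]
      rfl
  obtain ⟨E', p1, p2, p3, p4⟩ := S.exists_of_relation hL hne
    (fun D hD => hF D (hsup hD)) _ hrel
  exact ⟨E', p1, p2, p3.trans hsup, p4⟩

theorem twoSections_of_subgroup [Module.Finite ℤ Pic] {L : Pic} (hL : S.NefIsotropic L)
    (A : AddSubgroup Pic) (hLA : L ∈ A) (F : Finset P)
    (hF : ∀ D ∈ F, D ∈ S.orth L) (hFA : ∀ D ∈ F, S.cls D ∈ A)
    (hc : Module.finrank ℤ A < F.card) : S.TwoSections L := by
  classical
  obtain ⟨E, h1, h2, h3, h4⟩ := S.exists_supported_of_subgroup hL A hLA F hF hFA hc.le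
  obtain ⟨j, hj⟩ := Finsupp.support_nonempty_iff.2 h2
  have hc' : Module.finrank ℤ A ≤ (F.erase j).card := by
    rw [Finset.card_erase_of_mem (h3 hj)]
    omega
  obtain ⟨E', p1, p2, p3, p4⟩ := S.exists_supported_of_subgroup hL A hLA (F.erase j)
    (fun D hD => hF D (Finset.mem_of_mem_erase hD))
    (fun D hD => hFA D (Finset.mem_of_mem_erase hD)) hc'
  obtain ⟨a, b, ha, hb, hab⟩ := Ray.pos S hL.2.1 h1 h2 h4
  obtain ⟨a', b', ha', hb', hab'⟩ := Ray.pos S hL.2.1 p1 p2 p4
  refine ⟨b * b', mul_pos hb hb', (b' * a) • E, (b * a') • E',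
    smul_nonneg (mul_pos hb' ha).le h1, smul_nonneg (mul_pos hb ha').le p1, ?_, ?_, ?_⟩
  · intro heq
    have h5 := DFunLike.congr_fun heq j
    have h6 : E' j = 0 := by
      by_contra h7
      exact Finset.notMem_erase j F (p3 (Finsupp.mem_support_iff.2 h7))
    simp only [Finsupp.coe_smul, Pi.smul_apply, smul_eq_mul, h6, mul_zero] at h5
    have h8 : E j ≠ 0 := Finsupp.mem_support_iff.1 hj
    exact mul_ne_zero (mul_pos hb' ha).ne' h8 h5
  · rw [mul_smul, map_zsmul, hab, smul_smul, mul_comm]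
  · rw [mul_smul, map_zsmul, hab', smul_smul]

/-- The classes orthogonal to `L` and to `t`. -/
def perp₂ (S : HKDivisors K P Pic) (L t : Pic) : AddSubgroup Pic := (S.q L).ker ⊓ (S.q t).ker

theorem finrank_perp₂_lt [Module.Finite ℤ Pic] {L t : Pic} (ht : S.q L t = 0)
    (htt : S.q t t ≠ 0) : Module.finrank ℤ (S.perp₂ L t) < S.perpRank L := by
  classical
  by_contra hge
  push Not at hge
  have hfin : Module.Finite ℤ (S.q L).ker :=
    inferInstanceAs (Module.Finite ℤ (AddSubgroup.toIntSubmodule (S.q L).ker))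
  obtain ⟨f, hf⟩ := exists_linearIndependent_of_le_finrank (R := ℤ) (M := S.perp₂ L t)
    (n := S.perpRank L) hge
  let w : Option (Fin (S.perpRank L)) → (S.q L).ker := fun o => match o with
    | none => ⟨t, ht⟩
    | some i => ⟨(f i : Pic), (f i).2.1⟩
  have hw : LinearIndependent ℤ w := by
    rw [Fintype.linearIndependent_iff] at hf ⊢
    intro g hg
    rw [Fintype.sum_option] at hg
    have h1 : g none • t + ∑ i, g (some i) • (f i : Pic) = 0 := by
      have := congrArg Subtype.val hg
      simpa [w] using this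
    have h2 : g none = 0 := by
      have h3 := congrArg (S.q t) h1
      rw [map_zero, map_add, map_zsmul, map_sum] at h3
      have h4 : ∑ i, S.q t (g (some i) • (f i : Pic)) = 0 := by
        refine Finset.sum_eq_zero fun i _ => ?_
        have h5 : S.q t (f i : Pic) = 0 := (f i).2.2
        rw [map_zsmul, h5, smul_zero]
      rw [h4, add_zero, smul_eq_mul] at h3
      exact (mul_eq_zero.1 h3).resolve_right htt
    rw [h2, zero_smul, zero_add] at h1
    have h6 : ∑ i, g (some i) • f i = 0 := by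
      apply Subtype.ext
      simpa using h1
    intro o
    rcases o with _ | i
    · exact h2
    · exact hf _ h6 i
  have hcard := hw.fintype_card_le_finrank
  rw [Fintype.card_option, Fintype.card_fin] at hcard
  rw [perpRank] at hcard
  omega

end HKDivisors

namespace SelfMap

variable {S : HKDivisors K P Pic}

/-- If there is a parabolic map fixing `L`, then at least `rank L^⊥` primes orthogonal to `L` give
two sections of a power of `L`. -/
theorem twoSections_of_parabolic [Module.Finite ℤ Pic] [IsAddTorsionFree Pic] (φ : SelfMap S)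
    {L : Pic} (hL : S.NefIsotropic L) (hφ : φ.g L = L) (hinf : ¬ IsOfFinOrder φ.g)
    (hc : (S.perpRank L : ℕ∞) ≤ (S.orth L).encard) : S.TwoSections L := by
  classical
  obtain ⟨N, hN, hNg⟩ := S.exists_power_eichler hL
  obtain ⟨t, ht, hgt⟩ := hNg φ.g φ.isometry hφ
  obtain ⟨N', hN', hN'D⟩ := (φ.exists_power hL hφ hinf).1
  have hd := hL.2.1
  have hpow : ∀ (k : ℕ) (x : Pic), (φ.g ^ (N * k)) x = S.eichlerFun L (k • t) x := by
    intro k x
    have he : φ.g ^ N = S.eichler hL.1 ht := by
      ext y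
      rw [hgt, HKDivisors.eichler_apply]
    rw [pow_mul, he, S.eichler_pow, HKDivisors.eichler_apply]
  -- the primes orthogonal to `L` are orthogonal to `t`
  have htD : ∀ D ∈ S.orth L, S.q t (S.cls D) = 0 := by
    intro D hD
    have hD0 : S.q L (S.cls D) = 0 := hD
    have h1 : (φ.g ^ (N * N')) (S.cls D) = S.cls D := by
      rw [mul_comm, pow_mul]
      have h2 : ∀ j : ℕ, ((φ.g ^ N') ^ j) (S.cls D) = S.cls D := by
        intro j
        induction j with
        | zero => rfl
        | succ j ih => rw [pow_succ, LinearEquiv.mul_apply, hN'D D hD, ih]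
      exact h2 N
    rw [hpow, HKDivisors.eichlerFun, hD0, S.q_nsmul_left] at h1
    simp only [mul_zero, zero_smul, add_zero, sub_zero] at h1
    have h3 : (2 * (N' * S.q t (S.cls D))) • L = 0 := by
      rw [sub_eq_self] at h1
      exact h1
    have h4 := congrArg S.deg h3
    rw [map_zsmul, map_zero, zsmul_eq_mul] at h4
    rcases mul_eq_zero.1 h4 with h5 | h5
    · have h6 : 2 * ((N' : ℤ) * S.q t (S.cls D)) = 0 := by exact_mod_cast h5
      have h7 : (N' : ℤ) ≠ 0 := by exact_mod_cast hN'.ne'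
      rcases mul_eq_zero.1 h6 with h8 | h8
      · omega
      · exact (mul_eq_zero.1 h8).resolve_left h7
    · exact absurd h5 hd.ne'
  have htt : S.q t t ≠ 0 := by
    intro h0
    obtain ⟨a, b, ha, hab⟩ := S.hodge_index L t hL.1 hd.ne' ht h0.ge
    apply hinf
    rw [isOfFinOrder_iff_pow_eq_one]
    refine ⟨N, hN, ?_⟩
    ext y
    rw [hgt]
    have h4 : a * S.q t y = b * S.q L y := by
      have := congrArg (fun z => S.q z y) hab
      simpa using this
    have h5 : a • (S.eichlerFun L t y - y) = 0 := by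
      rw [HKDivisors.eichlerFun, h0]
      simp only [mul_zero, zero_mul, zero_smul, sub_zero]
      have h6 : a • (y - (2 * S.q t y) • L + (2 * S.q L y) • t - y) =
          (2 * S.q L y) • (a • t) - (2 * (a * S.q t y)) • L := by module
      rw [h6, hab, h4, smul_smul, ← sub_smul]
      have h7 : 2 * S.q L y * b - 2 * (b * S.q L y) = 0 := by ring
      rw [h7, zero_smul]
    exact sub_eq_zero.1 ((smul_eq_zero.1 h5).resolve_left ha)
  have htL : S.q t L = 0 := by rw [S.q_symm]; exact ht
  obtain ⟨s, hs, hsc⟩ := Set.exists_subset_encard_eq hc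
  have hfin : s.Finite := Set.finite_of_encard_eq_coe hsc
  refine S.twoSections_of_subgroup hL (S.perp₂ L t) ⟨hL.1, htL⟩ hfin.toFinset
    (fun D hD => hs (hfin.mem_toFinset.1 hD))
    (fun D hD => ⟨hs (hfin.mem_toFinset.1 hD), htD D (hs (hfin.mem_toFinset.1 hD))⟩) ?_
  rw [hfin.encard_eq_coe_toFinset_card] at hsc
  have h1 : hfin.toFinset.card = S.perpRank L := by exact_mod_cast hsc
  rw [h1]
  exact S.finrank_perp₂_lt ht htt

/-- A parabolic map fixing `L` preserves a pencil if and only if a power of `L` has two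
sections. -/
theorem preservesPencil_iff [Module.Finite ℤ Pic] [IsAddTorsionFree Pic]
    (hfd : ∀ E : P →₀ ℤ, FiniteDimensional ℂ (S.sections E)) (φ : SelfMap S)
    {L : Pic} (hL : S.NefIsotropic L) (hφ : φ.g L = L) (hinf : ¬ IsOfFinOrder φ.g) :
    φ.PreservesPencil ↔ S.TwoSections L := by
  constructor
  · rintro ⟨f, hfc, halg⟩
    have hf0 : f ≠ 0 := by
      intro h0
      exact hfc 0 (by rw [h0, map_zero])
    have hv := φ.orth_of_algebraic hL hφ hinf hf0 halg
    refine S.twoSections_of_quotient hL hfc (S.quotient_of_orth hL (fun D hneg => ?_) hfc)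
    by_contra hn
    rw [hv D hn] at hneg
    exact lt_irrefl _ hneg
  · intro h
    obtain ⟨f, hfc, a, b, hab⟩ := exists_affine hfd φ hφ h
    refine ⟨f, hfc, ?_⟩
    have hfm : f ∈ IntermediateField.adjoin ℂ {f} := IntermediateField.subset_adjoin ℂ _ rfl
    have hmem : φ.γ f ∈ IntermediateField.adjoin ℂ {f} := by
      rw [hab]
      exact add_mem (mul_mem (IntermediateField.algebraMap_mem _ a) hfm)
        (IntermediateField.algebraMap_mem _ b)
    exact isAlgebraic_algebraMap (⟨φ.γ f, hmem⟩ : IntermediateField.adjoin ℂ {f})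

end SelfMap

theorem TorelliData.tfae [Module.Finite ℤ Pic] [IsAddTorsionFree Pic] {S : HKDivisors K P Pic}
    (T : TorelliData S) (hfd : ∀ E : P →₀ ℤ, FiniteDimensional ℂ (S.sections E)) {L : Pic}
    (hL : S.NefIsotropic L) (hr : 2 ≤ S.perpRank L) :
    List.TFAE [(S.perpRank L : ℕ∞) ≤ (S.orth L).encard,
      ∀ φ : SelfMap S, φ.g L = L → ¬ IsOfFinOrder φ.g → φ.PreservesPencil,
      (∀ φ : SelfMap S, φ.g L = L → IsOfFinOrder φ.g) ∨
        ∃ φ : SelfMap S, φ.g L = L ∧ ¬ IsOfFinOrder φ.g ∧ φ.PreservesPencil] := by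
  tfae_have 1 → 2 := fun h φ hφ hinf =>
    (φ.preservesPencil_iff hfd hL hφ hinf).2 (φ.twoSections_of_parabolic hL hφ hinf h)
  tfae_have 2 → 3 := by
    intro h
    by_cases hall : ∀ φ : SelfMap S, φ.g L = L → IsOfFinOrder φ.g
    · exact Or.inl hall
    · push Not at hall
      obtain ⟨φ, hφ, hinf⟩ := hall
      exact Or.inr ⟨φ, hφ, hinf, h φ hφ hinf⟩
  tfae_have 3 → 1 := by
    rintro (h | ⟨φ, hφ, hinf, hp⟩)
    · refine (S.nonvanishing_of_torsion T.toBirational hL ?_ hr).2.1
      rintro _ ⟨φ, rfl⟩ hφ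
      exact h φ hφ
    · have h1 := S.infinite_of_twoSections hL ((φ.preservesPencil_iff hfd hL hφ hinf).1 hp)
      rw [h1.encard_eq]
      exact le_top
  tfae_finish

end

end Pool.Agent.SYZ
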