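import Pool.Agent.SYZ.IitakaField
import Pool.Agent.SYZ.Pencil
import Pool.Agent.SYZ.Degrees

namespace Pool.Agent.SYZ

noncomputable section

variable {K P Pic : Type*} [Field K] [Algebra ℂ K] [AddCommGroup Pic]

namespace SelfMap

variable {S : HKDivisors K P Pic}

/-- The primes orthogonal to `L` are those whose class is periodic. -/
theorem periodic_iff [Module.Finite ℤ Pic] [IsAddTorsionFree Pic] (φ : SelfMap S) {L : Pic}
    (hL : S.NefIsotropic L) (hφ : φ.g L = L) (hinf : ¬ IsOfFinOrder φ.g) (D : P) :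
    (∃ j : ℕ, 0 < j ∧ (φ.g ^ j) (S.cls D) = S.cls D) ↔ D ∈ S.orth L := by
  constructor
  · rintro ⟨j, hj, hjD⟩
    exact S.perp_of_fixed hL φ.isometry hφ hinf hj hjD
  · intro hD
    obtain ⟨N, hN, h⟩ := (φ.exists_power hL hφ hinf).1
    exact ⟨N, hN, h D hD⟩

theorem tfae_pencil [Module.Finite ℤ Pic] [IsAddTorsionFree Pic]
    (hfd : ∀ E : P →₀ ℤ, FiniteDimensional ℂ (S.sections E)) (φ : SelfMap S) {L : Pic}
    (hL : S.NefIsotropic L) (hφ : φ.g L = L) (hinf : ¬ IsOfFinOrder φ.g) :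
    List.TFAE [S.TwoSections L, φ.PreservesPencil,
      (S.perpRank L : ℕ∞) ≤ {D | ∃ j : ℕ, 0 < j ∧ (φ.g ^ j) (S.cls D) = S.cls D}.encard,
      ∃ j : ℕ, 0 < j ∧ ∃ x : Pic, (φ.g ^ j) x = x ∧
        ∃ E E' : P →₀ ℤ, 0 ≤ E ∧ 0 ≤ E' ∧ E ≠ E' ∧ S.O E = x ∧ S.O E' = x] := by
  have hset : {D | ∃ j : ℕ, 0 < j ∧ (φ.g ^ j) (S.cls D) = S.cls D} = S.orth L :=
    Set.ext fun D => φ.periodic_iff hL hφ hinf D
  rw [hset]
  tfae_have 1 ↔ 2 := (φ.preservesPencil_iff hfd hL hφ hinf).symm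
  tfae_have 1 → 3 := by
    intro h
    rw [(S.infinite_of_twoSections hL h).encard_eq]
    exact le_top
  tfae_have 3 → 1 := φ.twoSections_of_parabolic hL hφ hinf
  tfae_have 1 → 4 := by
    rintro ⟨k, hk, E, E', hE, hE', hne, h1, h2⟩
    refine ⟨1, one_pos, k • L, ?_, E, E', hE, hE', hne, h1, h2⟩
    rw [pow_one, map_zsmul, hφ]
  tfae_have 4 → 1 := by
    rintro ⟨j, hj, x, hx, E, E', hE, hE', hne, h1, h2⟩
    exact S.twoSections_of_perp hL (S.perp_of_fixed hL φ.isometry hφ hinf hj hx) hE hE' hne h1 h2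
  tfae_finish

end SelfMap

namespace HKDivisors

variable (S : HKDivisors K P Pic)

/-- The classes of the primes orthogonal to `L` are infinite in number if and only if their degrees
are unbounded, if and only if the Iitaka dimension of `L` is at least two. -/
theorem tfae_two [Module.Finite ℤ Pic] [IsAddTorsionFree Pic] {L : Pic}
    (hfd : ∀ E : P →₀ ℤ, FiniteDimensional ℂ (S.sections E)) (hL : S.NefIsotropic L) :
    List.TFAE [∃ f : Fin 2 → K, (∀ i, f i ∈ S.sectionQuotients L) ∧ AlgebraicIndependent ℂ f,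
      (S.cls '' S.orth L).Infinite,
      ∀ C : ℝ, ∃ D ∈ S.orth L, C < S.deg (S.cls D)] := by
  tfae_have 1 ↔ 3 := S.two_iff_unbounded hfd hL
  tfae_have 2 → 3 := by
    intro h C
    by_contra hcon
    push Not at hcon
    exact h (S.finite_classes hL hcon)
  tfae_have 3 → 2 := by
    intro h hfin
    obtain ⟨C, hC⟩ := (hfin.image S.deg).bddAbove
    obtain ⟨D, hD, hlt⟩ := h C
    exact absurd (hC ⟨S.cls D, ⟨D, hD, rfl⟩, rfl⟩) (not_le.2 hlt)
  tfae_finish

end HKDivisors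

end

end Pool.Agent.SYZ
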