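import Pool.Agent.SYZ.DefsSheaf
import Pool.Agent.SYZ.Periodic

namespace Pool.Agent.SYZ

noncomputable section

variable {K P Pic : Type*} [Field K] [Algebra ℂ K] [AddCommGroup Pic]

/-- If `y + k L` is the class of an effective divisor for infinitely many `k`, then some positive
power of `L` has a section. -/
theorem HKDivisors.qEffective_of_infinite [Module.Finite ℤ Pic] (S : HKDivisors K P Pic) {L : Pic}
    (hL : S.NefIsotropic L) {y : Pic} (hy : S.q L y = 0)
    (h : {k : ℕ | ∃ A : P →₀ ℤ, 0 ≤ A ∧ S.O A = y + k • L}.Infinite) : S.QEffective L := by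
  classical
  by_cases hfin : (S.orth L).Finite
  · haveI : Infinite {k : ℕ | ∃ A : P →₀ ℤ, 0 ≤ A ∧ S.O A = y + k • L} := h.to_subtype
    let κ := Nat.orderEmbeddingOfSet {k : ℕ | ∃ A : P →₀ ℤ, 0 ≤ A ∧ S.O A = y + k • L}
    have hκ : ∀ n, ∃ A : P →₀ ℤ, 0 ≤ A ∧ S.O A = y + (κ n) • L := by
      intro n
      have h1 : κ n ∈ Set.range κ := Set.mem_range_self n
      rwa [Nat.orderEmbeddingOfSet_range] at h1
    choose A hA0 hA using hκ
    let f : ℕ → (hfin.toFinset → ℕ) := fun n D => (A n D).toNat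
    obtain ⟨m, n, hmn, hle⟩ := wellQuasiOrdered_le f
    refine ⟨(κ n : ℤ) - κ m, ?_, A n - A m, ?_, ?_⟩
    · have := κ.strictMono hmn
      omega
    · intro D
      rw [Finsupp.coe_zero, Pi.zero_apply, Finsupp.coe_sub, Pi.sub_apply]
      by_cases hD : D ∈ S.orth L
      · have h1 : (A m D).toNat ≤ (A n D).toNat := hle ⟨D, hfin.mem_toFinset.2 hD⟩
        have h2 : 0 ≤ A n D := hA0 n D
        omega
      · have h0 : ∀ n, A n D = 0 := by
          intro n
          by_contra hne
          refine hD (S.support_subset_orth hL (hA0 n) ?_ D (Finsupp.mem_support_iff.2 hne))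
          rw [hA, map_add, hy, map_nsmul, hL.1, smul_zero, add_zero]
        rw [h0, h0, sub_zero]
    · rw [map_sub, hA, hA, sub_smul, natCast_zsmul, natCast_zsmul]
      abel
  · obtain ⟨k, hk, E, E', hE, hE', hne, h1, h2⟩ := ((S.tfae hL).out 2 0).1 hfin
    exact ⟨k, hk, E, hE, h1⟩

namespace SheafData

variable {S : HKDivisors K P Pic} {V : Type*} [AddCommGroup V] [Module K V] (B : SheafData S V)

theorem divisor_apply {d : ℕ} {s : Fin d → V} (hs : LinearIndependent K s) (D : P) :
    B.divisor hs D = B.ord D s := rfl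

omit [Algebra ℂ K] in
/-- Replacing `s_i` by a combination with nonzero `i`-th coefficient keeps independence. -/
theorem independent_update {d : ℕ} {s : Fin d → V} (hs : LinearIndependent K s) (i : Fin d)
    (c : Fin d → K) (hc : c i ≠ 0) :
    LinearIndependent K (Function.update s i (∑ j, c j • s j)) := by
  classical
  refine hs.update i _ ⟨1, one_mem _, Finsupp.equivFunOnFinite.symm c, ?_, ?_⟩
  · exact mem_nonZeroDivisors_of_ne_zero hc
  · rw [one_smul, Finsupp.linearCombination_apply, Finsupp.sum_fintype _ _ (by simp)]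
    rfl

theorem divisor_update {d : ℕ} {s : Fin d → V} (hs : LinearIndependent K s) (i : Fin d)
    (c : Fin d → K) (hc : c i ≠ 0) :
    B.divisor (independent_update hs i c hc) = S.dv hc + B.divisor hs := by
  ext D
  rw [Finsupp.coe_add, Pi.add_apply, divisor_apply, divisor_apply, HKDivisors.dv_apply]
  exact B.ord_update D s i c hs hc

variable [Module ℂ V] [IsScalarTower ℂ K V]

theorem mem_sections {E : P →₀ ℤ} {s : V} :
    s ∈ B.sections E ↔ (s ≠ 0 → ∀ D, 0 ≤ B.ord D (fun _ : Fin 1 => s) + E D) := Iff.rfl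

/-- The exterior product of sections of twists by classes orthogonal to `L` is, up to the twist, an
effective divisor whose components are orthogonal to `L`. -/
theorem effective {L : Pic} (hL : S.NefIsotropic L) (hB : B.Semistable L) {d : ℕ} {s : Fin d → V}
    (hs : LinearIndependent K s) (E : Fin d → P →₀ ℤ) (hE : ∀ j, s j ∈ B.sections (E j))
    (hq : ∀ j, S.q L (S.O (E j)) = 0) :
    0 ≤ B.divisor hs + ∑ j, E j ∧ S.q L (S.O (B.divisor hs + ∑ j, E j)) = 0 := by
  have h0 : 0 ≤ B.divisor hs + ∑ j, E j := by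
    intro D
    rw [Finsupp.coe_add, Pi.add_apply, Finsupp.coe_zero, Pi.zero_apply, divisor_apply,
      Finsupp.finsetSum_apply]
    have h1 := B.ord_wedge D s hs
    have h2 : ∑ j, -(E j D) ≤ ∑ j, B.ord D (fun _ : Fin 1 => s j) := by
      refine Finset.sum_le_sum fun j _ => ?_
      have := hE j (hs.ne_zero j) D
      omega
    rw [Finset.sum_neg_distrib] at h2
    omega
  refine ⟨h0, le_antisymm ?_ ?_⟩
  · rw [map_add, map_add, map_sum, map_sum, Finset.sum_eq_zero fun j _ => hq j, add_zero]
    exact hB d s hs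
  · rw [S.q_O]
    exact Finsupp.sum_nonneg' fun D => mul_nonneg (h0 D) (hL.2.2 D)

/-- A relation with a nonconstant coefficient between sections of the same twist shows that some
power of `L` has two sections. -/
theorem twoSections_of_relation {L : Pic} (hL : S.NefIsotropic L) (hB : B.Semistable L) {d : ℕ}
    {s : Fin d → V} (hs : LinearIndependent K s) {E : P →₀ ℤ} (hE : ∀ j, s j ∈ B.sections E)
    (hq : S.q L (S.O E) = 0) (c : Fin d → K) (hu : ∑ j, c j • s j ∈ B.sections E) (j : Fin d)
    (hc : ∀ a : ℂ, c j ≠ algebraMap ℂ K a) : S.TwoSections L := by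
  classical
  have hc0 : c j ≠ 0 := by
    intro h0
    exact hc 0 (by rw [h0, map_zero])
  obtain ⟨a1, a2⟩ := B.effective hL hB hs (fun _ => E) hE (fun _ => hq)
  obtain ⟨b1, b2⟩ := B.effective hL hB (independent_update hs j c hc0) (fun _ => E) (by
    intro i
    by_cases hij : i = j
    · rw [hij, Function.update_self]
      exact hu
    · rw [Function.update_of_ne hij]
      exact hE i) (fun _ => hq)
  have hO : S.O (B.divisor (independent_update hs j c hc0) + ∑ _j : Fin d, E) =
      S.O (B.divisor hs + ∑ _j : Fin d, E) := by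
    rw [B.divisor_update hs j c hc0, map_add, map_add, S.O_dv, zero_add, map_add]
  refine S.twoSections_of_perp hL a2 b1 a1 ?_ hO rfl
  intro heq
  obtain ⟨a, ha⟩ := S.const_of_holomorphic (c j) hc0 (by
    intro D
    have h1 := DFunLike.congr_fun heq D
    rw [B.divisor_update hs j c hc0, Finsupp.coe_add, Pi.add_apply, Finsupp.coe_add,
      Pi.add_apply, Finsupp.coe_add, Pi.add_apply, HKDivisors.dv_apply] at h1
    omega)
  exact hc a ha

/-- If no power of `L` has two sections, then independence over `ℂ` of sections of the same twist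
by a class orthogonal to `L` implies independence over `K`. -/
theorem independent_of_not_two {L : Pic} (hL : S.NefIsotropic L) (hB : B.Semistable L)
    (h2 : ¬ S.TwoSections L) {E : P →₀ ℤ} (hq : S.q L (S.O E) = 0) {m : ℕ} (t : Fin m → V)
    (ht : ∀ i, t i ∈ B.sections E) (hC : LinearIndependent ℂ t) : LinearIndependent K t := by
  induction m with
  | zero => exact linearIndependent_empty_type
  | succ m ih =>
    have hC' := linearIndependent_finSucc'.1 hC
    have hK := ih (Fin.init t) (fun i => ht _) hC'.1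
    refine linearIndependent_finSucc'.2 ⟨hK, fun hmem => hC'.2 ?_⟩
    obtain ⟨c, hc⟩ := (Submodule.mem_span_range_iff_exists_fun K).1 hmem
    have hconst : ∀ j, ∃ a : ℂ, c j = algebraMap ℂ K a := by
      intro j
      by_contra hn
      push Not at hn
      exact h2 (B.twoSections_of_relation hL hB hK (fun i => ht _) hq c
        (by rw [hc]; exact ht _) j hn)
    choose a ha using hconst
    refine (Submodule.mem_span_range_iff_exists_fun ℂ).2 ⟨a, ?_⟩
    rw [← hc]
    refine Finset.sum_congr rfl fun j _ => ?_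
    rw [ha j, algebraMap_smul]

/-- Multiplication of a section by the powers of a nonconstant quotient. -/
theorem exists_many {L : Pic} (h2 : S.TwoSections L) {E₀ : P →₀ ℤ}
    (hne : B.sections E₀ ≠ ⊥) (N : ℕ) : ∃ k : ℕ, ∃ E : P →₀ ℤ, S.O E = S.O E₀ + k • L ∧
      ∃ t : Fin N → V, (∀ i, t i ∈ B.sections E) ∧ LinearIndependent ℂ t := by
  obtain ⟨k, hk, E, E', hE, hE', hd, h1, h2⟩ := h2
  obtain ⟨w, hw, hw0⟩ := Submodule.exists_mem_ne_zero_of_ne_bot hne
  obtain ⟨f, hf, hfE⟩ := (S.O_eq_zero_iff (E' - E)).1 (by rw [map_sub, h1, h2, sub_self])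
  have htr : Transcendental ℂ f := by
    obtain ⟨D, hD⟩ : ∃ D, S.v D f ≠ 0 := by
      by_contra hn
      push Not at hn
      apply hd
      ext D
      have h3 := hfE D
      rw [hn D, Finsupp.coe_sub, Pi.sub_apply] at h3
      omega
    exact S.transcendental_of_v hf hD
  refine ⟨N * k.toNat, E₀ + N • E, ?_, fun i => f ^ (i : ℕ) • w, ?_, ?_⟩
  · rw [map_add, map_nsmul, h1, mul_smul, ← natCast_zsmul L k.toNat, Int.toNat_of_nonneg hk.le]
  · intro i hne0 D
    rw [B.ord_smul D (pow_ne_zero _ hf) hw0, S.v_pow D hf, Finsupp.coe_add, Pi.add_apply,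
      Finsupp.coe_smul, Pi.smul_apply, nsmul_eq_mul, ← hfE D, Finsupp.coe_sub, Pi.sub_apply]
    have h3 := hw hw0 D
    have h4 : 0 ≤ E D := hE D
    have h5 : 0 ≤ E' D := hE' D
    have hi : ((i : ℕ) : ℤ) ≤ N := by exact_mod_cast i.2.le
    have hi0 : (0 : ℤ) ≤ (i : ℕ) := Int.natCast_nonneg _
    nlinarith [mul_nonneg hi0 h5, mul_nonneg (sub_nonneg.2 hi) h4]
  · have h3 : LinearIndependent ℂ (fun i : Fin N => f ^ (i : ℕ)) := by
      have h5 := ((Polynomial.basisMonomials ℂ).linearIndependent.map'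
        (Polynomial.aeval f).toLinearMap (LinearMap.ker_eq_bot.2
          (transcendental_iff_injective.1 htr))).comp (fun i : Fin N => (i : ℕ)) Fin.val_injective
      have h6 : (fun i : Fin N => f ^ (i : ℕ)) = (⇑(Polynomial.aeval f).toLinearMap ∘
          ⇑(Polynomial.basisMonomials ℂ)) ∘ fun i : Fin N => (i : ℕ) := by
        funext i
        simp [Polynomial.aeval_monomial]
      rw [h6]
      exact h5
    have h4 := h3.map' ((LinearMap.toSpanSingleton K V w).restrictScalars ℂ) (by
      rw [LinearMap.ker_eq_bot]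
      intro x y hxy
      have h5 : x • w = y • w := hxy
      exact smul_left_injective K hw0 h5)
    exact h4

theorem tfae_two_sections [FiniteDimensional K V] {L : Pic} (hL : S.NefIsotropic L)
    (hB : B.Semistable L) {E₀ : P →₀ ℤ} (h₀ : S.q L (S.O E₀) = 0) (hne : B.sections E₀ ≠ ⊥) :
    List.TFAE [S.TwoSections L,
      ∃ E : P →₀ ℤ, S.q L (S.O E) = 0 ∧ ∃ t : Fin (Module.finrank K V + 1) → V,
        (∀ i, t i ∈ B.sections E) ∧ LinearIndependent ℂ t,
      ∀ N : ℕ, ∃ k : ℕ, ∃ E : P →₀ ℤ, S.O E = S.O E₀ + k • L ∧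
        ∃ t : Fin N → V, (∀ i, t i ∈ B.sections E) ∧ LinearIndependent ℂ t] := by
  tfae_have 1 → 3 := fun h N => B.exists_many h hne N
  tfae_have 3 → 2 := by
    intro h
    obtain ⟨k, E, hE, t, ht⟩ := h (Module.finrank K V + 1)
    exact ⟨E, by rw [hE, map_add, h₀, map_nsmul, hL.1, smul_zero, add_zero], t, ht⟩
  tfae_have 2 → 1 := by
    rintro ⟨E, hq, t, ht, hC⟩
    by_contra h2
    have h3 := (B.independent_of_not_two hL hB h2 hq t ht hC).fintype_card_le_finrank
    rw [Fintype.card_fin] at h3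
    omega
  tfae_finish

theorem _root_.Pool.Agent.SYZ.sum_update {A : Type*} [AddCommGroup A] {d : ℕ} (f : Fin d → A)
    (j : Fin d) (b : A) : ∑ i, Function.update f j b i = ∑ i, f i - f j + b := by
  classical
  rw [Finset.sum_update_of_mem (Finset.mem_univ j), ← Finset.add_sum_erase _ f (Finset.mem_univ j),
    Finset.sdiff_singleton_eq_erase]
  abel

/-- If the twists of a semistable sheaf of degree zero by `x + k L` have nonzero sections for
infinitely many `k`, then some positive power of `L` has a section. -/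
theorem qEffective_of_sections [Module.Finite ℤ Pic] [FiniteDimensional K V] {L : Pic}
    (hL : S.NefIsotropic L) (hB : B.Semistable L) {x : Pic} (hx : S.q L x = 0)
    (h : {k : ℕ | ∃ E : P →₀ ℤ, S.O E = x + k • L ∧ B.sections E ≠ ⊥}.Infinite) :
    S.QEffective L := by
  classical
  set I := {k : ℕ | ∃ E : P →₀ ℤ, S.O E = x + k • L ∧ B.sections E ≠ ⊥} with hI
  have hchoice : ∀ k : I, ∃ E : P →₀ ℤ, S.O E = x + (k : ℕ) • L ∧ ∃ w ∈ B.sections E, w ≠ 0 := by
    rintro ⟨k, E, hE, hne⟩
    exact ⟨E, hE, Submodule.exists_mem_ne_zero_of_ne_bot hne⟩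
  choose E hE T hT hT0 using hchoice
  obtain ⟨b, hb, hspan, hli⟩ := exists_linearIndependent K (Set.range T)
  have : Finite b := hli.finite
  have : Fintype b := Fintype.ofFinite b
  let e : Fin (Fintype.card b) ≃ b := (Fintype.equivFin b).symm
  let s : Fin (Fintype.card b) → V := fun i => (e i : V)
  have hs : LinearIndependent K s := hli.comp e e.injective
  have hrange : Set.range s = b := by
    ext w
    constructor
    · rintro ⟨i, rfl⟩
      exact (e i).2
    · intro hw
      exact ⟨e.symm ⟨w, hw⟩, by simp [s]⟩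
  have hκ : ∀ i, ∃ k : I, T k = s i := fun i => hb (e i).2
  choose κ hκ using hκ
  have hqE : ∀ k : I, S.q L (S.O (E k)) = 0 := by
    intro k
    rw [hE, map_add, hx, map_nsmul, hL.1, smul_zero, add_zero]
  obtain ⟨h1, h2⟩ := B.effective hL hB hs (fun i => E (κ i)) (fun i => by rw [← hκ i]; exact hT _)
    (fun i => hqE _)
  let y : Fin (Fintype.card b) → Pic := fun j =>
    S.O (B.divisor hs + ∑ i, E (κ i)) - S.O (E (κ j)) + x
  have hcover : I ⊆ ⋃ j, {k : ℕ | ∃ A : P →₀ ℤ, 0 ≤ A ∧ S.O A = y j + k • L} := by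
    intro k hk
    have hmem : T ⟨k, hk⟩ ∈ Submodule.span K (Set.range s) := by
      rw [hrange, hspan]
      exact Submodule.subset_span ⟨_, rfl⟩
    obtain ⟨c, hc⟩ := (Submodule.mem_span_range_iff_exists_fun K).1 hmem
    obtain ⟨j, hj⟩ : ∃ j, c j ≠ 0 := by
      by_contra hn
      push Not at hn
      apply hT0 ⟨k, hk⟩
      rw [← hc]
      exact Finset.sum_eq_zero fun j _ => by rw [hn j, zero_smul]
    rw [Set.mem_iUnion]
    obtain ⟨a1, -⟩ := B.effective hL hB (independent_update hs j c hj)
      (Function.update (fun i => E (κ i)) j (E ⟨k, hk⟩)) (by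
        intro i
        by_cases hij : i = j
        · rw [hij, Function.update_self, Function.update_self, hc]
          exact hT _
        · rw [Function.update_of_ne hij, Function.update_of_ne hij, ← hκ i]
          exact hT _) (by
        intro i
        by_cases hij : i = j
        · rw [hij, Function.update_self]
          exact hqE _
        · rw [Function.update_of_ne hij]
          exact hqE _)
    refine ⟨j, _, a1, ?_⟩
    rw [sum_update, B.divisor_update hs j c hj]
    simp only [y, map_add, map_sub, S.O_dv, hE]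
    abel
  obtain ⟨j, hj⟩ : ∃ j, {k : ℕ | ∃ A : P →₀ ℤ, 0 ≤ A ∧ S.O A = y j + k • L}.Infinite := by
    by_contra hn
    push Not at hn
    exact h ((Set.finite_iUnion hn).subset hcover)
  refine S.qEffective_of_infinite hL ?_ hj
  simp only [y, map_add, map_sub] at h2 ⊢
  rw [h2, hqE, hx]
  simp

theorem tfae_qEffective [Module.Finite ℤ Pic] [FiniteDimensional K V] {L : Pic}
    (hL : S.NefIsotropic L) (hB : B.Semistable L) {E₀ : P →₀ ℤ} (h₀ : S.q L (S.O E₀) = 0)
    (hne : B.sections E₀ ≠ ⊥) :
    List.TFAE [S.QEffective L,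
      {k : ℕ | ∃ E : P →₀ ℤ, S.O E = S.O E₀ + k • L ∧ B.sections E ≠ ⊥}.Infinite,
      ∃ x : Pic, S.q L x = 0 ∧
        {k : ℕ | ∃ E : P →₀ ℤ, S.O E = x + k • L ∧ B.sections E ≠ ⊥}.Infinite] := by
  tfae_have 1 → 2 := by
    rintro ⟨k, hk, E, hE, h1⟩
    obtain ⟨w, hw, hw0⟩ := Submodule.exists_mem_ne_zero_of_ne_bot hne
    refine Set.infinite_of_injective_forall_mem (f := fun m : ℕ => m * k.toNat) ?_ ?_
    · intro m m' hmm
      exact Nat.eq_of_mul_eq_mul_right (by omega) hmm
    · intro m
      refine ⟨E₀ + m • E, ?_, ?_⟩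
      · rw [map_add, map_nsmul, h1, mul_smul, ← natCast_zsmul L k.toNat,
          Int.toNat_of_nonneg hk.le]
      · refine Submodule.ne_bot_iff _ |>.2 ⟨w, ?_, hw0⟩
        intro _ D
        have h2 := hw hw0 D
        have h3 : 0 ≤ E D := hE D
        rw [Finsupp.coe_add, Pi.add_apply, Finsupp.coe_smul, Pi.smul_apply, nsmul_eq_mul]
        have h4 : (0 : ℤ) ≤ (m : ℤ) * E D := mul_nonneg (Int.natCast_nonneg _) h3
        omega
  tfae_have 2 → 3 := fun h => ⟨S.O E₀, h₀, h⟩
  tfae_have 3 → 1 := by
    rintro ⟨x, hx, h⟩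
    exact B.qEffective_of_sections hL hB hx h
  tfae_finish

end SheafData

end

end Pool.Agent.SYZ
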