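import Pool.Agent.SYZ.Sheaf
import Pool.Agent.SYZ.Trichotomy

namespace Pool.Agent.SYZ

noncomputable section

/-! ### Ranks as extended natural numbers -/

theorem toENat_rank_le {M M' : Type*} [AddCommGroup M] [Module ℂ M] [AddCommGroup M']
    [Module ℂ M'] (f : M →ₗ[ℂ] M') (hf : Function.Injective f) :
    Cardinal.toENat (Module.rank ℂ M) ≤ Cardinal.toENat (Module.rank ℂ M') := by
  have h := Cardinal.toENat.monotone' (LinearMap.lift_rank_le_of_injective f hf)
  change Cardinal.toENat (Cardinal.lift _) ≤ Cardinal.toENat (Cardinal.lift _) at h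
  rwa [Cardinal.toENat_lift, Cardinal.toENat_lift] at h

theorem toENat_rank_mono {M : Type*} [AddCommGroup M] [Module ℂ M] {A B : Submodule ℂ M}
    (h : A ≤ B) : Cardinal.toENat (Module.rank ℂ A) ≤ Cardinal.toENat (Module.rank ℂ B) :=
  toENat_rank_le (Submodule.inclusion h) (Submodule.inclusion_injective h)

theorem toENat_rank_pi {d : ℕ} {M : Fin d → Type*} [∀ j, AddCommGroup (M j)]
    [∀ j, Module ℂ (M j)] :
    Cardinal.toENat (Module.rank ℂ (Π j, M j)) ≤ ∑ j, Cardinal.toENat (Module.rank ℂ (M j)) := by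
  by_cases h : ∀ j, FiniteDimensional ℂ (M j)
  · have h1 : ∀ j, Cardinal.toENat (Module.rank ℂ (M j)) = (Module.finrank ℂ (M j) : ℕ∞) := by
      intro j
      rw [← Module.finrank_eq_rank, Cardinal.toENat_nat]
    rw [← Module.finrank_eq_rank, Cardinal.toENat_nat, Module.finrank_pi_fintype, Nat.cast_sum]
    exact le_of_eq (Finset.sum_congr rfl fun j _ => (h1 j).symm)
  · push Not at h
    obtain ⟨j, hj⟩ := h
    have h1 : Cardinal.toENat (Module.rank ℂ (M j)) = ⊤ := by
      rw [Cardinal.toENat_eq_top, ← not_lt]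
      intro h2
      exact hj (Module.rank_lt_aleph0_iff.1 h2)
    refine le_trans le_top ?_
    rw [← h1]
    exact Finset.single_le_sum (f := fun j => Cardinal.toENat (Module.rank ℂ (M j)))
      (fun _ _ => zero_le) (Finset.mem_univ j)

theorem sum_toENat_rank {d : ℕ} {M : Fin d → Type*} [∀ j, AddCommGroup (M j)]
    [∀ j, Module ℂ (M j)] :
    ∑ j, Cardinal.toENat (Module.rank ℂ (M j)) ≤ Cardinal.toENat (Module.rank ℂ (Π j, M j)) := by
  classical
  by_cases h : ∀ j, FiniteDimensional ℂ (M j)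
  · have h1 : ∀ j, Cardinal.toENat (Module.rank ℂ (M j)) = (Module.finrank ℂ (M j) : ℕ∞) := by
      intro j
      rw [← Module.finrank_eq_rank, Cardinal.toENat_nat]
    rw [← Module.finrank_eq_rank, Cardinal.toENat_nat, Module.finrank_pi_fintype, Nat.cast_sum]
    exact le_of_eq (Finset.sum_congr rfl fun j _ => h1 j)
  · push Not at h
    obtain ⟨j, hj⟩ := h
    have h1 : Cardinal.toENat (Module.rank ℂ (M j)) = ⊤ := by
      rw [Cardinal.toENat_eq_top, ← not_lt]
      intro h2
      exact hj (Module.rank_lt_aleph0_iff.1 h2)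
    refine le_trans le_top ?_
    rw [← h1]
    exact toENat_rank_le (LinearMap.single ℂ M j) (Pi.single_injective j)

theorem le_toENat_rank {M : Type*} [AddCommGroup M] [Module ℂ M] (A : Submodule ℂ M) (N : ℕ) :
    (N : ℕ∞) ≤ Cardinal.toENat (Module.rank ℂ A) ↔
      ∃ t : Fin N → M, (∀ i, t i ∈ A) ∧ LinearIndependent ℂ t := by
  rw [Cardinal.natCast_le_toENat]
  constructor
  · intro h
    obtain ⟨t, ht⟩ := exists_linearIndependent_of_le_rank h
    exact ⟨fun i => t i, fun i => (t i).2, ht.map' A.subtype (Submodule.ker_subtype A)⟩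
  · rintro ⟨t, ht, hti⟩
    have h6 : LinearIndependent ℂ (fun i => (⟨t i, ht i⟩ : A)) :=
      LinearIndependent.of_comp A.subtype hti
    have h7 := h6.cardinal_lift_le_rank
    simpa using h7

theorem toENat_rank_ne_zero {M : Type*} [AddCommGroup M] [Module ℂ M] (A : Submodule ℂ M) :
    Cardinal.toENat (Module.rank ℂ A) ≠ 0 ↔ A ≠ ⊥ := by
  rw [Ne, Cardinal.toENat_eq_zero, Submodule.rank_eq_zero]

variable {K P Pic : Type*} [Field K] [Algebra ℂ K] [AddCommGroup Pic]

namespace HKDivisors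

variable (S : HKDivisors K P Pic)

theorem ray_ne_zero' {L : Pic} (hL : S.NefIsotropic L) {E : P →₀ ℤ} {k : ℤ} (hk : 0 < k)
    (h : S.O E = k • L) : E ≠ 0 := by
  rintro rfl
  have h1 := congrArg S.deg h
  rw [map_zero, map_zero, map_zsmul, zsmul_eq_mul] at h1
  have : 0 < (k : ℝ) * S.deg L := mul_pos (by exact_mod_cast hk) hL.2.1
  linarith

theorem le_h0 {x : Pic} {E : P →₀ ℤ} (hE : S.O E = x) :
    Cardinal.toENat (Module.rank ℂ (S.sections E)) ≤ S.h0 x :=
  le_iSup₂ (f := fun (E : P →₀ ℤ) (_ : S.O E = x) =>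
    Cardinal.toENat (Module.rank ℂ (S.sections E))) E hE

theorem mem_sections' {E : P →₀ ℤ} {f : K} :
    f ∈ S.sections E ↔ (f ≠ 0 → ∀ D, 0 ≤ S.v D f + E D) := Iff.rfl

theorem h0_eq {x : Pic} {F : P →₀ ℤ} (hF : S.O F = x) :
    S.h0 x = Cardinal.toENat (Module.rank ℂ (S.sections F)) := by
  refine le_antisymm (iSup₂_le fun E hE => ?_) (S.le_h0 hF)
  obtain ⟨g, hg, hgE⟩ := (S.O_eq_zero_iff (E - F)).1 (by rw [map_sub, hE, hF, sub_self])
  let f : S.sections E →ₗ[ℂ] S.sections F :=
    LinearMap.restrict ((LinearMap.toSpanSingleton K K g).restrictScalars ℂ) (by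
      intro a ha hne D
      have ha0 : a ≠ 0 := by
        rintro rfl
        exact hne (by simp)
      have h1 := S.v_mul D a g ha0 hg
      have h2 := ha ha0 D
      have h3 := hgE D
      change 0 ≤ S.v D (a * g) + F D
      rw [Finsupp.coe_sub, Pi.sub_apply] at h3
      omega)
  refine toENat_rank_le f ?_
  intro a a' haa
  apply Subtype.ext
  have h1 : (a : K) * g = (a' : K) * g := congrArg Subtype.val haa
  exact mul_right_cancel₀ hg h1

/-- The prime divisors contained in an effective divisor proportional to `L`. -/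
def good (L : Pic) : Set P := {D | ∃ F : P →₀ ℤ, 0 ≤ F ∧ Ray L (S.O F) ∧ D ∈ F.support}

/-- Two effective divisors orthogonal to `L` whose classes differ by a multiple of `L` agree outside
the prime divisors contained in effective divisors proportional to `L`. -/
theorem eq_of_not_good {L : Pic} (hL : S.NefIsotropic L) {A A' : P →₀ ℤ} (hA : 0 ≤ A)
    (hA' : 0 ≤ A') (hq : S.q L (S.O A) = 0) {c : ℤ} (h : S.O A' = S.O A + c • L) {D : P}
    (hD : D ∉ S.good L) : A' D = A D := by
  classical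
  set H := A' - A with hH
  have hO : S.O H = c • L := by rw [hH, map_sub, h, add_sub_cancel_left]
  have hq' : S.q L (S.O A') = 0 := by rw [h, map_add, hq, map_zsmul, hL.1, smul_zero, add_zero]
  have horth : ∀ D ∈ H.support, D ∈ S.orth L := by
    intro D hD
    by_contra hn
    have h1 : A D = 0 := by
      by_contra h0
      exact hn (S.support_subset_orth hL hA hq D (Finsupp.mem_support_iff.2 h0))
    have h2 : A' D = 0 := by
      by_contra h0
      exact hn (S.support_subset_orth hL hA' hq' D (Finsupp.mem_support_iff.2 h0))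
    rw [Finsupp.mem_support_iff, hH, Finsupp.coe_sub, Pi.sub_apply, h1, h2, sub_zero] at hD
    exact hD rfl
  set H₁ := H.filter (fun D => D ∈ S.good L) with hH₁
  set H₂ := H.filter (fun D => ¬ D ∈ S.good L) with hH₂
  have hsum : H₁ + H₂ = H := Finsupp.filter_add_filter_not _ _
  have horth₂ : ∀ D ∈ H₂.support, D ∈ S.orth L := by
    intro D hD
    rw [hH₂, Finsupp.support_filter, Finset.mem_filter] at hD
    exact horth D hD.1
  have hcross : S.q (S.O H₁) (S.O H₂) = 0 := by
    rw [q_O, Finsupp.sum]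
    refine Finset.sum_eq_zero fun D' hD' => ?_
    rw [q_O_left, Finsupp.sum, Finset.sum_eq_zero, mul_zero]
    intro D'' hD''
    rw [hH₂, Finsupp.support_filter, Finset.mem_filter] at hD'
    rw [hH₁, Finsupp.support_filter, Finset.mem_filter] at hD''
    obtain ⟨-, F, hF, hr, hDF⟩ := hD''
    have : S.q (S.cls D'') (S.cls D') = 0 := by
      by_contra hne
      refine hD'.2 ⟨F, hF, hr, S.adj_closed hF hr hDF (horth D' hD'.1) ⟨?_, hne⟩⟩
      rintro rfl
      exact hD'.2 ⟨F, hF, hr, hDF⟩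
    rw [this, mul_zero]
  have hself : S.q (S.O H₂) (S.O H₂) = 0 := by
    have h1 : S.q (S.O H) (S.O H₂) = 0 := by
      rw [hO, map_zsmul, AddMonoidHom.smul_apply, S.q_O_eq_zero horth₂, smul_zero]
    rw [← hsum, map_add, map_add, AddMonoidHom.add_apply, hcross, zero_add] at h1
    exact h1
  have hzero : H₂ = 0 := by
    by_contra h0
    obtain ⟨a, b, ha, hab⟩ := S.hodge_index L _ hL.1 hL.2.1.ne' (S.q_O_eq_zero horth₂) hself.ge
    have hs : (a • H₂).support ⊆ H₂.support := Finsupp.support_smul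
    obtain ⟨F, h1, h2, h3, h4⟩ := S.exists_of_relation hL (E := a • H₂) (smul_ne_zero ha h0)
      (fun D hD => horth₂ D (hs hD)) b (by rw [map_zsmul, hab])
    obtain ⟨D, hD⟩ := Finsupp.support_nonempty_iff.2 h2
    have h5 := hs (h3 hD)
    rw [hH₂, Finsupp.support_filter, Finset.mem_filter] at h5
    exact h5.2 ⟨F, h1, h4, hD⟩
  have h1 : H₂ D = H D := by rw [hH₂, Finsupp.filter_apply, if_pos hD]
  rw [hzero, hH, Finsupp.coe_sub, Pi.sub_apply, Finsupp.coe_zero, Pi.zero_apply] at h1
  omega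

/-- An effective divisor in the class of a multiple of `L` through a prime divisor contained in an
effective divisor proportional to `L`. -/
theorem exists_ge_single {L : Pic} (hL : S.NefIsotropic L) {D : P} (hD : D ∈ S.good L) :
    ∃ (F : P →₀ ℤ) (b : ℤ), 0 ≤ F ∧ S.O F = b • L ∧ 1 ≤ F D := by
  obtain ⟨F, hF, hr, hDF⟩ := hD
  obtain ⟨a, b, ha, hb, hab⟩ := Ray.pos S hL.2.1 hF (Finsupp.support_nonempty_iff.1 ⟨D, hDF⟩) hr
  refine ⟨a • F, b, smul_nonneg ha.le hF, hab, ?_⟩
  have h1 : F D ≠ 0 := Finsupp.mem_support_iff.1 hDF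
  have h2 : 0 ≤ F D := hF D
  rw [Finsupp.coe_smul, Pi.smul_apply, smul_eq_mul]
  have h3 : 1 ≤ F D := by omega
  nlinarith

theorem exists_ge {L : Pic} (hL : S.NefIsotropic L) {A : P →₀ ℤ} (hA : 0 ≤ A)
    (hs : ∀ D ∈ A.support, D ∈ S.good L) :
    ∃ (F : P →₀ ℤ) (b : ℤ), A ≤ F ∧ S.O F = b • L := by
  classical
  have h := fun D (hD : D ∈ A.support) => S.exists_ge_single hL (hs D hD)
  choose F b hF hb h1 using h
  refine ⟨∑ D ∈ A.support.attach, (A D) • F D D.2, ∑ D ∈ A.support.attach, (A D) * b D D.2, ?_, ?_⟩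
  · intro D
    rw [Finsupp.finsetSum_apply]
    by_cases hD : D ∈ A.support
    · refine le_trans ?_ (Finset.single_le_sum
        (f := fun D' : A.support => ((A D') • F D' D'.2) D) (fun D' _ => ?_)
        (Finset.mem_attach _ ⟨D, hD⟩))
      · change A D ≤ A D * F D hD D
        have h2 : 0 ≤ A D := hA D
        nlinarith [h1 D hD]
      · exact mul_nonneg (hA D') (hF D' D'.2 D)
    · rw [Finsupp.notMem_support_iff.1 hD]
      exact Finset.sum_nonneg fun D' _ => mul_nonneg (hA D') (hF D' D'.2 D)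
  · rw [map_sum, Finset.sum_smul]
    refine Finset.sum_congr rfl fun D _ => ?_
    rw [map_zsmul, hb, smul_smul]

/-- The twists of a class orthogonal to `L` by the powers of `L` have at most as many sections as
the powers of `L`. -/
theorem h0_le {L : Pic} (hL : S.NefIsotropic L) {y : Pic} (hy : S.q L y = 0) :
    ∃ c : ℤ, ∀ k : ℤ, S.h0 (y + k • L) ≤ S.h0 ((k + c) • L) := by
  classical
  by_cases h : ∃ (k₀ : ℤ) (A : P →₀ ℤ), 0 ≤ A ∧ S.O A = y + k₀ • L
  · obtain ⟨k₀, A, hA, hAO⟩ := h
    have hqA : S.q L (S.O A) = 0 := by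
      rw [hAO, map_add, hy, map_zsmul, hL.1, smul_zero, add_zero]
    set A₁ := A.filter (fun D => D ∈ S.good L) with hA₁
    have hA₁0 : 0 ≤ A₁ := by
      intro D
      rw [hA₁, Finsupp.filter_apply]
      split_ifs
      · exact hA D
      · exact le_rfl
    obtain ⟨F, b, hAF, hFb⟩ := S.exists_ge hL hA₁0 (by
      intro D hD
      rw [hA₁, Finsupp.support_filter, Finset.mem_filter] at hD
      exact hD.2)
    refine ⟨b - k₀, fun k => iSup₂_le fun E hE => ?_⟩
    refine le_trans (toENat_rank_mono ?_) (S.le_h0 (E := E - A + F) ?_)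
    · intro f hf hf0 D
      have h1 : 0 ≤ S.dv hf0 + E := fun D => hf hf0 D
      have h2 : S.O (S.dv hf0 + E) = S.O A + (k - k₀) • L := by
        rw [map_add, S.O_dv, zero_add, hE, hAO, sub_smul]
        abel
      rw [Finsupp.coe_add, Pi.add_apply, Finsupp.coe_sub, Pi.sub_apply]
      have h5 : A₁ D ≤ F D := hAF D
      have h6 : 0 ≤ A₁ D := hA₁0 D
      by_cases hD : D ∈ S.good L
      · have h3 := hf hf0 D
        have h4 : A₁ D = A D := by rw [hA₁, Finsupp.filter_apply, if_pos hD]
        omega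
      · have h3 := S.eq_of_not_good hL hA h1 hqA h2 hD
        rw [Finsupp.coe_add, Pi.add_apply, dv_apply] at h3
        omega
    · rw [map_add, map_sub, hE, hAO, hFb, add_smul, sub_smul]
      abel
  · refine ⟨0, fun k => iSup₂_le fun E hE => ?_⟩
    have h1 : S.sections E = ⊥ := by
      rw [eq_bot_iff]
      intro f hf
      by_contra hf0
      exact h ⟨k, S.dv hf0 + E, fun D => hf hf0 D, by rw [map_add, S.O_dv, zero_add, hE]⟩
    have h2 : Cardinal.toENat (Module.rank ℂ (S.sections E)) = 0 := by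
      by_contra h3
      exact (toENat_rank_ne_zero _).1 h3 h1
    rw [h2]
    exact zero_le

/-- If `y + k L` has a section for two different `k`, with `y` orthogonal to `L`, then some positive
power of `L` has a section. -/
theorem qEffective_of_two {L : Pic} (hL : S.NefIsotropic L) {y : Pic} (hy : S.q L y = 0) {k k' : ℤ}
    (hk : k < k') (h : S.h0 (y + k • L) ≠ 0) (h' : S.h0 (y + k' • L) ≠ 0) : S.QEffective L := by
  have key : ∀ k : ℤ, S.h0 (y + k • L) ≠ 0 → ∃ A : P →₀ ℤ, 0 ≤ A ∧ S.O A = y + k • L := by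
    intro k hk
    by_contra hn
    apply hk
    rw [h0, ← bot_eq_zero, iSup₂_eq_bot]
    intro E hE
    have h1 : S.sections E = ⊥ := by
      rw [eq_bot_iff]
      intro f hf
      by_contra hf0
      exact hn ⟨S.dv hf0 + E, fun D => hf hf0 D, by rw [map_add, S.O_dv, zero_add, hE]⟩
    by_contra h3
    exact (toENat_rank_ne_zero _).1 h3 h1
  obtain ⟨A, hA, hAO⟩ := key k h
  obtain ⟨A', hA', hAO'⟩ := key k' h'
  have hO : S.O (A' - A) = (k' - k) • L := by
    rw [map_sub, hAO, hAO', sub_smul]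
    abel
  have hs : ∀ k : ℤ, ∀ A : P →₀ ℤ, 0 ≤ A → S.O A = y + k • L → ∀ D ∈ A.support, D ∈ S.orth L :=
    fun k A hA hAO => S.support_subset_orth hL hA (by
      rw [hAO, map_add, hy, map_zsmul, hL.1, smul_zero, add_zero])
  have hne : A' - A ≠ 0 := S.ray_ne_zero' hL (sub_pos.2 hk) hO
  obtain ⟨F, h1, h2, h3, h4⟩ := S.exists_of_relation hL hne (by
    intro D hD
    by_contra hn
    have e1 : A D = 0 := by
      by_contra h0
      exact hn (hs k A hA hAO D (Finsupp.mem_support_iff.2 h0))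
    have e2 : A' D = 0 := by
      by_contra h0
      exact hn (hs k' A' hA' hAO' D (Finsupp.mem_support_iff.2 h0))
    rw [Finsupp.mem_support_iff, Finsupp.coe_sub, Pi.sub_apply, e1, e2, sub_zero] at hD
    exact hD rfl) _ hO
  exact S.qEffective_of_ray hL h1 h2 h4

end HKDivisors

namespace SheafData

variable {S : HKDivisors K P Pic} {V : Type*} [AddCommGroup V] [Module K V] (B : SheafData S V)
  [Module ℂ V] [IsScalarTower ℂ K V]

theorem le_h0 {x : Pic} {E : P →₀ ℤ} (hE : S.O E = x) :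
    Cardinal.toENat (Module.rank ℂ (B.sections E)) ≤ B.h0 x :=
  le_iSup₂ (f := fun (E : P →₀ ℤ) (_ : S.O E = x) =>
    Cardinal.toENat (Module.rank ℂ (B.sections E))) E hE

/-- The dimension of the space of sections depends on the class of the divisor only. -/
theorem h0_eq {x : Pic} {F : P →₀ ℤ} (hF : S.O F = x) :
    B.h0 x = Cardinal.toENat (Module.rank ℂ (B.sections F)) := by
  refine le_antisymm (iSup₂_le fun E hE => ?_) (B.le_h0 hF)
  obtain ⟨g, hg, hgE⟩ := (S.O_eq_zero_iff (E - F)).1 (by rw [map_sub, hE, hF, sub_self])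
  let f : B.sections E →ₗ[ℂ] B.sections F :=
    { toFun := fun s => ⟨g • (s : V), by
        intro hne D
        have hs0 : (s : V) ≠ 0 := by
          intro h0
          exact hne (by rw [h0, smul_zero])
        have h1 := B.ord_smul D hg hs0
        have h2 := s.2 hs0 D
        have h3 := hgE D
        rw [Finsupp.coe_sub, Pi.sub_apply] at h3
        omega⟩
      map_add' := fun s t => Subtype.ext (smul_add g (s : V) (t : V))
      map_smul' := fun c s => Subtype.ext (smul_comm g c (s : V)) }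
  refine toENat_rank_le f ?_
  intro s t hst
  apply Subtype.ext
  have h1 : g • (s : V) = g • (t : V) := congrArg Subtype.val hst
  exact smul_right_injective V hg h1

theorem lt_h0 {x : Pic} {N : ℕ} (h : (N : ℕ∞) < B.h0 x) : ∃ E : P →₀ ℤ, S.O E = x ∧
    ∃ t : Fin (N + 1) → V, (∀ i, t i ∈ B.sections E) ∧ LinearIndependent ℂ t := by
  rw [h0, lt_iSup_iff] at h
  obtain ⟨E, h⟩ := h
  rw [lt_iSup_iff] at h
  obtain ⟨hE, h⟩ := h
  refine ⟨E, hE, (le_toENat_rank _ _).1 ?_⟩
  rw [Nat.cast_add, Nat.cast_one]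
  exact Order.add_one_le_of_lt h

theorem h0_ne_zero {x : Pic} (h : B.h0 x ≠ 0) : ∃ E : P →₀ ℤ, S.O E = x ∧ B.sections E ≠ ⊥ := by
  obtain ⟨E, hE, t, ht, hti⟩ := B.lt_h0 (x := x) (N := 0) (by
    rw [Nat.cast_zero]
    exact pos_iff_ne_zero.2 h)
  exact ⟨E, hE, (Submodule.ne_bot_iff _).2 ⟨t 0, ht 0, hti.ne_zero 0⟩⟩

/-- Multiplication by a nonzero section. -/
theorem h0_ge {x : Pic} (hx : B.h0 x ≠ 0) (y : Pic) : S.h0 y ≤ B.h0 (x + y) := by
  obtain ⟨E, hE, hne⟩ := B.h0_ne_zero hx
  obtain ⟨w, hw, hw0⟩ := Submodule.exists_mem_ne_zero_of_ne_bot hne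
  refine iSup₂_le fun E' hE' => ?_
  refine le_trans ?_ (B.le_h0 (E := E + E') (by rw [map_add, hE, hE']))
  let f : S.sections E' →ₗ[ℂ] B.sections (E + E') :=
    LinearMap.restrict ((LinearMap.toSpanSingleton K V w).restrictScalars ℂ) (by
      intro g hg hne D
      have hg0 : g ≠ 0 := by
        rintro rfl
        exact hne (by simp)
      have h1 := B.ord_smul D hg0 hw0
      have h2 := hg hg0 D
      have h3 := hw hw0 D
      change 0 ≤ B.ord D (fun _ : Fin 1 => g • w) + (E + E') D
      rw [h1, Finsupp.coe_add, Pi.add_apply]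
      omega)
  refine toENat_rank_le f ?_
  intro g g' hgg
  apply Subtype.ext
  have h1 : (g : K) • w = (g' : K) • w := congrArg Subtype.val hgg
  exact smul_left_injective K hw0 h1

/-- Coordinates of the sections of all twists `x + k L` with respect to finitely many of them. -/
theorem exists_frame_int [FiniteDimensional K V] {L : Pic} (hL : S.NefIsotropic L)
    (hB : B.Semistable L) {x : Pic} (hx : S.q L x = 0) :
    ∃ (d : ℕ) (s : Fin d → V) (κ : Fin d → ℤ) (F : Fin d → P →₀ ℤ) (y : Fin d → Pic),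
      d = B.genRank L x ∧ LinearIndependent K s ∧ (∀ j, S.O (F j) = x + κ j • L) ∧
      (∀ j, s j ∈ B.sections (F j)) ∧ (∀ j, S.q L (y j) = 0) ∧
      ∀ k : ℤ, B.h0 (x + k • L) ≤ ∑ j, S.h0 (y j + k • L) := by
  classical
  let T : Set V := {w | ∃ (k : ℤ) (E : P →₀ ℤ), S.O E = x + k • L ∧ w ∈ B.sections E}
  obtain ⟨b, hb, hspan, hli⟩ := exists_linearIndependent K T
  have : Finite b := hli.finite
  have : Fintype b := Fintype.ofFinite b
  let e : Fin (Fintype.card b) ≃ b := (Fintype.equivFin b).symm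
  let s : Fin (Fintype.card b) → V := fun i => (e i : V)
  have hs : LinearIndependent K s := hli.comp e e.injective
  have hrange : Set.range s = b := by
    ext w
    constructor
    · rintro ⟨i, rfl⟩
      exact (e i).2
    · intro hw
      exact ⟨e.symm ⟨w, hw⟩, by simp [s]⟩
  have hκ : ∀ i, ∃ (k : ℤ) (E : P →₀ ℤ), S.O E = x + k • L ∧ s i ∈ B.sections E :=
    fun i => hb (e i).2
  choose κ E' hE' hsE' using hκ
  have hqE' : ∀ i, S.q L (S.O (E' i)) = 0 := by
    intro i
    rw [hE', map_add, hx, map_zsmul, hL.1, smul_zero, add_zero]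
  obtain ⟨h1, h2⟩ := B.effective hL hB hs E' hsE' hqE'
  refine ⟨Fintype.card b, s, κ, E', fun j => S.O (B.divisor hs + ∑ i, E' i - E' j) + x, ?_, hs,
    hE', hsE', fun j => ?_, ?_⟩
  · have h3 := finrank_span_eq_card hs
    rw [hrange, hspan, Fintype.card_fin] at h3
    exact h3.symm
  · rw [map_add, map_sub, map_sub, h2, hqE', hx, sub_zero, add_zero]
  intro k
  refine iSup₂_le fun E hE => ?_
  have hqE : S.q L (S.O E) = 0 := by rw [hE, map_add, hx, map_zsmul, hL.1, smul_zero, add_zero]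
  have hmem : ∀ w ∈ B.sections E, w ∈ Submodule.span K (Set.range s) := by
    intro w hw
    rw [hrange, hspan]
    exact Submodule.subset_span ⟨k, E, hE, hw⟩
  have hcoef : ∀ (w : V) (hw : w ∈ B.sections E) (j : Fin (Fintype.card b)),
      hs.repr ⟨w, hmem w hw⟩ j ∈ S.sections (B.divisor hs + ∑ i, E' i - E' j + E) := by
    intro w hw j hj D
    have hsum : ∑ i, (hs.repr ⟨w, hmem w hw⟩) i • s i = w := by
      have h3 := hs.linearCombination_repr ⟨w, hmem w hw⟩
      rw [Finsupp.linearCombination_apply, Finsupp.sum_fintype _ _ (by simp)] at h3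
      exact h3
    obtain ⟨a1, -⟩ := B.effective hL hB
      (independent_update hs j (fun i => hs.repr ⟨w, hmem w hw⟩ i) hj)
      (Function.update E' j E) (by
        intro i
        by_cases hij : i = j
        · rw [hij, Function.update_self, Function.update_self, hsum]
          exact hw
        · rw [Function.update_of_ne hij, Function.update_of_ne hij]
          exact hsE' i) (by
        intro i
        by_cases hij : i = j
        · rw [hij, Function.update_self]
          exact hqE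
        · rw [Function.update_of_ne hij]
          exact hqE' i)
    have h4 := a1 D
    rw [sum_update, B.divisor_update hs j _ hj] at h4
    simp only [Finsupp.coe_add, Pi.add_apply, Finsupp.coe_sub, Pi.sub_apply, Finsupp.coe_zero,
      Pi.zero_apply, HKDivisors.dv_apply] at h4 ⊢
    omega
  let Λ : B.sections E →ₗ[ℂ]
      (Π j, S.sections (B.divisor hs + ∑ i, E' i - E' j + E)) :=
    { toFun := fun w j => ⟨hs.repr ⟨w, hmem w w.2⟩ j, hcoef w w.2 j⟩
      map_add' := by
        intro w w'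
        funext j
        apply Subtype.ext
        change hs.repr ⟨w + w', _⟩ j = hs.repr ⟨w, _⟩ j + hs.repr ⟨w', _⟩ j
        rw [← Finsupp.add_apply, ← map_add]
        rfl
      map_smul' := by
        intro c w
        funext j
        apply Subtype.ext
        have h7 : (⟨(c • w : B.sections E), hmem _ (c • w).2⟩ :
            Submodule.span K (Set.range s)) = algebraMap ℂ K c • ⟨w, hmem w w.2⟩ :=
          Subtype.ext (algebraMap_smul K c (w : V)).symm
        change hs.repr ⟨((c • w : B.sections E) : V), _⟩ j = c • hs.repr ⟨w, _⟩ j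
        rw [h7, map_smul, Finsupp.smul_apply, algebraMap_smul] }
  have hΛ : Function.Injective Λ := by
    rw [← LinearMap.ker_eq_bot, LinearMap.ker_eq_bot']
    intro w hw
    have h5 : hs.repr ⟨w, hmem w w.2⟩ = 0 := by
      ext j
      exact congrArg Subtype.val (congrFun hw j)
    have h6 := hs.linearCombination_repr ⟨w, hmem w w.2⟩
    rw [h5, map_zero] at h6
    exact Subtype.ext h6.symm
  refine (toENat_rank_le Λ hΛ).trans (toENat_rank_pi.trans ?_)
  refine Finset.sum_le_sum fun j _ => S.le_h0 ?_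
  rw [map_add, hE, add_assoc]

/-- Independent sections of twists of the sheaf give a lower bound for the number of sections. -/
theorem sum_le_h0 {L x : Pic} {d : ℕ} {s : Fin d → V} (hs : LinearIndependent K s)
    (κ : Fin d → ℤ) (F : Fin d → P →₀ ℤ) (hF : ∀ j, S.O (F j) = x + κ j • L)
    (hsF : ∀ j, s j ∈ B.sections (F j)) (k : ℤ) :
    ∑ j, S.h0 ((k - κ j) • L) ≤ B.h0 (x + k • L) := by
  classical
  by_cases hall : ∀ j, S.h0 ((k - κ j) • L) = 0
  · rw [Finset.sum_eq_zero fun j _ => hall j]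
    exact zero_le
  push Not at hall
  obtain ⟨j₀, hj₀⟩ := hall
  have hdiv : ∀ z : Pic, S.h0 z ≠ 0 → ∃ E : P →₀ ℤ, S.O E = z := by
    intro z hz
    by_contra hn
    push Not at hn
    apply hz
    rw [HKDivisors.h0, ← bot_eq_zero, iSup₂_eq_bot]
    exact fun E hE => absurd hE (hn E)
  obtain ⟨E₁, hE₁⟩ := hdiv _ hj₀
  obtain ⟨E, hE⟩ : ∃ E : P →₀ ℤ, S.O E = x + k • L :=
    ⟨F j₀ + E₁, by rw [map_add, hF, hE₁, sub_smul]; abel⟩
  have hM : ∀ j, ∃ (M : Submodule ℂ K) (g : K), g ≠ 0 ∧
      Cardinal.toENat (Module.rank ℂ M) = S.h0 ((k - κ j) • L) ∧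
      ∀ f ∈ M, (f * g) • s j ∈ B.sections E := by
    intro j
    by_cases hj : S.h0 ((k - κ j) • L) = 0
    · refine ⟨⊥, 1, one_ne_zero, ?_, ?_⟩
      · rw [hj]
        simp
      · intro f hf
        rw [Submodule.mem_bot] at hf
        rw [hf, zero_mul, zero_smul]
        exact zero_mem _
    · obtain ⟨G, hG⟩ := hdiv _ hj
      obtain ⟨g, hg, hgE⟩ := (S.O_eq_zero_iff (F j + G - E)).1 (by
        rw [map_sub, map_add, hF, hG, hE, sub_smul]
        abel)
      refine ⟨S.sections G, g, hg, (S.h0_eq hG).symm, ?_⟩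
      intro f hf hne D
      have hf0 : f ≠ 0 := by
        rintro rfl
        exact hne (by rw [zero_mul, zero_smul])
      have hs0 : s j ≠ 0 := hs.ne_zero j
      have h1 := B.ord_smul D (mul_ne_zero hf0 hg) hs0
      have h2 := S.v_mul D f g hf0 hg
      have h3 := hf hf0 D
      have h4 := hgE D
      have h5 := hsF j hs0 D
      rw [Finsupp.coe_sub, Pi.sub_apply, Finsupp.coe_add, Pi.add_apply] at h4
      omega
  choose M g hg hMr hMs using hM
  let Φ : (Π j, M j) →ₗ[ℂ] B.sections E :=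
    { toFun := fun f => ⟨∑ j, ((f j : K) * g j) • s j,
        Submodule.sum_mem _ fun j _ => hMs j _ (f j).2⟩
      map_add' := by
        intro f f'
        apply Subtype.ext
        change ∑ j, (((f j : K) + (f' j : K)) * g j) • s j =
          ∑ j, ((f j : K) * g j) • s j + ∑ j, ((f' j : K) * g j) • s j
        rw [← Finset.sum_add_distrib]
        exact Finset.sum_congr rfl fun j _ => by rw [add_mul, add_smul]
      map_smul' := by
        intro c f
        apply Subtype.ext
        change ∑ j, ((c • (f j : K)) * g j) • s j = c • ∑ j, ((f j : K) * g j) • s j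
        rw [Finset.smul_sum]
        exact Finset.sum_congr rfl fun j _ => by rw [smul_mul_assoc, smul_assoc] }
  have hΦ : Function.Injective Φ := by
    rw [← LinearMap.ker_eq_bot, LinearMap.ker_eq_bot']
    intro f hf
    have h1 : ∑ j, ((f j : K) * g j) • s j = 0 := congrArg Subtype.val hf
    have h2 := Fintype.linearIndependent_iff.1 hs _ h1
    funext j
    apply Subtype.ext
    rcases mul_eq_zero.1 (h2 j) with h3 | h3
    · exact h3
    · exact absurd h3 (hg j)
  calc ∑ j, S.h0 ((k - κ j) • L) = ∑ j, Cardinal.toENat (Module.rank ℂ (M j)) :=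
        Finset.sum_congr rfl fun j _ => (hMr j).symm
    _ ≤ Cardinal.toENat (Module.rank ℂ (Π j, M j)) := sum_toENat_rank
    _ ≤ Cardinal.toENat (Module.rank ℂ (B.sections E)) := toENat_rank_le Φ hΦ
    _ ≤ B.h0 (x + k • L) := B.le_h0 hE

/-- The number of sections of `B(x + k L)` is, up to shifts of `k`, the number of sections of
`k L` times the rank of the subsheaf generated by the sections of all these twists. -/
theorem exists_shifts [FiniteDimensional K V] {L : Pic} (hL : S.NefIsotropic L)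
    (hB : B.Semistable L) {x : Pic} (hx : S.q L x = 0) :
    ∃ a c : Fin (B.genRank L x) → ℤ, ∀ k : ℤ, ∑ j, S.h0 ((k - a j) • L) ≤ B.h0 (x + k • L) ∧
      B.h0 (x + k • L) ≤ ∑ j, S.h0 ((k + c j) • L) := by
  obtain ⟨d, s, κ, F, y, hd, hs, hF, hsF, hy, h⟩ := B.exists_frame_int hL hB hx
  have hc := fun j => S.h0_le hL (hy j)
  choose c hc using hc
  subst hd
  exact ⟨κ, c, fun k => ⟨B.sum_le_h0 hs κ F hF hsF k,
    (h k).trans (Finset.sum_le_sum fun j _ => hc j k)⟩⟩

/-- Negative multiples of `L` have no sections. -/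
theorem _root_.Pool.Agent.SYZ.HKDivisors.h0_neg (S : HKDivisors K P Pic) {L : Pic}
    (hL : S.NefIsotropic L) {k : ℤ} (hk : k < 0) : S.h0 (k • L) = 0 := by
  rw [HKDivisors.h0, ← bot_eq_zero, iSup₂_eq_bot]
  intro E hE
  have h1 : S.sections E = ⊥ := by
    rw [eq_bot_iff]
    intro f hf
    by_contra hf0
    have h2 : 0 ≤ S.dv hf0 + E := fun D => hf hf0 D
    have h3 := S.deg_O_nonneg h2
    rw [map_add, S.O_dv, zero_add, hE, map_zsmul, zsmul_eq_mul] at h3
    have h4 : (k : ℝ) * S.deg L < 0 := mul_neg_of_neg_of_pos (by exact_mod_cast hk) hL.2.1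
    linarith
  by_contra h3
  exact (toENat_rank_ne_zero _).1 h3 h1

/-- The numbers of sections of `B(x + k L)` and of `k L` have the same growth. -/
theorem growth_iff' [FiniteDimensional K V] {L : Pic} (hL : S.NefIsotropic L)
    (hB : B.Semistable L) {x : Pic} (hx : S.q L x = 0) (hne : B.h0 x ≠ 0) (m : ℕ) :
    (∃ C : ℕ, ∀ k : ℕ, S.h0 (k • L) ≤ (C * (k + 1) ^ m : ℕ)) ↔
      ∃ C : ℕ, ∀ k : ℕ, B.h0 (x + k • L) ≤ (C * (k + 1) ^ m : ℕ) := by
  constructor
  · rintro ⟨C, hC⟩
    obtain ⟨a, c, h⟩ := B.exists_shifts hL hB hx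
    refine ⟨∑ j, C * ((c j).natAbs + 1) ^ m, fun k => ?_⟩
    have h1 := (h k).2
    rw [natCast_zsmul] at h1
    refine h1.trans ?_
    rw [Finset.sum_mul, Nat.cast_sum]
    refine Finset.sum_le_sum fun j _ => ?_
    rcases lt_or_ge ((k : ℤ) + c j) 0 with h2 | h2
    · rw [S.h0_neg hL h2]
      exact zero_le
    · obtain ⟨t, ht⟩ := Int.eq_ofNat_of_zero_le h2
      rw [ht, natCast_zsmul]
      refine (hC t).trans ?_
      norm_cast
      rw [mul_assoc, ← mul_pow]
      refine Nat.mul_le_mul_left _ (Nat.pow_le_pow_left ?_ _)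
      have h3 : t ≤ k + (c j).natAbs := by omega
      nlinarith [Nat.zero_le ((c j).natAbs * k)]
  · rintro ⟨C, hC⟩
    exact ⟨C, fun k => (B.h0_ge hne (k • L)).trans (hC k)⟩

theorem qEffective_iff_encard [FiniteDimensional K V] {L : Pic} (hL : S.NefIsotropic L)
    (hB : B.Semistable L) {x : Pic} (hx : S.q L x = 0) (hne : B.h0 x ≠ 0) :
    S.QEffective L ↔
      (B.genRank L x : ℕ∞) < {k : ℤ | B.h0 (x + k • L) ≠ 0}.encard := by
  classical
  constructor
  · rintro ⟨k, hk, E, hE, hEO⟩
    have hinf : {k : ℤ | B.h0 (x + k • L) ≠ 0}.Infinite := by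
      refine Set.infinite_of_injective_forall_mem (f := fun m : ℕ => (m : ℤ) * k) ?_ ?_
      · intro m m' hmm
        have h1 : (m : ℤ) * k = m' * k := hmm
        exact_mod_cast mul_right_cancel₀ hk.ne' h1
      · intro m
        have h1 : S.h0 (((m : ℤ) * k) • L) ≠ 0 := by
          rw [← pos_iff_ne_zero]
          refine lt_of_lt_of_le ?_ (S.le_h0 (E := m • E) ?_)
          · rw [pos_iff_ne_zero, toENat_rank_ne_zero, Submodule.ne_bot_iff]
            refine ⟨1, fun _ D => ?_, one_ne_zero⟩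
            rw [S.v_one, zero_add, Finsupp.coe_smul, Pi.smul_apply, nsmul_eq_mul]
            exact mul_nonneg (Int.natCast_nonneg _) (hE D)
          · rw [map_nsmul, hEO, mul_smul, natCast_zsmul]
        have h2 := B.h0_ge hne (((m : ℤ) * k) • L)
        exact (lt_of_lt_of_le (pos_iff_ne_zero.2 h1) h2).ne'
    rw [hinf.encard_eq]
    exact ENat.natCast_lt_top _
  · intro h
    by_contra hn
    obtain ⟨d, s, κ, F, y, hd, hs, hF, hsF, hy, hle⟩ := B.exists_frame_int hL hB hx
    have hsub : {k : ℤ | B.h0 (x + k • L) ≠ 0} ⊆ ⋃ j, {k : ℤ | S.h0 (y j + k • L) ≠ 0} := by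
      intro k hk
      rw [Set.mem_iUnion]
      by_contra hall
      push Not at hall
      apply hk
      have h1 := hle k
      rw [Finset.sum_eq_zero fun j _ => ?_] at h1
      · exact le_antisymm h1 zero_le
      · have := hall j
        rwa [Set.mem_ofPred_eq, not_not] at this
    have hone : ∀ j, {k : ℤ | S.h0 (y j + k • L) ≠ 0}.encard ≤ 1 := by
      intro j
      rw [Set.encard_le_one_iff]
      intro k k' hk hk'
      by_contra hkk
      rcases lt_or_gt_of_ne hkk with h1 | h1
      · exact hn (S.qEffective_of_two hL (hy j) h1 hk hk')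
      · exact hn (S.qEffective_of_two hL (hy j) h1 hk' hk)
    have h1 : {k : ℤ | B.h0 (x + k • L) ≠ 0}.encard ≤ d := by
      refine (Set.encard_le_encard hsub).trans ((Set.encard_iUnion_le_of_fintype _).trans ?_)
      refine (Finset.sum_le_sum fun j _ => hone j).trans ?_
      simp
    rw [hd] at h1
    exact absurd h (not_lt.2 h1)

theorem tfae_two [FiniteDimensional K V] {L : Pic} (hL : S.NefIsotropic L)
    (hB : B.Semistable L) {x : Pic} (hx : S.q L x = 0) (hne : B.h0 x ≠ 0) :
    List.TFAE [S.TwoSections L, ∃ k : ℤ, (B.genRank L x : ℕ∞) < B.h0 (x + k • L),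
      ∃ (k : ℤ) (E : P →₀ ℤ), S.O E = x + k • L ∧ ∃ (N : ℕ) (t : Fin N → V),
        (∀ i, t i ∈ B.sections E) ∧ LinearIndependent ℂ t ∧ ¬ LinearIndependent K t,
      ∀ N : ℕ, ∃ k : ℕ, (N : ℕ∞) ≤ B.h0 (x + k • L)] := by
  obtain ⟨E₀, hE₀, hne'⟩ := B.h0_ne_zero hne
  tfae_have 1 → 4 := by
    intro h N
    obtain ⟨k, E, hE, t, ht⟩ := B.exists_many h hne' N
    rw [hE₀] at hE
    exact ⟨k, ((le_toENat_rank _ _).2 ⟨t, ht⟩).trans (B.le_h0 hE)⟩
  tfae_have 4 → 2 := by
    intro h
    obtain ⟨k, hk⟩ := h (B.genRank L x + 1)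
    refine ⟨k, ?_⟩
    rw [natCast_zsmul]
    refine lt_of_lt_of_le ?_ hk
    exact_mod_cast Nat.lt_succ_self _
  tfae_have 2 → 3 := by
    rintro ⟨k, h⟩
    obtain ⟨E, hE, t, ht, hti⟩ := B.lt_h0 h
    refine ⟨k, E, hE, _, t, ht, hti, fun hK => ?_⟩
    have hmem : ∀ i, t i ∈ Submodule.span K
        {w : V | ∃ (k : ℤ) (E : P →₀ ℤ), S.O E = x + k • L ∧ w ∈ B.sections E} :=
      fun i => Submodule.subset_span ⟨k, E, hE, ht i⟩
    have h3 : LinearIndependent K (fun i => (⟨t i, hmem i⟩ : Submodule.span K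
        {w : V | ∃ (k : ℤ) (E : P →₀ ℤ), S.O E = x + k • L ∧ w ∈ B.sections E})) :=
      LinearIndependent.of_comp (Submodule.subtype _) hK
    have h4 := h3.fintype_card_le_finrank
    rw [Fintype.card_fin] at h4
    exact absurd h4 (by rw [genRank]; omega)
  tfae_have 3 → 1 := by
    rintro ⟨k, E, hE, N, t, ht, hti, hK⟩
    by_contra h2
    exact hK (B.independent_of_not_two hL hB h2 (by
      rw [hE, map_add, hx, map_zsmul, hL.1, smul_zero, add_zero]) t ht hti)
  tfae_finish

end SheafData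

end

end Pool.Agent.SYZ
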