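import Pool.Agent.SYZ.FiniteBir

namespace Pool.Agent.SYZ

noncomputable section

namespace HKDivisors

variable {K P Pic : Type*} [Field K] [Algebra ℂ K] [AddCommGroup Pic]
variable (S : HKDivisors K P Pic)

/-- The subgroup rationally generated by `L` and the prime divisors orthogonal to `L`. -/
def orthSpan (L : Pic) : AddSubgroup Pic := AddSubgroup.closure (S.cls '' S.orth L) ⊔ sat L

theorem orthSpan_le_perp {L : Pic} (hL : S.NefIsotropic L) : S.orthSpan L ≤ S.perp L := by
  refine sup_le ((AddSubgroup.closure_le _).2 ?_) ?_
  · rintro _ ⟨D, hD, rfl⟩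
    exact hD
  · intro y hy
    exact S.q_ray hL.1 hy

/-- The number of generators of an orthogonal family determines the ranks of the rational span and
of its orthogonal complement. -/
theorem rank_duality [Module.Finite ℤ Pic] {L : Pic} (hL : S.NefIsotropic L) :
    Module.finrank ℤ (S.doublePerp L) + Module.finrank ℤ (S.orthSpan L) = S.perpRank L + 1 := by
  classical
  obtain ⟨F, hF⟩ := exists_generators (S.orthSpan L)
  have hFW : ∀ y ∈ F, y ∈ S.orthSpan L := by
    intro y hy
    rw [← hF]
    exact AddSubgroup.subset_closure hy
  obtain ⟨G, h1, h2, h3, h4⟩ := S.exists_orthogonal hL F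
    (fun y hy => S.orthSpan_le_perp hL (hFW y hy))
  rw [hF] at h3
  have hcl := closure_rational (L := L) (G := G) (F := (F : Set Pic)) h4
  rw [hF] at hcl
  have hLW : L ∈ S.orthSpan L := AddSubgroup.mem_sup_right (self_mem_sat L)
  have hfinW : Module.Finite ℤ (S.orthSpan L) :=
    inferInstanceAs (Module.Finite ℤ (AddSubgroup.toIntSubmodule (S.orthSpan L)))
  have hfinP : Module.Finite ℤ (S.perp L) :=
    inferInstanceAs (Module.Finite ℤ (AddSubgroup.toIntSubmodule (S.perp L)))
  -- rank of the span
  have hW : Module.finrank ℤ (S.orthSpan L) = G.card + 1 := by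
    apply le_antisymm
    · have h5 := finrank_le_of_rational_span (S.orthSpan L) (insert L G) (by
        intro x hx
        obtain ⟨a, ha, hax⟩ := hcl x hx
        obtain ⟨w, hw, y, hy, hwy⟩ := AddSubgroup.mem_sup.1 hax
        obtain ⟨a', b', ha', hab'⟩ := hy
        refine ⟨a' * a, mul_ne_zero ha' ha, ?_⟩
        rw [mul_smul, ← hwy, smul_add, hab']
        refine add_mem (AddSubgroup.zsmul_mem _ (AddSubgroup.closure_mono (by simp) hw) _)
          (AddSubgroup.zsmul_mem _ (AddSubgroup.subset_closure (by simp)) _))
      exact h5.trans (Finset.card_insert_le _ _)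
    · let w : Option G → S.orthSpan L := fun o => match o with
        | none => ⟨L, hLW⟩
        | some f => ⟨f, h3 f.2⟩
      have hli : LinearIndependent ℤ w := by
        rw [Fintype.linearIndependent_iff]
        intro g hg
        rw [Fintype.sum_option] at hg
        have hg' : g none • L + ∑ f : G, g (some f) • (f : Pic) = 0 := by
          have := congrArg (Subtype.val) hg
          simpa [w] using this
        have hsome : ∀ f : G, g (some f) = 0 := by
          intro f
          have h5 := congrArg (S.q (f : Pic)) hg'
          rw [map_add, map_zsmul, map_sum, map_zero, S.q_symm f L, (h1 f f.2).1, smul_zero,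
            zero_add, Finset.sum_eq_single f] at h5
          · rw [map_zsmul, smul_eq_mul] at h5
            exact (mul_eq_zero.1 h5).resolve_right (h1 f f.2).2.ne
          · intro f' _ hne
            rw [map_zsmul, h2 f f.2 f' f'.2 (fun h => hne (Subtype.ext h.symm)), smul_zero]
          · simp
        have hnone : g none = 0 := by
          simp only [hsome, zero_smul, Finset.sum_const_zero, add_zero] at hg'
          have h5 := congrArg S.deg hg'
          rw [map_zsmul, map_zero, zsmul_eq_mul] at h5
          rcases mul_eq_zero.1 h5 with h6 | h6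
          · exact_mod_cast h6
          · exact absurd h6 hL.2.1.ne'
        rintro (_ | f)
        · exact hnone
        · exact hsome f
      have h5 := hli.fintype_card_le_finrank
      rwa [Fintype.card_option, Fintype.card_coe] at h5
  -- the pairing with the orthogonal family
  let φ : S.perp L →ₗ[ℤ] (G → ℤ) :=
    { toFun := fun x f => S.q (f : Pic) (x : Pic)
      map_add' := fun x y => by
        funext f
        simp
      map_smul' := fun n x => by
        funext f
        simp }
  have hker : Module.finrank ℤ (LinearMap.ker φ) = Module.finrank ℤ (S.doublePerp L) := by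
    have hm : ∀ x : Pic, (S.q L x = 0 ∧ ∀ f ∈ G, S.q f x = 0) ↔ x ∈ S.doublePerp L := by
      intro x
      constructor
      · rintro ⟨hx, hxG⟩
        refine ⟨hx, fun D hD => ?_⟩
        obtain ⟨a, ha, h5⟩ := hcl (S.cls D) (AddSubgroup.mem_sup_left
          (AddSubgroup.subset_closure ⟨D, hD, rfl⟩))
        have h6 : AddSubgroup.closure (G : Set Pic) ⊔ sat L ≤ (S.q x).ker := by
          refine sup_le ((AddSubgroup.closure_le _).2 ?_) ?_
          · intro f hf
            change S.q x f = 0
            rw [S.q_symm]
            exact hxG f hf
          · intro y hy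
            change S.q x y = 0
            exact S.q_ray_orth hy hx
        have h7 : S.q x (a • S.cls D) = 0 := h6 h5
        rw [map_zsmul, smul_eq_mul] at h7
        exact (mul_eq_zero.1 h7).resolve_left ha
      · rintro ⟨hx, hxD⟩
        refine ⟨hx, fun f hf => ?_⟩
        have h6 : S.orthSpan L ≤ (S.q x).ker := by
          refine sup_le ((AddSubgroup.closure_le _).2 ?_) ?_
          · rintro _ ⟨D, hD, rfl⟩
            exact hxD D hD
          · intro y hy
            change S.q x y = 0
            exact S.q_ray_orth hy hx
        rw [S.q_symm]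
        exact h6 (h3 hf)
    let e : S.doublePerp L ≃+ LinearMap.ker φ :=
      { toFun := fun t => ⟨⟨(t : Pic), t.2.1⟩, by
          rw [LinearMap.mem_ker]
          funext f
          exact ((hm t).2 t.2).2 f f.2⟩
        invFun := fun x => ⟨((x : S.perp L) : Pic), (hm _).1 ⟨(x : S.perp L).2, fun f hf =>
          congrFun (LinearMap.mem_ker.1 x.2) ⟨f, hf⟩⟩⟩
        left_inv := fun t => rfl
        right_inv := fun x => rfl
        map_add' := fun s t => rfl }
    exact (LinearEquiv.finrank_eq e.toIntLinearEquiv).symm
  have hrange : Module.finrank ℤ (LinearMap.range φ) = G.card := by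
    apply le_antisymm
    · have h5 := Submodule.finrank_le (LinearMap.range φ)
      rwa [Module.finrank_fintype_fun_eq_card, Fintype.card_coe] at h5
    · let w : G → LinearMap.range φ := fun f => ⟨φ ⟨f, (h1 f f.2).1⟩, LinearMap.mem_range_self _ _⟩
      have hli : LinearIndependent ℤ w := by
        rw [Fintype.linearIndependent_iff]
        intro g hg f
        have h5 := congrFun (congrArg Subtype.val hg) f
        simp only [AddSubmonoidClass.coe_finsetSum, Submodule.coe_smul, Finset.sum_apply,
          Pi.smul_apply, ZeroMemClass.coe_zero, Pi.zero_apply, w] at h5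
        rw [Finset.sum_eq_single f] at h5
        · have h6 : φ ⟨f, (h1 f f.2).1⟩ f = S.q f f := rfl
          rw [h6, smul_eq_mul] at h5
          exact (mul_eq_zero.1 h5).resolve_right (h1 f f.2).2.ne
        · intro f' _ hne
          have h6 : φ ⟨f', (h1 f' f'.2).1⟩ f = S.q f f' := rfl
          rw [h6, h2 f f.2 f' f'.2 (fun h => hne (Subtype.ext h.symm)), smul_zero]
        · simp
      have h5 := hli.fintype_card_le_finrank
      rwa [Fintype.card_coe] at h5
  have hrn := Submodule.finrank_quotient_add_finrank (LinearMap.ker φ)
  rw [φ.quotKerEquivRange.finrank_eq, hrange, hker] at hrn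
  rw [hW, perpRank]
  have hrn' : G.card + Module.finrank ℤ (S.doublePerp L) = Module.finrank ℤ (S.q L).ker := hrn
  omega

end HKDivisors

end

end Pool.Agent.SYZ
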