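import Pool.Agent.SYZ.DefsStab
import Pool.Agent.SYZ.Periodic
import Pool.Agent.SYZ.Bounded

/-!
All self-maps fixing a nef isotropic class `L`: the primes orthogonal to `L` have finite orbit, and
the degree of every other prime grows quadratically under every parabolic self-map fixing `L`.
-/

namespace Pool.Agent.SYZ

noncomputable section

variable {K P Pic : Type*} [Field K] [Algebra ℂ K] [AddCommGroup Pic]

namespace HKDivisors

variable (S : HKDivisors K P Pic)

/-- The classes of a prime orthogonal to `L` under all self-maps fixing `L` are finite in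
number. -/
theorem finite_orbit [Module.Finite ℤ Pic] [IsAddTorsionFree Pic] {L : Pic}
    (hL : S.NefIsotropic L) {D : P} (hD : D ∈ S.orth L) :
    {x : Pic | ∃ ψ : SelfMap S, ψ.g L = L ∧ ψ.g (S.cls D) = x}.Finite := by
  by_cases h : S.q (S.cls D) (S.cls D) = 0
  · refine (Set.finite_singleton (S.cls D)).subset ?_
    rintro _ ⟨ψ, hψ, rfl⟩
    obtain ⟨a, b, ha, hab⟩ := S.hodge_index L (S.cls D) hL.1 hL.2.1.ne' hD h.ge
    have h1 : a • (ψ.g (S.cls D) - S.cls D) = 0 := by
      rw [smul_sub, ← map_zsmul, hab, map_zsmul, hψ, sub_self]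
    exact sub_eq_zero.1 ((smul_eq_zero.1 h1).resolve_left ha)
  · refine ((S.finite_neg hL).image S.cls).subset ?_
    rintro _ ⟨ψ, hψ, rfl⟩
    refine ⟨ψ.π D, ⟨?_, ?_⟩, (ψ.cls_comp D).symm⟩
    · change S.q L (S.cls (ψ.π D)) = 0
      rw [← ψ.cls_comp D, ← hψ, ψ.isometry]
      exact hD
    · rw [← ψ.cls_comp D, ψ.isometry]
      exact h

/-- The class of a prime orthogonal to `L` is periodic under every self-map fixing `L`. -/
theorem cls_mem_periodic [Module.Finite ℤ Pic] [IsAddTorsionFree Pic] {L : Pic}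
    (hL : S.NefIsotropic L) {D : P} (hD : D ∈ S.orth L) : S.cls D ∈ S.periodic L := by
  intro ψ hψ
  have hfix : ∀ k : ℕ, (ψ.pow k).g L = L := by
    intro k
    rw [SelfMap.pow_g]
    induction k with
    | zero => rfl
    | succ k ih => rw [pow_succ, LinearEquiv.mul_apply, hψ, ih]
  have hni : ¬ Function.Injective (fun k : ℕ => (ψ.g ^ k) (S.cls D)) := by
    intro hinj
    refine Set.infinite_range_of_injective hinj ((S.finite_orbit hL hD).subset ?_)
    rintro _ ⟨k, rfl⟩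
    exact ⟨ψ.pow k, hfix k, rfl⟩
  rw [Function.Injective] at hni
  push Not at hni
  obtain ⟨i, j, hij, hne⟩ := hni
  have key : ∀ i j : ℕ, i < j → (ψ.g ^ i) (S.cls D) = (ψ.g ^ j) (S.cls D) →
      ∃ k : ℕ, 0 < k ∧ (ψ.g ^ k) (S.cls D) = S.cls D := by
    intro i j hlt h
    refine ⟨j - i, by omega, ?_⟩
    apply (ψ.g ^ i).injective
    rw [← LinearEquiv.mul_apply, ← pow_add, Nat.add_sub_cancel' hlt.le, h]
  rcases lt_or_gt_of_ne hne with h | h
  · exact key i j h hij
  · exact key j i h hij.symm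

/-- The pole degrees of a function are bounded over all self-maps fixing `L` if its divisor is
supported on the primes orthogonal to `L`. -/
theorem bounded_all [Module.Finite ℤ Pic] [IsAddTorsionFree Pic] {L : Pic}
    (hL : S.NefIsotropic L) {f : K} (hf : f ≠ 0) (h : ∀ D, D ∉ S.orth L → S.v D f = 0) :
    ∃ C : ℝ, ∀ ψ : SelfMap S, ψ.g L = L → S.poleDeg (ψ.γ f) ≤ C := by
  classical
  have hb : ∀ D : P, ∃ C : ℝ, D ∈ S.orth L → ∀ ψ : SelfMap S, ψ.g L = L →
      S.deg (ψ.g (S.cls D)) ≤ C := by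
    intro D
    by_cases hD : D ∈ S.orth L
    · obtain ⟨C, hC⟩ := ((S.finite_orbit hL hD).image S.deg).bddAbove
      exact ⟨C, fun _ ψ hψ => hC ⟨_, ⟨ψ, hψ, rfl⟩, rfl⟩⟩
    · exact ⟨0, fun h => absurd h hD⟩
  choose C hC using hb
  refine ⟨∑ D ∈ (S.poles hf).support, (S.poles hf D : ℝ) * C D, fun ψ hψ => ?_⟩
  have hne : ψ.γ f ≠ 0 := (map_ne_zero_iff _ ψ.γ.injective).2 hf
  have hpush : S.poles hne = ψ.push (S.poles hf) := by
    ext D'
    obtain ⟨D, rfl⟩ := ψ.π.surjective D'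
    rw [SelfMap.push_apply, S.poles_apply, S.poles_apply, ψ.v_comp D f hf]
  rw [S.poleDeg_eq hne, hpush, SelfMap.O_push, S.O_eq_sum, Finsupp.sum, map_sum, map_sum]
  refine Finset.sum_le_sum fun D hD => ?_
  have hDo : D ∈ S.orth L := by
    by_contra hn
    rw [Finsupp.mem_support_iff, S.poles_apply, h D hn] at hD
    exact hD (by simp)
  rw [map_zsmul, map_zsmul, zsmul_eq_mul]
  exact mul_le_mul_of_nonneg_left (hC D hDo ψ hψ) (by exact_mod_cast S.poles_nonneg hf D)

end HKDivisors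

namespace SelfMap

variable {S : HKDivisors K P Pic}

/-- The degree of a prime not orthogonal to `L` grows quadratically under a parabolic map fixing
`L`. -/
theorem quad_growth [Module.Finite ℤ Pic] [IsAddTorsionFree Pic] (φ : SelfMap S) {L : Pic}
    (hL : S.NefIsotropic L) (hφ : φ.g L = L) (hinf : ¬ IsOfFinOrder φ.g) {D : P}
    (hD : D ∉ S.orth L) :
    ∃ c : ℝ, 0 < c ∧ ∃ n : ℕ, ∀ k : ℕ, n ≤ k → c * k ^ 2 ≤ S.deg ((φ.g ^ k) (S.cls D)) := by
  obtain ⟨N, hN, hNg⟩ := S.exists_power_eichler hL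
  obtain ⟨t, ht, hgt⟩ := hNg φ.g φ.isometry hφ
  have he : φ.g ^ N = S.eichler hL.1 ht := by
    ext y
    rw [hgt, HKDivisors.eichler_apply]
  have hpow : ∀ (k : ℕ) (x : Pic), (φ.g ^ (N * k)) x = S.eichlerFun L (k • t) x := by
    intro k x
    rw [pow_mul, he, S.eichler_pow, HKDivisors.eichler_apply]
  have hd := hL.2.1
  have hDpos : 0 < S.q L (S.cls D) := lt_of_le_of_ne (hL.2.2 D) (Ne.symm hD)
  have hqL : ∀ j : ℕ, S.q L ((φ.g ^ j) (S.cls D)) = S.q L (S.cls D) := by
    intro j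
    induction j with
    | zero => rfl
    | succ j ih =>
      have h1 := φ.isometry L ((φ.g ^ j) (S.cls D))
      rw [hφ, ih] at h1
      rw [pow_succ', LinearEquiv.mul_apply, h1]
  have htt : S.q t t < 0 := by
    refine lt_of_le_of_ne (S.q_self_le hL.1 hd ht) ?_
    intro h0
    obtain ⟨a, b, ha, hab⟩ := S.hodge_index L t hL.1 hd.ne' ht h0.ge
    apply hinf
    rw [isOfFinOrder_iff_pow_eq_one]
    refine ⟨N, hN, ?_⟩
    ext y
    rw [hgt]
    have h4 : a * S.q t y = b * S.q L y := by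
      have := congrArg (fun z => S.q z y) hab
      simpa using this
    have h5 : a • (S.eichlerFun L t y - y) = 0 := by
      rw [HKDivisors.eichlerFun, h0]
      simp only [mul_zero, zero_mul, zero_smul, sub_zero]
      have h6 : a • (y - (2 * S.q t y) • L + (2 * S.q L y) • t - y) =
          (2 * S.q L y) • (a • t) - (2 * (a * S.q t y)) • L := by module
      rw [h6, hab, h4, smul_smul, ← sub_smul]
      have h7 : 2 * S.q L y * b - 2 * (b * S.q L y) = 0 := by ring
      rw [h7, zero_smul]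
    exact sub_eq_zero.1 ((smul_eq_zero.1 h5).resolve_left ha)
  set A : ℝ := 2 * (-(S.q t t : ℝ)) * S.q L (S.cls D) * S.deg L with hA
  have hApos : 0 < A := by
    have h1 : (0 : ℝ) < -(S.q t t : ℝ) := by
      have : (S.q t t : ℝ) < 0 := by exact_mod_cast htt
      linarith
    have h2 : (0 : ℝ) < S.q L (S.cls D) := by exact_mod_cast hDpos
    positivity
  let b : ℕ → ℝ := fun j => 2 * S.q L (S.cls D) * S.deg t -
    2 * S.q t ((φ.g ^ j) (S.cls D)) * S.deg L
  obtain ⟨B, hB⟩ := ((Set.finite_lt_nat N).image (fun j => |b j|)).bddAbove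
  have hB0 : 0 ≤ B := (abs_nonneg (b 0)).trans (hB ⟨0, hN, rfl⟩)
  have hNr : (0 : ℝ) < N := by exact_mod_cast hN
  obtain ⟨m₀, hm₀⟩ := exists_nat_gt (2 * B / A)
  rw [div_lt_iff₀ hApos] at hm₀
  refine ⟨A / (8 * N ^ 2), by positivity, N * (m₀ + 2), fun k hk => ?_⟩
  -- write `k = N * m + j`
  have hm1 : m₀ + 2 ≤ k / N := (Nat.le_div_iff_mul_le hN).2 (by rw [mul_comm]; exact hk)
  have hkm : k = N * (k / N) + k % N := (Nat.div_add_mod k N).symm
  set m := k / N with hm
  have hj : k % N < N := Nat.mod_lt k hN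
  set j := k % N with hjdef
  have hdeg : S.deg ((φ.g ^ k) (S.cls D)) =
      S.deg ((φ.g ^ j) (S.cls D)) + m * (b j + A * m) := by
    rw [hkm, pow_add, LinearEquiv.mul_apply, hpow, S.deg_eichler, hqL]
    simp only [b, hA]
    ring
  have h1 : 0 < S.deg ((φ.g ^ j) (S.cls D)) := by
    have h2 := (φ.pow j).cls_comp D
    rw [pow_g] at h2
    rw [h2]
    exact S.deg_prime _
  have h3 : -B ≤ b j := by
    have h4 : |b j| ≤ B := hB ⟨j, hj, rfl⟩
    have := neg_abs_le (b j)
    linarith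
  have hmr : ((m₀ : ℝ) + 2) ≤ m := by exact_mod_cast hm1
  have hm0 : (0 : ℝ) ≤ m₀ := Nat.cast_nonneg _
  -- `b j + A m ≥ (A / 2) m`
  have h5 : A / 2 * m ≤ b j + A * m := by
    have h6 : B ≤ A / 2 * m := by
      have : (m₀ : ℝ) * A ≤ m * A := by
        apply mul_le_mul_of_nonneg_right _ hApos.le
        linarith
      linarith
    linarith
  have hkr : (k : ℝ) ≤ 2 * N * m := by
    have h6 : (k : ℝ) = N * m + j := by exact_mod_cast hkm
    have h7 : (j : ℝ) ≤ N := by exact_mod_cast hj.le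
    have h8 : (N : ℝ) ≤ N * m := by nlinarith
    rw [h6]
    linarith
  rw [hdeg]
  have h9 : (k : ℝ) ^ 2 ≤ (2 * N * m) ^ 2 := by
    apply pow_le_pow_left₀ (Nat.cast_nonneg k) hkr
  have h10 : A / (8 * N ^ 2) * (k : ℝ) ^ 2 ≤ A / 2 * m ^ 2 := by
    calc A / (8 * N ^ 2) * (k : ℝ) ^ 2 ≤ A / (8 * N ^ 2) * (2 * N * m) ^ 2 :=
          mul_le_mul_of_nonneg_left h9 (by positivity)
      _ = A / 2 * m ^ 2 := by field_simp; ring
  have h11 : (m : ℝ) * (A / 2 * m) ≤ m * (b j + A * m) :=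
    mul_le_mul_of_nonneg_left h5 (by linarith)
  have h12 : (m : ℝ) * (A / 2 * m) = A / 2 * m ^ 2 := by ring
  linarith

end SelfMap

end

end Pool.Agent.SYZ
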