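import Pool.Agent.SYZ.Northcott

/-! The Iitaka field of a nef isotropic class `L` in terms of all self-maps fixing `L`. -/

namespace Pool.Agent.SYZ

noncomputable section

variable {K P Pic : Type*} [Field K] [Algebra ℂ K] [AddCommGroup Pic]

namespace SelfMap

variable {S : HKDivisors K P Pic}

theorem pow_fix (φ : SelfMap S) {L : Pic} (hφ : φ.g L = L) (k : ℕ) : (φ.pow k).g L = L := by
  rw [pow_g]
  induction k with
  | zero => rfl
  | succ k ih => rw [pow_succ, LinearEquiv.mul_apply, hφ, ih]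

theorem pow_inf (φ : SelfMap S) (hinf : ¬ IsOfFinOrder φ.g) {j : ℕ} (hj : 0 < j) :
    ¬ IsOfFinOrder (φ.pow j).g := by
  rw [pow_g]
  intro h
  exact hinf ((isOfFinOrder_pow.1 h).resolve_right hj.ne')

/-- Either the pole degrees of a function are bounded over all self-maps fixing `L`, or they grow
quadratically under every parabolic map fixing `L`. -/
theorem pointwise_gap [Module.Finite ℤ Pic] [IsAddTorsionFree Pic]
    (hfd : ∀ E : P →₀ ℤ, FiniteDimensional ℂ (S.sections E)) (φ : SelfMap S) {L : Pic}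
    (hL : S.NefIsotropic L) (hφ : φ.g L = L) (hinf : ¬ IsOfFinOrder φ.g) {f : K} (hf0 : f ≠ 0) :
    List.TFAE [(∃ c : ℂ, f = algebraMap ℂ K c) ∨ f ∈ S.sectionQuotients L,
      ∀ D, D ∉ S.orth L → S.v D f = 0,
      ∃ C : ℝ, ∀ ψ : SelfMap S, ψ.g L = L → S.poleDeg (ψ.γ f) ≤ C,
      ∃ C : ℝ, {h : Pic ≃ₗ[ℤ] Pic | ∃ ψ : SelfMap S, ψ.g = h ∧ ψ.g L = L ∧
        S.poleDeg (ψ.γ f) ≤ C}.Infinite,
      ∀ c : ℝ, 0 < c → ∀ n : ℕ, ∃ k : ℕ, n ≤ k ∧ S.poleDeg ((φ.γ ^ k) f) < c * k ^ 2,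
      f ∈ IntermediateField.adjoin ℂ (affineSet φ.γ)] := by
  have hp := SelfMap.pointwise_affine hfd φ hL hφ hinf hf0
  tfae_have 1 ↔ 2 := hp.out 0 1
  tfae_have 1 ↔ 6 := hp.out 0 3
  tfae_have 2 → 3 := S.bounded_all hL hf0
  tfae_have 3 → 4 := by
    rintro ⟨C, hC⟩
    refine ⟨C, ?_⟩
    have hinj : Function.Injective (fun k : ℕ => φ.g ^ k) := by
      rw [isOfFinOrder_iff_pow_eq_one] at hinf
      push Not at hinf
      intro i j hij
      by_contra hne
      have key : ∀ i j : ℕ, i < j → φ.g ^ i = φ.g ^ j → False := by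
        intro i j hlt h
        refine hinf (j - i) (by omega) ?_
        have h1 : φ.g ^ i * φ.g ^ (j - i) = φ.g ^ i * 1 := by
          rw [← pow_add, Nat.add_sub_cancel' hlt.le, mul_one, h]
        exact mul_left_cancel h1
      rcases lt_or_gt_of_ne hne with h | h
      · exact key i j h hij
      · exact key j i h hij.symm
    refine (Set.infinite_range_of_injective hinj).mono ?_
    rintro _ ⟨k, rfl⟩
    exact ⟨φ.pow k, rfl, φ.pow_fix hφ k, hC _ (φ.pow_fix hφ k)⟩
  tfae_have 4 → 2 := by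
    rintro ⟨C, hC⟩ D hD
    by_contra hv
    exact hC (S.finite_maps hL hf0 hD hv C)
  tfae_have 3 → 5 := by
    rintro ⟨C, hC⟩ c hc n
    obtain ⟨m, hm⟩ := exists_nat_gt (C / c)
    rw [div_lt_iff₀ hc] at hm
    refine ⟨max n (m + 1), le_max_left _ _, ?_⟩
    have h1 := hC (φ.pow (max n (m + 1))) (φ.pow_fix hφ _)
    rw [pow_γ] at h1
    refine h1.trans_lt (hm.trans_le ?_)
    have h2 : ((m : ℝ) + 1) ≤ ((max n (m + 1) : ℕ) : ℝ) := by
      exact_mod_cast le_max_right n (m + 1)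
    have h3 : (0 : ℝ) ≤ m := Nat.cast_nonneg m
    have h4 : (m : ℝ) ≤ ((max n (m + 1) : ℕ) : ℝ) ^ 2 := by nlinarith
    rw [mul_comm]
    exact mul_le_mul_of_nonneg_left h4 hc.le
  tfae_have 5 → 2 := by
    intro h D hD
    by_contra hv
    obtain ⟨c, hc, n, hn⟩ := φ.quad_growth hL hφ hinf hD
    obtain ⟨k, hk, hlt⟩ := h c hc n
    have hne : (φ.γ ^ k) f ≠ 0 := (map_ne_zero_iff _ (φ.γ ^ k).injective).2 hf0
    have h1 := (φ.pow k).cls_comp D
    rw [pow_g] at h1
    have h2 := (φ.pow k).v_comp D f hf0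
    rw [pow_γ] at h2
    have h3 := S.deg_le_of_v hne (D := (φ.pow k).π D) (by rw [h2]; exact hv)
    rw [← S.poleDeg_eq] at h3
    have h4 := hn k hk
    rw [h1] at h4
    linarith
  tfae_finish

theorem quotient_of_algebraic_pow [Module.Finite ℤ Pic] [IsAddTorsionFree Pic] (φ : SelfMap S)
    {L : Pic} (hL : S.NefIsotropic L) (hφ : φ.g L = L) (hinf : ¬ IsOfFinOrder φ.g) {f : K} {j : ℕ}
    (hj : 0 < j) (hf : IsAlgebraic (IntermediateField.adjoin ℂ {f}) ((φ.γ ^ j) f)) :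
    (∃ c : ℂ, f = algebraMap ℂ K c) ∨ f ∈ S.sectionQuotients L :=
  (φ.pow j).quotient_of_algebraic hL (φ.pow_fix hφ j) (φ.pow_inf hinf hj) hf

/-- Algebraically independent functions generating periodic pencils can be replaced by functions in
normal form. -/
theorem tfae_normal_form [Module.Finite ℤ Pic] [IsAddTorsionFree Pic]
    (hfd : ∀ E : P →₀ ℤ, FiniteDimensional ℂ (S.sections E)) (φ : SelfMap S) {L : Pic}
    (hL : S.NefIsotropic L) (hφ : φ.g L = L) (hinf : ¬ IsOfFinOrder φ.g) (m : ℕ) :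
    List.TFAE [∃ f : Fin (m + 1) → K, AlgebraicIndependent ℂ f ∧
        ∀ i, f i ∈ S.sectionQuotients L,
      ∃ f : Fin (m + 1) → K, AlgebraicIndependent ℂ f ∧ ∀ i, ∃ j : ℕ, 0 < j ∧
        IsAlgebraic (IntermediateField.adjoin ℂ {f i}) ((φ.γ ^ j) (f i)),
      ∃ f : Fin (m + 1) → K, AlgebraicIndependent ℂ f ∧
        (∃ a b : ℂ, φ.γ (f 0) = algebraMap ℂ K a * f 0 + algebraMap ℂ K b) ∧
        ∀ i, i ≠ 0 → ∃ a : ℂ, φ.γ (f i) = algebraMap ℂ K a * f i] := by
  tfae_have 1 → 3 := by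
    rintro ⟨f, hfi, hf⟩
    exact (φ.normal_form_iff hfd hL hφ hinf m).1 ⟨f, hf, hfi⟩
  tfae_have 3 → 2 := by
    rintro ⟨f, hfi, h0, hf⟩
    refine ⟨f, hfi, fun i => ⟨1, one_pos, ?_⟩⟩
    have haff : f i ∈ affineSet φ.γ := by
      by_cases hi : i = 0
      · rw [hi]
        exact h0
      · exact eigenSet_subset φ.γ (hf i hi)
    obtain ⟨a, b, hab⟩ := haff
    rw [pow_one, hab]
    have hfm : f i ∈ IntermediateField.adjoin ℂ {f i} :=
      IntermediateField.subset_adjoin ℂ _ rfl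
    have hmem : algebraMap ℂ K a * f i + algebraMap ℂ K b ∈ IntermediateField.adjoin ℂ {f i} :=
      add_mem (mul_mem (IntermediateField.algebraMap_mem _ a) hfm)
        (IntermediateField.algebraMap_mem _ b)
    exact isAlgebraic_algebraMap (⟨_, hmem⟩ : IntermediateField.adjoin ℂ {f i})
  tfae_have 2 → 1 := by
    rintro ⟨f, hfi, hf⟩
    refine ⟨f, hfi, fun i => ?_⟩
    obtain ⟨j, hj, ha⟩ := hf i
    refine (φ.quotient_of_algebraic_pow hL hφ hinf hj ha).resolve_left ?_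
    rintro ⟨c, hc⟩
    exact (hfi.transcendental i) (by rw [hc]; exact isAlgebraic_algebraMap c)
  tfae_finish

/-- The periodic classes are orthogonal to `L` and to the direction of `φ`. -/
theorem finrank_periodic_lt [Module.Finite ℤ Pic] [IsAddTorsionFree Pic] (φ : SelfMap S)
    {L : Pic} (hL : S.NefIsotropic L) (hφ : φ.g L = L) (hinf : ¬ IsOfFinOrder φ.g) :
    Module.finrank ℤ (S.periodic L) < S.perpRank L := by
  obtain ⟨N, hN, hNg⟩ := S.exists_power_eichler hL
  obtain ⟨t, ht, hgt⟩ := hNg φ.g φ.isometry hφ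
  have hd := hL.2.1
  have hpow : ∀ (k : ℕ) (x : Pic), (φ.g ^ (N * k)) x = S.eichlerFun L (k • t) x := by
    intro k x
    have he : φ.g ^ N = S.eichler hL.1 ht := by
      ext y
      rw [hgt, HKDivisors.eichler_apply]
    rw [pow_mul, he, S.eichler_pow, HKDivisors.eichler_apply]
  have htt : S.q t t ≠ 0 := by
    intro h0
    obtain ⟨a, b, ha, hab⟩ := S.hodge_index L t hL.1 hd.ne' ht h0.ge
    apply hinf
    rw [isOfFinOrder_iff_pow_eq_one]
    refine ⟨N, hN, ?_⟩
    ext y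
    rw [hgt]
    have h4 : a * S.q t y = b * S.q L y := by
      have := congrArg (fun z => S.q z y) hab
      simpa using this
    have h5 : a • (S.eichlerFun L t y - y) = 0 := by
      rw [HKDivisors.eichlerFun, h0]
      simp only [mul_zero, zero_mul, zero_smul, sub_zero]
      have h6 : a • (y - (2 * S.q t y) • L + (2 * S.q L y) • t - y) =
          (2 * S.q L y) • (a • t) - (2 * (a * S.q t y)) • L := by module
      rw [h6, hab, h4, smul_smul, ← sub_smul]
      have h7 : 2 * S.q L y * b - 2 * (b * S.q L y) = 0 := by ring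
      rw [h7, zero_smul]
    exact sub_eq_zero.1 ((smul_eq_zero.1 h5).resolve_left ha)
  have hle : S.periodic L ≤ S.perp₂ L t := by
    intro x hx
    obtain ⟨j, hj, hjx⟩ := hx φ hφ
    have hx0 : S.q L x = 0 := S.perp_of_fixed hL φ.isometry hφ hinf hj hjx
    refine ⟨hx0, ?_⟩
    have h1 : (φ.g ^ (N * j)) x = x := by
      rw [mul_comm]
      exact pow_fixed_of_dvd hjx N
    rw [hpow, HKDivisors.eichlerFun, hx0, S.q_nsmul_left] at h1
    simp only [mul_zero, zero_smul, add_zero, sub_zero] at h1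
    have h3 : (2 * (j * S.q t x)) • L = 0 := by
      rw [sub_eq_self] at h1
      exact h1
    have h4 := congrArg S.deg h3
    rw [map_zsmul, map_zero, zsmul_eq_mul] at h4
    rcases mul_eq_zero.1 h4 with h5 | h5
    · have h6 : 2 * ((j : ℤ) * S.q t x) = 0 := by exact_mod_cast h5
      have h7 : (j : ℤ) ≠ 0 := by exact_mod_cast hj.ne'
      rcases mul_eq_zero.1 h6 with h8 | h8
      · omega
      · exact (mul_eq_zero.1 h8).resolve_left h7
    · exact absurd h5 hd.ne'
  refine lt_of_le_of_lt ?_ (S.finrank_perp₂_lt ht htt)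
  have hfin : Module.Finite ℤ (S.perp₂ L t) :=
    inferInstanceAs (Module.Finite ℤ (AddSubgroup.toIntSubmodule (S.perp₂ L t)))
  exact LinearMap.finrank_le_finrank_of_injective
    (f := (AddSubgroup.inclusion hle).toIntLinearMap) (AddSubgroup.inclusion_injective hle)

theorem tfae_periodic [Module.Finite ℤ Pic] [IsAddTorsionFree Pic]
    (hfd : ∀ E : P →₀ ℤ, FiniteDimensional ℂ (S.sections E)) (φ : SelfMap S) {L : Pic}
    (hL : S.NefIsotropic L) (hφ : φ.g L = L) (hinf : ¬ IsOfFinOrder φ.g) :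
    List.TFAE [S.TwoSections L,
      ∃ j : ℕ, 0 < j ∧ ∃ f : K, (∀ c : ℂ, f ≠ algebraMap ℂ K c) ∧
        IsAlgebraic (IntermediateField.adjoin ℂ {f}) ((φ.γ ^ j) f),
      (Module.finrank ℤ (S.periodic L) : ℕ∞) < {D | S.cls D ∈ S.periodic L}.encard,
      ∃ j : ℕ, 0 < j ∧ ∃ x : Pic, (φ.g ^ j) x = x ∧
        ∃ E E' : P →₀ ℤ, 0 ≤ E ∧ 0 ≤ E' ∧ E ≠ E' ∧ S.O E = x ∧ S.O E' = x] := by
  have hset : {D | S.cls D ∈ S.periodic L} = S.orth L := by
    ext D
    constructor
    · intro hD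
      obtain ⟨j, hj, hjx⟩ := hD φ hφ
      exact S.perp_of_fixed hL φ.isometry hφ hinf hj hjx
    · exact fun hD => S.cls_mem_periodic hL hD
  rw [hset]
  have hp := φ.tfae_pencil hfd hL hφ hinf
  tfae_have 1 ↔ 4 := hp.out 0 3
  tfae_have 1 → 2 := by
    intro h
    obtain ⟨f, hf, ha⟩ := (hp.out 0 1).1 h
    exact ⟨1, one_pos, f, hf, by rw [pow_one]; exact ha⟩
  tfae_have 2 → 1 := by
    rintro ⟨j, hj, f, hf, ha⟩
    exact ((φ.pow j).preservesPencil_iff hfd hL (φ.pow_fix hφ j) (φ.pow_inf hinf hj)).1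
      ⟨f, hf, ha⟩
  tfae_have 1 → 3 := by
    intro h
    rw [(S.infinite_of_twoSections hL h).encard_eq]
    exact ENat.natCast_lt_top _
  tfae_have 3 → 1 := by
    intro h
    have h' : ((Module.finrank ℤ (S.periodic L) + 1 : ℕ) : ℕ∞) ≤ (S.orth L).encard := by
      push_cast
      exact Order.add_one_le_of_lt h
    obtain ⟨s, hs, hsc⟩ := Set.exists_subset_encard_eq h'
    have hfin : s.Finite := Set.finite_of_encard_eq_coe hsc
    refine S.twoSections_of_subgroup hL (S.periodic L) (fun ψ hψ => ⟨1, one_pos, ?_⟩)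
      hfin.toFinset (fun D hD => hs (hfin.mem_toFinset.1 hD))
      (fun D hD => S.cls_mem_periodic hL (hs (hfin.mem_toFinset.1 hD))) ?_
    · rw [pow_one]; exact hψ
    · rw [hfin.encard_eq_coe_toFinset_card] at hsc
      have h1 : hfin.toFinset.card = Module.finrank ℤ (S.periodic L) + 1 := by exact_mod_cast hsc
      rw [h1]
      exact Nat.lt_succ_self _
  tfae_finish

end SelfMap

end

end Pool.Agent.SYZ
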